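import Mathlib

namespace Pool.Agent.MP_8ccfd2_co

variable {V : Type}

/-- a rainbow path with four edges from `u` to `v` avoiding the colour `i` -/
def RP (G : SimpleGraph V) (c : V → V → ℕ) (u v : V) (i : ℕ) : Prop :=
  ∃ w1 w2 w3, G.Adj u w1 ∧ G.Adj w1 w2 ∧ G.Adj w2 w3 ∧ G.Adj w3 v ∧
    (u ≠ w2 ∧ u ≠ w3 ∧ w1 ≠ w3 ∧ w1 ≠ v ∧ w2 ≠ v) ∧
    (c u w1 ≠ c w1 w2 ∧ c u w1 ≠ c w2 w3 ∧ c u w1 ≠ c w3 v ∧ c w1 w2 ≠ c w2 w3 ∧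
    c w1 w2 ≠ c w3 v ∧ c w2 w3 ≠ c w3 v ∧
    c u w1 ≠ i ∧ c w1 w2 ≠ i ∧ c w2 w3 ≠ i ∧ c w3 v ≠ i)

/-- the combinatorial form of rainbow saturation for the five-cycle -/
structure Sat (G : SimpleGraph V) (c : V → V → ℕ) : Prop where
  symm : ∀ x y, c x y = c y x
  path : ∀ u v, u ≠ v → ¬ G.Adj u v → ∀ i, RP G c u v i
  cyc : ∀ u w1 w2 w3 v, G.Adj u w1 → G.Adj w1 w2 → G.Adj w2 w3 → G.Adj w3 v → G.Adj v u →
    u ≠ w2 → u ≠ w3 → w1 ≠ w3 → w1 ≠ v → w2 ≠ v →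
    c u w1 = c w1 w2 ∨ c u w1 = c w2 w3 ∨ c u w1 = c w3 v ∨ c w1 w2 = c w2 w3 ∨
    c w1 w2 = c w3 v ∨ c w2 w3 = c w3 v ∨
    c u w1 = c v u ∨ c w1 w2 = c v u ∨ c w2 w3 = c v u ∨ c w3 v = c v u

variable (G : SimpleGraph V) (S : V → Prop)

def IsA (x : V) : Prop := ¬ S x ∧ ∃ t, S t ∧ G.Adj x t
def IsZ (x : V) : Prop := ¬ S x ∧ ∀ t, G.Adj x t → ¬ S t
def Hub1 (x s : V) : Prop := ¬ S x ∧ S s ∧ G.Adj x s ∧ ∀ t, G.Adj x t → S t → t = s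
def Lf (a s c : V) : Prop :=
  Hub1 G S a s ∧ IsA G S c ∧ G.Adj a c ∧ ∀ y, G.Adj a y → IsA G S y → y = c
def Mid (c s a d : V) : Prop :=
  Hub1 G S c s ∧ a ≠ d ∧ IsA G S a ∧ IsA G S d ∧ G.Adj c a ∧ G.Adj c d ∧
    ∀ y, G.Adj c y → IsA G S y → y = a ∨ y = d
def Two (u a b : V) : Prop := a ≠ b ∧ G.Adj u a ∧ G.Adj u b ∧ ∀ y, G.Adj u y → y = a ∨ y = b
def Three (u a b d : V) : Prop := G.Adj u a ∧ G.Adj u b ∧ G.Adj u d ∧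
  ∀ y, G.Adj u y → y = a ∨ y = b ∨ y = d
def IsL (u : V) : Prop := IsZ G S u ∧ ∃ a b, Two G u a b
def NoM (x : V) : Prop := ∀ z, G.Adj x z → IsZ G S z → ∃ h, Two G z x h ∧ IsA G S h
def Lip (δ : V → ℕ) : Prop := ∀ p q, G.Adj p q → ¬ S p → ¬ S q → δ q ≤ δ p + 1
def Far (k : ℕ) (x y : V) : Prop := ∃ δ : V → ℕ, δ x = 0 ∧ k ≤ δ y ∧ Lip G S δ
def X1 (a s : V) : Prop := Hub1 G S a s ∧ (∃ u b, ¬ S u ∧ Two G u a b) ∧
  ∀ y, G.Adj a y → ¬ G.Adj y s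
def X2 (a s : V) : Prop := Hub1 G S a s ∧ ∃ y, ¬ S y ∧ Two G y a s ∧
  ∀ w, G.Adj a w → G.Adj w s → w = y
def NX (c s : V) : Prop := ¬ S c ∧ ∃ a d, Three G c a d s ∧ Hub1 G S a s ∧ Hub1 G S d s ∧
  (∀ y, G.Adj a y → G.Adj y s → y = c) ∧ (∀ y, G.Adj d y → G.Adj y s → y = c) ∧
  ∃ u b, IsZ G S u ∧ Two G u a b
def Rob (f : V) : Prop := ∀ s, Hub1 G S f s →
  (∃ x x', x ≠ x' ∧ G.Adj f x ∧ G.Adj x s ∧ G.Adj f x' ∧ G.Adj x' s) ∧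
  (∀ c e, (∀ y, G.Adj f y → IsA G S y → y = c ∨ y = e) → Lf G S e s f → NoM G S e →
    ∃ z, IsZ G S z ∧ G.Adj e z ∧ G.Adj c z)

variable {G S}

lemma Hub1.tri {x s y : V} (h : Hub1 G S x s) (hy : G.Adj x y) :
    y = s ∨ IsA G S y ∨ IsZ G S y := by
  by_cases hS : S y
  · exact Or.inl (h.2.2.2 y hy hS)
  · by_cases h2 : ∃ t, S t ∧ G.Adj y t
    · exact Or.inr (Or.inl ⟨hS, h2⟩)
    · exact Or.inr (Or.inr ⟨hS, fun t ht hs => h2 ⟨t, hs, ht⟩⟩)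

lemma Hub1.isA {x s : V} (h : Hub1 G S x s) : IsA G S x := ⟨h.1, s, h.2.1, h.2.2.1⟩

lemma IsA.notZ {x : V} (h : IsA G S x) : ¬ IsZ G S x := fun hz => by
  obtain ⟨_, t, ht, hx⟩ := h
  exact hz.2 t hx ht

lemma Lf.nbr {a s c y : V} (h : Lf G S a s c) (hy : G.Adj a y) : y = s ∨ y = c ∨ IsZ G S y := by
  rcases h.1.tri hy with h1 | h1 | h1
  · exact Or.inl h1
  · exact Or.inr (Or.inl (h.2.2.2 y hy h1))
  · exact Or.inr (Or.inr h1)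

lemma Mid.nbr {c s a d y : V} (h : Mid G S c s a d) (hy : G.Adj c y) :
    y = s ∨ y = a ∨ y = d ∨ IsZ G S y := by
  rcases h.1.tri hy with h1 | h1 | h1
  · exact Or.inl h1
  · rcases h.2.2.2.2.2.2 y hy h1 with h2 | h2
    · exact Or.inr (Or.inl h2)
    · exact Or.inr (Or.inr (Or.inl h2))
  · exact Or.inr (Or.inr (Or.inr h1))

lemma Mid.swap {c s a d : V} (h : Mid G S c s a d) : Mid G S c s d a :=
  ⟨h.1, h.2.1.symm, h.2.2.2.1, h.2.2.1, h.2.2.2.2.2.1, h.2.2.2.2.1,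
    fun y hy hA => (h.2.2.2.2.2.2 y hy hA).symm⟩

lemma Two.swap {u a b : V} (h : Two G u a b) : Two G u b a :=
  ⟨h.1.symm, h.2.2.1, h.2.1, fun y hy => (h.2.2.2 y hy).symm⟩

/-- a common neighbour of a leaf and of a hub -/
lemma Lf.common {a s c y t : V} (h : Lf G S a s c) (hy : G.Adj a y) (ht : S t) (hyt : G.Adj y t) :
    y = s ∨ y = c := by
  rcases h.nbr hy with h1 | h1 | h1
  · exact Or.inl h1
  · exact Or.inr h1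
  · exact absurd ht (h1.2 t hyt)

lemma Lf.common' {a s c y : V} (h : Lf G S a s c) (hy : G.Adj a y) (hyt : G.Adj y s) :
    y = c := by
  rcases h.common hy h.1.2.1 hyt with h1 | h1
  · subst h1; exact absurd hyt (G.loopless.irrefl _)
  · exact h1

lemma Lf.notRob {a s c : V} (h : Lf G S a s c) : ¬ Rob G S a := fun hr => by
  obtain ⟨x, x', hne, h1, h2, h3, h4⟩ := (hr s h.1).1
  exact hne ((h.common' h1 h2).trans (h.common' h3 h4).symm)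

end Pool.Agent.MP_8ccfd2_co
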