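import Pool.Agent.MP_8ccfd2_co.Defs
import Pool.Agent.MP_8ccfd2_co.Basic

namespace Pool.Agent.MP_8ccfd2_co

variable {V : Type}

/-- a rainbow five-cycle -/
def RC (G : SimpleGraph V) (c : Sym2 V → ℕ) (u w1 w2 w3 v : V) : Prop :=
  (G.Adj u w1 ∧ G.Adj w1 w2 ∧ G.Adj w2 w3 ∧ G.Adj w3 v ∧ G.Adj v u) ∧
    (u ≠ w2 ∧ u ≠ w3 ∧ w1 ≠ w3 ∧ w1 ≠ v ∧ w2 ≠ v) ∧
    (c s(u, w1) ≠ c s(w1, w2) ∧ c s(u, w1) ≠ c s(w2, w3) ∧ c s(u, w1) ≠ c s(w3, v) ∧
      c s(w1, w2) ≠ c s(w2, w3) ∧ c s(w1, w2) ≠ c s(w3, v) ∧ c s(w2, w3) ≠ c s(w3, v) ∧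
      c s(u, w1) ≠ c s(v, u) ∧ c s(w1, w2) ≠ c s(v, u) ∧ c s(w2, w3) ≠ c s(v, u) ∧
      c s(w3, v) ≠ c s(v, u))

lemma edges5 : ∀ e ∈ (SimpleGraph.cycleGraph 5).edgeSet,
    e = s(0, 1) ∨ e = s(1, 2) ∨ e = s(2, 3) ∨ e = s(3, 4) ∨ e = s(4, 0) := by
  intro e
  induction e using Sym2.ind with
  | h x y => revert x y; decide

lemma hasRainbow_iff (G : SimpleGraph V) (c : Sym2 V → ℕ) :
    HasRainbow (SimpleGraph.cycleGraph 5) G c ↔ ∃ u w1 w2 w3 v, RC G c u w1 w2 w3 v := by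
  constructor
  · rintro ⟨f, hi, ha, hc⟩
    have key : ∀ x y z w : Fin 5, (SimpleGraph.cycleGraph 5).Adj x y →
        (SimpleGraph.cycleGraph 5).Adj z w → s(x, y) ≠ s(z, w) → c s(f x, f y) ≠ c s(f z, f w) :=
      fun x y z w h1 h2 h3 h4 => h3 (hc h1 h2 h4)
    refine ⟨f 0, f 1, f 2, f 3, f 4, ⟨?_, ?_, ?_, ?_, ?_⟩, ⟨?_, ?_, ?_, ?_, ?_⟩,
      ?_, ?_, ?_, ?_, ?_, ?_, ?_, ?_, ?_, ?_⟩
    any_goals exact ha _ _ (by decide)
    any_goals exact hi.ne (by decide)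
    all_goals exact key _ _ _ _ (by decide) (by decide) (by decide)
  · rintro ⟨u, w1, w2, w3, v, ⟨a1, a2, a3, a4, a5⟩, ⟨n1, n2, n3, n4, n5⟩,
      c1, c2, c3, c4, c5, c6, c7, c8, c9, c10⟩
    have m1 := a1.ne
    have m2 := a2.ne
    have m3 := a3.ne
    have m4 := a4.ne
    have m5 := a5.ne
    refine ⟨![u, w1, w2, w3, v], ?_, ?_, ?_⟩
    · intro x y h
      fin_cases x <;> fin_cases y <;> simp_all
    · intro x y h
      have b1 := a1.symm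
      have b2 := a2.symm
      have b3 := a3.symm
      have b4 := a4.symm
      have b5 := a5.symm
      fin_cases x <;> fin_cases y <;> first | exact absurd h (by decide) | assumption
    · intro e1 h1 e2 h2 h
      rcases edges5 e1 h1 with rfl | rfl | rfl | rfl | rfl <;>
        rcases edges5 e2 h2 with rfl | rfl | rfl | rfl | rfl <;>
        first | rfl | exact absurd h (by assumption) | exact absurd h.symm (by assumption)

lemma RC.rot {G : SimpleGraph V} {c : Sym2 V → ℕ} {u w1 w2 w3 v : V} (h : RC G c u w1 w2 w3 v) :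
    RC G c w1 w2 w3 v u := by
  obtain ⟨⟨a1, a2, a3, a4, a5⟩, ⟨n1, n2, n3, n4, n5⟩, c1, c2, c3, c4, c5, c6, c7, c8, c9, c10⟩ := h
  exact ⟨⟨a2, a3, a4, a5, a1⟩, ⟨n3, n4, n5, n1.symm, n2.symm⟩, c4, c5, c8, c6, c9, c10, c1.symm,
    c2.symm, c3.symm, c7.symm⟩

lemma RC.rev {G : SimpleGraph V} {c : Sym2 V → ℕ} {u w1 w2 w3 v : V} (h : RC G c u w1 w2 w3 v) :
    RC G c v w3 w2 w1 u := by
  obtain ⟨⟨a1, a2, a3, a4, a5⟩, ⟨n1, n2, n3, n4, n5⟩, c1, c2, c3, c4, c5, c6, c7, c8, c9, c10⟩ := h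
  refine ⟨⟨a4.symm, a3.symm, a2.symm, a1.symm, a5.symm⟩,
    ⟨n5.symm, n4.symm, n3.symm, n2.symm, n1.symm⟩, ?_⟩
  rw [Sym2.eq_swap (a := v) (b := w3), Sym2.eq_swap (a := w3) (b := w2),
    Sym2.eq_swap (a := w2) (b := w1), Sym2.eq_swap (a := w1) (b := u),
    Sym2.eq_swap (a := u) (b := v)]
  exact ⟨c6.symm, c5.symm, c3.symm, c4.symm, c2.symm, c1.symm, c10, c9, c8, c7⟩

open Classical in
lemma rc_path {G : SimpleGraph V} {c : Sym2 V → ℕ} {u v w1 w2 w3 : V} {i : ℕ}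
    (h : RC (G ⊔ SimpleGraph.edge u v) (Function.update c s(u, v) i) u w1 w2 w3 v) :
    RP G (fun x y => c s(x, y)) u v i := by
  obtain ⟨⟨a1, a2, a3, a4, a5⟩, ⟨n1, n2, n3, n4, n5⟩, hc⟩ := h
  have m1 := a1.ne
  have m2 := a2.ne
  have m3 := a3.ne
  have m4 := a4.ne
  have m5 := a5.ne
  have e1 : s(u, w1) ≠ s(u, v) := by simp only [ne_eq, Sym2.eq_iff]; grind
  have e2 : s(w1, w2) ≠ s(u, v) := by simp only [ne_eq, Sym2.eq_iff]; grind
  have e3 : s(w2, w3) ≠ s(u, v) := by simp only [ne_eq, Sym2.eq_iff]; grind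
  have e4 : s(w3, v) ≠ s(u, v) := by simp only [ne_eq, Sym2.eq_iff]; grind
  rw [Sym2.eq_swap (a := v) (b := u), Function.update_self, Function.update_of_ne e1,
    Function.update_of_ne e2, Function.update_of_ne e3, Function.update_of_ne e4] at hc
  simp only [SimpleGraph.sup_adj, SimpleGraph.edge_adj] at a1 a2 a3 a4
  exact ⟨w1, w2, w3, by grind, by grind, by grind, by grind, ⟨n1, n2, n3, n4, n5⟩, hc⟩

open Classical in
lemma sat_of_rainbowSat {G : SimpleGraph V} {c : Sym2 V → ℕ}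
    (h : RainbowSat (SimpleGraph.cycleGraph 5) G c) : Sat G (fun x y => c s(x, y)) := by
  obtain ⟨h1, h2⟩ := h
  rw [hasRainbow_iff] at h1
  refine ⟨fun x y => by rw [Sym2.eq_swap], fun u v hne hna i => ?_, ?_⟩
  · obtain ⟨a, b, d, e, f, hr⟩ := (hasRainbow_iff _ _).1 (h2 u v hne hna i)
    have key : ∀ a b d e f, RC (G ⊔ SimpleGraph.edge u v) (Function.update c s(u, v) i) a b d e f →
        ¬ G.Adj f a → RP G (fun x y => c s(x, y)) u v i := by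
      intro a b d e f hr hn
      have a5 := hr.1.2.2.2.2
      simp only [SimpleGraph.sup_adj, SimpleGraph.edge_adj, hn, false_or] at a5
      rcases a5.1 with ⟨rfl, rfl⟩ | ⟨rfl, rfl⟩
      · exact rc_path hr.rev
      · exact rc_path hr
    by_cases g5 : G.Adj f a
    swap
    · exact key _ _ _ _ _ hr g5
    by_cases g1 : G.Adj a b
    swap
    · exact key _ _ _ _ _ hr.rot g1
    by_cases g2 : G.Adj b d
    swap
    · exact key _ _ _ _ _ hr.rot.rot g2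
    by_cases g3 : G.Adj d e
    swap
    · exact key _ _ _ _ _ hr.rot.rot.rot g3
    by_cases g4 : G.Adj e f
    swap
    · exact key _ _ _ _ _ hr.rot.rot.rot.rot g4
    exfalso
    have ne : ∀ x y, G.Adj x y → Function.update c s(u, v) i s(x, y) = c s(x, y) := by
      intro x y hxy
      refine Function.update_of_ne (fun h => hna ?_) _ _
      rw [← SimpleGraph.mem_edgeSet, ← h]
      exact hxy
    refine h1 ⟨a, b, d, e, f, ⟨g1, g2, g3, g4, g5⟩, hr.2.1, ?_⟩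
    have := hr.2.2
    rwa [ne _ _ g1, ne _ _ g2, ne _ _ g3, ne _ _ g4, ne _ _ g5] at this
  · intro u w1 w2 w3 v a1 a2 a3 a4 a5 n1 n2 n3 n4 n5
    by_contra hc
    refine h1 ⟨u, w1, w2, w3, v, ⟨a1, a2, a3, a4, a5⟩, ⟨n1, n2, n3, n4, n5⟩, ?_⟩
    simp only [not_or] at hc
    exact hc

open Classical in
lemma rainbowSat_of_sat {G : SimpleGraph V} {c : Sym2 V → ℕ} (h : Sat G (fun x y => c s(x, y))) :
    RainbowSat (SimpleGraph.cycleGraph 5) G c := by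
  refine ⟨?_, fun u v hne hna i => ?_⟩
  · rw [hasRainbow_iff]
    rintro ⟨u, w1, w2, w3, v, ⟨a1, a2, a3, a4, a5⟩, ⟨n1, n2, n3, n4, n5⟩, hc⟩
    have := h.cyc u w1 w2 w3 v a1 a2 a3 a4 a5 n1 n2 n3 n4 n5
    tauto
  · rw [hasRainbow_iff]
    obtain ⟨w1, w2, w3, a1, a2, a3, a4, hn, hc⟩ := h.path u v hne hna i
    have ne : ∀ x y, G.Adj x y → Function.update c s(u, v) i s(x, y) = c s(x, y) := by
      intro x y hxy
      refine Function.update_of_ne (fun h => hna ?_) _ _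
      rw [← SimpleGraph.mem_edgeSet, ← h]
      exact hxy
    refine ⟨u, w1, w2, w3, v, ⟨Or.inl a1, Or.inl a2, Or.inl a3, Or.inl a4, Or.inr ?_⟩, hn, ?_⟩
    · simp [SimpleGraph.edge_adj, hne.symm]
    · rw [ne _ _ a1, ne _ _ a2, ne _ _ a3, ne _ _ a4, Sym2.eq_swap (a := v) (b := u),
        Function.update_self]
      exact hc

end Pool.Agent.MP_8ccfd2_co
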