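import Pool.Agent.MP_8ccfd2_co.Good

namespace Pool.Agent.MP_8ccfd2_co

variable {V : Type} {G : SimpleGraph V} {S : V → Prop} {c : V → V → ℕ}

def NearBd (G : SimpleGraph V) (S : V → Prop) (M : ℕ) (a : V) : Prop :=
  ∃ P : Finset V, P.card ≤ M ∧ ∀ x, ¬ Far G S 9 a x → x ∈ P

lemma ball_bd {D : ℕ} (N : V → Finset V) (hN : ∀ p, ¬ S p → (N p).card ≤ D)
    (hN2 : ∀ p q, G.Adj p q → q ∈ N p) (a : V) : NearBd G S ((D + 1) ^ 8) a := by
  classical
  let B : ℕ → Finset V := fun k =>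
    Nat.rec {a} (fun _ P => P ∪ (P.filter fun p => ¬ S p).biUnion N) k
  have B0 : B 0 = {a} := rfl
  have Bs : ∀ k, B (k + 1) = B k ∪ ((B k).filter fun p => ¬ S p).biUnion N := fun k => rfl
  have hc : ∀ k, (B k).card ≤ (D + 1) ^ k := by
    intro k
    induction k with
    | zero => simp [B0]
    | succ k ih =>
      rw [Bs]
      have h1 : (((B k).filter fun p => ¬ S p).biUnion N).card ≤
          ((B k).filter fun p => ¬ S p).card * D :=
        Finset.card_biUnion_le_card_mul _ _ _ fun p hp => hN p (Finset.mem_filter.1 hp).2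
      have h2 := Finset.card_filter_le (B k) fun p => ¬ S p
      have h3 := Finset.card_union_le (B k) (((B k).filter fun p => ¬ S p).biUnion N)
      have h4 : ((B k).filter fun p => ¬ S p).card * D ≤ (D + 1) ^ k * D :=
        Nat.mul_le_mul_right _ (h2.trans ih)
      calc _ ≤ (D + 1) ^ k + (D + 1) ^ k * D := by omega
        _ = (D + 1) ^ (k + 1) := by ring
  have hm : Monotone B := monotone_nat_of_le_succ fun k => by
    rw [Bs]; exact Finset.subset_union_left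
  refine ⟨B 8, hc 8, fun x hx => ?_⟩
  by_contra hn
  have ex : ∀ y, ∃ k, y ∈ B k ∨ 9 ≤ k := fun y => ⟨9, Or.inr le_rfl⟩
  obtain ⟨δ, d1, d2⟩ : ∃ δ : V → ℕ, (∀ y, y ∈ B (δ y) ∨ 9 ≤ δ y) ∧
      ∀ y k, (y ∈ B k ∨ 9 ≤ k) → δ y ≤ k :=
    ⟨fun y => @Nat.find _ (Classical.decPred _) (ex y),
      fun y => @Nat.find_spec _ (Classical.decPred _) (ex y),
      fun y k h => @Nat.find_min' _ (Classical.decPred _) (ex y) k h⟩
  refine hx ⟨δ, ?_, ?_, fun p q h1 h2 _ => ?_⟩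
  · have := d2 a 0 (Or.inl (by simp [B0]))
    omega
  · rcases d1 x with h | h
    · by_contra h3
      exact hn (hm (by omega : δ x ≤ 8) h)
    · exact h
  · refine d2 _ _ ?_
    rcases d1 p with h | h
    · left
      rw [Bs]
      exact Finset.mem_union_right _
        (Finset.mem_biUnion.2 ⟨p, Finset.mem_filter.2 ⟨h, h2⟩, hN2 p q h1⟩)
    · right; omega

lemma class_bd {M : ℕ} (X : V → Prop) (h1 : ∀ a a', X a → X a' → ¬ Far G S 9 a a')
    (h2 : ∀ a, X a → NearBd G S M a) : ∃ P : Finset V, P.card ≤ M ∧ ∀ a, X a → a ∈ P := by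
  by_cases h : ∃ a, X a
  · obtain ⟨a, ha⟩ := h
    obtain ⟨P, h3, h4⟩ := h2 a ha
    exact ⟨P, h3, fun a' ha' => h4 a' (h1 a a' ha ha')⟩
  · exact ⟨∅, by simp, fun a ha => absurd ⟨a, ha⟩ h⟩

lemma classes_bd {M : ℕ} (H : Finset V) (X : V → V → Prop)
    (h1 : ∀ s a a', X a s → X a' s → ¬ Far G S 9 a a')
    (h2 : ∀ s a, X a s → NearBd G S M a) :
    ∃ P : Finset V, P.card ≤ H.card * M ∧ ∀ a, ∀ s ∈ H, X a s → a ∈ P := by
  classical
  choose P hP using fun s => class_bd (fun a => X a s) (h1 s) (h2 s)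
  exact ⟨H.biUnion P, Finset.card_biUnion_le_card_mul _ _ _ fun s _ => (hP s).1,
    fun a s hs hX => Finset.mem_biUnion.2 ⟨s, hs, (hP s).2 a hX⟩⟩

lemma cover_bd {M : ℕ} (B : Finset V) (h : ∀ a, ¬ Good G S a → a ∈ B ∧ NearBd G S M a) :
    ∃ P : Finset V, P.card ≤ B.card * M ∧
      ∀ x, x ∉ P → ∀ a, ¬ Far G S 9 a x → Good G S a := by
  classical
  have : ∀ a, ∃ P : Finset V, P.card ≤ M ∧ (¬ Good G S a → ∀ x, ¬ Far G S 9 a x → x ∈ P) := by
    intro a
    by_cases ha : Good G S a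
    · exact ⟨∅, by simp, fun h => absurd ha h⟩
    · obtain ⟨P, h1, h2⟩ := (h a ha).2
      exact ⟨P, h1, fun _ => h2⟩
  choose P hP using this
  refine ⟨B.biUnion P, Finset.card_biUnion_le_card_mul _ _ _ fun s _ => (hP s).1,
    fun x hx a ha => ?_⟩
  by_contra hg
  exact hx (Finset.mem_biUnion.2 ⟨a, (h a hg).1, (hP a).2 hg x ha⟩)

lemma mindeg [Fintype V] (hs : Sat G c) (h3 : 3 ≤ Fintype.card V) (a s : V) :
    ∃ y, y ≠ s ∧ G.Adj a y := by
  classical
  have : ∃ v, v ∉ ({a, s} : Finset V) := by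
    by_contra hn
    push Not at hn
    have h1 : (Finset.univ : Finset V) ⊆ {a, s} := fun v _ => hn v
    have h2 := Finset.card_le_card h1
    have h4 : ({a, s} : Finset V).card ≤ 2 := Finset.card_le_two
    rw [Finset.card_univ] at h2
    omega
  obtain ⟨v, hv⟩ := this
  simp only [Finset.mem_insert, Finset.mem_singleton, not_or] at hv
  by_cases h : G.Adj a v
  · exact ⟨v, hv.2, h⟩
  · obtain ⟨w1, w2, w3, e1, e2, e3, e4, hn, hc⟩ := hs.path a v (Ne.symm hv.1) h (c a s)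
    exact ⟨w1, by rintro rfl; exact hc.2.2.2.2.2.2.1 rfl, e1⟩

lemma bad_noZ [Fintype V] (hs : Sat G c) (h3 : 3 ≤ Fintype.card V) (H : Finset V)
    (hH : ∀ s, S s → s ∈ H) (hZ : ¬ ∃ z, IsZ G S z) :
    ∃ P : Finset V, P.card ≤ 32 * H.card ∧
      ∀ x, x ∉ P → ∀ a, ¬ Far G S 9 a x → Good G S a := by
  classical
  obtain ⟨P1, c1, p1⟩ := classes_bd (M := 4) H (fun a s => X1 G S a s ∧ Small G S a)
    (fun s a a' h h' => x1_near hs h.1 h'.1) (fun s a h => h.2)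
  obtain ⟨P2, c2, p2⟩ := classes_bd (M := 4) H (fun a s => X2 G S a s ∧ Small G S a)
    (fun s a a' h h' => x2_near hs h.1 h'.1) (fun s a h => h.2)
  obtain ⟨P, c3, p3⟩ := cover_bd (G := G) (S := S) (M := 4) (P1 ∪ P2) (fun a ha => by
    have h1 : ¬ ((Small G S a ∨ ∃ z, IsZ G S z) → GX G S a) := fun h => ha
      ⟨fun z _ hz => absurd ⟨z, hz⟩ hZ, fun hz => absurd ⟨a, hz⟩ hZ, fun s h1 => by
        obtain ⟨y, h2, h4⟩ := mindeg hs h3 a s
        rcases h1.tri h4 with h5 | h5 | h5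
        · exact absurd h5 h2
        · exact ⟨y, h4, h5⟩
        · exact absurd ⟨y, h5⟩ hZ, fun s h1 => by
        obtain ⟨-, p, q, -, -, -, -, -, u, b, hu, -⟩ := h1
        exact absurd ⟨u, hu⟩ hZ, h⟩
    have h2 : Small G S a := by tauto
    have h4 : ¬ GX G S a := by tauto
    refine ⟨?_, h2⟩
    by_contra hn
    refine h4 fun s => ⟨fun h => hn ?_, fun h => hn ?_⟩
    · exact Finset.mem_union_left _ (p1 a s (hH s h.1.2.1) ⟨h, h2⟩)
    · exact Finset.mem_union_right _ (p2 a s (hH s h.1.2.1) ⟨h, h2⟩))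
  refine ⟨P, ?_, p3⟩
  have := Finset.card_union_le P1 P2
  omega

def CC (D : ℕ) : ℕ := ((D + 1) ^ 8 + 3 * (D * D * (D + 1) ^ 8)) * (D + 1) ^ 8

lemma bad_Z (hs : Sat G c) {D : ℕ} (N : V → Finset V) (hN : ∀ p, ¬ S p → (N p).card ≤ D)
    (hN2 : ∀ p q, G.Adj p q ↔ q ∈ N p) {v : V} (hv : IsZ G S v) :
    ∃ P : Finset V, P.card ≤ CC D ∧ ∀ x, x ∉ P → ∀ a, ¬ Far G S 9 a x → Good G S a := by
  classical
  have hb := ball_bd (G := G) N hN (fun p q h => (hN2 p q).1 h)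
  let H := (N v).biUnion N
  have cH : H.card ≤ D * D :=
    (Finset.card_biUnion_le_card_mul _ _ D fun w hw => hN w (hv.2 w ((hN2 v w).2 hw))).trans
      (Nat.mul_le_mul_right _ (hN v hv.1))
  have mH : ∀ s, (∃ w, G.Adj v w ∧ G.Adj w s) → s ∈ H := by
    rintro s ⟨w, h1, h2⟩
    exact Finset.mem_biUnion.2 ⟨w, (hN2 _ _).1 h1, (hN2 _ _).1 h2⟩
  obtain ⟨P0, c0, p0⟩ := hb v
  obtain ⟨P1, c1, p1⟩ := classes_bd H (fun a s => X1 G S a s)
    (fun s a a' h h' => x1_near hs h h') (fun s a _ => hb a)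
  obtain ⟨P2, c2, p2⟩ := classes_bd H (fun a s => X2 G S a s)
    (fun s a a' h h' => x2_near hs h h') (fun s a _ => hb a)
  obtain ⟨P3, c3, p3⟩ := classes_bd H
    (fun a s => NX G S a s ∧ ¬ ∃ y, NX G S y s ∧ Far G S 9 a y)
    (fun s a a' h h' hf => h.2 ⟨a', h'.1, hf⟩) (fun s a _ => hb a)
  obtain ⟨P, c4, p4⟩ := cover_bd (G := G) (S := S) (P0 ∪ P1 ∪ P2 ∪ P3) (fun a ha => by
    refine ⟨?_, hb a⟩
    by_contra hn
    simp only [Finset.mem_union, not_or] at hn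
    obtain ⟨⟨⟨n0, n1⟩, n2⟩, n3⟩ := hn
    have hf : Far G S 9 v a := by by_contra h; exact n0 (p0 a h)
    obtain ⟨δ, d0, d9, hl⟩ := hf
    refine ha ⟨fun z h1 hz => ?_, fun hz => zfar hs hl hv hz (by omega),
      fun s h1 => bzero hs hl hv h1 (by omega), fun s h1 => ?_, fun _ s => ⟨fun h => ?_, fun h => ?_⟩⟩
    · have := hl.le h1 (hz.2 a h1.symm) hz.1
      exact zfar hs hl hv hz (by omega)
    · by_contra h2
      refine n3 (p3 a s (mH s ?_) ⟨h1, h2⟩)
      obtain ⟨h4, p, q, h5, h6, -, -, -, u, b, hu, h7⟩ := h1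
      have := hl.le h5.1 h4 h6.1
      exact sigma hs hl hv h6 hu.1 h7 (by omega)
    · refine n1 (p1 a s (mH s ?_) h)
      obtain ⟨h4, ⟨u, b, hu, h7⟩, -⟩ := h
      exact sigma hs hl hv h4 hu h7 (by omega)
    · refine n2 (p2 a s (mH s ?_) h)
      obtain ⟨h4, u, hu, h7, -⟩ := h
      exact sigma hs hl hv h4 hu h7 (by omega))
  refine ⟨P, c4.trans (Nat.mul_le_mul_right _ ?_), p4⟩
  have := Finset.card_union_le (P0 ∪ P1 ∪ P2) P3
  have := Finset.card_union_le (P0 ∪ P1) P2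
  have := Finset.card_union_le P0 P1
  have := Nat.mul_le_mul_right ((D + 1) ^ 8) cH
  omega

theorem lower [Fintype V] (hs : Sat G c) (h3 : 3 ≤ Fintype.card V) (D : ℕ) :
    18 * D * Fintype.card V ≤ (10 * D + 1188) * G.edgeSet.ncard + 18 * D * CC D := by
  classical
  let S : V → Prop := fun x => D ≤ G.degree x
  let H : Finset V := Finset.univ.filter S
  have hH : D * H.card ≤ 2 * G.edgeSet.ncard := by
    have h1 := G.sum_degrees_eq_twice_card_edges
    rw [← Set.ncard_coe_finset, SimpleGraph.coe_edgeFinset] at h1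
    rw [← h1, mul_comm]
    calc H.card * D = ∑ _x ∈ H, D := by simp
      _ ≤ ∑ x ∈ H, G.degree x := Finset.sum_le_sum fun x hx => (Finset.mem_filter.1 hx).2
      _ ≤ _ := Finset.sum_le_sum_of_subset (Finset.subset_univ _)
  have hP : ∃ P : Finset V, P.card ≤ 32 * H.card + CC D ∧
      ∀ x, x ∉ P → ∀ a, ¬ Far G S 9 a x → Good G S a := by
    by_cases hZ : ∃ z, IsZ G S z
    · obtain ⟨v, hv⟩ := hZ
      obtain ⟨P, h1, h2⟩ := bad_Z hs (D := D) (fun p => G.neighborFinset p) (fun p hp => by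
        have : ¬ D ≤ G.degree p := hp
        rw [SimpleGraph.card_neighborFinset_eq_degree]; omega) (fun p q => by simp) hv
      exact ⟨P, by omega, h2⟩
    · obtain ⟨P, h1, h2⟩ := bad_noZ hs h3 H (fun s h => Finset.mem_filter.2 ⟨by simp, h⟩) hZ
      exact ⟨P, by omega, h2⟩
  obtain ⟨P, c1, p1⟩ := hP
  have h1 : ((Finset.univ \ (H ∪ P)).card : ℚ) * 18 ≤ 10 * (G.edgeSet.ncard : ℚ) := by
    calc ((Finset.univ \ (H ∪ P)).card : ℚ) * 18 = ∑ _x ∈ Finset.univ \ (H ∪ P), (18 : ℚ) := by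
          simp
      _ ≤ ∑ x ∈ Finset.univ \ (H ∪ P), W G S x := Finset.sum_le_sum fun x hx => by
          simp only [Finset.mem_sdiff, Finset.mem_univ, true_and, Finset.mem_union, not_or] at hx
          exact W_good hs (fun h => hx.1 (Finset.mem_filter.2 ⟨by simp, h⟩)) (p1 x hx.2)
      _ ≤ ∑ x, W G S x := Finset.sum_le_sum_of_subset_of_nonneg (Finset.subset_univ _)
          fun x _ _ => W_nonneg x
      _ ≤ _ := sum_W
  have h2 : (Finset.univ \ (H ∪ P)).card * 18 ≤ 10 * G.edgeSet.ncard := by exact_mod_cast h1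
  have h4 : Fintype.card V ≤ (Finset.univ \ (H ∪ P)).card + (H ∪ P).card := by
    rw [Finset.card_sdiff_add_card_eq_card (Finset.subset_univ _), Finset.card_univ]
  have h5 := Finset.card_union_le H P
  have h6 : 18 * Fintype.card V ≤ 10 * G.edgeSet.ncard + 594 * H.card + 18 * CC D := by omega
  nlinarith [Nat.mul_le_mul_left D h6]

end Pool.Agent.MP_8ccfd2_co
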