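import Mathlib

namespace Pool.Agent.MP_8ccfd2_co

/-- `G` with edge colouring `c` contains a rainbow subgraph isomorphic to `F`. -/
def HasRainbow {W V : Type} (F : SimpleGraph W) (G : SimpleGraph V) (c : Sym2 V → ℕ) : Prop :=
  ∃ f : W → V, Function.Injective f ∧ (∀ x y, F.Adj x y → G.Adj (f x) (f y)) ∧
    Set.InjOn (fun e => c (Sym2.map f e)) F.edgeSet

open Classical in
/-- `G` with colouring `c` is `F`-rainbow saturated. -/
def RainbowSat {W V : Type} (F : SimpleGraph W) (G : SimpleGraph V) (c : Sym2 V → ℕ) : Prop :=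
  ¬ HasRainbow F G c ∧
    ∀ u v : V, u ≠ v → ¬ G.Adj u v → ∀ i : ℕ,
      HasRainbow F (G ⊔ SimpleGraph.edge u v) (Function.update c s(u, v) i)

/-- The rainbow saturation number. -/
noncomputable def rsat {W : Type} (n : ℕ) (F : SimpleGraph W) : ℕ :=
  sInf {m | ∃ (G : SimpleGraph (Fin n)) (c : Sym2 (Fin n) → ℕ),
    RainbowSat F G c ∧ G.edgeSet.ncard = m}

end Pool.Agent.MP_8ccfd2_co
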