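import Pool.Agent.MP_8ccfd2_co.Local6

namespace Pool.Agent.MP_8ccfd2_co

variable {V : Type} [Fintype V] (G : SimpleGraph V) (S : V → Prop)

def Leaf (x : V) : Prop := ∃ s m, Lf G S x s m
def NL (x : V) : Prop := ∃ s a d, Mid G S x s a d ∧ Leaf G S a ∧ ¬ Leaf G S d

open Classical in
noncomputable def Ks (x : V) : ℚ := K G S x + ∑ y, if G.Adj x y ∧ Leaf G S y then K G S y else 0

open Classical in
noncomputable def tr (x y : V) : ℚ :=
  if Leaf G S x then (if Leaf G S y then K G S x / 2 else K G S x - 3)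
  else if NL G S x ∧ ¬ Leaf G S y then (if NL G S y then Ks G S x / 2 else -1) else 0

open Classical in
noncomputable def om (x y : V) : ℚ :=
  if S x then 0 else if S y then 10 else
    if IsA G S x then (if IsA G S y then 5 - tr G S x y + tr G S y x else keep G S x y)
    else (if IsA G S y then 10 - keep G S y x else 5)

open Classical in
noncomputable def W (x : V) : ℚ := ∑ y, if G.Adj x y then om G S x y else 0

open Classical in
noncomputable def HH (x : V) : ℚ := ∑ y, if G.Adj x y ∧ S y then 10 else 0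

open Classical in
noncomputable def AA (x : V) : ℚ :=
  ∑ y, if G.Adj x y ∧ IsA G S y then 5 - tr G S x y + tr G S y x else 0

variable {G S}

lemma om_sum (x y : V) : om G S x y + om G S y x ≤ 10 := by
  unfold om
  split_ifs <;> linarith

lemma sum_W : ∑ x, W G S x ≤ 10 * (G.edgeSet.ncard : ℚ) := by
  classical
  have h1 : ∑ x, W G S x = ∑ x, ∑ y, if G.Adj x y then om G S y x else 0 := by
    unfold W
    rw [Finset.sum_comm]
    refine Finset.sum_congr rfl fun x _ => Finset.sum_congr rfl fun y _ => ?_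
    by_cases h : G.Adj x y
    · rw [if_pos h, if_pos h.symm]
    · rw [if_neg h, if_neg (fun h' => h h'.symm)]
  have h2 : 2 * ∑ x, W G S x ≤ ∑ x, ∑ y, if G.Adj x y then (10 : ℚ) else 0 := by
    rw [two_mul]
    nth_rewrite 2 [h1]
    unfold W
    rw [← Finset.sum_add_distrib]
    refine Finset.sum_le_sum fun x _ => ?_
    rw [← Finset.sum_add_distrib]
    refine Finset.sum_le_sum fun y _ => ?_
    by_cases h : G.Adj x y
    · simp only [if_pos h]; exact om_sum x y
    · simp [if_neg h]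
  have h3 : ∀ x, (∑ y, if G.Adj x y then (10 : ℚ) else 0) = 10 * (G.degree x : ℚ) := by
    intro x
    rw [← Finset.sum_filter, Finset.sum_const, nsmul_eq_mul, mul_comm,
      ← SimpleGraph.card_neighborFinset_eq_degree, SimpleGraph.neighborFinset_eq_filter]
  have h4 : (∑ x, (G.degree x : ℚ)) = 2 * (G.edgeSet.ncard : ℚ) := by
    have := G.sum_degrees_eq_twice_card_edges
    rw [← Set.ncard_coe_finset, SimpleGraph.coe_edgeFinset] at this
    exact_mod_cast this
  simp only [h3, ← Finset.mul_sum, h4] at h2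
  linarith

omit [Fintype V] in
lemma notA_iff {y : V} (h : ¬ S y) : ¬ IsA G S y ↔ IsZ G S y := by
  constructor
  · intro h1; exact ⟨h, fun t ht hs => h1 ⟨h, t, hs, ht⟩⟩
  · intro h1 h2; exact h2.notZ h1

lemma W_A {x : V} (hx : IsA G S x) : W G S x = HH G S x + AA G S x + K G S x := by
  classical
  unfold W HH AA K
  rw [← Finset.sum_add_distrib, ← Finset.sum_add_distrib]
  refine Finset.sum_congr rfl fun y _ => ?_
  by_cases h : G.Adj x y
  · unfold om
    by_cases h1 : S y
    · have h2 : ¬ IsA G S y := fun h => h.1 h1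
      have h3 : ¬ IsZ G S y := fun h => h.1 h1
      simp [h, hx.1, h1, h2, h3]
    · by_cases h2 : IsA G S y
      · simp [h, hx.1, hx, h1, h2, h2.notZ]
      · simp [h, hx.1, hx, h1, h2, (notA_iff h1).1 h2]
  · simp [h]

lemma sum_ge {f : V → ℚ} {p : V → Prop} [DecidablePred p] (P : Finset V) (hP : ∀ y ∈ P, p y)
    (hf : ∀ y, p y → 0 ≤ f y) : ∑ y ∈ P, f y ≤ ∑ y, if p y then f y else 0 := by
  calc ∑ y ∈ P, f y = ∑ y ∈ P, if p y then f y else 0 :=
        Finset.sum_congr rfl fun z hz => by rw [if_pos (hP z hz)]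
    _ ≤ _ := by
        refine Finset.sum_le_sum_of_subset_of_nonneg (Finset.subset_univ _) fun z _ _ => ?_
        split_ifs with h
        · exact hf z h
        · exact le_rfl

lemma sum_eq {f : V → ℚ} {p : V → Prop} [DecidablePred p] (P : Finset V) (hP : ∀ y, y ∈ P ↔ p y) :
    (∑ y, if p y then f y else 0) = ∑ y ∈ P, f y := by
  rw [← Finset.sum_filter]
  congr 1
  ext y
  simp [hP]

lemma HH_one {x : V} (h : IsA G S x) : 10 ≤ HH G S x := by
  classical
  obtain ⟨-, t, h1, h2⟩ := h
  have := sum_ge (f := fun _ => (10 : ℚ)) (p := fun y => G.Adj x y ∧ S y) {t} (by simp [h1, h2])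
    (fun _ _ => by norm_num)
  simpa [HH] using this

lemma HH_two {x s t : V} (h1 : G.Adj x s) (h2 : G.Adj x t) (hs : S s) (ht : S t) (hne : s ≠ t) :
    20 ≤ HH G S x := by
  classical
  have := sum_ge (f := fun _ => (10 : ℚ)) (p := fun y => G.Adj x y ∧ S y) {s, t}
    (by simp [h1, h2, hs, ht]) (fun _ _ => by norm_num)
  rw [Finset.sum_pair hne] at this
  unfold HH
  linarith

lemma AA_leaf {a s m : V} (h : Lf G S a s m) : AA G S a = 5 - tr G S a m + tr G S m a := by
  classical
  unfold AA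
  rw [sum_eq {m}, Finset.sum_singleton]
  intro y
  simp only [Finset.mem_singleton]
  exact ⟨by rintro rfl; exact ⟨h.2.2.1, h.2.1⟩, fun hy => h.2.2.2 y hy.1 hy.2⟩

lemma AA_mid {m s a d : V} (h : Mid G S m s a d) :
    AA G S m = (5 - tr G S m a + tr G S a m) + (5 - tr G S m d + tr G S d m) := by
  classical
  unfold AA
  rw [sum_eq {a, d}, Finset.sum_pair h.2.1]
  intro y
  simp only [Finset.mem_insert, Finset.mem_singleton]
  refine ⟨?_, fun hy => h.2.2.2.2.2.2 y hy.1 hy.2⟩
  rintro (rfl | rfl)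
  · exact ⟨h.2.2.2.2.1, h.2.2.1⟩
  · exact ⟨h.2.2.2.2.2.1, h.2.2.2.1⟩

omit [Fintype V] in
lemma Mid.notLeaf {m s a d : V} (h : Mid G S m s a d) : ¬ Leaf G S m := by
  rintro ⟨t, y, hl⟩
  exact h.2.1 ((hl.2.2.2 a h.2.2.2.2.1 h.2.2.1).trans (hl.2.2.2 d h.2.2.2.2.2.1 h.2.2.2.1).symm)

omit [Fintype V] in
lemma Leaf.lf {a m : V} (h : Leaf G S a) (h1 : G.Adj a m) (h2 : IsA G S m) : ∃ s, Lf G S a s m := by
  obtain ⟨s, y, hl⟩ := h
  have := hl.2.2.2 m h1 h2
  subst this
  exact ⟨s, hl⟩

omit [Fintype V] in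
lemma Leaf.isA {a : V} (h : Leaf G S a) : IsA G S a := by
  obtain ⟨s, y, hl⟩ := h
  exact hl.1.isA

lemma Ks_eq {m s a d : V} (h : Mid G S m s a d) (ha : Leaf G S a) (hd : ¬ Leaf G S d) :
    Ks G S m = K G S m + K G S a := by
  classical
  unfold Ks
  rw [sum_eq {a}, Finset.sum_singleton]
  intro y
  simp only [Finset.mem_singleton]
  refine ⟨by rintro rfl; exact ⟨h.2.2.2.2.1, ha⟩, fun hy => ?_⟩
  rcases h.2.2.2.2.2.2 y hy.1 hy.2.isA with rfl | rfl
  · rfl
  · exact absurd hy.2 hd

lemma W_leaf_leaf {a s y : V} (h : Lf G S a s y) (hy : Leaf G S y) :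
    15 + (K G S a + K G S y) / 2 ≤ W G S a := by
  have ha : Leaf G S a := ⟨s, y, h⟩
  have := HH_one h.1.isA
  rw [W_A h.1.isA, AA_leaf h]
  unfold tr
  simp only [if_pos ha, if_pos hy]
  linarith

lemma W_leaf_non {a s y : V} (h : Lf G S a s y) (hy : ¬ Leaf G S y) : 18 ≤ W G S a := by
  have ha : Leaf G S a := ⟨s, y, h⟩
  have := HH_one h.1.isA
  rw [W_A h.1.isA, AA_leaf h]
  unfold tr
  simp only [hy, ha, not_true, and_false, if_false, if_true]
  linarith

lemma W_nl_nl {m s a d t e : V} (h : Mid G S m s a d) (h' : Mid G S d t e m) (ha : Leaf G S a)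
    (he : Leaf G S e) : 17 + (K G S m + K G S a + K G S d + K G S e) / 2 ≤ W G S m := by
  have := HH_one h.1.isA
  have n1 : NL G S m := ⟨s, a, d, h, ha, h'.notLeaf⟩
  have n2 : NL G S d := ⟨t, e, m, h', he, h.notLeaf⟩
  have k1 := Ks_eq h ha h'.notLeaf
  have k2 := Ks_eq h' he h.notLeaf
  rw [W_A h.1.isA, AA_mid h]
  unfold tr
  simp only [h.notLeaf, h'.notLeaf, ha, n1, n2, not_true, and_false, if_false, if_true,
    not_false_iff, and_true]
  linarith

lemma W_nl_non {m s a d : V} (h : Mid G S m s a d) (ha : Leaf G S a) (hd : ¬ Leaf G S d)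
    (n2 : ¬ NL G S d) : 18 ≤ W G S m := by
  have := HH_one h.1.isA
  have n1 : NL G S m := ⟨s, a, d, h, ha, hd⟩
  have := K_nonneg (G := G) (S := S) m
  have := K_nonneg (G := G) (S := S) a
  rw [W_A h.1.isA, AA_mid h]
  unfold tr
  simp only [h.notLeaf, hd, ha, n1, n2, not_true, and_false, if_false, if_true,
    not_false_iff, and_true]
  linarith

/-- the term of an ordinary vertex -/
lemma term_other {x y : V} (h1 : ¬ Leaf G S x) (h2 : ¬ NL G S x) :
    (Leaf G S y → 5 - tr G S x y + tr G S y x = 2 + K G S y) ∧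
    (¬ Leaf G S y → 4 ≤ 5 - tr G S x y + tr G S y x) := by
  unfold tr
  constructor
  · intro h
    simp only [h, h1, h2, if_true, if_false, false_and]
    ring
  · intro h
    simp only [h, h1, h2, if_false, not_false_iff, and_true]
    split_ifs <;> norm_num

lemma term_two {x y : V} (h1 : ¬ Leaf G S x) (h2 : ¬ NL G S x) :
    2 ≤ 5 - tr G S x y + tr G S y x := by
  have := term_other (y := y) h1 h2
  by_cases h : Leaf G S y
  · rw [this.1 h]; have := K_nonneg (G := G) (S := S) y; linarith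
  · have := this.2 h; linarith

lemma AA_ge {x : V} (h1 : ¬ Leaf G S x) (h2 : ¬ NL G S x) (P : Finset V)
    (hP : ∀ y ∈ P, G.Adj x y ∧ IsA G S y) :
    ∑ y ∈ P, (5 - tr G S x y + tr G S y x) ≤ AA G S x := by
  classical
  exact sum_ge (p := fun y => G.Adj x y ∧ IsA G S y) P hP fun y _ => by
    have := term_two (y := y) h1 h2; linarith

lemma om_Z {z y : V} (hz : IsZ G S z) (h : G.Adj z y) :
    5 ≤ om G S z y ∧ (IsA G S y → om G S z y = 10 - keep G S y z) := by
  unfold om
  have h1 : ¬ IsA G S z := fun h => h.notZ hz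
  simp only [hz.1, hz.2 y h, h1, if_false]
  by_cases h2 : IsA G S y
  · simp only [h2, if_true]
    have := keep_le (G := G) (S := S) y z
    exact ⟨by linarith, fun _ => trivial⟩
  · simp [h2]

lemma W_Z_ge {z : V} (hz : IsZ G S z) (P : Finset V) (hP : ∀ y ∈ P, G.Adj z y) :
    ∑ y ∈ P, om G S z y ≤ W G S z := by
  classical
  exact sum_ge (p := fun y => G.Adj z y) P hP fun y hy => by
    have := (om_Z hz hy).1; linarith

lemma W_Z {z a b : V} (hz : IsZ G S z) (hab : a ≠ b) (ha : G.Adj z a) (hb : G.Adj z b)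
    (hA : IsA G S a) (hB : IsA G S b) : 18 ≤ W G S z := by
  classical
  have e1 := (om_Z hz ha).2 hA
  have e2 := (om_Z hz hb).2 hB
  by_cases hL : IsL G S z
  · have ht : Two G z a b := by
      obtain ⟨-, p, q, ht⟩ := hL
      have h4 := ht.2.2.2
      exact ⟨hab, ha, hb, fun y hy => by grind⟩
    have := keep_sum hz ht
    have h5 := W_Z_ge hz {a, b} (by simp [ha, hb])
    rw [Finset.sum_pair hab] at h5
    linarith
  · have : ∃ y, G.Adj z y ∧ y ≠ a ∧ y ≠ b := by
      by_contra hn
      exact hL ⟨hz, a, b, hab, ha, hb, fun y hy => by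
        by_contra hc; exact hn ⟨y, hy, by tauto, by tauto⟩⟩
    obtain ⟨y, h1, h2, h3⟩ := this
    have h5 := W_Z_ge hz {y, a, b} (by simp [ha, hb, h1])
    rw [Finset.sum_insert (by simp [h2, h3]), Finset.sum_pair hab] at h5
    have := (om_Z hz h1).1
    rw [keep_nonL hL] at e1 e2
    linarith

omit [Fintype V] in
lemma NL.mid {d m : V} (h : NL G S d) (h1 : G.Adj d m) (h2 : IsA G S m) (h3 : ¬ Leaf G S m) :
    ∃ t e, Mid G S d t e m ∧ Leaf G S e := by
  obtain ⟨t, e, m', h4, h5, -⟩ := h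
  rcases h4.2.2.2.2.2.2 m h1 h2 with rfl | rfl
  · exact absurd h5 h3
  · exact ⟨t, e, h4, h5⟩

lemma W_nonneg (x : V) : 0 ≤ W G S x := by
  classical
  by_cases h : S x
  · unfold W om; simp [h]
  by_cases hA : IsA G S x
  · by_cases h1 : Leaf G S x
    · obtain ⟨s, y, hl⟩ := h1
      by_cases h2 : Leaf G S y
      · have := W_leaf_leaf hl h2
        have := K_nonneg (G := G) (S := S) x
        have := K_nonneg (G := G) (S := S) y
        linarith
      · have := W_leaf_non hl h2; linarith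
    by_cases h2 : NL G S x
    · obtain ⟨s, a, d, hm, ha, hd⟩ := h2
      by_cases h3 : NL G S d
      · obtain ⟨t, e, h4, h5⟩ := h3.mid hm.2.2.2.2.2.1.symm hA h1
        have := W_nl_nl hm h4 ha h5
        have := K_nonneg (G := G) (S := S) x
        have := K_nonneg (G := G) (S := S) a
        have := K_nonneg (G := G) (S := S) d
        have := K_nonneg (G := G) (S := S) e
        linarith
      · have := W_nl_non hm ha hd h3; linarith
    · have := AA_ge h1 h2 ∅ (by simp)
      have := HH_one hA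
      have := K_nonneg (G := G) (S := S) x
      rw [W_A hA]
      simp at *
      linarith
  · simpa using W_Z_ge ((notA_iff h).1 hA) ∅ (by simp)

end Pool.Agent.MP_8ccfd2_co
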