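import Pool.Agent.MP_8ccfd2_co.Upper

namespace Pool.Agent.MP_8ccfd2_co

lemma edges_WG {V : Type} [Fintype V] {role blk : V → ℕ} (r : V)
    (u0 : ∀ x, role x = 0 → x = r)
    (u1 : ∀ x y, role x = role y → (role x = 1 ∨ role x = 2) → blk x = blk y → x = y)
    (ex : ∀ x, ∃ p q, blk p = blk x ∧ blk q = blk x ∧ role p = 1 ∧ role q = 2) :
    (WG role blk).edgeSet.ncard ≤
      Fintype.card V + (Finset.univ.filter fun x => 2 ≤ role x).card := by
  classical
  choose P Q h using ex
  let f1 : V → Sym2 V := fun x => if role x ≤ 2 then s(r, x) else s(P x, x)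
  let f2 : V → Sym2 V := fun x => if role x = 2 then s(P x, x) else s(Q x, x)
  have key : ∀ x y, WR role blk x y → s(x, y) = f1 y ∨ (2 ≤ role y ∧ s(x, y) = f2 y) := by
    intro x y hxy
    obtain ⟨h1, h2, h3, h4⟩ := h y
    rcases hxy with ⟨h5, h6⟩ | ⟨h5, h6, h7⟩
    · left
      simp only [f1]
      rw [if_pos (by omega), u0 x h5]
    · rcases h6 with h6 | h6
      · have e : x = P y := u1 _ _ (by omega) (by omega) (by omega)
        by_cases h8 : role y = 2
        · right
          simp only [f2]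
          exact ⟨by omega, by rw [if_pos h8, e]⟩
        · left
          simp only [f1]
          rw [if_neg (by omega), e]
      · have e : x = Q y := u1 _ _ (by omega) (by omega) (by omega)
        right
        simp only [f2]
        exact ⟨by omega, by rw [if_neg (by omega), e]⟩
  have hsub : (WG role blk).edgeSet ⊆
      ((Finset.univ.image f1 ∪ (Finset.univ.filter fun x => 2 ≤ role x).image f2 :
        Finset (Sym2 V)) : Set (Sym2 V)) := by
    intro e he
    have : ∃ x y, WR role blk x y ∧ e = s(x, y) := by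
      induction e using Sym2.ind with
      | h x y =>
        rcases he with h1 | h1
        · exact ⟨x, y, h1, rfl⟩
        · exact ⟨y, x, h1, Sym2.eq_swap⟩
    obtain ⟨x, y, h1, rfl⟩ := this
    simp only [Finset.coe_union, Finset.coe_image, Set.mem_union, Set.mem_image, Finset.mem_coe,
      Finset.mem_filter, Finset.mem_univ, true_and]
    rcases key x y h1 with h2 | h2
    · exact Or.inl ⟨y, h2.symm⟩
    · exact Or.inr ⟨y, h2.1, h2.2.symm⟩
  have h1 := Set.ncard_le_ncard hsub (Finset.finite_toSet _)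
  rw [Set.ncard_coe_finset] at h1
  have h2 := Finset.card_union_le (Finset.univ.image f1)
    ((Finset.univ.filter fun x => 2 ≤ role x).image f2)
  have h3 : (Finset.univ.image f1).card ≤ Fintype.card V := Finset.card_image_le
  have h4 : ((Finset.univ.filter fun x => 2 ≤ role x).image f2).card ≤ _ := Finset.card_image_le
  omega

def rl (q v : ℕ) : ℕ :=
  if v = 0 then 0 else if v ≤ 5 * q then
    (if (v - 1) % 5 = 0 then 1 else if (v - 1) % 5 = 1 then 2 else 3) else 3

def bl (q v : ℕ) : ℕ := if v ≤ 5 * q then (v - 1) / 5 else 0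

lemma bl_lt {q : ℕ} (hq : 1 ≤ q) (v : ℕ) : bl q v < q := by
  unfold bl; split_ifs <;> omega

lemma blk_spec {q b : ℕ} (hb : b < q) :
    (bl q (5 * b + 1) = b ∧ bl q (5 * b + 2) = b ∧ bl q (5 * b + 3) = b ∧ bl q (5 * b + 4) = b ∧
      bl q (5 * b + 5) = b) ∧ (rl q (5 * b + 1) = 1 ∧ rl q (5 * b + 2) = 2 ∧ rl q (5 * b + 3) = 3 ∧
      rl q (5 * b + 4) = 3 ∧ rl q (5 * b + 5) = 3) := by
  unfold bl rl
  refine ⟨⟨?_, ?_, ?_, ?_, ?_⟩, ?_, ?_, ?_, ?_, ?_⟩ <;> split_ifs <;> omega

theorem upper {n : ℕ} (hn : 6 ≤ n) : ∃ (G : SimpleGraph (Fin n)) (c : Sym2 (Fin n) → ℕ),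
    RainbowSat (SimpleGraph.cycleGraph 5) G c ∧ 5 * G.edgeSet.ncard ≤ 9 * n + 5 := by
  classical
  obtain ⟨c, hc⟩ := exists_injective_nat (Sym2 (Fin n))
  set q := (n - 1) / 5 with hq
  have q1 : 1 ≤ q := by omega
  let role : Fin n → ℕ := fun x => rl q x
  let blk : Fin n → ℕ := fun x => bl q x
  have u0 : ∀ x, role x = 0 → x = ⟨0, by omega⟩ := by
    intro x hx
    ext
    simp only [role, rl] at hx
    split_ifs at hx
    assumption
  have u1 : ∀ x y, role x = role y → (role x = 1 ∨ role x = 2) → blk x = blk y → x = y := by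
    intro x y h1 h2 h3
    ext
    simp only [role, rl, blk, bl] at h1 h2 h3
    split_ifs at h1 h2 h3 <;> omega
  have ex : ∀ x, ∃ p q l1 l2 l3, (blk p = blk x ∧ blk q = blk x ∧ blk l1 = blk x ∧
      blk l2 = blk x ∧ blk l3 = blk x) ∧
      (role p = 1 ∧ role q = 2 ∧ role l1 = 3 ∧ role l2 = 3 ∧ role l3 = 3) ∧
      l1 ≠ l2 ∧ l1 ≠ l3 ∧ l2 ≠ l3 := by
    intro x
    have h1 : bl q x < q := bl_lt q1 x
    have h2 := blk_spec h1
    exact ⟨⟨5 * bl q x + 1, by omega⟩, ⟨5 * bl q x + 2, by omega⟩, ⟨5 * bl q x + 3, by omega⟩,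
      ⟨5 * bl q x + 4, by omega⟩, ⟨5 * bl q x + 5, by omega⟩, h2.1, h2.2, by simp, by simp, by simp⟩
  refine ⟨WG role blk, c, rainbowSat_of_sat (sat_WG (fun x y => by rw [Sym2.eq_swap])
    (fun a b d e h => Sym2.eq_iff.1 (hc h)) ⟨0, by omega⟩ (by simp [role, rl]) u0 u1
    (fun x => by simp only [role, rl]; split_ifs <;> omega) ex), ?_⟩
  have h1 := edges_WG _ u0 u1 (fun x => by
    obtain ⟨p, q, l1, l2, l3, h1, h2, -⟩ := ex x
    exact ⟨p, q, h1.1, h1.2.1, h2.1, h2.2.1⟩)
  have h2 : q ≤ (Finset.univ.filter fun x => ¬ 2 ≤ role x).card := by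
    let g : Fin q → Fin n := fun b => ⟨5 * b + 1, by omega⟩
    have := Finset.card_le_card_of_injOn (s := Finset.univ)
      (t := Finset.univ.filter fun x => ¬ 2 ≤ role x) g (fun b _ => by
        have := (blk_spec b.2).2.1
        simp only [Finset.coe_filter, Finset.mem_univ, true_and, Set.mem_ofPred_eq, role, g]
        omega) (fun a _ b _ h => by
        simp only [g, Fin.mk.injEq] at h
        ext; omega)
    simpa using this
  have h3 := Finset.card_filter_add_card_filter_not (s := (Finset.univ : Finset (Fin n)))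
    (fun x => 2 ≤ role x)
  simp only [Finset.card_univ, Fintype.card_fin] at h1 h3
  omega

end Pool.Agent.MP_8ccfd2_co
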