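import Pool.Agent.MP_8ccfd2_co.Count
import Pool.Agent.MP_8ccfd2_co.Upper2

namespace Pool.Agent.MP_8ccfd2_co

open Filter Topology

lemma rsat_upper {n : ℕ} (hn : 6 ≤ n) : 5 * rsat n (SimpleGraph.cycleGraph 5) ≤ 9 * n + 5 := by
  obtain ⟨G, c, h1, h2⟩ := upper hn
  have : rsat n (SimpleGraph.cycleGraph 5) ≤ G.edgeSet.ncard := Nat.sInf_le ⟨G, c, h1, rfl⟩
  omega

lemma rsat_lower {n : ℕ} (hn : 6 ≤ n) (D : ℕ) :
    18 * D * n ≤ (10 * D + 1188) * rsat n (SimpleGraph.cycleGraph 5) + 18 * D * CC D := by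
  obtain ⟨G, c, h1, -⟩ := upper hn
  have hne : {m | ∃ (G : SimpleGraph (Fin n)) (c : Sym2 (Fin n) → ℕ),
      RainbowSat (SimpleGraph.cycleGraph 5) G c ∧ G.edgeSet.ncard = m}.Nonempty :=
    ⟨_, G, c, h1, rfl⟩
  obtain ⟨G', c', h3, h4⟩ := Nat.sInf_mem hne
  have := lower (sat_of_rainbowSat h3) (by simp; omega) D
  rw [h4, Fintype.card_fin] at this
  exact this

theorem five : Tendsto (fun n : ℕ => (rsat n (SimpleGraph.cycleGraph 5) : ℝ) / n) atTop
    (𝓝 (9 / 5)) := by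
  rw [tendsto_order]
  constructor
  · intro a ha
    obtain ⟨D, hD⟩ := exists_nat_gt (max 0 (1188 * a / (18 - 10 * a)))
    have h0 : (0 : ℝ) < D := (le_max_left _ _).trans_lt hD
    have h1 : 1188 * a / (18 - 10 * a) < D := (le_max_right _ _).trans_lt hD
    rw [div_lt_iff₀ (by linarith)] at h1
    have h2 : 0 < 18 * (D : ℝ) - (10 * D + 1188) * a := by linarith
    obtain ⟨N, hN⟩ := exists_nat_gt (18 * (D : ℝ) * CC D / (18 * (D : ℝ) - (10 * D + 1188) * a))
    rw [div_lt_iff₀ h2] at hN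
    filter_upwards [eventually_ge_atTop (max 6 N)] with n hn
    have n6 : 6 ≤ n := (le_max_left _ _).trans hn
    have nN : (N : ℝ) ≤ n := by exact_mod_cast (le_max_right _ _).trans hn
    have n0 : (0 : ℝ) < n := by exact_mod_cast (by omega : 0 < n)
    have h3 : 18 * (D : ℝ) * n ≤ (10 * D + 1188) * (rsat n (SimpleGraph.cycleGraph 5) : ℝ) +
        18 * D * CC D := by exact_mod_cast rsat_lower n6 D
    rw [lt_div_iff₀ n0]
    have h4 := mul_le_mul_of_nonneg_right nN h2.le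
    have h5 : (10 * (D : ℝ) + 1188) * (a * n) <
        (10 * D + 1188) * (rsat n (SimpleGraph.cycleGraph 5) : ℝ) := by nlinarith
    exact lt_of_mul_lt_mul_left h5 (by linarith)
  · intro a ha
    obtain ⟨N, hN⟩ := exists_nat_gt (5 / (5 * a - 9))
    rw [div_lt_iff₀ (by linarith)] at hN
    filter_upwards [eventually_ge_atTop (max 6 N)] with n hn
    have n6 : 6 ≤ n := (le_max_left _ _).trans hn
    have nN : (N : ℝ) ≤ n := by exact_mod_cast (le_max_right _ _).trans hn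
    have n0 : (0 : ℝ) < n := by exact_mod_cast (by omega : 0 < n)
    have h3 : 5 * (rsat n (SimpleGraph.cycleGraph 5) : ℝ) ≤ 9 * n + 5 := by
      exact_mod_cast rsat_upper n6
    rw [div_lt_iff₀ n0]
    have h4 := mul_le_mul_of_nonneg_right nN (by linarith : 0 ≤ 5 * a - 9)
    nlinarith

end Pool.Agent.MP_8ccfd2_co
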