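import Pool.Agent.MP_8ccfd2_co.Disch

namespace Pool.Agent.MP_8ccfd2_co

variable {V : Type} (G : SimpleGraph V) (S : V → Prop)

def Small (a : V) : Prop := ∃ P : Finset V, P.card ≤ 4 ∧ ∀ x, ¬ Far G S 9 a x → x ∈ P

def Good (x : V) : Prop := GZ G S x ∧
  (IsZ G S x → ∃ a b, a ≠ b ∧ G.Adj x a ∧ G.Adj x b ∧ IsA G S a ∧ IsA G S b) ∧
  (∀ s, Hub1 G S x s → ∃ a, G.Adj x a ∧ IsA G S a) ∧ GN G S x ∧
  ((Small G S x ∨ ∃ z, IsZ G S z) → GX G S x)

variable {G S} {c : V → V → ℕ}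

lemma near0 (x : V) : ¬ Far G S 9 x x := by
  rintro ⟨δ, h0, h9, -⟩; omega

lemma near1 {a x : V} (ha : ¬ S a) (hx : ¬ S x) (h : G.Adj a x) : ¬ Far G S 9 a x := by
  rintro ⟨δ, h0, h9, hl⟩
  have := hl a x h ha hx
  omega

lemma near2 {a y x : V} (ha : ¬ S a) (hy : ¬ S y) (hx : ¬ S x) (h : G.Adj a y) (h' : G.Adj y x) :
    ¬ Far G S 9 a x := by
  rintro ⟨δ, h0, h9, hl⟩
  have := hl a y h ha hy
  have := hl y x h' hy hx
  omega

lemma gx_closed (P : Finset V) (hP : P.card ≤ 4)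
    (hc : ∀ p ∈ P, ∀ q, G.Adj p q → IsA G S q → q ∈ P) {a : V} (ha : a ∈ P) (hg : Good G S a) :
    GX G S a := by
  classical
  refine hg.2.2.2.2 ?_
  by_cases hZ : ∃ z, IsZ G S z
  · exact Or.inr hZ
  refine Or.inl ⟨P, hP, fun x hx => ?_⟩
  by_contra hn
  refine hx ⟨fun y => if y ∈ P then 0 else 9, by simp [ha], by simp [hn], fun p q h1 h2 h3 => ?_⟩
  by_cases h4 : p ∈ P
  · have : q ∈ P := hc p h4 q h1 (by
      by_contra h5; exact hZ ⟨q, (notA_iff h3).1 h5⟩)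
    simp [this]
  · simp only [h4, if_false]
    split_ifs <;> omega

lemma card4 [DecidableEq V] (a b d e : V) : ({a, b, d, e} : Finset V).card ≤ 4 :=
  Finset.card_le_four

variable [Fintype V]

theorem W_good (hs : Sat G c) {x : V} (hx : ¬ S x) (hg : ∀ a, ¬ Far G S 9 a x → Good G S a) :
    18 ≤ W G S x := by
  classical
  have g0 := hg x (near0 x)
  by_cases hA : IsA G S x
  swap
  · have hz := (notA_iff hx).1 hA
    obtain ⟨a, b, h1, h2, h3, h4, h5⟩ := g0.2.1 hz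
    exact W_Z hz h1 h2 h3 h4 h5
  by_cases h1 : Leaf G S x
  · obtain ⟨s, y, hl⟩ := h1
    by_cases h2 : Leaf G S y
    · obtain ⟨t, hy⟩ := h2.lf hl.2.2.1.symm hA
      have gy := hg y (near1 hy.1.1 hx hy.2.2.1)
      have hc : ∀ p ∈ ({x, y, x, y} : Finset V), ∀ q, G.Adj p q → IsA G S q →
          q ∈ ({x, y, x, y} : Finset V) := by
        have := hl.2.2.2
        have := hy.2.2.2
        simp only [Finset.mem_insert, Finset.mem_singleton]
        grind
      have := k2 hs hl hy (gx_closed _ (card4 ..) hc (by simp) g0)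
        (gx_closed _ (card4 ..) hc (by simp) gy) g0.1 gy.1
      have := W_leaf_leaf hl h2
      linarith
    · exact W_leaf_non hl h2
  by_cases h2 : NL G S x
  · obtain ⟨s, a, d, hm, ha, hd⟩ := h2
    by_cases h3 : NL G S d
    · obtain ⟨t, e, h4, h5⟩ := h3.mid hm.2.2.2.2.2.1.symm hA h1
      obtain ⟨sa, la⟩ := ha.lf hm.2.2.2.2.1.symm hA
      obtain ⟨se, le⟩ := h5.lf h4.2.2.2.2.1.symm h4.1.isA
      have ga := hg a (near1 la.1.1 hx la.2.2.1)
      have gd := hg d (near1 h4.1.1 hx h4.2.2.2.2.2.1)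
      have ge := hg e (near2 le.1.1 h4.1.1 hx le.2.2.1 h4.2.2.2.2.2.1)
      have hc : ∀ p ∈ ({x, a, d, e} : Finset V), ∀ q, G.Adj p q → IsA G S q →
          q ∈ ({x, a, d, e} : Finset V) := by
        have := la.2.2.2
        have := le.2.2.2
        have := hm.2.2.2.2.2.2
        have := h4.2.2.2.2.2.2
        simp only [Finset.mem_insert, Finset.mem_singleton]
        grind
      have := p4 hs hm h4 la le (gx_closed _ (card4 ..) hc (by simp) g0)
        (gx_closed _ (card4 ..) hc (by simp) gd) g0.2.2.2.1 gd.2.2.2.1 g0.1 gd.1 ga.1 ge.1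
      have := W_nl_nl hm h4 ha h5
      linarith
    · exact W_nl_non hm ha hd h3
  have k0 := K_nonneg (G := G) (S := S) x
  rw [W_A hA]
  obtain ⟨-, s, s1, s2⟩ := id hA
  by_cases h3 : ∃ t, t ≠ s ∧ G.Adj x t ∧ S t
  · obtain ⟨t, t1, t2, t3⟩ := h3
    have := HH_two t2 s2 t3 s1 t1
    have := AA_ge h1 h2 ∅ (by simp)
    simp at this
    linarith
  have hub : Hub1 G S x s := ⟨hx, s1, s2, fun t h4 h5 => by
    by_contra h6; exact h3 ⟨t, h6, h4, h5⟩⟩
  have hh := HH_one hA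
  obtain ⟨p, p1, p2⟩ := g0.2.2.1 s hub
  have : ∃ q, q ≠ p ∧ G.Adj x q ∧ IsA G S q := by
    by_contra hn
    exact h1 ⟨s, p, hub, p2, p1, fun y h4 h5 => by by_contra h6; exact hn ⟨y, h6, h4, h5⟩⟩
  obtain ⟨q, q0, q1, q2⟩ := this
  have tp := term_other (y := p) h1 h2
  have tq := term_other (y := q) h1 h2
  have tp2 := term_two (y := p) h1 h2
  have tq2 := term_two (y := q) h1 h2
  by_cases h4 : ∃ r, r ≠ p ∧ r ≠ q ∧ G.Adj x r ∧ IsA G S r
  swap
  · have hm : Mid G S x s p q := ⟨hub, q0.symm, p2, q2, p1, q1, fun y h5 h6 => by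
      by_contra h7; exact h4 ⟨y, by tauto, by tauto, h5, h6⟩⟩
    rw [AA_mid hm]
    by_cases lp : Leaf G S p <;> by_cases lq : Leaf G S q
    · obtain ⟨sp, la⟩ := lp.lf p1.symm hA
      obtain ⟨sq, ld⟩ := lq.lf q1.symm hA
      have ga := hg p (near1 la.1.1 hx la.2.2.1)
      have gd := hg q (near1 ld.1.1 hx ld.2.2.1)
      have hc : ∀ y ∈ ({x, p, q, q} : Finset V), ∀ z, G.Adj y z → IsA G S z →
          z ∈ ({x, p, q, q} : Finset V) := by
        have := la.2.2.2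
        have := ld.2.2.2
        have := hm.2.2.2.2.2.2
        simp only [Finset.mem_insert, Finset.mem_singleton]
        grind
      have := p3 hs hm la ld (gx_closed _ (card4 ..) hc (by simp) g0)
        (gx_closed _ (card4 ..) hc (by simp) ga) (gx_closed _ (card4 ..) hc (by simp) gd)
        g0.1 ga.1 gd.1 g0.2.2.2.1
      rw [tp.1 lp, tq.1 lq]
      linarith
    · exact absurd ⟨s, p, q, hm, lp, lq⟩ h2
    · exact absurd ⟨s, q, p, hm.swap, lq, lp⟩ h2
    · have := tp.2 lp; have := tq.2 lq; linarith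
  obtain ⟨r, r0, r0', r1, r2⟩ := h4
  have tr' := term_other (y := r) h1 h2
  have tr2 := term_two (y := r) h1 h2
  by_cases h5 : ∃ t, t ≠ p ∧ t ≠ q ∧ t ≠ r ∧ G.Adj x t ∧ IsA G S t
  · obtain ⟨t, t0, t0', t0'', t1, t2⟩ := h5
    have tt2 := term_two (y := t) h1 h2
    have := AA_ge h1 h2 {t, r, q, p} (by simp [p1, p2, q1, q2, r1, r2, t1, t2])
    rw [Finset.sum_insert (by simp [t0, t0', t0'']), Finset.sum_insert (by simp [r0, r0']),
      Finset.sum_pair q0] at this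
    linarith
  have h6 := AA_ge h1 h2 {r, q, p} (by simp [p1, p2, q1, q2, r1, r2])
  rw [Finset.sum_insert (by simp [r0, r0']), Finset.sum_pair q0] at h6
  by_cases lp : Leaf G S p
  swap
  · have := tp.2 lp; linarith
  by_cases lq : Leaf G S q
  swap
  · have := tq.2 lq; linarith
  by_cases lr : Leaf G S r
  swap
  · have := tr'.2 lr; linarith
  obtain ⟨sp, la⟩ := lp.lf p1.symm hA
  obtain ⟨sq, ld⟩ := lq.lf q1.symm hA
  obtain ⟨sr, le⟩ := lr.lf r1.symm hA
  have st : Star G S x s p q r sp sq sr := ⟨hub, la, ld, le, q0.symm, r0.symm, r0'.symm,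
    fun y h7 h8 => by by_contra h9; exact h5 ⟨y, by tauto, by tauto, by tauto, h7, h8⟩⟩
  have hc : ∀ y ∈ ({x, p, q, r} : Finset V), ∀ z, G.Adj y z → IsA G S z →
      z ∈ ({x, p, q, r} : Finset V) := by
    have := la.2.2.2
    have := ld.2.2.2
    have := le.2.2.2
    have := st.nm
    simp only [Finset.mem_insert, Finset.mem_singleton]
    grind
  have := s3 hs st (gx_closed _ (card4 ..) hc (by simp) g0) g0.1
  rw [tp.1 lp, tq.1 lq, tr'.1 lr] at h6
  linarith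

end Pool.Agent.MP_8ccfd2_co
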