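import Pool.Agent.MP_8ccfd2_co.Basic

namespace Pool.Agent.MP_8ccfd2_co

variable {V : Type} (G : SimpleGraph V) (S : V → Prop)

open Classical in
noncomputable def keep (x z : V) : ℚ :=
  if IsL G S z then 1 + (if ∃ y, y ≠ x ∧ G.Adj z y ∧ Rob G S y then 1 else 0) -
    (if Rob G S x then 1 else 0) else 7 / 2

open Classical in
noncomputable def K [Fintype V] (x : V) : ℚ :=
  ∑ z, if G.Adj x z ∧ IsZ G S z then keep G S x z else 0

def HasM (x : V) : Prop := ∃ z, G.Adj x z ∧ IsZ G S z ∧ ¬ IsL G S z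
def GZ (x : V) : Prop := ∀ z, G.Adj x z → IsZ G S z →
  ∃ a b, a ≠ b ∧ G.Adj z a ∧ G.Adj z b ∧ IsA G S a ∧ IsA G S b
def GX (x : V) : Prop := ∀ s, ¬ X1 G S x s ∧ ¬ X2 G S x s
def GN (x : V) : Prop := ∀ s, NX G S x s → ∃ y, NX G S y s ∧ Far G S 9 x y

variable {G S}

lemma keep_nonneg (x z : V) : 0 ≤ keep G S x z := by
  unfold keep; split_ifs <;> norm_num

lemma keep_le (x z : V) : keep G S x z ≤ 7 / 2 := by
  unfold keep; split_ifs <;> norm_num

lemma keep_nonL {x z : V} (h : ¬ IsL G S z) : keep G S x z = 7 / 2 := by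
  unfold keep; rw [if_neg h]

lemma keep_one {x : V} (z : V) (h : ¬ Rob G S x) : 1 ≤ keep G S x z := by
  unfold keep; rw [if_neg h]; split_ifs <;> norm_num

lemma ex_other {z a b : V} (h : Two G z a b) :
    (∃ y, y ≠ a ∧ G.Adj z y ∧ Rob G S y) ↔ Rob G S b := by
  constructor
  · rintro ⟨y, h1, h2, h3⟩
    rcases h.2.2.2 y h2 with rfl | rfl
    · exact absurd rfl h1
    · exact h3
  · intro hb; exact ⟨b, h.1.symm, h.2.2.1, hb⟩

lemma keep_sum {z a b : V} (hz : IsZ G S z) (h : Two G z a b) :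
    keep G S a z + keep G S b z = 2 := by
  have hL : IsL G S z := ⟨hz, a, b, h⟩
  unfold keep
  have h1 := ex_other (S := S) h
  have h2 := ex_other (S := S) h.swap
  rw [if_pos hL, if_pos hL]
  by_cases ha : Rob G S a <;> by_cases hb : Rob G S b
  · rw [if_pos (h1.2 hb), if_pos (h2.2 ha), if_pos ha, if_pos hb]; norm_num
  · rw [if_neg (fun h => hb (h1.1 h)), if_pos (h2.2 ha), if_pos ha, if_neg hb]; norm_num
  · rw [if_pos (h1.2 hb), if_neg (fun h => ha (h2.1 h)), if_neg ha, if_pos hb]; norm_num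
  · rw [if_neg (fun h => hb (h1.1 h)), if_neg (fun h => ha (h2.1 h)), if_neg ha, if_neg hb]
    norm_num

lemma keep_two {z a b : V} (hz : IsZ G S z) (h : Two G z a b) (ha : ¬ Rob G S a)
    (hb : Rob G S b) : keep G S a z = 2 := by
  have hL : IsL G S z := ⟨hz, a, b, h⟩
  unfold keep
  rw [if_pos hL, if_pos ((ex_other h).2 hb), if_neg ha]
  norm_num

variable [Fintype V]

lemma K_ge (x : V) (P : Finset V) (hP : ∀ z ∈ P, G.Adj x z ∧ IsZ G S z) :
    ∑ z ∈ P, keep G S x z ≤ K G S x := by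
  classical
  unfold K
  calc ∑ z ∈ P, keep G S x z
      = ∑ z ∈ P, if G.Adj x z ∧ IsZ G S z then keep G S x z else 0 :=
        Finset.sum_congr rfl fun z hz => by rw [if_pos (hP z hz)]
    _ ≤ _ := by
        refine Finset.sum_le_sum_of_subset_of_nonneg (Finset.subset_univ _) fun z _ _ => ?_
        split_ifs
        · exact keep_nonneg _ _
        · exact le_rfl

lemma K_nonneg (x : V) : 0 ≤ K G S x := by
  simpa using K_ge (G := G) (S := S) x ∅ (by simp)

lemma K_ge1 {x z : V} (h : G.Adj x z) (hz : IsZ G S z) : keep G S x z ≤ K G S x := by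
  simpa using K_ge (G := G) (S := S) x {z} (by simp [h, hz])

lemma K_ge2 {x z w : V} (h : G.Adj x z) (hz : IsZ G S z) (h' : G.Adj x w) (hw : IsZ G S w)
    (hne : z ≠ w) : keep G S x z + keep G S x w ≤ K G S x := by
  classical
  have := K_ge (G := G) (S := S) x {z, w} (by simp [h, hz, h', hw])
  rwa [Finset.sum_pair hne] at this

lemma K_ge3 {x z w y : V} (h : G.Adj x z) (hz : IsZ G S z) (h' : G.Adj x w) (hw : IsZ G S w)
    (h'' : G.Adj x y) (hy : IsZ G S y) (hne : z ≠ w) (h1 : z ≠ y) (h2 : w ≠ y) :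
    keep G S x z + keep G S x w + keep G S x y ≤ K G S x := by
  classical
  have := K_ge (G := G) (S := S) x {z, w, y} (by simp [h, hz, h', hw, h'', hy])
  rw [Finset.sum_insert (by simp [hne, h1]), Finset.sum_pair h2] at this
  linarith

lemma HasM.le {x : V} (h : HasM G S x) : 7 / 2 ≤ K G S x := by
  obtain ⟨z, h1, h2, h3⟩ := h
  have := K_ge1 h1 h2
  rwa [keep_nonL h3] at this

omit [Fintype V] in
lemma GZ.noM {x : V} (h : GZ G S x) (hM : ¬ HasM G S x) : NoM G S x := by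
  intro z h1 h2
  have hL : IsL G S z := by by_contra hL; exact hM ⟨z, h1, h2, hL⟩
  obtain ⟨-, p, q, ht⟩ := hL
  obtain ⟨a, b, hab, ha, hb, hA, hB⟩ := h z h1 h2
  have h4 := ht.2.2.2
  have hp : IsA G S p := by grind
  have hq : IsA G S q := by grind
  rcases h4 x h1.symm with rfl | rfl
  · exact ⟨q, ht, hq⟩
  · exact ⟨p, ht.swap, hp⟩

omit [Fintype V] in
lemma GZ.hasM {x z y : V} (h : GZ G S x) (h1 : G.Adj x z) (hz : IsZ G S z) (h2 : G.Adj z y)
    (hy : IsZ G S y) : HasM G S x := by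
  refine ⟨z, h1, hz, ?_⟩
  rintro ⟨-, p, q, ht⟩
  obtain ⟨a, b, hab, ha, hb, hA, hB⟩ := h z h1 hz
  have h4 := ht.2.2.2
  have := hA.notZ
  have := hB.notZ
  grind

end Pool.Agent.MP_8ccfd2_co
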