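import Pool.Agent.MP_8ccfd2_co.Basic

namespace Pool.Agent.MP_8ccfd2_co

variable {V : Type} {G : SimpleGraph V} {S : V → Prop} {c : V → V → ℕ}

lemma Lip.le {δ : V → ℕ} (h : Lip G S δ) {p q : V} (hpq : G.Adj p q) (hp : ¬ S p) (hq : ¬ S q) :
    δ q ≤ δ p + 1 ∧ δ p ≤ δ q + 1 := ⟨h p q hpq hp hq, h q p hpq.symm hq hp⟩

/-- far apart vertices are distinct and not adjacent -/
lemma Lip.rp (hs : Sat G c) {δ : V → ℕ} (h : Lip G S δ) {u v : V} (hu : ¬ S u) (hv : ¬ S v)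
    (hd : δ u + 1 < δ v) (i : ℕ) : RP G c u v i := by
  refine hs.path u v ?_ ?_ i
  · rintro rfl; omega
  · intro ha; have := h u v ha hu hv; omega

lemma Lip.hub {δ : V → ℕ} (h : Lip G S δ) {u w1 w2 w3 v : V} (hu : ¬ S u) (hv : ¬ S v)
    (hd : δ u + 4 < δ v) (h1 : G.Adj u w1) (h2 : G.Adj w1 w2) (h3 : G.Adj w2 w3)
    (h4 : G.Adj w3 v) : S w1 ∨ S w2 ∨ S w3 := by
  by_contra hc
  push Not at hc
  have := h _ _ h1 hu hc.1
  have := h _ _ h2 hc.1 hc.2.1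
  have := h _ _ h3 hc.2.1 hc.2.2
  have := h _ _ h4 hc.2.2 hv
  omega

lemma zfar (hs : Sat G c) {δ : V → ℕ} (hl : Lip G S δ) {v z : V} (hv : IsZ G S v) (hz : IsZ G S z)
    (hd : δ v + 4 < δ z) : ∃ a b, a ≠ b ∧ G.Adj z a ∧ G.Adj z b ∧ IsA G S a ∧ IsA G S b := by
  have key : ∀ i, ∃ a, G.Adj z a ∧ IsA G S a ∧ c a z ≠ i := by
    intro i
    obtain ⟨w1, w2, w3, h1, h2, h3, h4, -, hc⟩ := hl.rp hs hv.1 hz.1 (by omega) i
    have n1 := hv.2 _ h1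
    have n3 := hz.2 _ h4.symm
    have := hl.hub hv.1 hz.1 hd h1 h2 h3 h4
    exact ⟨w3, h4.symm, ⟨n3, w2, by tauto, h3.symm⟩, hc.2.2.2.2.2.2.2.2.2⟩
  obtain ⟨a, ha, hA, -⟩ := key 0
  obtain ⟨b, hb, hB, hne⟩ := key (c a z)
  exact ⟨a, b, by rintro rfl; exact hne rfl, ha, hb, hA, hB⟩

lemma bzero (hs : Sat G c) {δ : V → ℕ} (hl : Lip G S δ) {v x s : V} (hv : IsZ G S v)
    (hx : Hub1 G S x s) (hd : δ v + 4 < δ x) : ∃ a, G.Adj x a ∧ IsA G S a := by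
  obtain ⟨w1, w2, w3, h1, h2, h3, h4, -, hc⟩ := hl.rp hs hv.1 hx.1 (by omega) (c s x)
  have n1 := hv.2 _ h1
  have n3 : ¬ S w3 := fun h => by
    have := hx.2.2.2 _ h4.symm h
    subst this
    exact hc.2.2.2.2.2.2.2.2.2 rfl
  have := hl.hub hv.1 hx.1 hd h1 h2 h3 h4
  exact ⟨w3, h4.symm, n3, w2, by tauto, h3.symm⟩

lemma sigma (hs : Sat G c) {δ : V → ℕ} (hl : Lip G S δ) {v a s u b : V} (hv : IsZ G S v)
    (ha : Hub1 G S a s) (hu : ¬ S u) (h2 : Two G u a b) (hd : δ v + 5 < δ a) :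
    ∃ w, G.Adj v w ∧ G.Adj w s := by
  have := hl.le h2.2.1 hu ha.1
  obtain ⟨w1, w2, w3, h1, h2', h3, h4, -, hc⟩ := hl.rp hs hv.1 hu (by omega) (c b u)
  have n1 := hv.2 _ h1
  have e3 : w3 = a := by
    rcases h2.2.2.2 _ h4.symm with h | h
    · exact h
    · subst h; exact absurd rfl hc.2.2.2.2.2.2.2.2.2
  subst e3
  have := hl.hub hv.1 hu (by omega) h1 h2' h3 h4
  have n2 : S w2 := by have := ha.1; tauto
  have := ha.2.2.2 _ h3.symm n2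
  subst this
  exact ⟨w1, h1, h2'⟩

lemma x1_near (hs : Sat G c) {a a2 s : V} (h1 : X1 G S a s) (h2 : X1 G S a2 s) :
    ¬ Far G S 9 a a2 := by
  rintro ⟨δ, d0, d9, hl⟩
  obtain ⟨ha, ⟨u, b, hu, ht⟩, hn⟩ := h1
  obtain ⟨ha2, -, hn2⟩ := h2
  have := hl.le ht.2.1 hu ha.1
  obtain ⟨w1, w2, w3, e1, e2, e3, e4, -, hc⟩ := hl.rp hs hu ha2.1 (by omega) (c u b)
  have q1 : w1 = a := by
    rcases ht.2.2.2 _ e1 with h | h
    · exact h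
    · subst h; exact absurd rfl hc.2.2.2.2.2.2.1
  subst q1
  rcases hl.hub hu ha2.1 (by omega) e1 e2 e3 e4 with h | h | h
  · exact ha.1 h
  · have := ha.2.2.2 _ e2 h
    subst this
    exact hn2 _ e4.symm e3.symm
  · have := ha2.2.2.2 _ e4.symm h
    subst this
    exact hn _ e2 e3

lemma x2_near (hs : Sat G c) {a a2 s : V} (h1 : X2 G S a s) (h2 : X2 G S a2 s) :
    ¬ Far G S 9 a a2 := by
  rintro ⟨δ, d0, d9, hl⟩
  obtain ⟨ha, y, hy, ht, hn⟩ := h1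
  obtain ⟨ha2, y2, hy2, ht2, hn2⟩ := h2
  have := hl.le ht.2.1 hy ha.1
  have := hl.le ht2.2.1 hy2 ha2.1
  obtain ⟨w1, w2, w3, e1, e2, e3, e4, hne, hc⟩ := hl.rp hs hy hy2 (by omega) (c s a2)
  rcases ht.2.2.2 _ e1 with rfl | rfl <;> rcases ht2.2.2.2 _ e4.symm with rfl | rfl
  · rcases hl.hub hy hy2 (by omega) e1 e2 e3 e4 with h | h | h
    · exact ha.1 h
    · have := ha.2.2.2 _ e2 h
      subst this
      exact hc.2.2.2.2.2.2.2.2.1 rfl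
    · exact ha2.1 h
  · exact hne.1 (hn _ e2 e3).symm
  · exact hne.2.2.2.2 (hn2 _ e3.symm e2.symm)
  · exact hne.2.2.1 rfl

end Pool.Agent.MP_8ccfd2_co
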