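import Pool.Agent.MP_8ccfd2_co.Local1

namespace Pool.Agent.MP_8ccfd2_co

variable {V : Type} {G : SimpleGraph V} {S : V → Prop} {c : V → V → ℕ}

/-- the exceptional configuration -/
structure Exc (G : SimpleGraph V) (S : V → Prop) (c : V → V → ℕ) (a m d s v f u b w g : V) :
    Prop where
  la : Lf G S a s m
  ld : Lf G S d s m
  tm : Three G m a d s
  ad : a ≠ d
  na : ∀ y, G.Adj a y → y = m ∨ y = s ∨ y = v ∨ y = u
  nd : ∀ y, G.Adj d y → y = m ∨ y = s ∨ y = w
  tv : Two G v a f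
  tu : Two G u a b
  tw : Two G w d g
  zv : IsZ G S v
  zu : IsZ G S u
  zw : IsZ G S w
  af : IsA G S f
  ab : IsA G S b
  ag : IsA G S g
  fd : f ≠ d
  ga : g ≠ a
  fs : G.Adj f s
  gs : G.Adj g s
  cf : c m s = c f s
  cg : c m s = c g s
  c1 : c m s ≠ c a v
  c2 : c m s ≠ c v f

namespace Exc

variable {a m d s v f u b w g : V}

lemma mZ (h : Exc G S c a m d s v f u b w g) {z : V} (hz : IsZ G S z) : ¬ G.Adj m z := by
  intro hm
  rcases h.tm.2.2.2 z hm with rfl | rfl | rfl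
  · exact h.la.1.isA.notZ hz
  · exact h.ld.1.isA.notZ hz
  · exact hz.1 h.la.1.2.1

lemma fm (h : Exc G S c a m d s v f u b w g) : f ≠ m := by
  rintro rfl; exact h.mZ h.zv h.tv.2.2.1.symm

lemma gm (h : Exc G S c a m d s v f u b w g) : g ≠ m := by
  rintro rfl; exact h.mZ h.zw h.tw.2.2.1.symm

lemma bm (h : Exc G S c a m d s v f u b w g) : b ≠ m := by
  rintro rfl; exact h.mZ h.zu h.tu.2.2.1.symm

lemma naf (h : Exc G S c a m d s v f u b w g) : ¬ G.Adj a f :=
  fun ha => h.fm (h.la.2.2.2 f ha h.af)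

lemma ndf (h : Exc G S c a m d s v f u b w g) : ¬ G.Adj d f :=
  fun ha => h.fm (h.ld.2.2.2 f ha h.af)

lemma nmf (h : Exc G S c a m d s v f u b w g) : ¬ G.Adj m f := by
  intro hm
  rcases h.tm.2.2.2 f hm with h1 | h1 | h1
  · exact h.tv.1 h1.symm
  · exact h.fd h1
  · exact h.af.1 (h1 ▸ h.la.1.2.1)

lemma step0 (hs : Sat G c) (h : Exc G S c a m d s v f u b w g) :
    c s a ≠ c a v ∧ c s a ≠ c v f ∧ c d s ≠ c a v ∧ c d s ≠ c v f := by
  have hne : m ≠ v := by rintro rfl; exact h.la.2.1.notZ h.zv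
  obtain ⟨w1, w2, w3, e1, e2, e3, e4, hn, hc⟩ := hs.path m v hne (h.mZ h.zv) (c f v)
  have := hs.symm f v
  rcases h.tv.2.2.2 _ e4.symm with rfl | rfl
  swap
  · grind
  rcases h.na _ e3.symm with rfl | rfl | rfl | rfl
  · grind
  · rcases h.tm.2.2.2 _ e1 with rfl | rfl | rfl
    · grind
    · grind
    · exact absurd e2 (G.loopless.irrefl _)
  · grind
  · rcases h.tu.2.2.2 _ e2.symm with rfl | rfl
    · grind
    · rcases h.tm.2.2.2 _ e1 with h1 | h1 | h1
      · exact absurd h1.symm h.tu.1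
      · subst h1
        rcases h.nd _ e2 with h2 | h2 | h2
        · subst h2; exact absurd rfl hn.1
        · subst h2; exact absurd h.la.1.2.1 h.zu.1
        · subst h2
          rcases h.tw.2.2.2 _ e3 with h3 | h3
          · exact absurd h3 h.ad
          · exact absurd h3.symm h.ga
      · subst h1; exact absurd h.la.1.2.1 h.ab.1

lemma step0' (hs : Sat G c) (h : Exc G S c a m d s v f u b w g) :
    c s d ≠ c d w ∧ c s d ≠ c w g := by
  have hne : m ≠ w := by rintro rfl; exact h.la.2.1.notZ h.zw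
  obtain ⟨w1, w2, w3, e1, e2, e3, e4, hn, hc⟩ := hs.path m w hne (h.mZ h.zw) (c g w)
  have := hs.symm g w
  rcases h.tw.2.2.2 _ e4.symm with rfl | rfl
  swap
  · grind
  rcases h.nd _ e3.symm with rfl | rfl | rfl
  · grind
  · grind
  · grind

lemma demA (hs : Sat G c) (h : Exc G S c a m d s v f u b w g) :
    ∃ x, G.Adj f x ∧ G.Adj x s ∧ c f x ≠ c x s ∧ c f x ≠ c s a ∧ c x s ≠ c s a := by
  have sy : ∀ x y, G.Adj x y → G.Adj y x := fun _ _ h => h.symm
  have ir : ∀ x, ¬ G.Adj x x := fun x => G.loopless.irrefl x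
  have cs := hs.symm
  have := h.naf
  have := h.ndf
  have := h.nmf
  have h1 := h.tm.2.2.2
  have h2 := h.na
  have h3 := h.nd
  have h4 := h.tv.2.2.2
  have h5 := h.tu.2.2.2
  have h6 := h.tw.2.2.2
  have := h.cf
  have := h.cg
  have := h.fd
  have := h.ad
  by_cases hb : b = f
  · have hg : f = g := by
      have hna : ¬ G.Adj a d := fun ha => by
        have := h.la.2.2.2 d ha h.ld.1.isA
        subst this
        exact ir _ h.ld.2.2.1
      obtain ⟨w1, w2, w3, e1, e2, e3, e4, hn, hc⟩ := hs.path a d h.ad hna (c m s)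
      grind
    have hne : w ≠ a := by rintro rfl; exact h.la.1.isA.notZ h.zw
    have hna : ¬ G.Adj w a := fun ha => by
      have := h.ga
      grind
    obtain ⟨w1, w2, w3, e1, e2, e3, e4, hn, hc⟩ := hs.path w a hne hna (c w d)
    grind
  · have hne : u ≠ f := by rintro rfl; exact h.af.notZ h.zu
    have hna : ¬ G.Adj u f := fun ha => by
      have := h.tv.1
      grind
    obtain ⟨w1, w2, w3, e1, e2, e3, e4, hn, hc⟩ := hs.path u f hne hna (c u b)
    grind

lemma demB (hs : Sat G c) (h : Exc G S c a m d s v f u b w g) {x : V} (h1 : G.Adj f x)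
    (h2 : G.Adj x s) (q1 : c f x ≠ c x s) (q2 : c f x ≠ c s a) (q3 : c x s ≠ c s a) :
    c f x = c v f ∨ c f x = c a v ∨ c x s = c v f ∨ c x s = c a v ∨ c v f = c a v := by
  have hxa : x ≠ a := by rintro rfl; exact h.naf h1.symm
  have hvx : v ≠ x := by rintro rfl; exact h.zv.2 _ h2 h.la.1.2.1
  have hvs : v ≠ s := by rintro rfl; exact h.zv.1 h.la.1.2.1
  have := hs.cyc v f x s a h.tv.2.2.1 h1 h2 h.la.1.2.2.1.symm h.tv.2.1.symm hvx hvs h.fs.ne
    h.tv.1.symm hxa
  have := h.step0 hs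
  grind

lemma demTwo (hs : Sat G c) (h : Exc G S c a m d s v f u b w g) :
    ∃ x x', x ≠ x' ∧ G.Adj f x ∧ G.Adj x s ∧ G.Adj f x' ∧ G.Adj x' s := by
  obtain ⟨x, x1, x2, x3, x4, x5⟩ := h.demA hs
  have hB := h.demB hs x1 x2 x3 x4 x5
  have sy : ∀ x y, G.Adj x y → G.Adj y x := fun _ _ h => h.symm
  have ir : ∀ x, ¬ G.Adj x x := fun x => G.loopless.irrefl x
  have cs := hs.symm
  have := h.naf
  have := h.ndf
  have := h.nmf
  have h1 := h.tm.2.2.2
  have h3 := h.nd
  have h4 := h.tv.2.2.2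
  have h6 := h.tw.2.2.2
  have := h.cf
  have := h.cg
  have := h.fd
  have := h.ad
  have := h.c1
  have := h.c2
  have := h.gs
  have hne : v ≠ d := by rintro rfl; exact h.ld.1.isA.notZ h.zv
  have hna : ¬ G.Adj v d := by grind
  obtain ⟨w1, w2, w3, e1, e2, e3, e4, hn, hc⟩ := hs.path v d hne hna (c v a)
  grind

lemma uv (hs : Sat G c) (h : Exc G S c a m d s v f u b w g) (hb : b = f) : u = v := by
  by_contra hne
  have sy : ∀ x y, G.Adj x y → G.Adj y x := fun _ _ h => h.symm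
  have ir : ∀ x, ¬ G.Adj x x := fun x => G.loopless.irrefl x
  have cs := hs.symm
  have hna : ¬ G.Adj u v := fun ha => by
    rcases h.tu.2.2.2 _ ha with h1 | h1
    · exact h.la.1.isA.notZ (h1 ▸ h.zv)
    · exact h.ab.notZ (h1 ▸ h.zv)
  have := h.nmf
  have h2 := h.na
  have h4 := h.tv.2.2.2
  have h5 := h.tu.2.2.2
  obtain ⟨w1, w2, w3, e1, e2, e3, e4, hn, hc⟩ := hs.path u v hne hna (c s a)
  grind

lemma rob (hs : Sat G c) (h : Exc G S c a m d s v f u b w g) : Rob G S f := by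
  intro s' hf
  have e : s = s' := hf.2.2.2 _ h.fs h.la.1.2.1
  subst e
  refine ⟨h.demTwo hs, ?_⟩
  intro k e hfA le hM
  by_contra hno
  have sy : ∀ x y, G.Adj x y → G.Adj y x := fun _ _ h => h.symm
  have ir : ∀ x, ¬ G.Adj x x := fun x => G.loopless.irrefl x
  have cs := hs.symm
  have hS := h.la.1.2.1
  -- neighbours of `e`
  have ne : ∀ y, G.Adj e y → y = s ∨ y = f ∨ ∃ t, Two G y e t ∧ IsA G S t ∧ t ≠ k ∧ ¬ G.Adj m y := by
    intro y hy
    rcases le.nbr hy with h1 | h1 | h1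
    · exact Or.inl h1
    · exact Or.inr (Or.inl h1)
    · obtain ⟨t, ht, hA⟩ := hM y hy h1
      exact Or.inr (Or.inr ⟨t, ht, hA, by rintro rfl; exact hno ⟨y, h1, hy, ht.2.2.1.symm⟩,
        h.mZ h1⟩)
  have cfs : ∀ x, G.Adj f x → G.Adj x s → x = k ∨ x = e := by
    intro x h1 h2
    refine hfA x h1 ⟨fun hx => ?_, s, hS, h2⟩
    have := hf.2.2.2 x h1 hx
    subst this
    exact ir _ h2
  have ea : e ≠ a := by rintro rfl; exact h.naf le.2.2.1
  have ed : e ≠ d := by rintro rfl; exact h.ndf le.2.2.1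
  have ef : e ≠ f := le.2.2.1.ne
  have es : e ≠ s := le.1.2.2.1.ne
  have key : ∀ z o, IsZ G S z → Two G z o f → o ≠ e →
      G.Adj f k ∧ G.Adj k s ∧ c z f ≠ c f k ∧ c z f ≠ c k s ∧ c z f ≠ c s e ∧ c f k ≠ c k s ∧
      c f k ≠ c s e ∧ c k s ≠ c s e ∧ c z f ≠ c z o ∧ c f k ≠ c z o ∧ c k s ≠ c z o ∧
      c s e ≠ c z o := by
    intro z o hz ht hoe
    have hne : z ≠ e := by rintro rfl; exact le.1.isA.notZ hz
    have h4 := ht.2.2.2
    have hna : ¬ G.Adj z e := by grind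
    obtain ⟨w1, w2, w3, e1, e2, e3, e4, hn, hc⟩ := hs.path z e hne hna (c z o)
    have q1 : w1 = f := by grind
    subst q1
    rcases ne _ e4.symm with h1 | h1 | ⟨t, h1, h2, h3, -⟩
    · subst h1
      have : w2 = k := by grind
      subst this
      grind
    · grind
    · exfalso
      have h5 := h1.2.2.2
      have : w2 = t := by grind
      subst this
      have := hfA _ e2 h2
      grind
  have k1 := key v a h.zv h.tv ea.symm
  obtain ⟨x, x1, x2, x3, x4, x5⟩ := h.demA hs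
  have hB := h.demB hs x1 x2 x3 x4 x5
  have xe : x = e := by
    rcases cfs x x1 x2 with h1 | h1
    · subst h1; grind
    · exact h1
  subst xe
  have hfe : c f x = c v f ∨ c f x = c a v := by grind
  have h1 := h.tm.2.2.2
  have h2 := h.na
  have h3 := h.nd
  have h4 := h.tv.2.2.2
  have h5 := h.tu.2.2.2
  have h6 := h.tw.2.2.2
  have := h.naf
  have := h.ndf
  have := h.nmf
  have := h.cf
  have := h.fd
  have huv := h.uv hs
  have step2 : g = f ∧ c x f ≠ c f w ∧ c x f ≠ c w d := by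
    have hne : x ≠ m := by rintro rfl; exact h.nmf x1.symm
    have hna : ¬ G.Adj x m := by grind
    obtain ⟨w1, w2, w3, e1, e2, e3, e4, hn, hc⟩ := hs.path x m hne hna (c m s)
    have q3 : w3 = a ∨ w3 = d := by grind
    rcases ne _ e1 with q | q | ⟨t, q1, q2, -, q4⟩
    · exfalso
      subst q
      rcases q3 with rfl | rfl
      · exact hn.2.2.2.2 (h.la.common' e3.symm e2.symm)
      · exact hn.2.2.2.2 (h.ld.common' e3.symm e2.symm)
    · subst q
      grind
    · exfalso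
      have q5 := q1.2.2.2
      have : w2 = t := by grind
      subst this
      rcases q3 with rfl | rfl
      · exact hn.2.2.2.2 (h.la.2.2.2 _ e3.symm q2)
      · exact hn.2.2.2.2 (h.ld.2.2.2 _ e3.symm q2)
  obtain ⟨hg, s1, s2⟩ := step2
  subst hg
  have k2 := key w d h.zw h.tw ed.symm
  have z0 := h.step0 hs
  have z1 := h.step0' hs
  have hws : w ≠ s := by rintro rfl; exact h.zw.1 hS
  have hwk : w ≠ k := by rintro rfl; exact h.zw.2 _ k2.2.1 hS
  have hwx : w ≠ x := by rintro rfl; exact h.zw.2 _ x2 hS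
  have hkd : k ≠ d := by rintro rfl; exact h.ndf k2.1.symm
  have c2 := hs.cyc w g x s d h.tw.2.2.1 x1 x2 h.ld.1.2.2.1.symm h.tw.2.1.symm hwx hws h.gs.ne
    h.fd ed
  have c1 := hs.cyc w g k s d h.tw.2.2.1 k2.1 k2.2.1 h.ld.1.2.2.1.symm h.tw.2.1.symm hwk hws
    h.gs.ne h.fd hkd
  grind

end Exc

end Pool.Agent.MP_8ccfd2_co
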