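import Pool.Agent.MP_8ccfd2_co.Local2
import Pool.Agent.MP_8ccfd2_co.Keep

namespace Pool.Agent.MP_8ccfd2_co

variable {V : Type} {G : SimpleGraph V} {S : V → Prop} {c : V → V → ℕ}

lemma Lf.nbrM {a s m y : V} (h : Lf G S a s m) (hM : NoM G S a) (hy : G.Adj a y) :
    y = s ∨ y = m ∨ ∃ t, IsZ G S y ∧ Two G y a t ∧ IsA G S t := by
  rcases h.nbr hy with h1 | h1 | h1
  · exact Or.inl h1
  · exact Or.inr (Or.inl h1)
  · obtain ⟨t, h2, h3⟩ := hM y hy h1
    exact Or.inr (Or.inr ⟨t, h1, h2, h3⟩)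

lemma Lf.two {a s m : V} (h : Lf G S a s m) (hZ : ∀ z, G.Adj a z → ¬ IsZ G S z) : Two G a m s := by
  refine ⟨?_, h.2.2.1, h.1.2.2.1, fun y hy => ?_⟩
  · rintro rfl; exact h.2.1.1 h.1.2.1
  · rcases h.nbr hy with h1 | h1 | h1
    · exact Or.inr h1
    · exact Or.inl h1
    · exact absurd h1 (hZ y hy)

lemma GX.common {a s u b : V} (h : GX G S a) (ha : Hub1 G S a s) (hu : ¬ S u) (ht : Two G u a b) :
    ∃ y, G.Adj a y ∧ G.Adj y s := by
  by_contra hn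
  exact (h s).1 ⟨ha, ⟨u, b, hu, ht⟩, fun y h1 h2 => hn ⟨y, h1, h2⟩⟩

lemma GX.other {a s u : V} (h : GX G S a) (ha : Hub1 G S a s) (hu : ¬ S u) (ht : Two G u a s) :
    ∃ y, y ≠ u ∧ G.Adj a y ∧ G.Adj y s := by
  by_contra hn
  exact (h s).2 ⟨ha, u, hu, ht, fun y h1 h2 => by
    by_contra h3; exact hn ⟨y, h3, h1, h2⟩⟩

lemma k2_hub {a y s t : V} (la : Lf G S a s y) (ly : Lf G S y t a) (ga : GX G S a)
    (gy : GX G S y) (hM : NoM G S a) : t = s ∧ ∃ u, G.Adj a u ∧ IsZ G S u := by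
  by_cases hZ : ∃ u, G.Adj a u ∧ IsZ G S u
  · refine ⟨?_, hZ⟩
    obtain ⟨u, h1, h2⟩ := hZ
    obtain ⟨b, h3, -⟩ := hM u h1 h2
    obtain ⟨w, h4, h5⟩ := ga.common la.1 h2.1 h3
    have := la.common' h4 h5
    subst this
    exact (ly.1.2.2.2 s h5 la.1.2.1).symm
  · exfalso
    have ht := la.two fun z h1 h2 => hZ ⟨z, h1, h2⟩
    obtain ⟨w, h4, h5⟩ := gy.common ly.1 la.1.1 ht
    have := ly.common' h4 h5
    subst this
    have := la.1.2.2.2 t h5 ly.1.2.1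
    subst this
    obtain ⟨x, h6, h7, h8⟩ := gy.other ly.1 la.1.1 ht
    exact h6 (ly.common' h7 h8)

lemma k2_int (hs : Sat G c) {a y s u : V} (la : Lf G S a s y) (ly : Lf G S y s a)
    (hM : NoM G S a) (h1 : G.Adj a u) (hu : IsZ G S u) : Two G u a y := by
  obtain ⟨b, ht, hb⟩ := hM u h1 hu
  by_cases hby : b = y
  · exact hby ▸ ht
  exfalso
  have sy : ∀ x y, G.Adj x y → G.Adj y x := fun _ _ h => h.symm
  have ir : ∀ x, ¬ G.Adj x x := fun x => G.loopless.irrefl x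
  have h4 := ht.2.2.2
  have hne : u ≠ y := by rintro rfl; exact la.2.1.notZ hu
  have hna : ¬ G.Adj u y := by have := la.2.2.1.ne; grind
  obtain ⟨w1, w2, w3, e1, e2, e3, e4, hn, hc⟩ := hs.path u y hne hna (c u b)
  have q1 : w1 = a := by grind
  subst q1
  rcases la.nbrM hM e2 with q | q | ⟨t, q1, q2, q3⟩
  · subst q; exact hn.2.2.1 (ly.common' e4.symm e3.symm).symm
  · grind
  · have h5 := q2.2.2.2
    have : w3 = t := by grind
    subst this
    exact hn.2.2.1 (ly.2.2.2 _ e4.symm q3).symm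

lemma k2_second (hs : Sat G c) {a y s u : V} (la : Lf G S a s y) (ly : Lf G S y s a)
    (hu : IsZ G S u) (ht : Two G u a y) : ∃ u', u' ≠ u ∧ G.Adj a u' ∧ IsZ G S u' := by
  have h4 := ht.2.2.2
  have hne : u ≠ s := by rintro rfl; exact hu.1 la.1.2.1
  have hna : ¬ G.Adj u s := fun h => hu.2 _ h la.1.2.1
  obtain ⟨w1, w2, w3, e1, e2, e3, e4, hn, hc⟩ := hs.path u s hne hna (c u y)
  have q1 : w1 = a := by grind
  subst q1
  rcases la.nbr e2 with q | q | q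
  · grind
  · subst q; exact absurd (ly.common' e3 e4).symm hn.2.2.1
  · exact ⟨w2, hn.1.symm, e2, q⟩

lemma k2_third (hs : Sat G c) {a y s u u' : V} (la : Lf G S a s y)
    (hu : IsZ G S u') (ht : Two G u a y) (ht' : Two G u' a y) (hne : u ≠ u') :
    ∃ w, w ≠ u ∧ w ≠ u' ∧ G.Adj a w ∧ IsZ G S w := by
  have h4 := ht.2.2.2
  have h5 := ht'.2.2.2
  have sy : ∀ x y, G.Adj x y → G.Adj y x := fun _ _ h => h.symm
  have ir : ∀ x, ¬ G.Adj x x := fun x => G.loopless.irrefl x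
  have cs := hs.symm
  have hna : ¬ G.Adj u u' := fun h => by
    rcases h4 _ h with h1 | h1
    · exact la.1.isA.notZ (h1 ▸ hu)
    · exact la.2.1.notZ (h1 ▸ hu)
  obtain ⟨w1, w2, w3, e1, e2, e3, e4, hn, hc⟩ := hs.path u u' hne hna (c a s)
  have h6 : G.Adj a w2 := by grind
  rcases la.nbr h6 with q | q | q
  · grind
  · grind
  · exact ⟨w2, hn.1.symm, hn.2.2.2.2, h6, q⟩

variable [Fintype V]

lemma k2_aux (hs : Sat G c) {a y s t : V} (la : Lf G S a s y) (ly : Lf G S y t a) (ga : GX G S a)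
    (gy : GX G S y) (hM : NoM G S a) : 6 ≤ K G S a + K G S y := by
  obtain ⟨rfl, u, h1, h2⟩ := k2_hub la ly ga gy hM
  have t1 := k2_int hs la ly hM h1 h2
  obtain ⟨u', h3, h4, h5⟩ := k2_second hs la ly h2 t1
  have t2 := k2_int hs la ly hM h4 h5
  obtain ⟨w, h6, h7, h8, h9⟩ := k2_third hs la h5 t1 t2 h3.symm
  have t3 := k2_int hs la ly hM h8 h9
  have s1 := keep_sum h2 t1
  have s2 := keep_sum h5 t2
  have s3 := keep_sum h9 t3
  have := K_ge3 h1 h2 h4 h5 h8 h9 h3.symm h6.symm h7.symm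
  have := K_ge3 t1.2.2.1.symm h2 t2.2.2.1.symm h5 t3.2.2.1.symm h9 h3.symm h6.symm h7.symm
  linarith

theorem k2 (hs : Sat G c) {a y s t : V} (la : Lf G S a s y) (ly : Lf G S y t a) (ga : GX G S a)
    (gy : GX G S y) (za : GZ G S a) (zy : GZ G S y) : 6 ≤ K G S a + K G S y := by
  by_cases h1 : HasM G S a
  · by_cases h2 : HasM G S y
    · have := h1.le; have := h2.le; linarith
    · have := k2_aux hs ly la gy ga (zy.noM h2); linarith
  · exact k2_aux hs la ly ga gy (za.noM h1)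

end Pool.Agent.MP_8ccfd2_co
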