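import Pool.Agent.MP_8ccfd2_co.Local3

namespace Pool.Agent.MP_8ccfd2_co

variable {V : Type} {G : SimpleGraph V} {S : V → Prop} {c : V → V → ℕ}

/-- a centre with three leaves -/
structure Star (G : SimpleGraph V) (S : V → Prop) (m s p q r sp sq sr : V) : Prop where
  hm : Hub1 G S m s
  lp : Lf G S p sp m
  lq : Lf G S q sq m
  lr : Lf G S r sr m
  pq : p ≠ q
  pr : p ≠ r
  qr : q ≠ r
  nm : ∀ y, G.Adj m y → IsA G S y → y = p ∨ y = q ∨ y = r

lemma Star.nbr {m s p q r sp sq sr y : V} (h : Star G S m s p q r sp sq sr) (hM : NoM G S m)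
    (hy : G.Adj m y) : y = s ∨ y = p ∨ y = q ∨ y = r ∨ ∃ t, IsZ G S y ∧ Two G y m t ∧ IsA G S t := by
  rcases h.hm.tri hy with h1 | h1 | h1
  · exact Or.inl h1
  · have := h.nm y hy h1; tauto
  · obtain ⟨t, h2, h3⟩ := hM y hy h1
    exact Or.inr (Or.inr (Or.inr (Or.inr ⟨t, h1, h2, h3⟩)))

lemma Star.swap {m s p q r sp sq sr : V} (h : Star G S m s p q r sp sq sr) :
    Star G S m s q p r sq sp sr :=
  ⟨h.hm, h.lq, h.lp, h.lr, h.pq.symm, h.qr, h.pr, fun y h1 h2 => by have := h.nm y h1 h2; tauto⟩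

lemma Star.rot {m s p q r sp sq sr : V} (h : Star G S m s p q r sp sq sr) :
    Star G S m s q r p sq sr sp :=
  ⟨h.hm, h.lq, h.lr, h.lp, h.qr, h.pq.symm, h.pr.symm,
    fun y h1 h2 => by have := h.nm y h1 h2; tauto⟩

lemma Lf.nadj {a s m d t : V} (la : Lf G S a s m) (ld : Lf G S d t m) : ¬ G.Adj a d := fun h => by
  have := la.2.2.2 d h ld.1.isA
  subst this
  exact G.loopless.irrefl _ ld.2.2.1

lemma Star.a1 (hs : Sat G c) {m s p q r sp sq : V} (h : Star G S m s p q r sp sq s)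
    (hM : NoM G S m) (tp : Two G p m sp) (tq : Two G q m sq) : sq = s := by
  by_contra hne
  have h4 := tp.2.2.2
  have h5 := tq.2.2.2
  obtain ⟨w1, w2, w3, e1, e2, e3, e4, hn, hc⟩ := hs.path p r h.pr (h.lp.nadj h.lr) (c p sp)
  have q1 : w1 = m := by grind
  subst q1
  rcases h.nbr hM e2 with q | q | q | q | ⟨t, q1, q2, q3⟩
  · subst q; exact hn.2.2.1 (h.lr.common' e4.symm e3.symm).symm
  · exact hn.1 q.symm
  · subst q
    have : w3 = sq := by grind
    subst this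
    exact hne (h.lr.1.2.2.2 _ e4.symm h.lq.1.2.1)
  · exact hn.2.2.2.2 q
  · have h6 := q2.2.2.2
    have : w3 = t := by grind
    subst this
    exact hn.2.2.1 (h.lr.2.2.2 _ e4.symm q3).symm

lemma Star.a2 (hs : Sat G c) {m s p q r sr : V} (h : Star G S m s p q r s s sr)
    (tp : Two G p m s) (tq : Two G q m s) : False := by
  have h4 := tp.2.2.2
  have h5 := tq.2.2.2
  have sy : ∀ x y, G.Adj x y → G.Adj y x := fun _ _ h => h.symm
  have ir : ∀ x, ¬ G.Adj x x := fun x => G.loopless.irrefl x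
  have cs := hs.symm
  obtain ⟨w1, w2, w3, e1, e2, e3, e4, hn, hc⟩ := hs.path p q h.pq (h.lp.nadj h.lq) (c m r)
  have h6 : G.Adj m w2 ∧ G.Adj w2 s := by grind
  have h7 : w2 = r := by
    rcases h.hm.tri h6.1 with h1 | h1 | h1
    · grind
    · have := h.nm _ h6.1 h1; grind
    · exact absurd h.hm.2.1 (h1.2 _ h6.2)
  grind

lemma Star.common {m s p q r sp sq sr y : V} (h : Star G S m s p q r sp sq sr)
    (h1 : G.Adj m y) (h2 : G.Adj y s) : (y = p ∧ sp = s) ∨ (y = q ∧ sq = s) ∨ (y = r ∧ sr = s) := by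
  rcases h.hm.tri h1 with h3 | h3 | h3
  · subst h3; exact absurd h2 (G.loopless.irrefl _)
  · rcases h.nm y h1 h3 with rfl | rfl | rfl
    · exact Or.inl ⟨rfl, (h.lp.1.2.2.2 _ h2 h.hm.2.1).symm⟩
    · exact Or.inr (Or.inl ⟨rfl, (h.lq.1.2.2.2 _ h2 h.hm.2.1).symm⟩)
    · exact Or.inr (Or.inr ⟨rfl, (h.lr.1.2.2.2 _ h2 h.hm.2.1).symm⟩)
  · exact absurd h.hm.2.1 (h3.2 _ h2)

lemma Star.two (hs : Sat G c) {m s p q r sp sq sr : V} (h : Star G S m s p q r sp sq sr)
    (gm : GX G S m) (hM : NoM G S m) (zp : ∀ z, G.Adj p z → ¬ IsZ G S z)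
    (zq : ∀ z, G.Adj q z → ¬ IsZ G S z) : False := by
  have tp := h.lp.two zp
  have tq := h.lq.two zq
  by_cases hr : sr = s
  · subst hr
    have e1 := h.a1 hs hM tp tq
    have e2 := h.swap.a1 hs hM tq tp
    subst e1
    subst e2
    exact h.a2 hs tp tq
  · obtain ⟨y, h1, h2⟩ := gm.common h.hm h.lp.1.1 tp
    rcases h.common h1 h2 with ⟨-, e⟩ | ⟨-, e⟩ | ⟨-, e⟩
    · subst e
      obtain ⟨x, h3, h4, h5⟩ := gm.other h.hm h.lp.1.1 tp
      rcases h.common h4 h5 with ⟨e, -⟩ | ⟨-, e⟩ | ⟨-, e⟩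
      · exact h3 e
      · subst e; exact h.a2 hs tp tq
      · exact hr e
    · subst e
      obtain ⟨x, h3, h4, h5⟩ := gm.other h.hm h.lq.1.1 tq
      rcases h.common h4 h5 with ⟨-, e⟩ | ⟨e, -⟩ | ⟨-, e⟩
      · subst e; exact h.a2 hs tp tq
      · exact h3 e
      · exact hr e
    · exact hr e

variable [Fintype V]

lemma Lf.one {a s m : V} (h : Lf G S a s m) (hz : ¬ ∀ z, G.Adj a z → ¬ IsZ G S z) :
    1 ≤ K G S a := by
  push Not at hz
  obtain ⟨z, h1, h2⟩ := hz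
  exact (keep_one z h.notRob).trans (K_ge1 h1 h2)

theorem s3 (hs : Sat G c) {m s p q r sp sq sr : V} (h : Star G S m s p q r sp sq sr)
    (gm : GX G S m) (zm : GZ G S m) : 2 ≤ K G S m + K G S p + K G S q + K G S r := by
  have k1 := K_nonneg (G := G) (S := S) m
  have k2 := K_nonneg (G := G) (S := S) p
  have k3 := K_nonneg (G := G) (S := S) q
  have k4 := K_nonneg (G := G) (S := S) r
  by_cases hM : HasM G S m
  · have := hM.le; linarith
  have hM := zm.noM hM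
  by_cases zp : ∀ z, G.Adj p z → ¬ IsZ G S z
  · by_cases zq : ∀ z, G.Adj q z → ¬ IsZ G S z
    · exact (h.two hs gm hM zp zq).elim
    · by_cases zr : ∀ z, G.Adj r z → ¬ IsZ G S z
      · exact (h.rot.rot.two hs gm hM zr zp).elim
      · have := h.lq.one zq; have := h.lr.one zr; linarith
  · by_cases zq : ∀ z, G.Adj q z → ¬ IsZ G S z
    · by_cases zr : ∀ z, G.Adj r z → ¬ IsZ G S z
      · exact (h.rot.two hs gm hM zq zr).elim
      · have := h.lp.one zp; have := h.lr.one zr; linarith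
    · have := h.lp.one zp; have := h.lq.one zq; linarith

end Pool.Agent.MP_8ccfd2_co
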