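import Pool.Agent.MP_8ccfd2_co.Local4

namespace Pool.Agent.MP_8ccfd2_co

variable {V : Type} {G : SimpleGraph V} {S : V → Prop} {c : V → V → ℕ}

lemma Mid.common {m s a d y : V} (h : Mid G S m s a d) (h1 : G.Adj m y) (h2 : G.Adj y s) :
    y = a ∨ y = d := by
  rcases h.nbr h1 with h3 | h3 | h3 | h3
  · subst h3; exact absurd h2 (G.loopless.irrefl _)
  · exact Or.inl h3
  · exact Or.inr h3
  · exact absurd h.1.2.1 (h3.2 _ h2)

lemma Mid.nbrM {m s a d y : V} (h : Mid G S m s a d) (hM : NoM G S m) (hy : G.Adj m y) :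
    y = s ∨ y = a ∨ y = d ∨ ∃ t, IsZ G S y ∧ Two G y m t ∧ IsA G S t := by
  rcases h.nbr hy with h1 | h1 | h1 | h1
  · exact Or.inl h1
  · exact Or.inr (Or.inl h1)
  · exact Or.inr (Or.inr (Or.inl h1))
  · obtain ⟨t, h2, h3⟩ := hM y hy h1
    exact Or.inr (Or.inr (Or.inr ⟨t, h1, h2, h3⟩))

/-- the inner vertex next to a leaf of degree two shares its hub with its other neighbour -/
lemma Mid.hubP {m s a d x : V} (h : Mid G S m s a d) (gm : GX G S m) (la : Lf G S a x m)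
    (ta : Two G a m x) : G.Adj d s := by
  obtain ⟨y, h1, h2⟩ := gm.common h.1 la.1.1 ta
  rcases h.common h1 h2 with rfl | rfl
  · have := la.1.2.2.2 _ h2 h.1.2.1
    subst this
    obtain ⟨w, h3, h4, h5⟩ := gm.other h.1 la.1.1 ta
    rcases h.common h4 h5 with rfl | rfl
    · exact absurd rfl h3
    · exact h5
  · exact h2

lemma p3_noP (hs : Sat G c) {m s a d sa sd : V} (h : Mid G S m s a d) (la : Lf G S a sa m)
    (ld : Lf G S d sd m) (gm : GX G S m) (zm : GZ G S m) (zd : GZ G S d)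
    (za : ∀ z, G.Adj a z → ¬ IsZ G S z) : HasM G S m ∧ HasM G S d := by
  have ta := la.two za
  have e := ld.1.2.2.2 _ (h.hubP gm la ta) h.1.2.1
  subst e
  have h4 := ta.2.2.2
  obtain ⟨w1, w2, w3, e1, e2, e3, e4, hn, hc⟩ := hs.path a d h.2.1 (la.nadj ld) (c a sa)
  have q1 : w1 = m := by grind
  subst q1
  rcases h.nbr e2 with q | q | q | q
  · subst q; exact absurd (ld.common' e4.symm e3.symm).symm hn.2.2.1
  · exact absurd q.symm hn.1
  · exact absurd q hn.2.2.2.2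
  · rcases ld.nbr e4.symm with r | r | r
    · subst r; exact absurd h.1.2.1 (q.2 _ e3)
    · exact absurd r.symm hn.2.2.1
    · exact ⟨zm.hasM e2 q e3 r, zd.hasM e4.symm r e3.symm q⟩

lemma p3_hub {m s a sa : V} (hm : Hub1 G S m s) (la : Lf G S a sa m) (ga : GX G S a)
    (hM : NoM G S a) (za : ¬ ∀ z, G.Adj a z → ¬ IsZ G S z) : sa = s := by
  push Not at za
  obtain ⟨u, h1, h2⟩ := za
  obtain ⟨b, h3, -⟩ := hM u h1 h2
  obtain ⟨y, h4, h5⟩ := ga.common la.1 h2.1 h3
  have := la.common' h4 h5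
  subst this
  exact hm.2.2.2 _ h5 la.1.2.1

lemma p3_ext (hs : Sat G c) {m s a d : V} (h : Mid G S m s a d) (la : Lf G S a s m)
    (ld : Lf G S d s m) (hm : NoM G S m) (ha : NoM G S a) :
    ∃ u b, IsZ G S u ∧ Two G u a b ∧ b ≠ d := by
  obtain ⟨w1, w2, w3, e1, e2, e3, e4, hn, hc⟩ := hs.path a d h.2.1 (la.nadj ld) (c a s)
  rcases la.nbrM ha e1 with q | q | ⟨t, q1, q2, q3⟩
  · grind
  · subst q
    rcases h.nbrM hm e2 with r | r | r | ⟨t, r1, r2, r3⟩
    · subst r; exact absurd (ld.common' e4.symm e3.symm).symm hn.2.2.1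
    · exact absurd r.symm hn.1
    · exact absurd r hn.2.2.2.2
    · have h6 := r2.2.2.2
      have : w3 = t := by grind
      subst this
      exact absurd (ld.2.2.2 _ e4.symm r3).symm hn.2.2.1
  · have h6 := q2.2.2.2
    refine ⟨w1, t, q1, q2, ?_⟩
    grind

lemma p3_second (hs : Sat G c) {m s a d u b : V} (h : Mid G S m s a d) (la : Lf G S a s m)
    (ld : Lf G S d s m) (hu : IsZ G S u) (ht : Two G u m b) :
    ∃ u', u' ≠ u ∧ G.Adj m u' ∧ IsZ G S u' := by
  have h4 := ht.2.2.2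
  have hne : u ≠ s := by rintro rfl; exact hu.1 la.1.2.1
  have hna : ¬ G.Adj u s := fun h => hu.2 _ h la.1.2.1
  obtain ⟨w1, w2, w3, e1, e2, e3, e4, hn, hc⟩ := hs.path u s hne hna (c u b)
  have q1 : w1 = m := by grind
  subst q1
  rcases h.nbr e2 with q | q | q | q
  · grind
  · subst q; exact absurd (la.common' e3 e4).symm hn.2.2.1
  · subst q; exact absurd (ld.common' e3 e4).symm hn.2.2.1
  · exact ⟨w2, hn.1.symm, e2, q⟩

lemma core (hs : Sat G c) {m s a d m2 : V} (la : Lf G S a s m) (ld : Lf G S d s m)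
    (tm : Three G m a d s) (ad : a ≠ d) (ha : NoM G S a)
    (hno : ∀ z, IsZ G S z → G.Adj a z → ¬ G.Adj d z) (h2 : NX G S m2 s) (hf : Far G S 9 m m2) :
    ∃ v f, IsZ G S v ∧ Two G v a f ∧ IsA G S f ∧ f ≠ d ∧ G.Adj f s ∧ c m s = c f s ∧
      c m s ≠ c a v ∧ c m s ≠ c v f := by
  obtain ⟨δ, d0, d9, hl⟩ := hf
  obtain ⟨n2, a2, d2, t2, ha2, hd2, ca2, cd2, -⟩ := h2
  have sy : ∀ x y, G.Adj x y → G.Adj y x := fun _ _ h => h.symm
  have ir : ∀ x, ¬ G.Adj x x := fun x => G.loopless.irrefl x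
  have cs := hs.symm
  have nm := la.2.1.1
  have na := la.1.1
  have nd := ld.1.1
  have hS := la.1.2.1
  have da := hl.le la.2.2.1 na nm
  have h1 := tm.2.2.2
  have h3 := t2.2.2.2
  have na2 := ha2.1
  have nd2 := hd2.1
  have mZ : ∀ z, IsZ G S z → ¬ G.Adj m z := by
    intro z hz hm
    rcases h1 z hm with rfl | rfl | rfl
    · exact la.1.isA.notZ hz
    · exact ld.1.isA.notZ hz
    · exact hz.1 hS
  have s1 : ∃ v f, IsZ G S v ∧ Two G v a f ∧ IsA G S f ∧ G.Adj f s ∧ c a v ≠ c v f ∧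
      c a v ≠ c f s ∧ c v f ≠ c f s ∧ c a v ≠ c a m ∧ c v f ≠ c a m ∧ c f s ≠ c a m := by
    obtain ⟨w1, w2, w3, e1, e2, e3, e4, hn, hc⟩ := hl.rp hs na n2 (by omega) (c a m)
    have hh := hl.hub na n2 (by omega) e1 e2 e3 e4
    rcases la.nbrM ha e1 with q | q | ⟨t, q1, q2, q3⟩
    · grind
    · grind
    · have h6 := q2.2.2.2
      have : w2 = t := by grind
      subst this
      have := q1.1
      have := q3.1
      have : w3 = s := by grind
      subst this
      exact ⟨w1, w2, q1, q2, q3, e3, by grind⟩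
  have s2 : c a m ≠ c m s := by
    obtain ⟨w1, w2, w3, e1, e2, e3, e4, hn, hc⟩ := hl.rp hs na n2 (by omega) (c s m2)
    have hh := hl.hub na n2 (by omega) e1 e2 e3 e4
    rcases la.nbrM ha e1 with q | q | ⟨t, q1, q2, q3⟩
    · grind
    · grind
    · have h6 := q2.2.2.2
      have := q1.1
      have := q3.1
      grind
  obtain ⟨v, f, hv, tv, hA, fs, k1⟩ := s1
  have fd : f ≠ d := by rintro rfl; exact hno v hv tv.2.1.symm tv.2.2.1.symm
  have fm : f ≠ m := by rintro rfl; exact mZ v hv tv.2.2.1.symm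
  have h7 := tv.2.2.2
  have s3 : c m s ≠ c a v ∧ c m s ≠ c v f := by
    have hne : v ≠ d := by rintro rfl; exact ld.1.isA.notZ hv
    have hna : ¬ G.Adj v d := by grind
    obtain ⟨w1, w2, w3, e1, e2, e3, e4, hn, hc⟩ := hs.path v d hne hna (c v f)
    have q1 : w1 = a := by grind
    subst q1
    rcases la.nbrM ha e2 with q | q | ⟨t, q1, q2, q3⟩
    · subst q
      have := ld.common' e4.symm e3.symm
      grind
    · grind
    · have h6 := q2.2.2.2
      have : w3 = t := by grind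
      subst this
      have := ld.2.2.2 _ e4.symm q3
      subst this
      exact absurd e3.symm (mZ _ q1)
  have hvm : v ≠ m := by rintro rfl; exact la.2.1.notZ hv
  have hvs : v ≠ s := by rintro rfl; exact hv.1 hS
  have cy := hs.cyc v a m s f tv.2.1 la.2.2.1 tm.2.2.1 fs.symm tv.2.2.1.symm hvm hvs
    la.1.2.2.1.ne tv.1 fm.symm
  exact ⟨v, f, hv, tv, hA, fd, fs, by grind, s3.1, s3.2⟩

lemma Three.swap {u a b d : V} (h : Three G u a b d) : Three G u b a d :=
  ⟨h.2.1, h.1, h.2.2.1, fun y hy => by have := h.2.2.2 y hy; tauto⟩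

variable [Fintype V]

lemma p3_exc (hs : Sat G c) {m s a d v f w g : V} (la : Lf G S a s m) (ld : Lf G S d s m)
    (tm : Three G m a d s) (ad : a ≠ d) (ha : NoM G S a)
    (hv : IsZ G S v ∧ Two G v a f ∧ IsA G S f ∧ f ≠ d ∧ G.Adj f s ∧ c m s = c f s ∧
      c m s ≠ c a v ∧ c m s ≠ c v f)
    (hw : IsZ G S w ∧ Two G w d g ∧ IsA G S g ∧ g ≠ a ∧ G.Adj g s ∧ c m s = c g s ∧
      c m s ≠ c d w ∧ c m s ≠ c w g)
    (h1 : ∀ z, G.Adj d z → IsZ G S z → z = w) : 4 ≤ K G S a + K G S d := by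
  obtain ⟨v1, v2, v3, v4, v5, v6, v7, v8⟩ := hv
  obtain ⟨w1, w2, w3, w4, w5, w6, w7, w8⟩ := hw
  have nd : ∀ y, G.Adj d y → y = m ∨ y = s ∨ y = w := fun y hy => by
    have := ld.nbr hy; have := h1 y hy; tauto
  have kd := K_ge1 w2.2.1.symm w1
  have kd1 := keep_one w ld.notRob
  by_cases h2 : ∃ u, u ≠ v ∧ G.Adj a u ∧ IsZ G S u
  · obtain ⟨u, u1, u2, u3⟩ := h2
    by_cases h3 : ∃ x, x ≠ v ∧ x ≠ u ∧ G.Adj a x ∧ IsZ G S x
    · obtain ⟨x, x1, x2, x3, x4⟩ := h3
      have := K_ge3 v2.2.1.symm v1 u2 u3 x3 x4 u1.symm x1.symm x2.symm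
      have := keep_one v la.notRob
      have := keep_one u la.notRob
      have := keep_one x la.notRob
      linarith
    · obtain ⟨b, b1, b2⟩ := ha u u2 u3
      have na : ∀ y, G.Adj a y → y = m ∨ y = s ∨ y = v ∨ y = u := fun y hy => by
        have := la.nbr hy
        by_contra hc
        exact h3 ⟨y, by tauto, by tauto, hy, by tauto⟩
      have ex : Exc G S c a m d s v f u b w g :=
        ⟨la, ld, tm, ad, na, nd, v2, b1, w2, v1, u3, w1, v3, b2, w3, v4, w4, v5, w5, v6, w6, v7, v8⟩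
      have := keep_two v1 v2 la.notRob (ex.rob hs)
      have := K_ge2 v2.2.1.symm v1 u2 u3 u1.symm
      have := keep_one u la.notRob
      linarith
  · have na : ∀ y, G.Adj a y → y = m ∨ y = s ∨ y = v := fun y hy => by
      have := la.nbr hy
      by_contra hc
      exact h2 ⟨y, by tauto, hy, by tauto⟩
    have ex : Exc G S c a m d s v f v f w g :=
      ⟨la, ld, tm, ad, fun y hy => by have := na y hy; tauto, nd, v2, v2, w2, v1, v1, w1, v3, v3,
        w3, v4, w4, v5, w5, v6, w6, v7, v8⟩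
    have ex2 : Exc G S c d m a s w g w g v f :=
      ⟨ld, la, tm.swap, ad.symm, fun y hy => by have := nd y hy; tauto, na, w2, w2, v2, w1, w1, v1,
        w3, w3, v3, w4, v4, w5, v5, w6, v6, w7, w8⟩
    have := keep_two v1 v2 la.notRob (ex.rob hs)
    have := keep_two w1 w2 ld.notRob (ex2.rob hs)
    have := K_ge1 v2.2.1.symm v1
    linarith

theorem p3 (hs : Sat G c) {m s a d sa sd : V} (h : Mid G S m s a d) (la : Lf G S a sa m)
    (ld : Lf G S d sd m) (gm : GX G S m) (ga : GX G S a) (gd : GX G S d) (zm : GZ G S m)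
    (za : GZ G S a) (zd : GZ G S d) (nm : GN G S m) : 4 ≤ K G S m + K G S a + K G S d := by
  have k1 := K_nonneg (G := G) (S := S) m
  have k2 := K_nonneg (G := G) (S := S) a
  have k3 := K_nonneg (G := G) (S := S) d
  by_cases pa : ∀ z, G.Adj a z → ¬ IsZ G S z
  · have hh := p3_noP hs h la ld gm zm zd pa
    have := hh.1.le; have := hh.2.le; linarith
  by_cases pd : ∀ z, G.Adj d z → ¬ IsZ G S z
  · have hh := p3_noP hs h.swap ld la gm zm za pd
    have := hh.1.le; have := hh.2.le; linarith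
  have o1 := la.one pa
  have o2 := ld.one pd
  by_cases m1 : HasM G S m
  · have := m1.le; linarith
  by_cases m2 : HasM G S a
  · have := m2.le; linarith
  by_cases m3 : HasM G S d
  · have := m3.le; linarith
  have m1 := zm.noM m1
  have m2 := za.noM m2
  have m3 := zd.noM m3
  have e1 := p3_hub h.1 la ga m2 pa
  have e2 := p3_hub h.1 ld gd m3 pd
  subst sa
  subst sd
  obtain ⟨u, b, u1, u2, u3⟩ := p3_ext hs h la ld m1 m2
  obtain ⟨w, g, w1, w2, w3⟩ := p3_ext hs h.swap ld la m1 m3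
  by_cases hint : ∃ z, IsZ G S z ∧ G.Adj d z ∧ G.Adj a z
  · obtain ⟨z, z1, z2, z3⟩ := hint
    obtain ⟨t, t1, -⟩ := m2 z z3 z1
    have e : t = d := by
      rcases t1.2.2.2 d z2.symm with e | e
      · exact absurd e.symm h.2.1
      · exact e.symm
    subst e
    have hzu : z ≠ u := by
      rintro rfl
      rcases u2.2.2.2 _ z2.symm with e | e
      · exact h.2.1 e.symm
      · exact u3 e.symm
    have hzw : z ≠ w := by
      rintro rfl
      rcases w2.2.2.2 _ z3.symm with e | e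
      · exact h.2.1 e
      · exact w3 e.symm
    have := keep_sum z1 t1
    have := K_ge2 z3 z1 u2.2.1.symm u1 hzu
    have := K_ge2 z2 z1 w2.2.1.symm w1 hzw
    have := keep_one u la.notRob
    have := keep_one w ld.notRob
    linarith
  by_cases pm : ∃ x, G.Adj m x ∧ IsZ G S x
  · obtain ⟨x, x1, x2⟩ := pm
    obtain ⟨t, t1, -⟩ := m1 x x1 x2
    obtain ⟨x', y1, y2, y3⟩ := p3_second hs h la ld x2 t1
    have hR : ¬ Rob G S m := fun hR => hint ((hR s h.1).2 a d h.2.2.2.2.2.2 ld m3)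
    have := K_ge2 x1 x2 y2 y3 y1.symm
    have := keep_one x hR
    have := keep_one x' hR
    linarith
  have tm : Three G m a d s := ⟨h.2.2.2.2.1, h.2.2.2.2.2.1, h.1.2.2.1, fun y hy => by
    have := h.nbr hy
    have : ¬ IsZ G S y := fun hz => pm ⟨y, hy, hz⟩
    tauto⟩
  obtain ⟨m', n1, n2⟩ := nm s ⟨h.1.1, a, d, tm, la.1, ld.1, fun y h1 h2 => la.common' h1 h2,
    fun y h1 h2 => ld.common' h1 h2, u, b, u1, u2⟩
  obtain ⟨v, f, hv⟩ := core hs la ld tm h.2.1 m2 (fun z h1 h2 h3 => hint ⟨z, h1, h3, h2⟩) n1 n2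
  obtain ⟨v', f', hv'⟩ := core hs ld la tm.swap h.2.1.symm m3
    (fun z h1 h2 h3 => hint ⟨z, h1, h2, h3⟩) n1 n2
  by_cases q1 : ∀ z, G.Adj d z → IsZ G S z → z = v'
  · have := p3_exc hs la ld tm h.2.1 m2 hv hv' q1; linarith
  by_cases q2 : ∀ z, G.Adj a z → IsZ G S z → z = v
  · have := p3_exc hs ld la tm.swap h.2.1.symm m3 hv' hv q2; linarith
  push Not at q1 q2
  obtain ⟨x, x1, x2, x3⟩ := q1
  obtain ⟨y, y1, y2, y3⟩ := q2
  have := K_ge2 x1 x2 hv'.2.1.2.1.symm hv'.1 x3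
  have := K_ge2 y1 y2 hv.2.1.2.1.symm hv.1 y3
  have := keep_one x ld.notRob
  have := keep_one v' ld.notRob
  have := keep_one y la.notRob
  have := keep_one v la.notRob
  linarith

end Pool.Agent.MP_8ccfd2_co
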