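import Pool.Agent.MP_8ccfd2_co.Local5

namespace Pool.Agent.MP_8ccfd2_co

variable {V : Type} {G : SimpleGraph V} {S : V → Prop} {c : V → V → ℕ}

lemma p4_hub2 (hs : Sat G c) {m s a d e x y : V} (h : Mid G S m s a d) (h' : Mid G S d s e m)
    (hx : S x) (ta : Two G a m x) (le : Lf G S e y d) (hm : NoM G S m)
    (hno : ∀ z, IsZ G S z → G.Adj m z → ¬ G.Adj e z) : y = s := by
  have h4 := ta.2.2.2
  have hna : ¬ G.Adj a d := fun h5 => by
    rcases h4 _ h5 with q | q
    · subst q; exact G.loopless.irrefl _ h.2.2.2.2.2.1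
    · subst q; exact h'.1.1 hx
  obtain ⟨w1, w2, w3, e1, e2, e3, e4, hn, hc⟩ := hs.path a d h.2.1 hna (c a x)
  have q1 : w1 = m := by grind
  subst q1
  rcases h.nbrM hm e2 with r | r | r | ⟨t, r1, r2, r3⟩
  · subst r
    rcases h'.common e4.symm e3.symm with q | q
    · subst q; exact (le.1.2.2.2 _ e3.symm h.1.2.1).symm
    · exact absurd q.symm hn.2.2.1
  · exact absurd r.symm hn.1
  · exact absurd r hn.2.2.2.2
  · have h6 := r2.2.2.2
    have : w3 = t := by grind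
    subst this
    rcases h'.2.2.2.2.2.2 _ e4.symm r3 with q | q
    · subst q; exact absurd e3.symm (hno _ r1 e2)
    · exact absurd q.symm hn.2.2.1

lemma p4_L (hs : Sat G c) {m s a d e : V} (h : Mid G S m s a d) (h' : Mid G S d s e m)
    (ta : Two G a m s) (le : Lf G S e s d) : ∃ u, G.Adj d u ∧ IsZ G S u := by
  have h4 := ta.2.2.2
  have hna : ¬ G.Adj a d := fun h5 => by
    rcases h4 _ h5 with q | q
    · subst q; exact G.loopless.irrefl _ h.2.2.2.2.2.1
    · subst q; exact h'.1.1 h.1.2.1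
  obtain ⟨w1, w2, w3, e1, e2, e3, e4, hn, hc⟩ := hs.path a d h.2.1 hna (c a m)
  have q1 : w1 = s := by grind
  subst q1
  rcases h'.nbr e4.symm with r | r | r | r
  · exact absurd r.symm hn.2.2.1
  · subst r; exact absurd (le.common' e3.symm e2.symm) hn.2.2.2.2
  · subst r
    rcases h.common e3.symm e2.symm with q | q
    · exact absurd q.symm hn.1
    · exact absurd q hn.2.2.2.2
  · exact ⟨w3, e4.symm, r⟩

lemma p4_final (hs : Sat G c) {m s a d e x z k d2 : V} (hm : Hub1 G S m s) (hd : Hub1 G S d s)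
    (he : Hub1 G S e s) (ha : Hub1 G S a x) (xs : x ≠ s) (ta : Two G a m x) (tm : Three G m a d s)
    (td : Three G d e m s) (te : Three G e d s z) (tz : Two G z e k) (hz : IsZ G S z)
    (hk : ¬ S k) (em : e ≠ m) (ad : a ≠ d) (h2 : NX G S d2 s) (hf : Far G S 9 d d2) : False := by
  obtain ⟨δ, d0, d9, hl⟩ := hf
  obtain ⟨n2, a2, b2, t2, ha2, hb2, ca2, cb2, -⟩ := h2
  have sy : ∀ x y, G.Adj x y → G.Adj y x := fun _ _ h => h.symm
  have ir : ∀ x, ¬ G.Adj x x := fun x => G.loopless.irrefl x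
  have cs := hs.symm
  have nm := hm.1
  have nd := hd.1
  have ne := he.1
  have na := ha.1
  have nz := hz.1
  have hS := hm.2.1
  have hX := ha.2.1
  have dm := hl.le td.2.1 nd nm
  have de := hl.le td.1 nd ne
  have h1 := ta.2.2.2
  have h2 := tm.2.2.2
  have h3 := td.2.2.2
  have h4 := te.2.2.2
  have h5 := tz.2.2.2
  have h6 := t2.2.2.2
  have na2 := ha2.1
  have nb2 := hb2.1
  have u1 := ha2.2.2.2
  have u2 := hb2.2.2.2
  have u3 := hd.2.2.2
  have u4 := he.2.2.2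
  have u5 := hz.2
  have s1 : G.Adj k s ∧ c e z ≠ c z k ∧ c e z ≠ c k s ∧ c z k ≠ c k s ∧ c e z ≠ c e d ∧
      c z k ≠ c e d ∧ c k s ≠ c e d := by
    obtain ⟨w1, w2, w3, e1, e2, e3, e4, hn, hc⟩ := hl.rp hs ne n2 (by omega) (c e d)
    have hh := hl.hub ne n2 (by omega) e1 e2 e3 e4
    have q : w1 = z ∧ w2 = k ∧ w3 = s := by grind
    obtain ⟨rfl, rfl, rfl⟩ := q
    grind
  have s2 : c e d ≠ c d s := by
    obtain ⟨w1, w2, w3, e1, e2, e3, e4, hn, hc⟩ := hl.rp hs ne n2 (by omega) (c s d2)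
    have hh := hl.hub ne n2 (by omega) e1 e2 e3 e4
    grind
  have s3 : G.Adj x s ∧ c m a ≠ c a x ∧ c m a ≠ c x s ∧ c a x ≠ c x s ∧ c m a ≠ c m d ∧
      c a x ≠ c m d ∧ c x s ≠ c m d := by
    obtain ⟨w1, w2, w3, e1, e2, e3, e4, hn, hc⟩ := hl.rp hs nm n2 (by omega) (c m d)
    have hh := hl.hub nm n2 (by omega) e1 e2 e3 e4
    have q : w1 = a ∧ w2 = x ∧ w3 = s := by grind
    obtain ⟨rfl, rfl, rfl⟩ := q
    grind
  have s4 : c m d ≠ c d s := by
    obtain ⟨w1, w2, w3, e1, e2, e3, e4, hn, hc⟩ := hl.rp hs nm n2 (by omega) (c s d2)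
    have hh := hl.hub nm n2 (by omega) e1 e2 e3 e4
    grind
  have zd : z ≠ d := by rintro rfl; exact hd.isA.notZ hz
  have zm : z ≠ m := by rintro rfl; exact hm.isA.notZ hz
  have za : z ≠ a := by rintro rfl; exact ha.isA.notZ hz
  have ze : z ≠ e := by rintro rfl; exact he.isA.notZ hz
  have zs : z ≠ s := by rintro rfl; exact nz hS
  have kd : k ≠ d := by
    have := tz.2.2.1
    grind
  have c1 := hs.cyc z e d s k tz.2.1 te.1 td.2.2.1 s1.1.symm tz.2.2.1.symm zd zs he.2.2.1.ne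
    tz.1 kd.symm
  have c2 := hs.cyc a x s d m ta.2.2.1 s3.1 td.2.2.1.symm td.2.1 tm.1 (by grind) ad (by grind)
    (by grind) hm.2.2.1.ne.symm
  have hna : ¬ G.Adj m e := by
    intro h7
    rcases h2 _ h7 with q | q | q
    · subst q; exact xs (u4 _ ha.2.2.1 hX)
    · subst q; exact ir _ td.1
    · subst q; exact ne hS
  obtain ⟨w1, w2, w3, e1, e2, e3, e4, hn, hc⟩ := hs.path m e em.symm hna (c d s)
  grind

variable [Fintype V]

lemma p4_aux (hs : Sat G c) {m s a d e x y t : V} (h : Mid G S m s a d) (h' : Mid G S d t e m)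
    (la : Lf G S a x m) (le : Lf G S e y d) (gm : GX G S m) (nd : GN G S d)
    (m1 : NoM G S m) (m2 : NoM G S d) (m3 : NoM G S a) (m4 : NoM G S e)
    (pa : ∀ z, G.Adj a z → ¬ IsZ G S z) : 2 ≤ K G S m + K G S a + K G S d + K G S e := by
  have k1 := K_nonneg (G := G) (S := S) m
  have k2 := K_nonneg (G := G) (S := S) a
  have k3 := K_nonneg (G := G) (S := S) d
  have k4 := K_nonneg (G := G) (S := S) e
  have ta := la.two pa
  have e1 := h'.1.2.2.2 _ (h.hubP gm la ta) h.1.2.1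
  subst t
  by_cases hint : ∃ z, IsZ G S z ∧ G.Adj e z ∧ G.Adj m z
  · obtain ⟨z, z1, z2, z3⟩ := hint
    obtain ⟨t, t1, -⟩ := m1 z z3 z1
    have e : t = e := by
      rcases t1.2.2.2 e z2.symm with q | q
      · exact absurd q h'.2.1
      · exact q.symm
    subst e
    have := keep_sum z1 t1
    have := K_ge1 z3 z1
    have := K_ge1 z2 z1
    linarith
  have e2 := p4_hub2 hs h h' la.1.2.1 ta le m1 fun z h1 h2 h3 => hint ⟨z, h1, h3, h2⟩
  subst y
  have rd : ¬ Rob G S d := fun hR => hint ((hR s h'.1).2 m e h'.swap.2.2.2.2.2.2 le m4)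
  have od : (∃ u, G.Adj d u ∧ IsZ G S u) → 1 ≤ K G S d := by
    rintro ⟨u, h1, h2⟩
    exact (keep_one u rd).trans (K_ge1 h1 h2)
  by_cases pe : ∀ z, G.Adj e z → ¬ IsZ G S z
  · have te := le.two pe
    have e3 := p4_hub2 hs h' h le.1.2.1 te la m2 fun z h1 _ h3 => pa z h3 h1
    subst x
    have rm : ¬ Rob G S m := fun hR => by
      obtain ⟨z, h1, h2, -⟩ := (hR s h.1).2 d a h.swap.2.2.2.2.2.2 la m3
      exact pa z h2 h1
    have := od (p4_L hs h h' ta le)
    obtain ⟨u, h1, h2⟩ := p4_L hs h' h te la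
    have := (keep_one u rm).trans (K_ge1 h1 h2)
    linarith
  have oe := le.one pe
  by_cases pd : ∃ u, G.Adj d u ∧ IsZ G S u
  · have := od pd; linarith
  have xs : x ≠ s := by rintro rfl; exact pd (p4_L hs h h' ta le)
  have cm : ∀ w, G.Adj m w → G.Adj w s → w = d := fun w h1 h2 => by
    rcases h.common h1 h2 with q | q
    · subst q; exact absurd (la.1.2.2.2 _ h2 h.1.2.1).symm xs
    · exact q
  by_cases pm : ∃ u, G.Adj m u ∧ IsZ G S u
  · obtain ⟨u, h1, h2⟩ := pm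
    have rm : ¬ Rob G S m := fun hR => by
      obtain ⟨p, q, h3, h4, h5, h6, h7⟩ := (hR s h.1).1
      exact h3 ((cm p h4 h5).trans (cm q h6 h7).symm)
    have := (keep_one u rm).trans (K_ge1 h1 h2)
    linarith
  push Not at pe
  obtain ⟨z, z1, z2⟩ := pe
  by_cases p2 : ∃ z', z' ≠ z ∧ G.Adj e z' ∧ IsZ G S z'
  · obtain ⟨z', h1, h2, h3⟩ := p2
    have := K_ge2 h2 h3 z1 z2 h1
    have := keep_one z le.notRob
    have := keep_one z' le.notRob
    linarith
  exfalso
  obtain ⟨k, tz, hk⟩ := m4 z z1 z2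
  have tm : Three G m a d s := ⟨h.2.2.2.2.1, h.2.2.2.2.2.1, h.1.2.2.1, fun y hy => by
    have := h.nbr hy
    have : ¬ IsZ G S y := fun hz => pm ⟨y, hy, hz⟩
    tauto⟩
  have td : Three G d e m s := ⟨h'.2.2.2.2.1, h'.2.2.2.2.2.1, h'.1.2.2.1, fun y hy => by
    have := h'.nbr hy
    have : ¬ IsZ G S y := fun hz => pd ⟨y, hy, hz⟩
    tauto⟩
  have te : Three G e d s z := ⟨le.2.2.1, le.1.2.2.1, z1, fun y hy => by
    have := le.nbr hy
    have : IsZ G S y → y = z := fun hz => by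
      by_contra hc; exact p2 ⟨y, hc, hy, hz⟩
    tauto⟩
  obtain ⟨d2, n1, n2⟩ := nd s ⟨h'.1.1, e, m, td, le.1, h.1, fun y h1 h2 => le.common' h1 h2,
    cm, z, k, z2, tz⟩
  exact p4_final hs h.1 h'.1 le.1 la.1 xs ta tm td te tz z2 hk.1 h'.2.1 h.2.1 n1 n2

theorem p4 (hs : Sat G c) {m s a d e x y t : V} (h : Mid G S m s a d) (h' : Mid G S d t e m)
    (la : Lf G S a x m) (le : Lf G S e y d) (gm : GX G S m) (gd : GX G S d) (nm : GN G S m)
    (nd : GN G S d) (zm : GZ G S m) (zd : GZ G S d) (za : GZ G S a) (ze : GZ G S e) :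
    2 ≤ K G S m + K G S a + K G S d + K G S e := by
  have k1 := K_nonneg (G := G) (S := S) m
  have k2 := K_nonneg (G := G) (S := S) a
  have k3 := K_nonneg (G := G) (S := S) d
  have k4 := K_nonneg (G := G) (S := S) e
  by_cases m1 : HasM G S m
  · have := m1.le; linarith
  by_cases m2 : HasM G S d
  · have := m2.le; linarith
  by_cases m3 : HasM G S a
  · have := m3.le; linarith
  by_cases m4 : HasM G S e
  · have := m4.le; linarith
  by_cases pa : ∀ z, G.Adj a z → ¬ IsZ G S z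
  · exact p4_aux hs h h' la le gm nd (zm.noM m1) (zd.noM m2) (za.noM m3) (ze.noM m4) pa
  by_cases pe : ∀ z, G.Adj e z → ¬ IsZ G S z
  · have := p4_aux hs h' h le la gd nm (zd.noM m2) (zm.noM m1) (ze.noM m4) (za.noM m3) pe
    linarith
  have := la.one pa
  have := le.one pe
  linarith

end Pool.Agent.MP_8ccfd2_co
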