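import Pool.Agent.MP_8ccfd2_co.Defs

namespace Pool.Agent.MP_8ccfd2_co.LC

section LDefs
/-- An edge-indexed coloured graph: `ok e` says that the index `e` is an edge. -/
structure IG (V E C : Type) where
  ok : E → Prop
  src : E → V
  tgt : E → V
  col : E → C

section Gen
variable {V E C : Type}

/-- the edge `e` joins `u` and `v` -/
def IG.Step (g : IG V E C) (e : E) (u v : V) : Prop :=
  g.ok e ∧ ((g.src e = u ∧ g.tgt e = v) ∨ (g.src e = v ∧ g.tgt e = u))

/-- the edge `e` has `v` as an end -/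
def IG.Inc (g : IG V E C) (e : E) (v : V) : Prop := g.src e = v ∨ g.tgt e = v

/-- a rainbow path from `a` to `b` with `n` edges, vertices in `VS`, colours in `CS` -/
def IG.RP (g : IG V E C) (a b : V) (n : ℕ) (VS : Set V) (CS : Set C) : Prop :=
  ∃ (p : ℕ → V) (q : ℕ → E), p 0 = a ∧ p n = b ∧ (∀ k < n, g.Step (q k) (p k) (p (k + 1))) ∧
    (∀ k ≤ n, ∀ l ≤ n, p k = p l → k = l) ∧
    (∀ k < n, ∀ l < n, g.col (q k) = g.col (q l) → k = l) ∧
    (∀ k ≤ n, p k ∈ VS) ∧ (∀ k < n, g.col (q k) ∈ CS)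

/-- what we use of the edge set of a rainbow cycle of length `r` -/
structure IG.Cyc (g : IG V E C) (r : ℕ) (A : Finset E) : Prop where
  ok : ∀ e ∈ A, g.ok e
  card : A.card = r
  rain : ∀ e ∈ A, ∀ e' ∈ A, g.col e = g.col e' → e = e'
  two : ∀ e ∈ A, ∀ v, g.Inc e v → ∃ e' ∈ A, e' ≠ e ∧ g.Inc e' v
  three : ∀ v, ∀ e₁ ∈ A, ∀ e₂ ∈ A, ∀ e₃ ∈ A, g.Inc e₁ v → g.Inc e₂ v → g.Inc e₃ v →
    e₁ = e₂ ∨ e₁ = e₃ ∨ e₂ = e₃
  conn : ∀ B : Set E, (∃ e ∈ A, e ∈ B) →
    (∀ e ∈ A, e ∈ B → ∀ e' ∈ A, ∀ v, g.Inc e v → g.Inc e' v → e' ∈ B) → ∀ e ∈ A, e ∈ B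
  par : ∀ χ : V → ZMod 2, ∑ e ∈ A, (χ (g.src e) + χ (g.tgt e)) = 0

/-- simple-graph conditions relative to a vertex set `VV` -/
structure IG.Simple (g : IG V E C) (VV : Set V) : Prop where
  val : ∀ e, g.ok e → g.src e ∈ VV ∧ g.tgt e ∈ VV
  ne : ∀ e, g.ok e → g.src e ≠ g.tgt e
  inj : ∀ e e', g.ok e → g.ok e' → s(g.src e, g.tgt e) = s(g.src e', g.tgt e') → e = e'

/-- the simple graph on `VV` -/
def IG.graph (g : IG V E C) (VV : Set V) : SimpleGraph VV :=
  SimpleGraph.fromRel fun u v => ∃ e, g.Step e u.1 v.1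

open Classical in
/-- the colouring by natural numbers -/
noncomputable def IG.colour (g : IG V E C) (VV : Set V) (enc : C → ℕ) (z : Sym2 VV) : ℕ :=
  if h : ∃ e, g.ok e ∧ s(g.src e, g.tgt e) = Sym2.map Subtype.val z then enc (g.col h.choose)
  else 0

open Classical in
/-- adding the edge `u v` with colour `i` creates a rainbow copy of `F` -/
def ServedAt {W U : Type} (F : SimpleGraph W) (G : SimpleGraph U) (c : Sym2 U → ℕ) (u v : U)
    (i : ℕ) : Prop :=
  HasRainbow F (G ⊔ SimpleGraph.edge u v) (Function.update c s(u, v) i)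

lemma rainbowSat_iff {W U : Type} (F : SimpleGraph W) (G : SimpleGraph U) (c : Sym2 U → ℕ) :
    RainbowSat F G c ↔
      ¬ HasRainbow F G c ∧ ∀ u v : U, u ≠ v → ¬ G.Adj u v → ∀ i, ServedAt F G c u v i :=
  Iff.rfl

end Gen

/-- vertices of the gadget: three subdivided binary trees with common leaves -/
inductive TV
  | nd (W : Fin 3) (l : List Bool)
  | lf (l : List Bool)
  | md (W : Fin 3) (l : List Bool) (b : Bool)

/-- edges of the gadget: upper and lower halves of the legs -/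
inductive TE
  | up (W : Fin 3) (l : List Bool) (b : Bool)
  | lo (W : Fin 3) (l : List Bool) (b : Bool)

/-- colours of the gadget -/
inductive TC
  | pub (W : Fin 3) (j : ℕ) (b : Bool)
  | prv (W : Fin 3) (l : List Bool) (b : Bool)

/-- branch vertex with address `l` in tree `W` -/
def sk (d : ℕ) (W : Fin 3) (l : List Bool) : TV := if l.length < d then TV.nd W l else TV.lf l

/-- the gadget -/
def TG (d : ℕ) : IG TV TE TC where
  ok
    | TE.up _ l _ => l.length < d
    | TE.lo _ l _ => l.length < d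
  src
    | TE.up W l _ => TV.nd W l
    | TE.lo W l b => TV.md W l b
  tgt
    | TE.up W l b => TV.md W l b
    | TE.lo W l b => sk d W (b :: l)
  col
    | TE.up W l b => TC.pub W l.length b
    | TE.lo W l b => TC.prv W l b

/-- the vertices of the gadget of depth `d` -/
def TVal (d : ℕ) : TV → Prop
  | TV.nd _ l => l.length < d
  | TV.lf l => l.length = d
  | TV.md _ l _ => l.length < d

/-- public colours -/
def TC.IsPub : TC → Prop
  | TC.pub _ _ _ => True
  | TC.prv _ _ _ => False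

/-- public labels -/
abbrev PL := Fin 3 × ℕ × Bool

/-- No rainbow path of length `L` between the roots `X`, `Y` misses both labels. -/
def Safe (d : ℕ) (X : Fin 3) (f : Option PL) (Y : Fin 3) (g : Option PL) (L : ℕ) : Prop :=
  X = Y ∨ ∀ s ≤ d, L = 4 * d + 4 * s →
    (s = 0 → ∃ j b, j < d ∧ f = some (X, j, b) ∧ g = some (Y, j, !b)) ∧
    (1 ≤ s → ∃ Z b, Z ≠ X ∧ Z ≠ Y ∧ (f = some (Z, d - s, b) ∨ g = some (Z, d - s, b)))

/-- the label is absent or a valid public colour outside `S` -/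
def LabOK (d : ℕ) (f : Option PL) (S : Set TC) : Prop :=
  ∀ W j b, f = some (W, j, b) → j < d ∧ TC.pub W j b ∉ S

/-- Two routes from `u` and `w` to roots, with labels for a safe connecting chain. -/
def Svc (d : ℕ) (u w : TV) (same : Prop) (bu bw : Set TC) : Prop :=
  ∃ (X Y : Fin 3) (p q : ℕ) (V₁ V₂ : Set TV) (C₁ C₂ : Set TC) (f g : Option PL),
    (TG d).RP u (TV.nd X []) p V₁ C₁ ∧ (TG d).RP w (TV.nd Y []) q V₂ C₂ ∧ p + q ≤ 8 * d ∧
    (same → Disjoint V₁ V₂ ∧ Disjoint C₁ C₂) ∧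
    (∀ W j b, TC.pub W j b ∈ C₁ → TC.pub W j b ∉ C₂) ∧
    Disjoint C₁ bu ∧ Disjoint C₂ bw ∧
    LabOK d f (C₁ ∪ C₂ ∪ bu ∪ bw) ∧ LabOK d g (C₁ ∪ C₂ ∪ bu ∪ bw) ∧ (f = g → f = none) ∧
    Safe d X f Y g (p + q + 1)

/-- the first `k` bits, last bit first -/
def pre (x : ℕ → Bool) : ℕ → List Bool
  | 0 => []
  | k + 1 => x k :: pre x k

/-- the vertex at depth `n` on the branch `x` of tree `W` -/
def geo (d : ℕ) (W : Fin 3) (x : ℕ → Bool) (n : ℕ) : TV :=
  if n % 2 = 0 then sk d W (pre x (n / 2)) else TV.md W (pre x (n / 2)) (x (n / 2))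

/-- the edge between depths `n` and `n + 1` on the branch `x` of tree `W` -/
def ge (W : Fin 3) (x : ℕ → Bool) (n : ℕ) : TE :=
  if n % 2 = 0 then TE.up W (pre x (n / 2)) (x (n / 2)) else TE.lo W (pre x (n / 2)) (x (n / 2))

/-- its colour -/
def gc (W : Fin 3) (x : ℕ → Bool) (n : ℕ) : TC :=
  if n % 2 = 0 then TC.pub W (n / 2) (x (n / 2)) else TC.prv W (pre x (n / 2)) (x (n / 2))

/-- vertices of a piece of a branch -/
def VS (d : ℕ) (W : Fin 3) (x : ℕ → Bool) (a b : ℕ) : Set TV :=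
  {v | ∃ n, a ≤ n ∧ n ≤ b ∧ v = geo d W x n}

/-- colours of a piece of a branch -/
def CS (W : Fin 3) (x : ℕ → Bool) (a b : ℕ) : Set TC :=
  {c | ∃ n, a ≤ n ∧ n < b ∧ c = gc W x n}

/-- tree of a colour -/
def TC.tr : TC → Fin 3
  | TC.pub W _ _ => W
  | TC.prv W _ _ => W

/-- depth of the upper end of the edges of a colour -/
def TC.dep : TC → ℕ
  | TC.pub _ j _ => 2 * j
  | TC.prv _ l _ => 2 * l.length + 1

/-- bit of a colour -/
def TC.bit : TC → Bool
  | TC.pub _ _ b => b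
  | TC.prv _ _ b => b

/-- labels of hubs -/
abbrev Lab := Fin 3 ⊕ PL

/-- hubs -/
abbrev Hub := Fin 3 × Lab

/-- chains: two hubs, a length, a version -/
structure Ch where
  h : Hub
  h' : Hub
  m : ℕ
  v : Fin 3

/-- vertices of the whole graph -/
inductive GV
  | gad (a : ℕ) (v : TV)
  | lone (a : ℕ)
  | hub (h : Hub)
  | ze (c : Ch) (j : Bool)
  | op (c : Ch) (g : Fin 3) (o : Fin 5) (k : ℕ)

/-- edges of the whole graph -/
inductive GE
  | leg (a : ℕ) (e : TE)
  | ex (a : ℕ) (h : Hub)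
  | lx (a : ℕ) (h : Hub)
  | ce (c : Ch) (g : Fin 3) (o : Fin 5) (k : ℕ)

/-- colours of the whole graph -/
inductive GC
  | pub (W : Fin 3) (j : ℕ) (b : Bool)
  | prv (a : ℕ) (W : Fin 3) (l : List Bool) (b : Bool)
  | pl (a : Fin 3)
  | sp (o : Fin 5)
  | cp (c : Ch) (g : Fin 3) (o : Fin 5) (k : ℕ)

/-- colours of copy `a` -/
def tcol (a : ℕ) : TC → GC
  | TC.pub W j b => GC.pub W j b
  | TC.prv W l b => GC.prv a W l b

/-- colour of the star at a hub -/
def labcol : Lab → GC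
  | Sum.inl a => GC.pl a
  | Sum.inr (W, j, b) => GC.pub W j b

/-- public part of a label -/
def labopt : Lab → Option PL
  | Sum.inl _ => none
  | Sum.inr x => some x

/-- valid hubs -/
def hubOK (d : ℕ) (h : Hub) : Prop := ∀ W j b, h.2 = Sum.inr (W, j, b) → j < d

/-- valid chains -/
def allowed (d r : ℕ) (c : Ch) : Prop :=
  hubOK d c.h ∧ hubOK d c.h' ∧ c.h ≠ c.h' ∧ 6 ≤ c.m ∧ c.m + 3 ≤ r ∧
    Safe d c.h.1 (labopt c.h.2) c.h'.1 (labopt c.h'.2) (r - c.m - 2)

/-- length of the options of gate `g` -/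
def glen (m : ℕ) (g : Fin 3) : ℕ := if g = 1 then m - 2 * (m / 3) else m / 3

/-- left end of gate `g` -/
def lend (c : Ch) (g : Fin 3) : GV :=
  if g = 0 then GV.hub c.h else if g = 1 then GV.ze c false else GV.ze c true

/-- right end of gate `g` -/
def rend (c : Ch) (g : Fin 3) : GV :=
  if g = 0 then GV.ze c false else if g = 1 then GV.ze c true else GV.hub c.h'

/-- the `k`-th vertex of option `o` of gate `g` -/
def pos (c : Ch) (g : Fin 3) (o : Fin 5) (k : ℕ) : GV :=
  if k = 0 then lend c g else if k = glen c.m g then rend c g else GV.op c g o k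

/-- colours of the chain edges -/
def ccol (c : Ch) (g : Fin 3) (o : Fin 5) (k : ℕ) : GC :=
  if (g = 0 ∧ k + 1 = glen c.m g) ∨ (g ≠ 0 ∧ k = 0) then GC.sp o else GC.cp c g o k

/-- the whole graph: `t` copies of the gadget, `s` lone vertices, hubs and chains -/
def GG (d r t s : ℕ) : IG GV GE GC where
  ok
    | GE.leg a e => a < t ∧ (TG d).ok e
    | GE.ex a h => a < t ∧ hubOK d h
    | GE.lx a h => a < s ∧ hubOK d h ∧ h.1 = 0
    | GE.ce c g _ k => allowed d r c ∧ k < glen c.m g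
  src
    | GE.leg a e => GV.gad a ((TG d).src e)
    | GE.ex a h => GV.gad a (TV.nd h.1 [])
    | GE.lx a _ => GV.lone a
    | GE.ce c g o k => pos c g o k
  tgt
    | GE.leg a e => GV.gad a ((TG d).tgt e)
    | GE.ex _ h => GV.hub h
    | GE.lx _ h => GV.hub h
    | GE.ce c g o k => pos c g o (k + 1)
  col
    | GE.leg a e => tcol a ((TG d).col e)
    | GE.ex _ h => labcol h.2
    | GE.lx _ h => labcol h.2
    | GE.ce c g o k => ccol c g o k

/-- the vertices of the whole graph -/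
def GVal (d r t s : ℕ) : GV → Prop
  | GV.gad a v => a < t ∧ TVal d v
  | GV.lone a => a < s
  | GV.hub h => hubOK d h
  | GV.ze c _ => allowed d r c
  | GV.op c g _ k => allowed d r c ∧ 1 ≤ k ∧ k < glen c.m g

/-- inner vertices of a chain -/
def inCh (c : Ch) : GV → Prop
  | GV.ze c' _ => c' = c
  | GV.op c' _ _ _ => c' = c
  | _ => False

/-- private colours of chain `c` and the special colours in `S` -/
def chCol (c : Ch) (S : Set (Fin 5)) : Set GC :=
  {x | (∃ g o k, x = GC.cp c g o k) ∨ ∃ o ∈ S, x = GC.sp o}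

/-- the valid vertices outside the copies of the gadget -/
def Ker (d r t s : ℕ) : Set GV := {v | GVal d r t s v ∧ ∀ a u, v ≠ GV.gad a u}

/-- the edges that meet a copy of the gadget -/
def EG (d r t s : ℕ) : Set GE :=
  {e | (GG d r t s).ok e ∧ ((∃ a x, e = GE.leg a x) ∨ ∃ a h, e = GE.ex a h)}

end LDefs

section LGen1
variable {V E C : Type} {g : IG V E C}

lemma IG.Step.symm {e : E} {u v : V} (h : g.Step e u v) : g.Step e v u :=
  ⟨h.1, h.2.symm⟩

lemma IG.RP.refl (g : IG V E C) [Inhabited E] (a : V) : g.RP a a 0 {a} ∅ :=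
  ⟨fun _ => a, fun _ => default, rfl, rfl, by simp, by simp, by simp, by simp, by simp⟩

lemma IG.RP.single {e : E} {u v : V} (h : g.Step e u v) (huv : u ≠ v) :
    g.RP u v 1 {u, v} {g.col e} := by
  refine ⟨fun k => if k = 0 then u else v, fun _ => e, by simp, by simp, ?_, ?_, ?_, ?_, by simp⟩
  · intro k hk
    obtain rfl : k = 0 := by omega
    simpa using h
  · intro k hk l hl hkl
    by_cases h1 : k = 0 <;> by_cases h2 : l = 0 <;> simp [h1, h2] at hkl
    · omega
    · exact absurd hkl huv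
    · exact absurd hkl.symm huv
    · omega
  · intro k hk l hl _
    omega
  · intro k _
    by_cases h1 : k = 0 <;> simp [h1]

lemma IG.RP.symm {a b : V} {n : ℕ} {VS : Set V} {CS : Set C} (h : g.RP a b n VS CS) :
    g.RP b a n VS CS := by
  obtain ⟨p, q, h0, hn, hs, hp, hq, hv, hc⟩ := h
  refine ⟨fun k => p (n - k), fun k => q (n - 1 - k), by simpa, by simpa, ?_, ?_, ?_, ?_, ?_⟩
  · intro k hk
    have := (hs (n - 1 - k) (by omega)).symm
    have e1 : n - 1 - k + 1 = n - k := by omega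
    have e2 : n - 1 - k = n - (k + 1) := by omega
    rw [e1] at this
    simpa only [← e2] using this
  · intro k hk l hl hkl
    have := hp _ (by omega) _ (by omega) hkl
    omega
  · intro k hk l hl hkl
    have := hq _ (by omega) _ (by omega) hkl
    omega
  · intro k hk
    exact hv _ (by omega)
  · intro k hk
    exact hc _ (by omega)

lemma IG.RP.mono {a b : V} {n : ℕ} {VS VS' : Set V} {CS CS' : Set C} (h : g.RP a b n VS CS)
    (h1 : VS ⊆ VS') (h2 : CS ⊆ CS') : g.RP a b n VS' CS' := by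
  obtain ⟨p, q, h0, hn, hs, hp, hq, hv, hc⟩ := h
  exact ⟨p, q, h0, hn, hs, hp, hq, fun k hk => h1 (hv k hk), fun k hk => h2 (hc k hk)⟩

lemma IG.RP.left_mem {a b : V} {n : ℕ} {VS : Set V} {CS : Set C} (h : g.RP a b n VS CS) :
    a ∈ VS := by
  obtain ⟨p, q, h0, hn, hs, hp, hq, hv, hc⟩ := h
  exact h0 ▸ hv 0 (by omega)

lemma IG.RP.right_mem {a b : V} {n : ℕ} {VS : Set V} {CS : Set C} (h : g.RP a b n VS CS) :
    b ∈ VS := h.symm.left_mem

lemma IG.RP.eq_of_zero {a b : V} {VS : Set V} {CS : Set C} (h : g.RP a b 0 VS CS) : a = b := by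
  obtain ⟨p, q, h0, hn, -⟩ := h
  exact h0.symm.trans hn

lemma IG.RP.cast {a b a' b' : V} {n n' : ℕ} {VS : Set V} {CS : Set C} (h : g.RP a b n VS CS)
    (ha : a = a') (hb : b = b') (hn : n = n') : g.RP a' b' n' VS CS := by
  subst ha hb hn
  exact h

lemma IG.RP.append {a b c : V} {n m : ℕ} {V₁ V₂ : Set V} {C₁ C₂ : Set C}
    (h₁ : g.RP a b n V₁ C₁) (h₂ : g.RP b c m V₂ C₂) (hV : ∀ v ∈ V₁, v ∈ V₂ → v = b)
    (hC : Disjoint C₁ C₂) : g.RP a c (n + m) (V₁ ∪ V₂) (C₁ ∪ C₂) := by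
  obtain ⟨p, q, h0, hn, hs, hp, hq, hv, hc⟩ := h₁
  obtain ⟨p', q', h0', hn', hs', hp', hq', hv', hc'⟩ := h₂
  have key : ∀ k ≤ n, ∀ l ≤ m, p k = p' l → k = n ∧ l = 0 := by
    intro k hk l hl hkl
    have hb : p k = b := hV _ (hv k hk) (hkl ▸ hv' l hl)
    exact ⟨hp k hk n le_rfl (hb.trans hn.symm),
      hp' l hl 0 (by omega) (hkl.symm.trans (hb.trans h0'.symm))⟩
  refine ⟨fun k => if k ≤ n then p k else p' (k - n), fun k => if k < n then q k else q' (k - n),
    by simpa, ?_, ?_, ?_, ?_, ?_, ?_⟩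
  · by_cases hm : m = 0
    · subst hm
      simp [hn, ← h0', ← hn']
    · have : ¬ n + m ≤ n := by omega
      simp [this, hn']
  · intro k hk
    by_cases h1 : k < n
    · have h2 : k ≤ n := by omega
      have h3 : k + 1 ≤ n := by omega
      simpa [h1, h2, h3] using hs k h1
    · have h3 : ¬ k + 1 ≤ n := by omega
      have := hs' (k - n) (by omega)
      have e1 : k - n + 1 = k + 1 - n := by omega
      rw [e1] at this
      by_cases h2 : k ≤ n
      · obtain rfl : k = n := by omega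
        simpa [h3, hn, h0'] using this
      · simpa [h1, h2, h3] using this
  · intro k hk l hl hkl
    by_cases h1 : k ≤ n <;> by_cases h2 : l ≤ n <;> simp only [h1, h2, if_true, if_false] at hkl
    · exact hp k h1 l h2 hkl
    · have := key k h1 (l - n) (by omega) hkl
      omega
    · have := key l h2 (k - n) (by omega) hkl.symm
      omega
    · have := hp' _ (by omega) _ (by omega) hkl
      omega
  · intro k hk l hl hkl
    by_cases h1 : k < n <;> by_cases h2 : l < n <;> simp only [h1, h2, if_true, if_false] at hkl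
    · exact hq k h1 l h2 hkl
    · exact absurd (hkl ▸ hc k h1) (Set.disjoint_right.1 hC (hc' _ (by omega)))
    · exact absurd (hkl ▸ hc' (k - n) (by omega)) (Set.disjoint_left.1 hC (hc l h2))
    · have := hq' _ (by omega) _ (by omega) hkl
      omega
  · intro k hk
    by_cases h1 : k ≤ n <;> simp only [h1, if_true, if_false]
    · exact Or.inl (hv k h1)
    · exact Or.inr (hv' _ (by omega))
  · intro k hk
    by_cases h1 : k < n <;> simp only [h1, if_true, if_false]
    · exact Or.inl (hc k h1)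
    · exact Or.inr (hc' _ (by omega))

lemma IG.RP.map {V' E' C' : Type} {g' : IG V' E' C'} (φ : V → V') (ψ : E → E') (χ : C → C')
    (hφ : Function.Injective φ) (hχ : Function.Injective χ)
    (hstep : ∀ e u v, g.Step e u v → g'.Step (ψ e) (φ u) (φ v))
    (hcol : ∀ e, g'.col (ψ e) = χ (g.col e)) {a b : V} {n : ℕ} {VS : Set V} {CS : Set C}
    (h : g.RP a b n VS CS) : g'.RP (φ a) (φ b) n (φ '' VS) (χ '' CS) := by
  obtain ⟨p, q, h0, hn, hs, hp, hq, hv, hc⟩ := h
  refine ⟨fun k => φ (p k), fun k => ψ (q k), by simp [h0], by simp [hn],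
    fun k hk => hstep _ _ _ (hs k hk), fun k hk l hl hkl => hp k hk l hl (hφ hkl), ?_,
    fun k hk => ⟨_, hv k hk, rfl⟩, fun k hk => ⟨_, hc k hk, (hcol _).symm⟩⟩
  intro k hk l hl hkl
  simp only [hcol] at hkl
  exact hq k hk l hl (hχ hkl)

instance : Inhabited TE := ⟨TE.up 0 [] true⟩

instance : Inhabited GE := ⟨GE.ex 0 (0, Sum.inl 0)⟩

end LGen1

section LGen2
variable {V E C : Type} {g : IG V E C} {VV : Set V}

lemma LGen2_sym {e : E} {u v : V} (h : g.Step e u v) : s(g.src e, g.tgt e) = s(u, v) := by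
  rcases h.2 with ⟨h1, h2⟩ | ⟨h1, h2⟩
  · rw [h1, h2]
  · rw [h1, h2, Sym2.eq_swap]

lemma LGen2_colour_eq (hs : g.Simple VV) (enc : C → ℕ) {e : E} {u v : VV}
    (h : g.Step e u.1 v.1) : g.colour VV enc s(u, v) = enc (g.col e) := by
  have hex : ∃ e, g.ok e ∧ s(g.src e, g.tgt e) = Sym2.map Subtype.val s(u, v) :=
    ⟨e, h.1, by rw [LGen2_sym h]; simp⟩
  unfold IG.colour
  rw [dif_pos hex]
  have h1 := hex.choose_spec
  have h2 : hex.choose = e := by
    apply hs.inj _ _ h1.1 h.1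
    rw [h1.2, LGen2_sym h]
    simp
  rw [h2]

lemma LGen2_inc {e : E} {u v w : V} (h : g.Step e u v) : g.Inc e w ↔ w = u ∨ w = v := by
  unfold IG.Inc
  rcases h.2 with ⟨h1, h2⟩ | ⟨h1, h2⟩
  · rw [h1, h2]
    constructor <;> rintro (h | h) <;> simp [h]
  · rw [h1, h2]
    constructor <;> rintro (h | h) <;> simp [h]

lemma LGen2_sum {e : E} {u v : V} (h : g.Step e u v) (χ : V → ZMod 2) :
    χ (g.src e) + χ (g.tgt e) = χ u + χ v := by
  rcases h.2 with ⟨h1, h2⟩ | ⟨h1, h2⟩
  · rw [h1, h2]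
  · rw [h1, h2, add_comm]

lemma LGen2_two_ne (n : ℕ) : (1 : Fin (n + 3)) + 1 ≠ 0 := by
  intro h
  have := congrArg Fin.val h
  simp [Fin.val_add] at this
  rw [Nat.mod_eq_of_lt (by omega)] at this
  omega

lemma LGen2_pair {n : ℕ} {k l : Fin (n + 3)} (h : s(k, k + 1) = s(l, l + 1)) : k = l := by
  rcases Sym2.eq_iff.1 h with ⟨h1, _⟩ | ⟨h1, h2⟩
  · exact h1
  · exfalso
    apply LGen2_two_ne n
    have : l + (1 + 1) = l + 0 := by
      rw [← add_assoc, ← h1, h2, add_zero]
    exact add_left_cancel this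

lemma LGen2_ind {n : ℕ} (P : Fin (n + 3) → Prop) (k : Fin (n + 3)) (hk : P k)
    (hstep : ∀ j, P j → P (j + 1)) (l : Fin (n + 3)) : P l := by
  have h1 : ∀ m : ℕ, P (k + Fin.ofNat (n + 3) m) := by
    intro m
    induction m with
    | zero => simpa using hk
    | succ m ih =>
      have : Fin.ofNat (n + 3) (m + 1) = Fin.ofNat (n + 3) m + 1 := by
        apply Fin.ext
        simp [Fin.val_add]
      rw [this, ← add_assoc]
      exact hstep _ ih
  have h2 := h1 (l - k).val
  have h3 : Fin.ofNat (n + 3) (l - k).val = l - k := by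
    apply Fin.ext
    simp
  rw [h3] at h2
  simpa using h2

theorem cyc_of_hasRainbow (hs : g.Simple VV) {enc : C → ℕ} {r : ℕ} (hr : 3 ≤ r)
    (h : HasRainbow (SimpleGraph.cycleGraph r) (g.graph VV) (g.colour VV enc)) :
    ∃ A, g.Cyc r A := by
  classical
  obtain ⟨n, rfl⟩ : ∃ n, r = n + 3 := ⟨r - 3, by omega⟩
  obtain ⟨f, hf, hadj, hinj⟩ := h
  have hcyc : ∀ k : Fin (n + 3), (SimpleGraph.cycleGraph (n + 3)).Adj k (k + 1) := by
    intro k
    rw [SimpleGraph.cycleGraph_adj]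
    right
    simp
  have hq : ∀ k : Fin (n + 3), ∃ e, g.Step e (f k).1 (f (k + 1)).1 := by
    intro k
    have := hadj _ _ (hcyc k)
    unfold IG.graph at this
    rw [SimpleGraph.fromRel_adj] at this
    rcases this.2 with ⟨e, he⟩ | ⟨e, he⟩
    · exact ⟨e, he⟩
    · exact ⟨e, he.symm⟩
  choose q hq using hq
  have hcol : ∀ k l, g.col (q k) = g.col (q l) → k = l := by
    intro k l hkl
    apply LGen2_pair
    apply hinj (hcyc k) (hcyc l)
    simp only [Sym2.map_mk]
    rw [LGen2_colour_eq hs enc (hq k), LGen2_colour_eq hs enc (hq l), hkl]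
  have hqi : Function.Injective q := fun k l hkl => hcol k l (by rw [hkl])
  have hfv : ∀ k l, (f k).1 = (f l).1 → k = l := fun k l hkl => hf (Subtype.ext hkl)
  have hone : (1 : Fin (n + 3)) ≠ 0 := by
    intro h
    have := congrArg Fin.val h
    simp at this
  have hat : ∀ j k, g.Inc (q k) (f j).1 → k = j ∨ k = j - 1 := by
    intro j k hk
    rcases (LGen2_inc (hq k)).1 hk with h1 | h1
    · exact Or.inl (hfv _ _ h1).symm
    · right
      rw [hfv _ _ h1]
      simp
  refine ⟨Finset.univ.image q, ?_, ?_, ?_, ?_, ?_, ?_, ?_⟩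
  · intro e he
    obtain ⟨k, -, rfl⟩ := Finset.mem_image.1 he
    exact (hq k).1
  · rw [Finset.card_image_of_injective _ hqi]
    simp
  · intro e he e' he' hee
    obtain ⟨k, -, rfl⟩ := Finset.mem_image.1 he
    obtain ⟨l, -, rfl⟩ := Finset.mem_image.1 he'
    rw [hcol k l hee]
  · intro e he v hv
    obtain ⟨k, -, rfl⟩ := Finset.mem_image.1 he
    rcases (LGen2_inc (hq k)).1 hv with h1 | h1
    · refine ⟨q (k - 1), Finset.mem_image_of_mem _ (Finset.mem_univ _), ?_, ?_⟩
      · intro h2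
        have h3 := hqi h2
        apply hone
        have : k - 1 = k - 0 := by rw [h3, sub_zero]
        exact sub_right_injective this
      · rw [LGen2_inc (hq (k - 1))]
        right
        rw [h1]
        simp
    · refine ⟨q (k + 1), Finset.mem_image_of_mem _ (Finset.mem_univ _), ?_, ?_⟩
      · intro h2
        have h3 := hqi h2
        apply hone
        have : k + 1 = k + 0 := by rw [h3, add_zero]
        exact add_left_cancel this
      · rw [LGen2_inc (hq (k + 1))]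
        left
        exact h1
  · intro v e₁ he₁ e₂ he₂ e₃ he₃ h1 h2 h3
    obtain ⟨k₁, -, rfl⟩ := Finset.mem_image.1 he₁
    obtain ⟨k₂, -, rfl⟩ := Finset.mem_image.1 he₂
    obtain ⟨k₃, -, rfl⟩ := Finset.mem_image.1 he₃
    obtain ⟨j, rfl⟩ : ∃ j, v = (f j).1 := by
      rcases (LGen2_inc (hq k₁)).1 h1 with h | h
      · exact ⟨_, h⟩
      · exact ⟨_, h⟩
    rcases hat _ _ h1 with a | a <;> rcases hat _ _ h2 with b | b <;>
      rcases hat _ _ h3 with c | c <;> simp [a, b, c]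
  · intro B hB hcl e he
    obtain ⟨e₀, he₀, hB₀⟩ := hB
    obtain ⟨k, -, rfl⟩ := Finset.mem_image.1 he₀
    obtain ⟨l, -, rfl⟩ := Finset.mem_image.1 he
    refine LGen2_ind (fun j => q j ∈ B) k hB₀ ?_ l
    intro j hj
    refine hcl (q j) (Finset.mem_image_of_mem _ (Finset.mem_univ _)) hj (q (j + 1))
      (Finset.mem_image_of_mem _ (Finset.mem_univ _)) (f (j + 1)).1 ?_ ?_
    · rw [LGen2_inc (hq j)]
      exact Or.inr rfl
    · rw [LGen2_inc (hq (j + 1))]
      exact Or.inl rfl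
  · intro χ
    rw [Finset.sum_image (fun k _ l _ hkl => hqi hkl)]
    simp only [fun k => LGen2_sum (hq k) χ]
    rw [Finset.sum_add_distrib]
    have : ∑ k : Fin (n + 3), χ (f (k + 1)).1 = ∑ k : Fin (n + 3), χ (f k).1 :=
      Equiv.sum_comp (Equiv.addRight 1) (fun k => χ (f k).1)
    rw [this]
    exact CharTwo.add_self_eq_zero _

end LGen2

section LGen3
variable {V E C : Type} {g : IG V E C} {VV : Set V}

lemma LGen3_sym {e : E} {x y : V} (h : g.Step e x y) : s(g.src e, g.tgt e) = s(x, y) := by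
  rcases h.2 with ⟨h1, h2⟩ | ⟨h1, h2⟩
  · rw [h1, h2]
  · rw [h1, h2, Sym2.eq_swap]

lemma LGen3_colour (hs : g.Simple VV) (enc : C → ℕ) {e : E} {x y : VV} (h : g.Step e x.1 y.1) :
    g.colour VV enc s(x, y) = enc (g.col e) := by
  have hex : ∃ e, g.ok e ∧ s(g.src e, g.tgt e) = Sym2.map Subtype.val s(x, y) :=
    ⟨e, h.1, by rw [Sym2.map_mk]; exact LGen3_sym h⟩
  unfold IG.colour
  rw [dif_pos hex]
  have h1 := hex.choose_spec
  have h2 : hex.choose = e := hs.inj _ _ h1.1 h.1 (by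
    rw [h1.2, Sym2.map_mk]; exact (LGen3_sym h).symm)
  rw [h2]

lemma LGen3_adj (hs : g.Simple VV) {e : E} {x y : VV} (h : g.Step e x.1 y.1) :
    (g.graph VV).Adj x y := by
  unfold IG.graph
  rw [SimpleGraph.fromRel_adj]
  refine ⟨fun hxy => hs.ne e h.1 ?_, Or.inl ⟨e, h⟩⟩
  subst hxy
  rcases h.2 with ⟨h1, h2⟩ | ⟨h1, h2⟩ <;> rw [h1, h2]

lemma LGen3_cyc {n : ℕ} {x y : Fin (n + 3)} (h : x - y = 1) :
    x.val = y.val + 1 ∨ (x.val = 0 ∧ y.val = n + 2) := by
  have h1 : x = y + 1 := by rw [← h]; abel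
  have h2 := Fin.val_add_one y
  rw [← h1] at h2
  by_cases hy : y = Fin.last (n + 2)
  · rw [if_pos hy] at h2
    exact Or.inr ⟨h2, by rw [hy]; rfl⟩
  · rw [if_neg hy] at h2
    exact Or.inl h2

theorem servedAt_of_RP (hs : g.Simple VV) {enc : C → ℕ} (henc : Function.Injective enc) {r : ℕ}
    (hr : 3 ≤ r) {u v : VV} (huv : u ≠ v) (hadj : ¬ (g.graph VV).Adj u v) {i : ℕ} {S : Set V}
    {T : Set C} (h : g.RP u.1 v.1 (r - 1) S T) (hi : ∀ c ∈ T, enc c ≠ i) :
    ServedAt (SimpleGraph.cycleGraph r) (g.graph VV) (g.colour VV enc) u v i := by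
  suffices H : ∀ c' : Sym2 VV → ℕ, (∀ z, z ≠ s(u, v) → c' z = g.colour VV enc z) →
      c' s(u, v) = i →
      HasRainbow (SimpleGraph.cycleGraph r) (g.graph VV ⊔ SimpleGraph.edge u v) c' by
    unfold ServedAt
    refine H _ (fun z hz => ?_) ?_
    · simp [hz]
    · simp
  intro c' hc1 hc2
  obtain ⟨n, rfl⟩ : ∃ n, r = n + 3 := ⟨r - 3, by omega⟩
  have hr1 : n + 3 - 1 = n + 2 := by omega
  rw [hr1] at h
  obtain ⟨p, q, h0, hn, hst, hp, hq, -, hc⟩ := h
  have hmem : ∀ k : Fin (n + 3), p k.val ∈ VV := by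
    intro k
    by_cases hk : k.val < n + 2
    · have h1 := hst k.val hk
      have h2 := hs.val _ h1.1
      rcases h1.2 with ⟨h3, -⟩ | ⟨-, h3⟩
      · exact h3 ▸ h2.1
      · exact h3 ▸ h2.2
    · have : k.val = n + 2 := by omega
      rw [this, hn]; exact v.2
  let f : Fin (n + 3) → VV := fun k => ⟨p k.val, hmem k⟩
  have hstep : ∀ x y : Fin (n + 3), x.val = y.val + 1 → g.Step (q y.val) (f y).1 (f x).1 := by
    intro x y hxy
    have := hst y.val (by omega)
    rw [← hxy] at this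
    exact this
  have hend : ∀ x y : Fin (n + 3), x.val = 0 → y.val = n + 2 → f x = u ∧ f y = v := by
    intro x y hx hy
    refine ⟨Subtype.ext ?_, Subtype.ext ?_⟩
    · change p x.val = u.1
      rw [hx, h0]
    · change p y.val = v.1
      rw [hy, hn]
  have hone : ∀ x y : Fin (n + 3), x - y = 1 →
      (g.graph VV ⊔ SimpleGraph.edge u v).Adj (f x) (f y) := by
    intro x y hxy
    rcases LGen3_cyc hxy with h1 | ⟨h1, h2⟩
    · exact Or.inl (LGen3_adj hs (hstep x y h1)).symm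
    · obtain ⟨e1, e2⟩ := hend x y h1 h2
      rw [e1, e2]
      exact Or.inr ((SimpleGraph.edge_adj _ _ _ _).2 ⟨Or.inl ⟨rfl, rfl⟩, huv⟩)
  have hcol : ∀ x y : Fin (n + 3), x - y = 1 →
      (x.val = y.val + 1 ∧ c' (Sym2.map f s(x, y)) = enc (g.col (q y.val))) ∨
      (x.val = 0 ∧ y.val = n + 2 ∧ c' (Sym2.map f s(x, y)) = i) := by
    intro x y hxy
    rw [Sym2.map_mk]
    rcases LGen3_cyc hxy with h1 | ⟨h1, h2⟩
    · refine Or.inl ⟨h1, ?_⟩
      have h3 := (hstep x y h1).symm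
      have h4 : s(f x, f y) ≠ s(u, v) := by
        intro h5
        have h6 : s(f x, f y) ∈ (g.graph VV).edgeSet := LGen3_adj hs h3
        rw [h5] at h6
        exact hadj h6
      rw [hc1 _ h4]
      exact LGen3_colour hs enc h3
    · obtain ⟨e1, e2⟩ := hend x y h1 h2
      refine Or.inr ⟨h1, h2, ?_⟩
      rw [e1, e2, hc2]
  have hedge : ∀ e ∈ (SimpleGraph.cycleGraph (n + 3)).edgeSet,
      ∃ x y : Fin (n + 3), x - y = 1 ∧ e = s(x, y) := by
    intro e he
    induction e using Sym2.ind with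
    | _ x y =>
      rcases SimpleGraph.cycleGraph_adj.1 he with h1 | h1
      · exact ⟨x, y, h1, rfl⟩
      · exact ⟨y, x, h1, Sym2.eq_swap⟩
  refine ⟨f, ?_, ?_, ?_⟩
  · intro x y hxy
    exact Fin.ext (hp _ (by omega) _ (by omega) (congrArg Subtype.val hxy))
  · intro x y hxy
    rcases SimpleGraph.cycleGraph_adj.1 hxy with h1 | h1
    · exact hone x y h1
    · exact (hone y x h1).symm
  · intro e he e' he' hee
    obtain ⟨x, y, hxy, rfl⟩ := hedge e he
    obtain ⟨x', y', hxy', rfl⟩ := hedge e' he'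
    have hx := x.2
    have hx' := x'.2
    rcases hcol x y hxy with ⟨a1, a2⟩ | ⟨a1, a2, a3⟩ <;>
      rcases hcol x' y' hxy' with ⟨b1, b2⟩ | ⟨b1, b2, b3⟩
    · have h1 := henc (a2.symm.trans (hee.trans b2))
      have h2 := hq _ (by omega) _ (by omega) h1
      have e1 : x = x' := Fin.ext (by omega)
      have e2 : y = y' := Fin.ext h2
      rw [e1, e2]
    · exact absurd (a2.symm.trans (hee.trans b3)) (hi _ (hc _ (by omega)))
    · exact absurd (b2.symm.trans (hee.symm.trans a3)) (hi _ (hc _ (by omega)))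
    · have e1 : x = x' := Fin.ext (by omega)
      have e2 : y = y' := Fin.ext (by omega)
      rw [e1, e2]

end LGen3

section LGen4
lemma LGen4_map {W U U' : Type} {F : SimpleGraph W} {G₁ : SimpleGraph U} {G₂ : SimpleGraph U'}
    {c₁ : Sym2 U → ℕ} {c₂ : Sym2 U' → ℕ} (h : HasRainbow F G₁ c₁) (φ : U → U')
    (hφ : Function.Injective φ) (hle : ∀ a b, G₁.Adj a b → G₂.Adj (φ a) (φ b))
    (hc : ∀ e ∈ G₁.edgeSet, c₂ (Sym2.map φ e) = c₁ e) : HasRainbow F G₂ c₂ := by
  obtain ⟨f, hf, hadj, hinj⟩ := h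
  refine ⟨φ ∘ f, hφ.comp hf, fun x y hxy => hle _ _ (hadj x y hxy), ?_⟩
  have key : ∀ e ∈ F.edgeSet, Sym2.map f e ∈ G₁.edgeSet := by
    intro e he
    induction e using Sym2.ind with
    | _ x y => simpa using hadj x y he
  intro e he e' he' hee
  apply hinj he he'
  simp only [← Sym2.map_map] at hee ⊢
  rw [← hc _ (key e he), ← hc _ (key e' he')]
  exact hee

lemma LGen4_mono {W U : Type} {F : SimpleGraph W} {G₁ G₂ : SimpleGraph U}
    {c₁ c₂ : Sym2 U → ℕ} (h : HasRainbow F G₁ c₁) (hle : G₁ ≤ G₂)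
    (hc : ∀ e ∈ G₁.edgeSet, c₂ e = c₁ e) : HasRainbow F G₂ c₂ :=
  LGen4_map h id Function.injective_id (fun _ _ hab => hle hab) (by simpa using hc)

lemma LGen4_transport {W U U' : Type} {F : SimpleGraph W} {G : SimpleGraph U}
    {c : Sym2 U → ℕ} (h : RainbowSat F G c) (e : U' ≃ U) :
    RainbowSat F (G.comap e) (fun z => c (Sym2.map e z)) := by
  classical
  rw [rainbowSat_iff] at h ⊢
  obtain ⟨h1, h2⟩ := h
  refine ⟨fun hh => h1 (LGen4_map hh e e.injective (fun a b hab => hab) (fun _ _ => rfl)), ?_⟩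
  intro u v huv hadj i
  have := h2 (e u) (e v) (fun hh => huv (e.injective hh)) hadj i
  unfold ServedAt at this ⊢
  refine LGen4_map this e.symm e.symm.injective ?_ ?_
  · intro a b hab
    obtain ⟨a, rfl⟩ := e.surjective a
    obtain ⟨b, rfl⟩ := e.surjective b
    simpa [SimpleGraph.edge_adj] using hab
  · intro z _
    induction z using Sym2.ind with
    | _ a b =>
      obtain ⟨a, rfl⟩ := e.surjective a
      obtain ⟨b, rfl⟩ := e.surjective b
      by_cases hz : s(a, b) = s(u, v)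
      · have hz' : s(e a, e b) = s(e u, e v) := by
          have := congrArg (Sym2.map e) hz
          simpa only [Sym2.map_mk] using this
        simp only [Sym2.map_mk, Equiv.symm_apply_apply]
        rw [hz, hz']
        simp
      · have hz' : s(e a, e b) ≠ s(e u, e v) := by
          intro hh
          apply hz
          have := congrArg (Sym2.map e.symm) hh
          simpa only [Sym2.map_mk, Equiv.symm_apply_apply] using this
        simp only [Sym2.map_mk, Equiv.symm_apply_apply]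
        rw [Function.update_of_ne hz, Function.update_of_ne hz']
        rfl

lemma LGen4_le {W U : Type} [Fintype U] {F : SimpleGraph W} {G : SimpleGraph U}
    {c : Sym2 U → ℕ} (h : RainbowSat F G c) : rsat (Fintype.card U) F ≤ G.edgeSet.ncard := by
  unfold rsat
  refine Nat.sInf_le ⟨_, _, LGen4_transport h (Fintype.equivFin U).symm, ?_⟩
  rw [← Nat.card_coe_set_eq, ← Nat.card_coe_set_eq]
  exact Nat.card_congr (SimpleGraph.Iso.comap (Fintype.equivFin U).symm G).mapEdgeSet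

lemma LGen4_complete {W U : Type} [Fintype U] (F : SimpleGraph W) (G : SimpleGraph U)
    (c : Sym2 U → ℕ) (K : Set U) (hfree : ¬ HasRainbow F G c)
    (hserv : ∀ u v, u ≠ v → ¬ G.Adj u v → ¬ (u ∈ K ∧ v ∈ K) → ∀ i, ServedAt F G c u v i) :
    ∃ (G' : SimpleGraph U) (c' : Sym2 U → ℕ), RainbowSat F G' c' ∧
      ∀ u v, G'.Adj u v → G.Adj u v ∨ (u ∈ K ∧ v ∈ K) := by
  classical
  let S : Set (SimpleGraph U) := {G' | ∃ c' : Sym2 U → ℕ, G ≤ G' ∧
    (∀ e ∈ G.edgeSet, c' e = c e) ∧ ¬ HasRainbow F G' c' ∧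
    ∀ u v, G'.Adj u v → G.Adj u v ∨ (u ∈ K ∧ v ∈ K)}
  have hne : S.Nonempty := ⟨G, c, le_rfl, fun _ _ => rfl, hfree, fun _ _ h => Or.inl h⟩
  obtain ⟨G', ⟨c', hle, hc, hf, hK⟩, hmax⟩ := (Set.toFinite S).exists_maximal hne
  refine ⟨G', c', (rainbowSat_iff F G' c').2 ⟨hf, ?_⟩, hK⟩
  intro u v huv hadj i
  have hG : ¬ G.Adj u v := fun h => hadj (hle h)
  by_cases hk : u ∈ K ∧ v ∈ K
  · by_contra hns
    apply hadj
    have hmem : G' ⊔ SimpleGraph.edge u v ∈ S := by
      refine ⟨Function.update c' s(u, v) i, le_sup_of_le_left hle, ?_, ?_, ?_⟩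
      · intro e he
        have hne' : e ≠ s(u, v) := by
          rintro rfl
          exact hG he
        rw [Function.update_of_ne hne', hc e he]
      · intro hh
        apply hns
        unfold ServedAt
        convert hh
      · intro a b hab
        rcases hab with hab | hab
        · exact hK a b hab
        · rw [SimpleGraph.edge_adj] at hab
          rcases hab.1 with ⟨rfl, rfl⟩ | ⟨rfl, rfl⟩
          · exact Or.inr hk
          · exact Or.inr hk.symm
    have := hmax hmem le_sup_left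
    exact this (Or.inr ((SimpleGraph.edge_adj u v u v).2 ⟨Or.inl ⟨rfl, rfl⟩, huv⟩))
  · have := hserv u v huv hG hk i
    unfold ServedAt at this ⊢
    refine LGen4_mono this (sup_le_sup_right hle _) ?_
    intro e he
    by_cases hz : e = s(u, v)
    · subst hz
      simp
    · rw [Function.update_of_ne hz, Function.update_of_ne hz]
      apply hc
      induction e using Sym2.ind with
      | _ a b =>
        rcases he with he | he
        · exact he
        · exfalso
          apply hz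
          rw [SimpleGraph.edge_adj] at he
          rcases he.1 with ⟨rfl, rfl⟩ | ⟨rfl, rfl⟩
          · rfl
          · exact Sym2.eq_swap

theorem rsat_le_of_free {W U : Type} [Fintype U] (F : SimpleGraph W) (G : SimpleGraph U)
    (c : Sym2 U → ℕ) (K : Set U) (hfree : ¬ HasRainbow F G c)
    (hserv : ∀ u v, u ≠ v → ¬ G.Adj u v → ¬ (u ∈ K ∧ v ∈ K) → ∀ i, ServedAt F G c u v i) (M : ℕ)
    (hM : {e | e ∈ G.edgeSet ∧ ¬ ∀ x ∈ e, x ∈ K}.ncard ≤ M) :
    rsat (Fintype.card U) F ≤ M + K.ncard ^ 2 := by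
  obtain ⟨G', c', hsat, hK⟩ := LGen4_complete F G c K hfree hserv
  refine (LGen4_le hsat).trans ?_
  have hsub : G'.edgeSet ⊆ {e | e ∈ G.edgeSet ∧ ¬ ∀ x ∈ e, x ∈ K} ∪
      (fun p : U × U => s(p.1, p.2)) '' (K ×ˢ K) := by
    intro e he
    induction e using Sym2.ind with
    | _ a b =>
      by_cases hk : a ∈ K ∧ b ∈ K
      · exact Or.inr ⟨(a, b), hk, rfl⟩
      · refine Or.inl ⟨(hK a b he).resolve_right hk, fun hh => hk ⟨hh a ?_, hh b ?_⟩⟩ <;> simp
  refine (Set.ncard_le_ncard hsub (Set.toFinite _)).trans ?_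
  refine (Set.ncard_union_le _ _).trans (add_le_add hM ?_)
  refine (Set.ncard_image_le (Set.toFinite _)).trans ?_
  rw [Set.ncard_prod, sq]

end LGen4

section LCount1
variable {d r t s : ℕ}

lemma LCount1_glen {c : Ch} (hc : allowed d r c) (g : Fin 3) : 2 ≤ glen c.m g := by
  have h6 : 6 ≤ c.m := hc.2.2.2.1
  unfold glen
  split_ifs <;> omega

lemma LCount1_lend_cases (c : Ch) (g : Fin 3) :
    lend c g = GV.hub c.h ∨ ∃ j, lend c g = GV.ze c j := by
  unfold lend
  split_ifs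
  · exact Or.inl rfl
  · exact Or.inr ⟨_, rfl⟩
  · exact Or.inr ⟨_, rfl⟩

lemma LCount1_rend_cases (c : Ch) (g : Fin 3) :
    rend c g = GV.hub c.h' ∨ ∃ j, rend c g = GV.ze c j := by
  unfold rend
  split_ifs
  · exact Or.inr ⟨_, rfl⟩
  · exact Or.inr ⟨_, rfl⟩
  · exact Or.inl rfl

lemma LCount1_lend_ne_rend (c : Ch) (g : Fin 3) : lend c g ≠ rend c g := by
  unfold lend rend
  split_ifs <;> simp

lemma LCount1_pos_cases (c : Ch) (g : Fin 3) (o : Fin 5) (k : ℕ) :
    (k = 0 ∧ pos c g o k = lend c g) ∨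
      (k ≠ 0 ∧ k = glen c.m g ∧ pos c g o k = rend c g) ∨
      (k ≠ 0 ∧ k ≠ glen c.m g ∧ pos c g o k = GV.op c g o k) := by
  unfold pos
  by_cases h0 : k = 0
  · left; exact ⟨h0, by rw [if_pos h0]⟩
  · by_cases h1 : k = glen c.m g
    · right; left; exact ⟨h0, h1, by rw [if_neg h0, if_pos h1]⟩
    · right; right; exact ⟨h0, h1, by rw [if_neg h0, if_neg h1]⟩

lemma LCount1_lend_ne_op (c : Ch) (g : Fin 3) (c' : Ch) (g' : Fin 3) (o' : Fin 5) (k' : ℕ) :
    lend c g ≠ GV.op c' g' o' k' := by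
  rcases LCount1_lend_cases c g with h | ⟨j, h⟩ <;> rw [h] <;> simp

lemma LCount1_rend_ne_op (c : Ch) (g : Fin 3) (c' : Ch) (g' : Fin 3) (o' : Fin 5) (k' : ℕ) :
    rend c g ≠ GV.op c' g' o' k' := by
  rcases LCount1_rend_cases c g with h | ⟨j, h⟩ <;> rw [h] <;> simp

lemma LCount1_pos_eq_op {c : Ch} {g : Fin 3} {o : Fin 5} {k : ℕ} {c' : Ch} {g' : Fin 3}
    {o' : Fin 5} {k' : ℕ} (h : pos c g o k = GV.op c' g' o' k') :
    c = c' ∧ g = g' ∧ o = o' ∧ k = k' := by
  rcases LCount1_pos_cases c g o k with ⟨_, h1⟩ | ⟨_, _, h1⟩ | ⟨_, _, h1⟩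
  · rw [h1] at h; exact absurd h (LCount1_lend_ne_op _ _ _ _ _ _)
  · rw [h1] at h; exact absurd h (LCount1_rend_ne_op _ _ _ _ _ _)
  · rw [h1] at h
    injection h with a b c e
    exact ⟨a, b, c, e⟩

lemma LCount1_pos_ne_gad (c : Ch) (g : Fin 3) (o : Fin 5) (k a : ℕ) (u : TV) :
    pos c g o k ≠ GV.gad a u := by
  rcases LCount1_pos_cases c g o k with ⟨_, h1⟩ | ⟨_, _, h1⟩ | ⟨_, _, h1⟩
  · rw [h1]; rcases LCount1_lend_cases c g with h | ⟨j, h⟩ <;> rw [h] <;> simp
  · rw [h1]; rcases LCount1_rend_cases c g with h | ⟨j, h⟩ <;> rw [h] <;> simp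
  · rw [h1]; simp

lemma LCount1_pos_ne_lone (c : Ch) (g : Fin 3) (o : Fin 5) (k a : ℕ) :
    pos c g o k ≠ GV.lone a := by
  rcases LCount1_pos_cases c g o k with ⟨_, h1⟩ | ⟨_, _, h1⟩ | ⟨_, _, h1⟩
  · rw [h1]; rcases LCount1_lend_cases c g with h | ⟨j, h⟩ <;> rw [h] <;> simp
  · rw [h1]; rcases LCount1_rend_cases c g with h | ⟨j, h⟩ <;> rw [h] <;> simp
  · rw [h1]; simp

lemma LCount1_pos_inj (c : Ch) (g : Fin 3) (o : Fin 5) {k l : ℕ}
    (h : pos c g o k = pos c g o l) : k = l := by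
  rcases LCount1_pos_cases c g o k with ⟨a1, h1⟩ | ⟨a1, a2, h1⟩ | ⟨a1, a2, h1⟩ <;>
    rcases LCount1_pos_cases c g o l with ⟨b1, h2⟩ | ⟨b1, b2, h2⟩ | ⟨b1, b2, h2⟩ <;>
    rw [h1, h2] at h
  · omega
  · exact absurd h (LCount1_lend_ne_rend _ _)
  · exact absurd h (LCount1_lend_ne_op _ _ _ _ _ _)
  · exact absurd h.symm (LCount1_lend_ne_rend _ _)
  · omega
  · exact absurd h (LCount1_rend_ne_op _ _ _ _ _ _)
  · exact absurd h.symm (LCount1_lend_ne_op _ _ _ _ _ _)
  · exact absurd h.symm (LCount1_rend_ne_op _ _ _ _ _ _)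
  · injection h

lemma LCount1_hasop {c : Ch} (hc : allowed d r c) (g : Fin 3) (o : Fin 5) {k : ℕ}
    (hk : k < glen c.m g) :
    pos c g o k = GV.op c g o k ∨ pos c g o (k + 1) = GV.op c g o (k + 1) := by
  have h2 := LCount1_glen hc g
  rcases LCount1_pos_cases c g o k with ⟨a1, _⟩ | ⟨_, a2, _⟩ | ⟨_, _, h1⟩
  · right
    rcases LCount1_pos_cases c g o (k + 1) with ⟨b1, _⟩ | ⟨_, b2, _⟩ | ⟨_, _, h3⟩
    · omega
    · omega
    · exact h3
  · omega
  · exact Or.inl h1

lemma LCount1_pos_val {c : Ch} (hc : allowed d r c) (g : Fin 3) (o : Fin 5) {k : ℕ}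
    (hk : k ≤ glen c.m g) : GVal d r t s (pos c g o k) := by
  rcases LCount1_pos_cases c g o k with ⟨_, h1⟩ | ⟨_, _, h1⟩ | ⟨a1, a2, h1⟩
  · rw [h1]
    rcases LCount1_lend_cases c g with h | ⟨j, h⟩ <;> rw [h]
    · exact hc.1
    · exact hc
  · rw [h1]
    rcases LCount1_rend_cases c g with h | ⟨j, h⟩ <;> rw [h]
    · exact hc.2.1
    · exact hc
  · rw [h1]
    exact ⟨hc, by omega, by omega⟩

lemma LCount1_sk_cases (W : Fin 3) (l : List Bool) :
    (l.length < d ∧ sk d W l = TV.nd W l) ∨ (¬ l.length < d ∧ sk d W l = TV.lf l) := by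
  unfold sk
  by_cases h : l.length < d
  · left; exact ⟨h, by rw [if_pos h]⟩
  · right; exact ⟨h, by rw [if_neg h]⟩

lemma LCount1_tval (e : TE) (he : (TG d).ok e) :
    TVal d ((TG d).src e) ∧ TVal d ((TG d).tgt e) := by
  cases e with
  | up W l b => exact ⟨he, he⟩
  | lo W l b =>
    have he' : l.length < d := he
    refine ⟨he, ?_⟩
    show TVal d (sk d W (b :: l))
    rcases LCount1_sk_cases (d := d) W (b :: l) with ⟨h1, h2⟩ | ⟨h1, h2⟩ <;> rw [h2]
    · exact h1
    · show (b :: l).length = d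
      simp only [List.length_cons] at h1 ⊢
      omega

lemma LCount1_sk_ne_md (W : Fin 3) (l : List Bool) (W' : Fin 3) (l' : List Bool) (b : Bool) :
    sk d W l ≠ TV.md W' l' b := by
  rcases LCount1_sk_cases (d := d) W l with ⟨_, h2⟩ | ⟨_, h2⟩ <;> rw [h2] <;> simp

lemma LCount1_tne (e : TE) : (TG d).src e ≠ (TG d).tgt e := by
  cases e with
  | up W l b =>
    show TV.nd W l ≠ TV.md W l b
    simp
  | lo W l b =>
    show TV.md W l b ≠ sk d W (b :: l)
    exact (LCount1_sk_ne_md _ _ _ _ _).symm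

lemma LCount1_tinj1 (e e' : TE) (h1 : (TG d).src e = (TG d).src e')
    (h2 : (TG d).tgt e = (TG d).tgt e') : e = e' := by
  cases e with
  | up W l b =>
    cases e' with
    | up W' l' b' =>
      have h3 : TV.md W l b = TV.md W' l' b' := h2
      injection h3 with a1 a2 a3
      rw [a1, a2, a3]
    | lo W' l' b' =>
      have h3 : TV.nd W l = TV.md W' l' b' := h1
      cases h3
  | lo W l b =>
    cases e' with
    | up W' l' b' =>
      have h3 : TV.md W l b = TV.nd W' l' := h1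
      cases h3
    | lo W' l' b' =>
      have h3 : TV.md W l b = TV.md W' l' b' := h1
      injection h3 with a1 a2 a3
      rw [a1, a2, a3]

lemma LCount1_tinj2 (e e' : TE) (h1 : (TG d).src e = (TG d).tgt e')
    (h2 : (TG d).tgt e = (TG d).src e') : False := by
  have key : ∀ (W : Fin 3) (l : List Bool) (b : Bool), TV.nd W l ≠ sk d W (b :: l) := by
    intro W l b h
    rcases LCount1_sk_cases (d := d) W (b :: l) with ⟨_, h4⟩ | ⟨_, h4⟩ <;> rw [h4] at h
    · injection h with _ a2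
      have := congrArg List.length a2
      simp at this
    · cases h
  cases e with
  | up W l b =>
    cases e' with
    | up W' l' b' =>
      have h3 : TV.nd W l = TV.md W' l' b' := h1
      cases h3
    | lo W' l' b' =>
      have h3 : TV.md W l b = TV.md W' l' b' := h2
      have h4 : TV.nd W l = sk d W' (b' :: l') := h1
      injection h3 with a1 a2 a3
      subst a1 a2 a3
      exact key _ _ _ h4
  | lo W l b =>
    cases e' with
    | up W' l' b' =>
      have h3 : TV.md W l b = TV.md W' l' b' := h1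
      have h4 : sk d W (b :: l) = TV.nd W' l' := h2
      injection h3 with a1 a2 a3
      subst a1 a2 a3
      exact key _ _ _ h4.symm
    | lo W' l' b' =>
      have h3 : TV.md W l b = sk d W' (b' :: l') := h1
      exact LCount1_sk_ne_md _ _ _ _ _ h3.symm

lemma LCount1_inj (e e' : GE) (he : (GG d r t s).ok e) (he' : (GG d r t s).ok e')
    (h : ((GG d r t s).src e = (GG d r t s).src e' ∧ (GG d r t s).tgt e = (GG d r t s).tgt e') ∨
      ((GG d r t s).src e = (GG d r t s).tgt e' ∧ (GG d r t s).tgt e = (GG d r t s).src e')) :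
    e = e' := by
  cases e with
  | leg a x =>
    cases e' with
    | leg a' x' =>
      rcases h with ⟨h1, h2⟩ | ⟨h1, h2⟩
      · have h3 : GV.gad a ((TG d).src x) = GV.gad a' ((TG d).src x') := h1
        have h4 : GV.gad a ((TG d).tgt x) = GV.gad a' ((TG d).tgt x') := h2
        injection h3 with a1 a2
        injection h4 with _ a3
        rw [a1, LCount1_tinj1 x x' a2 a3]
      · have h3 : GV.gad a ((TG d).src x) = GV.gad a' ((TG d).tgt x') := h1
        have h4 : GV.gad a ((TG d).tgt x) = GV.gad a' ((TG d).src x') := h2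
        injection h3 with _ a2
        injection h4 with _ a3
        exact (LCount1_tinj2 x x' a2 a3).elim
    | ex a' h' =>
      rcases h with ⟨_, h2⟩ | ⟨h1, _⟩
      · have h3 : GV.gad a ((TG d).tgt x) = GV.hub h' := h2
        cases h3
      · have h3 : GV.gad a ((TG d).src x) = GV.hub h' := h1
        cases h3
    | lx a' h' =>
      rcases h with ⟨_, h2⟩ | ⟨h1, _⟩
      · have h3 : GV.gad a ((TG d).tgt x) = GV.hub h' := h2
        cases h3
      · have h3 : GV.gad a ((TG d).src x) = GV.hub h' := h1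
        cases h3
    | ce c g o k =>
      rcases h with ⟨h1, _⟩ | ⟨h1, _⟩
      · exact absurd h1.symm (LCount1_pos_ne_gad _ _ _ _ _ _)
      · exact absurd h1.symm (LCount1_pos_ne_gad c g o (k + 1) _ _)
  | ex a x =>
    cases e' with
    | leg a' x' =>
      rcases h with ⟨_, h2⟩ | ⟨_, h2⟩
      · have h3 : GV.hub x = GV.gad a' ((TG d).tgt x') := h2
        cases h3
      · have h3 : GV.hub x = GV.gad a' ((TG d).src x') := h2
        cases h3
    | ex a' h' =>
      rcases h with ⟨h1, h2⟩ | ⟨h1, _⟩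
      · have h3 : GV.gad a (TV.nd x.1 []) = GV.gad a' (TV.nd h'.1 []) := h1
        have h4 : GV.hub x = GV.hub h' := h2
        injection h3 with a1 _
        injection h4 with a2
        rw [a1, a2]
      · have h3 : GV.gad a (TV.nd x.1 []) = GV.hub h' := h1
        cases h3
    | lx a' h' =>
      rcases h with ⟨h1, _⟩ | ⟨h1, _⟩
      · have h3 : GV.gad a (TV.nd x.1 []) = GV.lone a' := h1
        cases h3
      · have h3 : GV.gad a (TV.nd x.1 []) = GV.hub h' := h1
        cases h3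
    | ce c g o k =>
      rcases h with ⟨h1, _⟩ | ⟨h1, _⟩
      · exact absurd h1.symm (LCount1_pos_ne_gad _ _ _ _ _ _)
      · exact absurd h1.symm (LCount1_pos_ne_gad c g o (k + 1) _ _)
  | lx a x =>
    cases e' with
    | leg a' x' =>
      rcases h with ⟨_, h2⟩ | ⟨_, h2⟩
      · have h3 : GV.hub x = GV.gad a' ((TG d).tgt x') := h2
        cases h3
      · have h3 : GV.hub x = GV.gad a' ((TG d).src x') := h2
        cases h3
    | ex a' h' =>
      rcases h with ⟨h1, _⟩ | ⟨h1, _⟩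
      · have h3 : GV.lone a = GV.gad a' (TV.nd h'.1 []) := h1
        cases h3
      · have h3 : GV.lone a = GV.hub h' := h1
        cases h3
    | lx a' h' =>
      rcases h with ⟨h1, h2⟩ | ⟨h1, _⟩
      · have h3 : GV.lone a = GV.lone a' := h1
        have h4 : GV.hub x = GV.hub h' := h2
        injection h3 with a1
        injection h4 with a2
        rw [a1, a2]
      · have h3 : GV.lone a = GV.hub h' := h1
        cases h3
    | ce c g o k =>
      rcases h with ⟨h1, _⟩ | ⟨h1, _⟩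
      · exact absurd h1.symm (LCount1_pos_ne_lone _ _ _ _ _)
      · exact absurd h1.symm (LCount1_pos_ne_lone c g o (k + 1) _)
  | ce c g o k =>
    cases e' with
    | leg a' x' =>
      rcases h with ⟨h1, _⟩ | ⟨h1, _⟩
      · exact absurd h1 (LCount1_pos_ne_gad _ _ _ _ _ _)
      · exact absurd h1 (LCount1_pos_ne_gad _ _ _ _ _ _)
    | ex a' h' =>
      rcases h with ⟨h1, _⟩ | ⟨_, h2⟩
      · exact absurd h1 (LCount1_pos_ne_gad _ _ _ _ _ _)
      · exact absurd h2 (LCount1_pos_ne_gad c g o (k + 1) _ _)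
    | lx a' h' =>
      rcases h with ⟨h1, _⟩ | ⟨_, h2⟩
      · exact absurd h1 (LCount1_pos_ne_lone _ _ _ _ _)
      · exact absurd h2 (LCount1_pos_ne_lone c g o (k + 1) _)
    | ce c' g' o' k' =>
      have hc : allowed d r c ∧ k < glen c.m g := he
      have h0 : (pos c g o k = pos c' g' o' k' ∧ pos c g o (k + 1) = pos c' g' o' (k' + 1)) ∨
          (pos c g o k = pos c' g' o' (k' + 1) ∧ pos c g o (k + 1) = pos c' g' o' k') := h
      have hcgo : c' = c ∧ g' = g ∧ o' = o := by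
        rcases LCount1_hasop hc.1 g o hc.2 with h3 | h3 <;>
          rcases h0 with ⟨h1, h2⟩ | ⟨h1, h2⟩
        · obtain ⟨a1, a2, a3, _⟩ := LCount1_pos_eq_op (h1.symm.trans h3)
          exact ⟨a1, a2, a3⟩
        · obtain ⟨a1, a2, a3, _⟩ := LCount1_pos_eq_op (h1.symm.trans h3)
          exact ⟨a1, a2, a3⟩
        · obtain ⟨a1, a2, a3, _⟩ := LCount1_pos_eq_op (h2.symm.trans h3)
          exact ⟨a1, a2, a3⟩
        · obtain ⟨a1, a2, a3, _⟩ := LCount1_pos_eq_op (h2.symm.trans h3)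
          exact ⟨a1, a2, a3⟩
      obtain ⟨a1, a2, a3⟩ := hcgo
      subst a1 a2 a3
      rcases h0 with ⟨h1, _⟩ | ⟨h1, h2⟩
      · rw [LCount1_pos_inj _ _ _ h1]
      · have b1 := LCount1_pos_inj _ _ _ h1
        have b2 := LCount1_pos_inj _ _ _ h2
        omega

lemma LCount1_val (hd : 1 ≤ d) (e : GE) (he : (GG d r t s).ok e) :
    GVal d r t s ((GG d r t s).src e) ∧ GVal d r t s ((GG d r t s).tgt e) := by
  cases e with
  | leg a x =>
    have h : a < t ∧ (TG d).ok x := he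
    obtain ⟨h1, h2⟩ := LCount1_tval x h.2
    exact ⟨⟨h.1, h1⟩, ⟨h.1, h2⟩⟩
  | ex a x =>
    have h : a < t ∧ hubOK d x := he
    exact ⟨⟨h.1, hd⟩, h.2⟩
  | lx a x =>
    have h : a < s ∧ hubOK d x ∧ x.1 = 0 := he
    exact ⟨h.1, h.2.1⟩
  | ce c g o k =>
    have h : allowed d r c ∧ k < glen c.m g := he
    exact ⟨LCount1_pos_val h.1 g o h.2.le, LCount1_pos_val h.1 g o h.2⟩

theorem simple (hd : 1 ≤ d) : (GG d r t s).Simple {v | GVal d r t s v} := by
  refine ⟨fun e he => LCount1_val hd e he, fun e _ => ?_, fun e e' he he' h => ?_⟩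
  · cases e with
    | leg a x =>
      intro h
      have h1 : GV.gad a ((TG d).src x) = GV.gad a ((TG d).tgt x) := h
      injection h1 with _ a2
      exact LCount1_tne x a2
    | ex a x =>
      intro h
      have h1 : GV.gad a (TV.nd x.1 []) = GV.hub x := h
      cases h1
    | lx a x =>
      intro h
      have h1 : GV.lone a = GV.hub x := h
      cases h1
    | ce c g o k =>
      intro h
      have h1 : pos c g o k = pos c g o (k + 1) := h
      have := LCount1_pos_inj _ _ _ h1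
      omega
  · exact LCount1_inj e e' he he' (Sym2.eq_iff.mp h)

theorem edge_cases (e : GE) (he : (GG d r t s).ok e) :
    e ∈ EG d r t s ∨ ((GG d r t s).src e ∈ Ker d r t s ∧ (GG d r t s).tgt e ∈ Ker d r t s) := by
  cases e with
  | leg a x => exact Or.inl ⟨he, Or.inl ⟨a, x, rfl⟩⟩
  | ex a x => exact Or.inl ⟨he, Or.inr ⟨a, x, rfl⟩⟩
  | lx a x =>
    have h : a < s ∧ hubOK d x ∧ x.1 = 0 := he
    refine Or.inr ⟨⟨h.1, ?_⟩, ⟨h.2.1, ?_⟩⟩
    · intro a' u h1
      have h2 : GV.lone a = GV.gad a' u := h1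
      cases h2
    · intro a' u h1
      have h2 : GV.hub x = GV.gad a' u := h1
      cases h2
  | ce c g o k =>
    have h : allowed d r c ∧ k < glen c.m g := he
    exact Or.inr ⟨⟨LCount1_pos_val h.1 g o h.2.le, fun a u => LCount1_pos_ne_gad _ _ _ _ _ _⟩,
      ⟨LCount1_pos_val h.1 g o h.2, fun a u => LCount1_pos_ne_gad c g o (k + 1) _ _⟩⟩

/-- coding of the colours -/
def LCount1_code : GC → (Fin 3 × ℕ × Bool) ⊕ (ℕ × Fin 3 × List Bool × Bool) ⊕ Fin 3 ⊕ Fin 5 ⊕
    ((Hub × Hub × ℕ × Fin 3) × Fin 3 × Fin 5 × ℕ)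
  | GC.pub W j b => Sum.inl (W, j, b)
  | GC.prv a W l b => Sum.inr (Sum.inl (a, W, l, b))
  | GC.pl a => Sum.inr (Sum.inr (Sum.inl a))
  | GC.sp o => Sum.inr (Sum.inr (Sum.inr (Sum.inl o)))
  | GC.cp c g o k => Sum.inr (Sum.inr (Sum.inr (Sum.inr ((c.h, c.h', c.m, c.v), g, o, k))))

theorem countable_GC : Countable GC := by
  have hinj : Function.Injective LCount1_code := by
    intro x y h
    cases x <;> cases y <;> simp only [LCount1_code, Sum.inl.injEq, Sum.inr.injEq, Prod.mk.injEq,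
      reduceCtorEq] at h
    · obtain ⟨a1, a2, a3⟩ := h
      rw [a1, a2, a3]
    · obtain ⟨a1, a2, a3, a4⟩ := h
      rw [a1, a2, a3, a4]
    · rw [h]
    · rw [h]
    · rename_i c g o k c' g' o' k'
      obtain ⟨⟨a1, a2, a3, a4⟩, a5, a6, a7⟩ := h
      have hc : c = c' := by
        cases c; cases c'
        simp only at a1 a2 a3 a4
        rw [a1, a2, a3, a4]
      rw [hc, a5, a6, a7]
  exact hinj.countable

end LCount1

section LCount2
variable {d r t s : ℕ}

theorem LCount2_eq (k : ℕ) : {l : List Bool | l.length = k}.ncard = 2 ^ k := by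
  have h : Nat.card (List.Vector Bool k) = 2 ^ k := by
    rw [Nat.card_eq_fintype_card, card_vector]; simp
  rw [← h]; rfl

theorem LCount2_lt (k : ℕ) : {l : List Bool | l.length < k}.ncard + 1 = 2 ^ k := by
  induction k with
  | zero => simp
  | succ k ih =>
    have e : {l : List Bool | l.length < k + 1} =
        {l : List Bool | l.length < k} ∪ {l : List Bool | l.length = k} := by
      ext l; simp only [Set.mem_ofPred_eq, Set.mem_union]; omega
    rw [e, Set.ncard_union_eq _ (List.finite_length_lt Bool k) (List.finite_length_eq Bool k),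
      LCount2_eq]
    · omega
    · rw [Set.disjoint_left]; intro l h1 h2
      simp only [Set.mem_ofPred_eq] at h1 h2; omega

theorem LCount2_iio (n : ℕ) : (Set.Iio n).ncard = n := by
  rw [← Finset.coe_Iio, Set.ncard_coe_finset]; simp

theorem LCount2_u3 : (Set.univ : Set (Fin 3)).ncard = 3 := by simp [Set.ncard_univ]

theorem LCount2_u2 : (Set.univ : Set Bool).ncard = 2 := by simp

/-- triples (tree, short address, bit) -/
def LCount2_T (d : ℕ) : Set (Fin 3 × List Bool × Bool) :=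
  Set.univ ×ˢ ({l : List Bool | l.length < d} ×ˢ Set.univ)

theorem LCount2_T_fin : (LCount2_T d).Finite :=
  Set.finite_univ.prod ((List.finite_length_lt Bool d).prod Set.finite_univ)

theorem LCount2_T_card : (LCount2_T d).ncard + 6 = 6 * 2 ^ d := by
  unfold LCount2_T
  rw [Set.ncard_prod, Set.ncard_prod, LCount2_u3, LCount2_u2]
  have := LCount2_lt d
  omega

theorem LCount2_tval : {v | TVal d v}.Finite ∧ {v | TVal d v}.ncard + 9 = 10 * 2 ^ d := by
  have e : {v | TVal d v} =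
      ((fun x : Fin 3 × List Bool => TV.nd x.1 x.2) ''
        (Set.univ ×ˢ {l : List Bool | l.length < d}) ∪
      TV.lf '' {l : List Bool | l.length = d}) ∪
      (fun x : Fin 3 × List Bool × Bool => TV.md x.1 x.2.1 x.2.2) '' LCount2_T d := by
    ext v
    cases v <;> simp [TVal, LCount2_T]
  have f1 : ((fun x : Fin 3 × List Bool => TV.nd x.1 x.2) ''
      (Set.univ ×ˢ {l : List Bool | l.length < d})).Finite :=
    (Set.finite_univ.prod (List.finite_length_lt Bool d)).image _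
  have f2 : (TV.lf '' {l : List Bool | l.length = d}).Finite :=
    (List.finite_length_eq Bool d).image _
  have f3 : ((fun x : Fin 3 × List Bool × Bool => TV.md x.1 x.2.1 x.2.2) ''
      LCount2_T d).Finite := LCount2_T_fin.image _
  rw [e]
  refine ⟨(f1.union f2).union f3, ?_⟩
  rw [Set.ncard_union_eq _ (f1.union f2) f3, Set.ncard_union_eq _ f1 f2,
    Set.ncard_image_of_injective, Set.ncard_image_of_injective, Set.ncard_image_of_injective,
    Set.ncard_prod, LCount2_u3, LCount2_eq]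
  · have h1 := LCount2_lt d
    have h2 := LCount2_T_card (d := d)
    omega
  · rintro ⟨a, b, c⟩ ⟨a', b', c'⟩ h
    simp only [TV.md.injEq] at h
    simp [h.1, h.2.1, h.2.2]
  · intro a b h; simpa using h
  · rintro ⟨a, b⟩ ⟨a', b'⟩ h
    simp only [TV.nd.injEq] at h
    simp [h.1, h.2]
  · rw [Set.disjoint_left]
    rintro _ ⟨x, _, rfl⟩ ⟨y, _, h⟩
    cases h
  · rw [Set.disjoint_left]
    rintro _ (⟨x, _, rfl⟩ | ⟨x, _, rfl⟩) ⟨y, _, h⟩ <;> cases h

theorem LCount2_te : {e | (TG d).ok e}.Finite ∧ {e | (TG d).ok e}.ncard + 12 ≤ 12 * 2 ^ d := by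
  have e : {e | (TG d).ok e} =
      (fun x : Fin 3 × List Bool × Bool => TE.up x.1 x.2.1 x.2.2) '' LCount2_T d ∪
      (fun x : Fin 3 × List Bool × Bool => TE.lo x.1 x.2.1 x.2.2) '' LCount2_T d := by
    ext v
    cases v <;> simp [TG, LCount2_T]
  rw [e]
  refine ⟨(LCount2_T_fin.image _).union (LCount2_T_fin.image _), ?_⟩
  have h1 := Set.ncard_union_le
    ((fun x : Fin 3 × List Bool × Bool => TE.up x.1 x.2.1 x.2.2) '' LCount2_T d)
    ((fun x : Fin 3 × List Bool × Bool => TE.lo x.1 x.2.1 x.2.2) '' LCount2_T d)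
  have h2 := Set.ncard_image_le (f := fun x : Fin 3 × List Bool × Bool => TE.up x.1 x.2.1 x.2.2)
    (LCount2_T_fin (d := d))
  have h3 := Set.ncard_image_le (f := fun x : Fin 3 × List Bool × Bool => TE.lo x.1 x.2.1 x.2.2)
    (LCount2_T_fin (d := d))
  have h4 := LCount2_T_card (d := d)
  omega

theorem LCount2_hub : {h : Hub | hubOK d h}.Finite ∧ {h : Hub | hubOK d h}.ncard ≤ 9 + 18 * d := by
  have e : {h : Hub | hubOK d h} = Set.univ ×ˢ (Sum.inl '' Set.univ ∪
      Sum.inr '' (Set.univ ×ˢ (Set.Iio d ×ˢ Set.univ))) := by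
    ext ⟨W, l⟩
    rcases l with a | ⟨W', j, b⟩
    · simp [hubOK]
    · simp only [hubOK, Set.mem_ofPred_eq, Sum.inr.injEq, Prod.mk.injEq, Set.mem_prod,
        Set.mem_univ, Set.mem_union, Set.mem_image, reduceCtorEq, and_false, exists_false,
        false_or, true_and, exists_eq_right, Set.mem_Iio, and_true]
      constructor
      · intro h; exact h W' j b ⟨rfl, rfl, rfl⟩
      · rintro h _ _ _ ⟨_, rfl, _⟩; exact h
  have f2 : ((Set.univ : Set (Fin 3)) ×ˢ (Set.Iio d ×ˢ (Set.univ : Set Bool))).Finite :=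
    Set.finite_univ.prod ((Set.finite_Iio d).prod Set.finite_univ)
  rw [e]
  refine ⟨Set.finite_univ.prod ((Set.finite_univ.image _).union (f2.image _)), ?_⟩
  rw [Set.ncard_prod, LCount2_u3]
  have h1 := Set.ncard_union_le (Sum.inl '' (Set.univ : Set (Fin 3)) : Set Lab)
    (Sum.inr '' ((Set.univ : Set (Fin 3)) ×ˢ (Set.Iio d ×ˢ (Set.univ : Set Bool))))
  rw [Set.ncard_image_of_injective _ Sum.inl_injective,
    Set.ncard_image_of_injective _ Sum.inr_injective, Set.ncard_prod, Set.ncard_prod,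
    LCount2_u3, LCount2_u2, LCount2_iio] at h1
  omega

theorem LCount2_ch : {c : Ch | allowed d r c}.Finite := by
  have f := (LCount2_hub (d := d)).1
  refine ((f.prod (f.prod ((Set.finite_Iic r).prod (Set.finite_univ (α := Fin 3))))).image
    (fun x : Hub × Hub × ℕ × Fin 3 => Ch.mk x.1 x.2.1 x.2.2.1 x.2.2.2)).subset ?_
  rintro ⟨h, h', m, v⟩ ⟨h1, h2, _, _, h5, _⟩
  exact ⟨(h, h', m, v), ⟨h1, h2, by simp only [Set.mem_Iic] at h5 ⊢; omega, trivial⟩, rfl⟩

theorem LCount2_ker0 : (Ker d r 0 0).Finite := by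
  have f := (LCount2_hub (d := d)).1
  have g := LCount2_ch (d := d) (r := r)
  refine (((f.image GV.hub).union ((g.prod (Set.finite_univ (α := Bool))).image
    (fun x : Ch × Bool => GV.ze x.1 x.2))).union
    ((g.prod ((Set.finite_univ (α := Fin 3)).prod ((Set.finite_univ (α := Fin 5)).prod
      (Set.finite_Iic r)))).image
      (fun x : Ch × Fin 3 × Fin 5 × ℕ => GV.op x.1 x.2.1 x.2.2.1 x.2.2.2))).subset ?_
  rintro v ⟨h1, h2⟩
  cases v with
  | gad a u => exact absurd rfl (h2 a u)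
  | lone a => exact absurd h1 (Nat.not_lt_zero a)
  | hub h => exact Or.inl (Or.inl ⟨h, h1, rfl⟩)
  | ze c j => exact Or.inl (Or.inr ⟨(c, j), ⟨h1, trivial⟩, rfl⟩)
  | op c g o k =>
    obtain ⟨ha, _, hk⟩ := h1
    refine Or.inr ⟨(c, g, o, k), ⟨ha, trivial, trivial, ?_⟩, rfl⟩
    have h5 := ha.2.2.2.2.1
    have h6 : glen c.m g ≤ c.m := by
      unfold glen; split_ifs <;> omega
    simp only [Set.mem_Iic]; omega

theorem ker_card : (Ker d r t s).Finite ∧ (Ker d r t s).ncard = (Ker d r 0 0).ncard + s := by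
  have e : Ker d r t s = Ker d r 0 0 ∪ GV.lone '' Set.Iio s := by
    ext v
    cases v <;> simp [Ker, GVal]
  have f : (GV.lone '' Set.Iio s).Finite := (Set.finite_Iio s).image _
  rw [e]
  refine ⟨LCount2_ker0.union f, ?_⟩
  rw [Set.ncard_union_eq _ LCount2_ker0 f, Set.ncard_image_of_injective, LCount2_iio]
  · intro a b h; simpa using h
  · rw [Set.disjoint_left]
    rintro _ ⟨h1, _⟩ ⟨a, _, rfl⟩
    exact absurd h1 (Nat.not_lt_zero a)

theorem val_card : {v | GVal d r t s v}.Finite ∧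
    {v | GVal d r t s v}.ncard = (Ker d r 0 0).ncard + s + t * (10 * 2 ^ d - 9) := by
  have e : {v | GVal d r t s v} = Ker d r t s ∪
      (fun x : ℕ × TV => GV.gad x.1 x.2) '' (Set.Iio t ×ˢ {v | TVal d v}) := by
    ext v
    cases v <;> simp [Ker, GVal]
  have f : ((fun x : ℕ × TV => GV.gad x.1 x.2) '' (Set.Iio t ×ˢ {v | TVal d v})).Finite :=
    ((Set.finite_Iio t).prod LCount2_tval.1).image _
  rw [e]
  refine ⟨ker_card.1.union f, ?_⟩
  rw [Set.ncard_union_eq _ ker_card.1 f, Set.ncard_image_of_injective, Set.ncard_prod,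
    LCount2_iio, ker_card.2]
  · have h := (LCount2_tval (d := d)).2
    rw [show 10 * 2 ^ d - 9 = {v | TVal d v}.ncard by omega]
  · rintro ⟨a, b⟩ ⟨a', b'⟩ h
    simp only [GV.gad.injEq] at h
    simp [h.1, h.2]
  · rw [Set.disjoint_left]
    rintro _ ⟨_, h2⟩ ⟨x, _, rfl⟩
    exact h2 _ _ rfl

theorem eg_card : (EG d r t s).Finite ∧
    (EG d r t s).ncard ≤ t * (12 * 2 ^ d + 18 * d - 3) := by
  have e : EG d r t s =
      (fun x : ℕ × TE => GE.leg x.1 x.2) '' (Set.Iio t ×ˢ {e | (TG d).ok e}) ∪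
      (fun x : ℕ × Hub => GE.ex x.1 x.2) '' (Set.Iio t ×ˢ {h : Hub | hubOK d h}) := by
    ext v
    constructor
    · rintro ⟨h1, ⟨a, x, rfl⟩ | ⟨a, h, rfl⟩⟩
      · exact Or.inl ⟨(a, x), h1, rfl⟩
      · exact Or.inr ⟨(a, h), h1, rfl⟩
    · rintro (⟨x, h1, rfl⟩ | ⟨x, h1, rfl⟩)
      · exact ⟨h1, Or.inl ⟨_, _, rfl⟩⟩
      · exact ⟨h1, Or.inr ⟨_, _, rfl⟩⟩
  have f1 := (Set.finite_Iio t).prod (LCount2_te (d := d)).1
  have f2 := (Set.finite_Iio t).prod (LCount2_hub (d := d)).1
  rw [e]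
  refine ⟨(f1.image _).union (f2.image _), (Set.ncard_union_le _ _).trans ?_⟩
  have h1 := Set.ncard_image_le (f := fun x : ℕ × TE => GE.leg x.1 x.2) f1
  have h2 := Set.ncard_image_le (f := fun x : ℕ × Hub => GE.ex x.1 x.2) f2
  rw [Set.ncard_prod, LCount2_iio] at h1 h2
  have h3 := (LCount2_te (d := d)).2
  have h4 := (LCount2_hub (d := d)).2
  have h5 : {e | (TG d).ok e}.ncard + {h : Hub | hubOK d h}.ncard ≤ 12 * 2 ^ d + 18 * d - 3 := by
    omega
  have h6 := Nat.mul_le_mul_left t h5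
  rw [Nat.mul_add] at h6
  omega

end LCount2

end Pool.Agent.MP_8ccfd2_co.LC
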