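import Pool.Agent.MP_8ccfd2_co.LongA

namespace Pool.Agent.MP_8ccfd2_co.LC

section LTree1
@[simp] lemma pre_length (x : ℕ → Bool) (k : ℕ) : (pre x k).length = k := by
  induction k with
  | zero => rfl
  | succ k ih => simp [pre, ih]

lemma pre_eq_iff (x y : ℕ → Bool) (k l : ℕ) :
    pre x k = pre y l ↔ k = l ∧ ∀ j < k, x j = y j := by
  constructor
  · intro h
    obtain rfl : k = l := by simpa using congrArg List.length h
    refine ⟨rfl, ?_⟩
    induction k with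
    | zero => simp
    | succ k ih =>
      simp only [pre, List.cons.injEq] at h
      intro j hj
      by_cases hjk : j = k
      · exact hjk ▸ h.1
      · exact ih h.2 j (by omega)
  · rintro ⟨rfl, h⟩
    induction k with
    | zero => rfl
    | succ k ih =>
      simp only [pre, List.cons.injEq]
      exact ⟨h k (by omega), ih fun j hj => h j (by omega)⟩

lemma exists_pre (l : List Bool) (b : Bool) : ∃ x, pre x l.length = l ∧ x l.length = b := by
  induction l generalizing b with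
  | nil => exact ⟨fun _ => b, rfl, rfl⟩
  | cons a l ih =>
    obtain ⟨x, h1, h2⟩ := ih a
    refine ⟨fun j => if j = l.length + 1 then b else x j, ?_, by simp⟩
    simp only [List.length_cons, pre, List.cons.injEq]
    refine ⟨by simp [h2], ?_⟩
    rw [← h1, pre_length, pre_eq_iff]
    refine ⟨rfl, fun j hj => ?_⟩
    have : j ≠ l.length + 1 := by omega
    simp [this]

lemma geo_eq_iff {d : ℕ} {W W' : Fin 3} {x y : ℕ → Bool} {n m : ℕ} (hn : n ≤ 2 * d)
    (hm : m ≤ 2 * d) :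
    geo d W x n = geo d W' y m ↔
      n = m ∧ (W = W' ∨ n = 2 * d) ∧ ∀ j, 2 * j < n → x j = y j := by
  unfold geo sk
  simp only [pre_length]
  by_cases h1 : n % 2 = 0 <;> by_cases h2 : m % 2 = 0 <;> simp only [h1, h2, if_true, if_false]
  · by_cases h3 : n / 2 < d <;> by_cases h4 : m / 2 < d <;>
      simp only [h3, h4, if_true, if_false, TV.nd.injEq, TV.lf.injEq, pre_eq_iff, reduceCtorEq,
        false_iff]
    · constructor
      · rintro ⟨a, b, c⟩
        exact ⟨by omega, Or.inl a, fun j hj => c j (by omega)⟩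
      · rintro ⟨a, b, c⟩
        exact ⟨b.resolve_right (by omega), by omega, fun j hj => c j (by omega)⟩
    · rintro ⟨a, -⟩
      omega
    · rintro ⟨a, -⟩
      omega
    · constructor
      · rintro ⟨b, c⟩
        exact ⟨by omega, Or.inr (by omega), fun j hj => c j (by omega)⟩
      · rintro ⟨a, b, c⟩
        exact ⟨by omega, fun j hj => c j (by omega)⟩
  · constructor
    · intro h
      split_ifs at h
    · rintro ⟨a, -⟩
      omega
  · constructor
    · intro h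
      split_ifs at h
    · rintro ⟨a, -⟩
      omega
  · simp only [TV.md.injEq, pre_eq_iff]
    constructor
    · rintro ⟨a, ⟨b, c⟩, e⟩
      refine ⟨by omega, Or.inl a, fun j hj => ?_⟩
      by_cases hj' : j = n / 2
      · rw [hj', e, b]
      · exact c j (by omega)
    · rintro ⟨a, b, c⟩
      subst a
      exact ⟨b.resolve_right (by omega), ⟨rfl, fun j hj => c j (by omega)⟩, c _ (by omega)⟩

lemma gc_eq_iff {W W' : Fin 3} {x y : ℕ → Bool} {n m : ℕ} :
    gc W x n = gc W' y m ↔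
      n = m ∧ W = W' ∧ x (n / 2) = y (n / 2) ∧ (n % 2 = 1 → ∀ j, 2 * j < n → x j = y j) := by
  unfold gc
  by_cases h1 : n % 2 = 0 <;> by_cases h2 : m % 2 = 0 <;>
    simp only [h1, h2, if_true, if_false, TC.pub.injEq, TC.prv.injEq, pre_eq_iff, reduceCtorEq,
      false_iff]
  · constructor
    · rintro ⟨a, b, c⟩
      exact ⟨by omega, a, by rw [c, b], fun h => h.elim⟩
    · rintro ⟨a, b, c, -⟩
      subst a
      exact ⟨b, rfl, c⟩
  · rintro ⟨a, -⟩
    omega
  · rintro ⟨a, -⟩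
    omega
  · constructor
    · rintro ⟨a, ⟨b, c⟩, e⟩
      refine ⟨by omega, a, by rw [e, b], fun _ j hj => ?_⟩
      by_cases hj' : j = n / 2
      · rw [hj', e, b]
      · exact c j (by omega)
    · rintro ⟨a, b, c, e⟩
      subst a
      exact ⟨b, ⟨rfl, fun j hj => e (by omega) j (by omega)⟩, c⟩

lemma pub_eq_gc_iff {W W' : Fin 3} {j : ℕ} {b : Bool} {y : ℕ → Bool} {m : ℕ} :
    TC.pub W j b = gc W' y m ↔ m = 2 * j ∧ W = W' ∧ b = y j := by
  unfold gc
  by_cases h2 : m % 2 = 0 <;>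
    simp only [h2, if_true, if_false, TC.pub.injEq, reduceCtorEq, false_iff]
  · constructor
    · rintro ⟨a, b, c⟩
      subst b
      exact ⟨by omega, a, c⟩
    · rintro ⟨a, b, c⟩
      have : m / 2 = j := by omega
      exact ⟨b, this.symm, by rw [this, c]⟩
  · rintro ⟨a, -⟩
    omega

@[simp] lemma gc_tr (W : Fin 3) (x : ℕ → Bool) (n : ℕ) : (gc W x n).tr = W := by
  unfold gc
  split_ifs <;> rfl

@[simp] lemma gc_dep (W : Fin 3) (x : ℕ → Bool) (n : ℕ) : (gc W x n).dep = n := by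
  unfold gc
  split_ifs
  · simp only [TC.dep]
    omega
  · simp only [TC.dep, pre_length]
    omega

@[simp] lemma gc_bit (W : Fin 3) (x : ℕ → Bool) (n : ℕ) : (gc W x n).bit = x (n / 2) := by
  unfold gc
  split_ifs <;> rfl

lemma gc_isPub (W : Fin 3) (x : ℕ → Bool) (n : ℕ) : (gc W x n).IsPub ↔ n % 2 = 0 := by
  unfold gc
  split_ifs with h <;> simp [TC.IsPub, h]

lemma geo_zero {d : ℕ} (hd : 1 ≤ d) (W : Fin 3) (x : ℕ → Bool) : geo d W x 0 = TV.nd W [] := by
  have : 0 < d := hd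
  simp [geo, sk, pre, this]

lemma geo_step {d : ℕ} (W : Fin 3) (x : ℕ → Bool) {n : ℕ} (hn : n < 2 * d) :
    (TG d).Step (ge W x n) (geo d W x n) (geo d W x (n + 1)) := by
  by_cases h : n % 2 = 0
  · have h1 : ¬ (n + 1) % 2 = 0 := by omega
    have h2 : (n + 1) / 2 = n / 2 := by omega
    have h3 : n / 2 < d := by omega
    simp [IG.Step, ge, geo, h, h1, h2, TG, sk, h3]
  · have h1 : (n + 1) % 2 = 0 := by omega
    have h2 : (n + 1) / 2 = n / 2 + 1 := by omega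
    have h3 : n / 2 < d := by omega
    simp [IG.Step, ge, geo, h, h1, h2, TG, h3, pre]

lemma col_ge (d : ℕ) (W : Fin 3) (x : ℕ → Bool) (n : ℕ) : (TG d).col (ge W x n) = gc W x n := by
  unfold ge gc
  split_ifs <;> simp [TG]

lemma exists_geo {d : ℕ} {u : TV} (hu : TVal d u) : ∃ W x n, n ≤ 2 * d ∧ u = geo d W x n := by
  cases u with
  | nd W l =>
    obtain ⟨x, h1, -⟩ := exists_pre l true
    have hl : l.length < d := hu
    refine ⟨W, x, 2 * l.length, by omega, ?_⟩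
    simp [geo, h1, sk, hl]
  | lf l =>
    obtain ⟨x, h1, -⟩ := exists_pre l true
    have hl : l.length = d := hu
    refine ⟨0, x, 2 * l.length, by omega, ?_⟩
    simp [geo, h1, sk, hl.ge]
  | md W l b =>
    obtain ⟨x, h1, h2⟩ := exists_pre l b
    have hl : l.length < d := hu
    refine ⟨W, x, 2 * l.length + 1, by omega, ?_⟩
    have e1 : (2 * l.length + 1) / 2 = l.length := by omega
    simp [geo, e1, h1, h2]

lemma exists_ge {d : ℕ} {e : TE} {u w : TV} (h : (TG d).Step e u w) :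
    ∃ W x n, n < 2 * d ∧ ((u = geo d W x n ∧ w = geo d W x (n + 1)) ∨
      (w = geo d W x n ∧ u = geo d W x (n + 1))) := by
  obtain ⟨hok, h⟩ := h
  have key : ∃ W x n, n < 2 * d ∧ (TG d).src e = geo d W x n ∧
      (TG d).tgt e = geo d W x (n + 1) := by
    cases e with
    | up W l b =>
      obtain ⟨x, h1, h2⟩ := exists_pre l b
      have hl : l.length < d := hok
      have e1 : (2 * l.length + 1) / 2 = l.length := by omega
      refine ⟨W, x, 2 * l.length, by omega, ?_, ?_⟩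
      · simp [geo, h1, sk, hl, TG]
      · simp [geo, e1, h1, h2, TG]
    | lo W l b =>
      obtain ⟨x, h1, h2⟩ := exists_pre l b
      have hl : l.length < d := hok
      have e1 : (2 * l.length + 1) / 2 = l.length := by omega
      have e2 : (2 * l.length + 1 + 1) / 2 = l.length + 1 := by omega
      have e3 : (2 * l.length + 1 + 1) % 2 = 0 := by omega
      refine ⟨W, x, 2 * l.length + 1, by omega, ?_, ?_⟩
      · simp [geo, e1, h1, h2, TG]
      · simp [geo, e2, e3, pre, h1, h2, TG]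
  obtain ⟨W, x, n, hn, h1, h2⟩ := key
  refine ⟨W, x, n, hn, ?_⟩
  rcases h with ⟨a, b⟩ | ⟨a, b⟩
  · exact Or.inl ⟨a ▸ h1, b ▸ h2⟩
  · exact Or.inr ⟨a ▸ h1, b ▸ h2⟩

lemma seg {d : ℕ} (W : Fin 3) (x : ℕ → Bool) {a b : ℕ} (hab : a ≤ b) (hb : b ≤ 2 * d) :
    (TG d).RP (geo d W x a) (geo d W x b) (b - a) (VS d W x a b) (CS W x a b) := by
  refine ⟨fun k => geo d W x (a + k), fun k => ge W x (a + k), rfl, ?_, ?_, ?_, ?_, ?_, ?_⟩
  · have : a + (b - a) = b := by omega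
    simp [this]
  · intro k hk
    exact geo_step W x (by omega)
  · intro k hk l hl h
    have := ((geo_eq_iff (by omega) (by omega)).1 h).1
    omega
  · intro k hk l hl h
    simp only [col_ge] at h
    have := (gc_eq_iff.1 h).1
    omega
  · intro k hk
    exact ⟨a + k, by omega, by omega, rfl⟩
  · intro k hk
    exact ⟨a + k, by omega, by omega, col_ge _ _ _ _⟩

/-- the route straight up -/
lemma routeU {d : ℕ} (hd : 1 ≤ d) (W : Fin 3) (x : ℕ → Bool) {n : ℕ} (hn : n ≤ 2 * d) :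
    (TG d).RP (geo d W x n) (TV.nd W []) n (VS d W x 0 n) (CS W x 0 n) :=
  (seg W x (Nat.zero_le n) hn).symm.cast rfl (geo_zero hd W x) rfl

/-- the route down to a leaf and up another tree -/
lemma routeD {d : ℕ} (hd : 1 ≤ d) {W X : Fin 3} (hX : X ≠ W) (x : ℕ → Bool) {n : ℕ}
    (hn : n ≤ 2 * d) :
    (TG d).RP (geo d W x n) (TV.nd X []) (4 * d - n) (VS d W x n (2 * d) ∪ VS d X x 0 (2 * d))
      (CS W x n (2 * d) ∪ CS X x 0 (2 * d)) := by
  have e : geo d W x (2 * d) = geo d X x (2 * d) :=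
    (geo_eq_iff le_rfl le_rfl).2 ⟨rfl, Or.inr rfl, fun _ _ => rfl⟩
  refine ((seg W x hn le_rfl).append ((routeU hd X x le_rfl).cast e.symm rfl rfl) ?_ ?_).cast
    rfl rfl (by omega)
  · rintro v ⟨a, h1, h2, rfl⟩ ⟨b, h3, h4, h⟩
    obtain ⟨h5, h6, -⟩ := (geo_eq_iff h2 h4).1 h
    rw [h6.resolve_left hX.symm]
  · rw [Set.disjoint_left]
    rintro v ⟨a, h1, h2, rfl⟩ ⟨b, h3, h4, h⟩
    exact hX (gc_eq_iff.1 h).2.1.symm

/-- the route up to depth `e`, down another branch and up another tree -/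
lemma routeA {d : ℕ} (hd : 1 ≤ d) {W X : Fin 3} (hX : X ≠ W) (x y : ℕ → Bool) {n e : ℕ}
    (hn : n ≤ 2 * d) (he : e ≤ n) (he2 : e % 2 = 0) (h1 : ∀ j, 2 * j < e → y j = x j)
    (h2 : ∀ j, e ≤ 2 * j → 2 * j < n → y j ≠ x j) :
    (TG d).RP (geo d W x n) (TV.nd X []) (n - e + (4 * d - e))
      (VS d W x e n ∪ (VS d W y e (2 * d) ∪ VS d X y 0 (2 * d)))
      (CS W x e n ∪ (CS W y e (2 * d) ∪ CS X y 0 (2 * d))) := by
  have e0 : geo d W y e = geo d W x e :=
    (geo_eq_iff (by omega) (by omega)).2 ⟨rfl, Or.inl rfl, h1⟩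
  refine (seg W x he hn).symm.append ((routeD hd hX y (by omega)).cast e0 rfl rfl) ?_ ?_
  · rintro v ⟨a, a1, a2, rfl⟩ (⟨b, b1, b2, h⟩ | ⟨b, b1, b2, h⟩)
    · obtain ⟨h5, -, h6⟩ := (geo_eq_iff (by omega) b2).1 h
      by_cases hae : a = e
      · rw [hae]
      · exact absurd (h6 (e / 2) (by omega)).symm (h2 _ (by omega) (by omega))
    · obtain ⟨h5, h7, h6⟩ := (geo_eq_iff (by omega) b2).1 h
      have h8 := h7.resolve_left hX.symm
      by_cases hae : a = e
      · rw [hae]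
      · exact absurd (h6 (e / 2) (by omega)).symm (h2 _ (by omega) (by omega))
  · rw [Set.disjoint_left]
    rintro v ⟨a, a1, a2, rfl⟩ (⟨b, b1, b2, h⟩ | ⟨b, b1, b2, h⟩)
    · exact h2 (a / 2) (by omega) (by omega) (gc_eq_iff.1 h).2.2.1.symm
    · exact hX (gc_eq_iff.1 h).2.1.symm

end LTree1

section LTree2
variable {d : ℕ}

lemma Safe.symm {X Y : Fin 3} {f g : Option PL} {L : ℕ} (h : Safe d X f Y g L) :
    Safe d Y g X f L := by
  rcases h with h | h
  · exact Or.inl h.symm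
  · refine Or.inr fun s hs hL => ⟨fun h0 => ?_, fun h1 => ?_⟩
    · obtain ⟨j, b, a1, a2, a3⟩ := (h s hs hL).1 h0
      exact ⟨j, !b, a1, a3, by simpa using a2⟩
    · obtain ⟨Z, b, a1, a2, a3⟩ := (h s hs hL).2 h1
      exact ⟨Z, b, a2, a1, a3.symm⟩

lemma safe_none {X Y : Fin 3} {f g : Option PL} {L : ℕ} (h : L < 4 * d ∨ L % 4 ≠ 0) :
    Safe d X f Y g L := Or.inr fun s _ hL => by omega

lemma safe_mixed {X Y : Fin 3} {L j : ℕ} {b : Bool} (h : L = 4 * d) (hj : j < d) :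
    Safe d X (some (X, j, b)) Y (some (Y, j, !b)) L :=
  Or.inr fun s _ hL => ⟨fun _ => ⟨j, b, hj, rfl, rfl⟩, fun _ => by omega⟩

lemma safe_third {X Y Z : Fin 3} {g : Option PL} {L j : ℕ} {b : Bool} (hX : Z ≠ X) (hY : Z ≠ Y)
    (h : L + 4 * j = 8 * d) (hj : j < d) : Safe d X (some (Z, j, b)) Y g L :=
  Or.inr fun s _ hL => ⟨fun _ => by omega, fun _ => ⟨Z, b, hX, hY, Or.inl (by
    have : j = d - s := by omega
    rw [this])⟩⟩

lemma Svc.symm {u w : TV} {same : Prop} {bu bw : Set TC} (h : Svc d u w same bu bw) :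
    Svc d w u same bw bu := by
  obtain ⟨X, Y, p, q, V₁, V₂, C₁, C₂, f, g, h1, h2, h3, h4, h5, h6, h7, h8, h9, h10, h11⟩ := h
  have e : C₂ ∪ C₁ ∪ bw ∪ bu = C₁ ∪ C₂ ∪ bu ∪ bw := by
    ext x
    simp only [Set.mem_union]
    tauto
  refine ⟨Y, X, q, p, V₂, V₁, C₂, C₁, g, f, h2, h1, by omega,
    fun hs => ⟨(h4 hs).1.symm, (h4 hs).2.symm⟩, fun W j b a1 a2 => h5 W j b a2 a1, h7, h6,
    e ▸ h9, e ▸ h8, fun h => h ▸ h10 h.symm, ?_⟩
  rw [Nat.add_comm q p]
  exact h11.symm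

lemma Svc.mono {u w : TV} {same same' : Prop} {bu bw bu' bw' : Set TC} (h : Svc d u w same bu bw)
    (h0 : same' → same) (hu : bu' ⊆ bu) (hw : bw' ⊆ bw) : Svc d u w same' bu' bw' := by
  obtain ⟨X, Y, p, q, V₁, V₂, C₁, C₂, f, g, h1, h2, h3, h4, h5, h6, h7, h8, h9, h10, h11⟩ := h
  have e : C₁ ∪ C₂ ∪ bu' ∪ bw' ⊆ C₁ ∪ C₂ ∪ bu ∪ bw :=
    Set.union_subset_union (Set.union_subset_union_right _ hu) hw
  exact ⟨X, Y, p, q, V₁, V₂, C₁, C₂, f, g, h1, h2, h3, fun hs => h4 (h0 hs), h5,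
    h6.mono_right hu, h7.mono_right hw, fun W j b hf => ⟨(h8 W j b hf).1,
      fun hm => (h8 W j b hf).2 (e hm)⟩,
    fun W j b hf => ⟨(h9 W j b hf).1, fun hm => (h9 W j b hf).2 (e hm)⟩, h10, h11⟩

/-- every private colour comes with the middle vertex of its leg -/
def Tight (V : Set TV) (C : Set TC) : Prop := ∀ W l b, TC.prv W l b ∈ C → TV.md W l b ∈ V

lemma tight_VS (W : Fin 3) (x : ℕ → Bool) (a b : ℕ) : Tight (VS d W x a b) (CS W x a b) := by
  rintro W' l c ⟨n, h1, h2, h3⟩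
  refine ⟨n, h1, h2.le, ?_⟩
  unfold gc at h3
  unfold geo
  split_ifs at h3 ⊢
  simp only [TC.prv.injEq] at h3
  simp [h3]

lemma Tight.union {V V' : Set TV} {C C' : Set TC} (h : Tight V C) (h' : Tight V' C') :
    Tight (V ∪ V') (C ∪ C') := fun W l b hm => hm.imp (h W l b) (h' W l b)

lemma mem_CS_pub {W W' : Fin 3} {j : ℕ} {b : Bool} {x : ℕ → Bool} {a c : ℕ} :
    TC.pub W j b ∈ CS W' x a c ↔ W = W' ∧ a ≤ 2 * j ∧ 2 * j < c ∧ b = x j := by
  constructor
  · rintro ⟨n, h1, h2, h3⟩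
    obtain ⟨rfl, h4, h5⟩ := pub_eq_gc_iff.1 h3
    exact ⟨h4, h1, h2, h5⟩
  · rintro ⟨h1, h2, h3, h4⟩
    exact ⟨2 * j, h2, h3, pub_eq_gc_iff.2 ⟨rfl, h1, h4⟩⟩

lemma mem_CS {i : TC} {W : Fin 3} {x : ℕ → Bool} {a c : ℕ} (h : i ∈ CS W x a c) :
    a ≤ i.dep ∧ i.dep < c ∧ i.tr = W ∧ i.bit = x (i.dep / 2) ∧ i = gc W x i.dep := by
  obtain ⟨n, h1, h2, rfl⟩ := h
  simp [h1, h2]

lemma disj_VS {W W' : Fin 3} {x y : ℕ → Bool} {a b a' b' : ℕ} (hb : b ≤ 2 * d) (hb' : b' ≤ 2 * d)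
    (h : ∀ n, a ≤ n → n ≤ b → a' ≤ n → n ≤ b' → (W = W' ∨ n = 2 * d) →
      ∃ j, 2 * j < n ∧ x j ≠ y j) : Disjoint (VS d W x a b) (VS d W' y a' b') := by
  rw [Set.disjoint_left]
  rintro v ⟨n, h1, h2, rfl⟩ ⟨m, h3, h4, h5⟩
  obtain ⟨rfl, h6, h7⟩ := (geo_eq_iff (by omega) (by omega)).1 h5
  obtain ⟨j, h8, h9⟩ := h n h1 h2 h3 h4 h6
  exact h9 (h7 j h8)

lemma pub_eq_imp {i : TC} {W : Fin 3} {j : ℕ} {b : Bool} (h : TC.pub W j b = i) :
    i.tr = W ∧ i.dep = 2 * j ∧ i.bit = b := by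
  subst h
  exact ⟨rfl, rfl, rfl⟩

lemma labOK_none (S : Set TC) : LabOK d none S := fun _ _ _ h => by simp at h

lemma labOK_some {W : Fin 3} {j : ℕ} {b : Bool} {S : Set TC} (hj : j < d)
    (h : TC.pub W j b ∉ S) : LabOK d (some (W, j, b)) S := by
  intro W' j' b' e
  simp only [Option.some.injEq, Prod.mk.injEq] at e
  obtain ⟨rfl, rfl, rfl⟩ := e
  exact ⟨hj, h⟩

lemma Svc.build {u w : TV} {same : Prop} {bu bw : Set TC} {X Y : Fin 3} {p q : ℕ}
    {V₁ V₂ : Set TV} {C₁ C₂ : Set TC} (f g : Option PL)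
    (hP : (TG d).RP u (TV.nd X []) p V₁ C₁) (hQ : (TG d).RP w (TV.nd Y []) q V₂ C₂)
    (t₁ : Tight V₁ C₁) (t₂ : Tight V₂ C₂) (hpq : p + q ≤ 8 * d) (hV : same → Disjoint V₁ V₂)
    (hpub : ∀ W j b, TC.pub W j b ∈ C₁ → TC.pub W j b ∉ C₂)
    (h1 : ∀ i ∈ bu, i ∉ C₁) (h2 : ∀ i ∈ bw, i ∉ C₂)
    (hf : LabOK d f (C₁ ∪ C₂ ∪ bu ∪ bw)) (hg : LabOK d g (C₁ ∪ C₂ ∪ bu ∪ bw))
    (hfg : f = g → f = none) (hs : Safe d X f Y g (p + q + 1)) : Svc d u w same bu bw := by
  refine ⟨X, Y, p, q, V₁, V₂, C₁, C₂, f, g, hP, hQ, hpq, fun hs => ⟨hV hs, ?_⟩, hpub,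
    Set.disjoint_right.2 h1, Set.disjoint_right.2 h2, hf, hg, hfg, hs⟩
  rw [Set.disjoint_left]
  intro c a1 a2
  cases c with
  | pub W j b => exact hpub W j b a1 a2
  | prv W l b => exact Set.disjoint_left.1 (hV hs) (t₁ W l b a1) (t₂ W l b a2)

lemma exists_other (A T : Fin 3) : ∃ B C : Fin 3, B ≠ A ∧ B ≠ T ∧ C ≠ A ∧ C ≠ B := by
  revert A T
  decide

lemma exists_two (T : Fin 3) : ∃ X Y : Fin 3, X ≠ Y ∧ X ≠ T ∧ Y ≠ T := by
  revert T
  decide

/-- both routes go up, in different trees -/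
lemma svcUU (hd : 1 ≤ d) {A B : Fin 3} (hAB : A ≠ B) {x y : ℕ → Bool} {n m : ℕ} (hn : n ≤ 2 * d)
    (hm : m ≤ 2 * d) {same : Prop} {i : TC} (h1 : ¬ (i.tr = A ∧ i.dep < n))
    (h2 : ¬ (i.tr = B ∧ i.dep < m))
    (hne : same → n = 2 * d → m = 2 * d → ∃ j, j < d ∧ x j ≠ y j)
    (hmix : n + m + 1 = 4 * d → n < 2 * d ∧ ∃ j, j < d ∧ x j ≠ y j) :
    Svc d (geo d A x n) (geo d B y m) same {i} {i} := by
  have hV : same → Disjoint (VS d A x 0 n) (VS d B y 0 m) := fun hs =>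
    disj_VS hn hm fun k _ a1 _ a2 a3 => by
      obtain ⟨j, a4, a5⟩ := hne hs (by grind) (by grind)
      exact ⟨j, by grind, a5⟩
  have hpub : ∀ W j b, TC.pub W j b ∈ CS A x 0 n → TC.pub W j b ∉ CS B y 0 m := by
    simp only [mem_CS_pub]
    grind
  have a1 : ∀ c ∈ ({i} : Set TC), c ∉ CS A x 0 n := by
    rintro c rfl hc
    have := mem_CS hc
    grind
  have a2 : ∀ c ∈ ({i} : Set TC), c ∉ CS B y 0 m := by
    rintro c rfl hc
    have := mem_CS hc
    grind
  by_cases hL : n + m + 1 = 4 * d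
  · obtain ⟨h3, j, h4, h5⟩ := hmix hL
    refine Svc.build (some (A, j, y j)) (some (B, j, !y j)) (routeU hd A x hn) (routeU hd B y hm)
      (tight_VS _ _ _ _) (tight_VS _ _ _ _) (by omega) hV hpub a1 a2 (labOK_some h4 ?_)
      (labOK_some h4 ?_) (by simp [hAB]) (safe_mixed hL h4)
    · simp only [Set.mem_union, mem_CS_pub, Set.mem_singleton_iff]
      have := @pub_eq_imp i A j (y j)
      grind
    · simp only [Set.mem_union, mem_CS_pub, Set.mem_singleton_iff]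
      have := @pub_eq_imp i B j (!y j)
      grind
  · exact Svc.build none none (routeU hd A x hn) (routeU hd B y hm)
      (tight_VS _ _ _ _) (tight_VS _ _ _ _) (by omega) hV hpub a1 a2 (labOK_none _)
      (labOK_none _) (fun _ => rfl) (safe_none (by omega))

/-- down and up a third tree; up in a different tree -/
lemma svcDU (hd : 1 ≤ d) {A B C : Fin 3} (hAB : A ≠ B) (hCA : C ≠ A) (hCB : C ≠ B)
    {x y : ℕ → Bool} {n m : ℕ} (hn : n < 2 * d) (hm : m ≤ 2 * d) {same : Prop} {i : TC}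
    (h1 : i.tr = A ∧ i.dep < n) (hne : same → m = 2 * d → ∃ j, j < d ∧ x j ≠ y j) :
    Svc d (geo d A x n) (geo d B y m) same {i} {i} := by
  have hV : same → Disjoint (VS d A x n (2 * d) ∪ VS d C x 0 (2 * d)) (VS d B y 0 m) := fun hs => by
    rw [Set.disjoint_union_left]
    constructor <;> refine disj_VS le_rfl hm fun k _ a1 _ a2 a3 => ?_ <;>
    · obtain ⟨j, a4, a5⟩ := hne hs (by grind)
      exact ⟨j, by grind, a5⟩
  have hpub : ∀ W j b, TC.pub W j b ∈ CS A x n (2 * d) ∪ CS C x 0 (2 * d) →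
      TC.pub W j b ∉ CS B y 0 m := by
    simp only [Set.mem_union, mem_CS_pub]
    grind
  have a1 : ∀ c ∈ ({i} : Set TC), c ∉ CS A x n (2 * d) ∪ CS C x 0 (2 * d) := by
    rintro c rfl (hc | hc) <;>
    · have := mem_CS hc
      grind
  have a2 : ∀ c ∈ ({i} : Set TC), c ∉ CS B y 0 m := by
    rintro c rfl hc
    have := mem_CS hc
    grind
  have hP := routeD hd hCA x hn.le
  have hQ := routeU hd B y hm
  have t1 := (tight_VS (d := d) A x n (2 * d)).union (tight_VS (d := d) C x 0 (2 * d))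
  by_cases hL : m + 1 = n
  · refine Svc.build (some (C, d - 1, !x (d - 1))) (some (B, d - 1, !!x (d - 1))) hP hQ t1
      (tight_VS _ _ _ _) (by omega) hV hpub a1 a2 (labOK_some (by omega) ?_)
      (labOK_some (by omega) ?_) (by simp [hCB]) (safe_mixed (by omega) (by omega))
    · simp only [Set.mem_union, mem_CS_pub, Set.mem_singleton_iff]
      have := @pub_eq_imp i C (d - 1) (!x (d - 1))
      grind
    · simp only [Set.mem_union, mem_CS_pub, Set.mem_singleton_iff]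
      have := @pub_eq_imp i B (d - 1) (!!x (d - 1))
      grind
  · by_cases hL2 : n ≤ m ∧ (4 * d - n + m + 1) % 4 = 0
    · obtain ⟨j, hj⟩ : ∃ j, 4 * d - n + m + 1 + 4 * j = 8 * d :=
        ⟨(8 * d - (4 * d - n + m + 1)) / 4, by omega⟩
      refine Svc.build (some (A, j, !x j)) none hP hQ t1
        (tight_VS _ _ _ _) (by omega) hV hpub a1 a2 (labOK_some (by omega) ?_)
        (labOK_none _) (by simp) (safe_third hCA.symm hAB hj (by omega))
      simp only [Set.mem_union, mem_CS_pub, Set.mem_singleton_iff]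
      have := @pub_eq_imp i A j (!x j)
      grind
    · exact Svc.build none none hP hQ t1 (tight_VS _ _ _ _) (by omega) hV hpub a1 a2
        (labOK_none _) (labOK_none _) (fun _ => rfl) (safe_none (by omega))

/-- both routes go down in the same tree -/
lemma svcDD (hd : 1 ≤ d) {A B C : Fin 3} (hBA : B ≠ A) (hCA : C ≠ A) (hCB : C ≠ B)
    {x y : ℕ → Bool} {n m : ℕ} (hn : n < 2 * d) (hnm : n ≤ m) (hm : m ≤ 2 * d) {same : Prop}
    {i : TC} (h1 : i.tr = A ∧ i.dep < n) (hxy : ∀ j, n ≤ 2 * j → x j ≠ y j)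
    (hne : same → ∃ j, 2 * j < m ∧ x j ≠ y j) :
    Svc d (geo d A x n) (geo d A y m) same {i} {i} := by
  have hV : same → Disjoint (VS d A x n (2 * d) ∪ VS d B x 0 (2 * d))
      (VS d A y m (2 * d) ∪ VS d C y 0 (2 * d)) := fun hs => by
    rw [Set.disjoint_union_left, Set.disjoint_union_right, Set.disjoint_union_right]
    obtain ⟨j, a4, a5⟩ := hne hs
    refine ⟨⟨?_, ?_⟩, ?_, ?_⟩ <;> refine disj_VS le_rfl le_rfl fun k _ a1 _ a2 a3 => ?_ <;>
      exact ⟨j, by grind, a5⟩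
  have hpub : ∀ W j b, TC.pub W j b ∈ CS A x n (2 * d) ∪ CS B x 0 (2 * d) →
      TC.pub W j b ∉ CS A y m (2 * d) ∪ CS C y 0 (2 * d) := by
    simp only [Set.mem_union, mem_CS_pub]
    grind
  have a1 : ∀ c ∈ ({i} : Set TC), c ∉ CS A x n (2 * d) ∪ CS B x 0 (2 * d) := by
    rintro c rfl (hc | hc) <;>
    · have := mem_CS hc
      grind
  have a2 : ∀ c ∈ ({i} : Set TC), c ∉ CS A y m (2 * d) ∪ CS C y 0 (2 * d) := by
    rintro c rfl (hc | hc) <;>
    · have := mem_CS hc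
      grind
  have hP := routeD hd hBA x hn.le
  have hQ := routeD hd hCA y hm
  have t1 := (tight_VS (d := d) A x n (2 * d)).union (tight_VS (d := d) B x 0 (2 * d))
  have t2 := (tight_VS (d := d) A y m (2 * d)).union (tight_VS (d := d) C y 0 (2 * d))
  by_cases hL2 : (4 * d - n + (4 * d - m) + 1) % 4 = 0
  · obtain ⟨j, hj⟩ : ∃ j, 4 * d - n + (4 * d - m) + 1 + 4 * j = 8 * d :=
      ⟨(8 * d - (4 * d - n + (4 * d - m) + 1)) / 4, by omega⟩
    refine Svc.build (some (A, j, !x j)) none hP hQ t1 t2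
      (by omega) hV hpub a1 a2 (labOK_some (by omega) ?_)
      (labOK_none _) (by simp) (safe_third hBA.symm hCA.symm hj (by omega))
    simp only [Set.mem_union, mem_CS_pub, Set.mem_singleton_iff]
    have := @pub_eq_imp i A j (!x j)
    grind
  · exact Svc.build none none hP hQ t1 t2 (by omega) hV hpub a1 a2
      (labOK_none _) (labOK_none _) (fun _ => rfl) (safe_none (by omega))

/-- one route up, the other down, in the same tree -/
lemma svcUD (hd : 1 ≤ d) {A B : Fin 3} (hBA : B ≠ A) {x y : ℕ → Bool} {n m : ℕ}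
    (hn : n ≤ 2 * d) (hnm : n ≤ m + 1) (hm : m ≤ 2 * d) {same : Prop} {i : TC} {bu bw : Set TC}
    (hu : bu ⊆ {i}) (hw : bw ⊆ {i}) (hB : i.tr ≠ B) (h1 : i ∈ bu → i ∉ CS A x 0 n)
    (h2 : i ∈ bw → i ∉ CS A y m (2 * d)) (hxy : ∀ j, n = m + 1 → m = 2 * j → x j ≠ y j)
    (hne : same → n ≤ m ∧ (n = m → ∃ j, 2 * j < n ∧ x j ≠ y j))
    (hmix : m = n + 1 → ∃ j, j < d ∧ 2 * j < m ∧ (2 * j < n → x j ≠ y j) ∧
      TC.pub A j (y j) ≠ i) :
    Svc d (geo d A x n) (geo d A y m) same bu bw := by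
  have hV : same → Disjoint (VS d A x 0 n) (VS d A y m (2 * d) ∪ VS d B y 0 (2 * d)) :=
    fun hs => by
    rw [Set.disjoint_union_right]
    constructor <;> refine disj_VS hn le_rfl fun k _ a1 _ a2 a3 => ?_ <;>
    · obtain ⟨j, a4, a5⟩ := (hne hs).2 (by grind)
      exact ⟨j, by grind, a5⟩
  have hpub : ∀ W j b, TC.pub W j b ∈ CS A x 0 n →
      TC.pub W j b ∉ CS A y m (2 * d) ∪ CS B y 0 (2 * d) := by
    simp only [Set.mem_union, mem_CS_pub]
    grind
  have a1 : ∀ c ∈ bu, c ∉ CS A x 0 n := by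
    intro c hc
    obtain rfl : c = i := hu hc
    exact h1 hc
  have a2 : ∀ c ∈ bw, c ∉ CS A y m (2 * d) ∪ CS B y 0 (2 * d) := by
    intro c hc
    obtain rfl : c = i := hw hc
    rintro (h | h)
    · exact h2 hc h
    · exact hB (mem_CS h).2.2.1
  have hP := routeU hd A x hn
  have hQ := routeD hd hBA y hm
  have t2 := (tight_VS (d := d) A y m (2 * d)).union (tight_VS (d := d) B y 0 (2 * d))
  by_cases hL : m = n + 1
  · obtain ⟨j, h3, h4, h5, h6⟩ := hmix hL
    refine Svc.build (some (A, j, y j)) (some (B, j, !y j)) hP hQ (tight_VS _ _ _ _) t2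
      (by omega) hV hpub a1 a2 (labOK_some h3 ?_)
      (labOK_some h3 ?_) (by simp [hBA.symm]) (safe_mixed (by omega) h3)
    · simp only [Set.mem_union, mem_CS_pub]
      have b1 := @hu (TC.pub A j (y j))
      have b2 := @hw (TC.pub A j (y j))
      simp only [Set.mem_singleton_iff] at b1 b2
      grind
    · simp only [Set.mem_union, mem_CS_pub]
      have b1 := @hu (TC.pub B j (!y j))
      have b2 := @hw (TC.pub B j (!y j))
      simp only [Set.mem_singleton_iff] at b1 b2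
      have := @pub_eq_imp i B j (!y j)
      grind
  · exact Svc.build none none hP hQ (tight_VS _ _ _ _) t2 (by omega) hV hpub a1 a2
      (labOK_none _) (labOK_none _) (fun _ => rfl) (safe_none (by omega))

/-- one route up; the other one step up, then down the sibling leg -/
lemma svcUA (hd : 1 ≤ d) {A B : Fin 3} (hBA : B ≠ A) {x y : ℕ → Bool} {n k : ℕ}
    (hnk : n ≤ 2 * k) (hk : k < d) (hne : n = 2 * k → ∃ j, 2 * j < n ∧ x j ≠ y j) :
    Svc d (geo d A x n) (geo d A y (2 * k + 1)) True {gc A y (2 * k + 1)}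
      {gc A y (2 * k + 1)} := by
  obtain ⟨z, hz1, hz2⟩ : ∃ z : ℕ → Bool, (∀ j, j ≠ k → z j = y j) ∧ z k ≠ y k :=
    ⟨fun j => if j = k then !y j else y j, fun j hj => by simp [hj], by simp⟩
  have hP := routeU hd A x (show n ≤ 2 * d by omega)
  have hQ := routeA hd hBA y z (show 2 * k + 1 ≤ 2 * d by omega) (show 2 * k ≤ 2 * k + 1 by omega)
    (by omega) (fun j hj => hz1 j (by omega)) (fun j a1 a2 => by grind)
  have t2 := (tight_VS (d := d) A y (2 * k) (2 * k + 1)).union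
    ((tight_VS (d := d) A z (2 * k) (2 * d)).union (tight_VS (d := d) B z 0 (2 * d)))
  have hV : True → Disjoint (VS d A x 0 n) (VS d A y (2 * k) (2 * k + 1) ∪
      (VS d A z (2 * k) (2 * d) ∪ VS d B z 0 (2 * d))) := fun _ => by
    rw [Set.disjoint_union_right, Set.disjoint_union_right]
    refine ⟨?_, ?_, ?_⟩ <;> refine disj_VS (by omega) (by omega) fun k _ a1 _ a2 a3 => ?_ <;>
    · obtain ⟨j, a4, a5⟩ := hne (by grind)
      exact ⟨j, by grind, by grind⟩
  have hpub : ∀ W j b, TC.pub W j b ∈ CS A x 0 n → TC.pub W j b ∉ CS A y (2 * k) (2 * k + 1) ∪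
      (CS A z (2 * k) (2 * d) ∪ CS B z 0 (2 * d)) := by
    simp only [Set.mem_union, mem_CS_pub]
    grind
  have e1 : (2 * k + 1) / 2 = k := by omega
  have a1 : ∀ c ∈ ({gc A y (2 * k + 1)} : Set TC), c ∉ CS A x 0 n := by
    rintro c rfl hc
    have := mem_CS hc
    simp only [gc_dep] at this
    omega
  have a2 : ∀ c ∈ ({gc A y (2 * k + 1)} : Set TC), c ∉ CS A y (2 * k) (2 * k + 1) ∪
      (CS A z (2 * k) (2 * d) ∪ CS B z 0 (2 * d)) := by
    rintro c rfl (hc | hc | hc) <;>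
    · have := mem_CS hc
      simp only [gc_dep, gc_tr, gc_bit, e1] at this
      grind
  by_cases hL : 2 * k = n + 2
  · refine Svc.build (some (A, k - 1, y (k - 1))) (some (B, k - 1, !y (k - 1))) hP hQ
      (tight_VS _ _ _ _) t2 (by omega) hV hpub a1 a2 (labOK_some (by omega) ?_)
      (labOK_some (by omega) ?_) (by simp [hBA.symm]) (safe_mixed (by omega) (by omega))
    · simp only [Set.mem_union, mem_CS_pub, Set.mem_singleton_iff, pub_eq_gc_iff]
      grind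
    · simp only [Set.mem_union, mem_CS_pub, Set.mem_singleton_iff, pub_eq_gc_iff]
      have := hz1 (k - 1) (by omega)
      grind
  · exact Svc.build none none hP hQ (tight_VS _ _ _ _) t2 (by omega) hV hpub a1 a2
      (labOK_none _) (labOK_none _) (fun _ => rfl) (safe_none (by omega))

/-- both routes end at the same root, along complementary branches -/
lemma svcAD (hd : 1 ≤ d) (A : Fin 3) (x : ℕ → Bool) {n : ℕ} (hn : n < 2 * d) :
    Svc d (geo d A x n) (geo d A x (n + 1)) False {gc A x n} {gc A x n} := by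
  obtain ⟨B, -, hBA, -⟩ := exists_other A A
  have hP := routeA hd hBA x (fun j => !x j) hn.le (Nat.zero_le n) rfl (fun j hj => by omega)
    (fun j _ _ => by simp)
  have hQ := routeD hd hBA x (show n + 1 ≤ 2 * d by omega)
  refine Svc.build none none hP hQ
    ((tight_VS _ _ _ _).union ((tight_VS _ _ _ _).union (tight_VS _ _ _ _)))
    ((tight_VS _ _ _ _).union (tight_VS _ _ _ _)) (by omega) False.elim ?_ ?_ ?_
    (labOK_none _) (labOK_none _) (fun _ => rfl) (Or.inl rfl)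
  · simp only [Set.mem_union, mem_CS_pub]
    grind
  · rintro c rfl (hc | hc | hc) <;>
    · have := mem_CS hc
      simp only [gc_dep, gc_tr, gc_bit] at this
      grind
  · rintro c rfl (hc | hc) <;>
    · have := mem_CS hc
      simp only [gc_dep, gc_tr, gc_bit] at this
      grind

end LTree2

section LTree3
variable {d : ℕ}

lemma geo_congr (A : Fin 3) {x y : ℕ → Bool} {n : ℕ} (hn : n ≤ 2 * d)
    (h : ∀ j, 2 * j < n → x j = y j) : geo d A x n = geo d A y n :=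
  (geo_eq_iff hn hn).2 ⟨rfl, Or.inl rfl, h⟩

lemma geo_leaf (A B : Fin 3) (x : ℕ → Bool) : geo d A x (2 * d) = geo d B x (2 * d) :=
  (geo_eq_iff le_rfl le_rfl).2 ⟨rfl, Or.inr rfl, fun _ _ => rfl⟩

lemma exists_ext (x z : ℕ → Bool) (n : ℕ) :
    ∃ y : ℕ → Bool, (∀ j, 2 * j < n → y j = x j) ∧ ∀ j, n ≤ 2 * j → y j ≠ z j :=
  ⟨fun j => if 2 * j < n then x j else !z j, fun j hj => by simp [hj], fun j hj => by
    have : ¬ 2 * j < n := by omega
    simp [this]⟩

lemma notMem_ext {A : Fin 3} {x y : ℕ → Bool} {m : ℕ} {i : TC}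
    (h1 : ∀ j, 2 * j < m → y j = x j) (h2 : ∀ j, m ≤ 2 * j → y j ≠ i.bit)
    (h3 : m % 2 = 1 → i ≠ gc A x m) : i ∉ CS A y m (2 * d) := by
  intro hc
  obtain ⟨a1, a2, a3, a4, a5⟩ := mem_CS hc
  by_cases h : m ≤ 2 * (i.dep / 2)
  · exact h2 _ h a4.symm
  · have e : i.dep = m := by omega
    rw [e] at a5
    exact h3 (by omega) (a5.trans (gc_eq_iff.2 ⟨rfl, rfl, h1 _ (by omega), fun _ => h1⟩))

lemma near_geo (hd : 1 ≤ d) {A B : Fin 3} {x y : ℕ → Bool} {n m : ℕ} (hnm : n ≤ m)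
    (hm : m ≤ 2 * d) (H0 : n = m → (A = B ∨ n = 2 * d) → ∃ j, 2 * j < n ∧ x j ≠ y j)
    (H1 : m = n + 1 → (A = B ∨ m = 2 * d) → ∃ j, 2 * j < n ∧ x j ≠ y j) (i : TC) :
    Svc d (geo d A x n) (geo d B y m) True {i} {i} := by
  by_cases hn : n = 2 * d
  · obtain rfl : m = 2 * d := by omega
    subst hn
    obtain ⟨X, Y, h1, h2, h3⟩ := exists_two i.tr
    rw [geo_leaf A X, geo_leaf B Y]
    refine svcUU hd h1 le_rfl le_rfl (by grind) (by grind) (fun _ _ _ => ?_) (by omega)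
    obtain ⟨j, a1, a2⟩ := H0 rfl (Or.inr rfl)
    exact ⟨j, by omega, a2⟩
  by_cases hm2 : m = 2 * d
  · have hn2 : n < 2 * d := by omega
    subst hm2
    obtain ⟨B', C, h1, h2, h3, h4⟩ := exists_other A i.tr
    rw [geo_leaf B B']
    by_cases hi : i.tr = A ∧ i.dep < n
    · obtain ⟨z, z1, z2⟩ := exists_ext x y n
      rw [← geo_congr A hnm z1]
      refine svcDU hd h1.symm h3 h4 hn2 le_rfl hi fun _ _ => ?_
      by_cases h5 : 2 * d = n + 1
      · obtain ⟨j, a1, a2⟩ := H1 h5 (Or.inr rfl)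
        exact ⟨j, by grind, by rw [z1 j a1]; exact a2⟩
      · exact ⟨d - 1, by grind, z2 _ (by grind)⟩
    · refine svcUU hd h1.symm hnm le_rfl hi (by grind) (by grind) fun h5 => ⟨hn2, ?_⟩
      obtain ⟨j, a1, a2⟩ := H1 (by grind) (Or.inr rfl)
      exact ⟨j, by grind, a2⟩
  by_cases hAB : A = B
  swap
  · obtain ⟨C, -, h1, h2, -⟩ := exists_other A B
    by_cases hi : i.tr = A ∧ i.dep < n
    · exact svcDU hd hAB h1 h2 (by omega) hm hi (by omega)
    by_cases hi2 : i.tr = B ∧ i.dep < m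
    · exact (svcDU hd (Ne.symm hAB) h2 h1 (by omega) (by omega) hi2 (by omega)).symm
    · exact svcUU hd hAB (by omega) hm hi hi2 (by omega) (by omega)
  subst hAB
  obtain ⟨B, C, h1, h2, h3, h4⟩ := exists_other A i.tr
  by_cases hi : i.tr = A ∧ i.dep < n
  · obtain ⟨z, z1, z2⟩ := exists_ext x y n
    rw [← geo_congr A (by grind) z1]
    refine svcDD hd h1 h3 h4 (by grind) hnm hm hi z2 fun _ => ?_
    by_cases h5 : ∃ j, 2 * j < n ∧ x j ≠ y j
    · obtain ⟨j, a1, a2⟩ := h5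
      exact ⟨j, by grind, by rw [z1 j a1]; exact a2⟩
    · have b1 : n ≠ m := fun h => h5 (H0 h (Or.inl rfl))
      have b2 : m ≠ n + 1 := fun h => h5 (H1 h (Or.inl rfl))
      exact ⟨(n + 1) / 2, by grind, z2 _ (by grind)⟩
  by_cases hi2 : m % 2 = 1 ∧ i = gc A y m
  · obtain ⟨h5, rfl⟩ := hi2
    by_cases h6 : n = m
    · subst h6
      obtain ⟨j, a1, a2⟩ := H0 rfl (Or.inl rfl)
      refine (svcUD hd h1 hm (by grind) hm le_rfl le_rfl h2.symm (fun _ hc => ?_) (fun _ hc => ?_)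
        (by grind) (fun _ => ⟨le_rfl, fun _ => ⟨j, a1, a2.symm⟩⟩) (by grind)).symm
      · have := mem_CS hc
        simp only [gc_dep] at this
        omega
      · have := (mem_CS hc).2.2.2.2
        rw [gc_dep] at this
        exact a2 ((gc_eq_iff.1 this).2.2.2 h5 j a1).symm
    · obtain ⟨k, rfl⟩ : ∃ k, m = 2 * k + 1 := ⟨m / 2, by grind⟩
      exact svcUA hd h1 (by grind) (by grind) fun h => H1 (by grind) (Or.inl rfl)
  · obtain ⟨z, z1, z2⟩ := exists_ext y (fun _ => i.bit) m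
    rw [← geo_congr A hm z1]
    refine svcUD hd h1 (by grind) (by grind) hm le_rfl le_rfl h2.symm (fun _ hc => ?_)
      (fun _ => notMem_ext z1 z2 fun a b => hi2 ⟨a, b⟩) (by grind) (fun _ => ⟨hnm, fun h => ?_⟩)
      fun h => ?_
    · have := mem_CS hc
      grind
    · obtain ⟨j, a1, a2⟩ := H0 h (Or.inl rfl)
      exact ⟨j, a1, by rw [z1 j (by grind)]; exact a2⟩
    · obtain ⟨j, a1, a2⟩ := H1 h (Or.inl rfl)
      refine ⟨j, by grind, by grind, fun _ => by rw [z1 j (by grind)]; exact a2, fun h => ?_⟩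
      have := pub_eq_imp h
      grind

lemma nadj {A B : Fin 3} {x y : ℕ → Bool} {n : ℕ} (hn : n + 1 ≤ 2 * d)
    (h : ∀ e, ¬ (TG d).Step e (geo d A x n) (geo d B y (n + 1))) (hAB : A = B ∨ n + 1 = 2 * d) :
    ∃ j, 2 * j < n ∧ x j ≠ y j := by
  by_contra hc
  push Not at hc
  have e1 : geo d A x n = geo d A y n := geo_congr A (by omega) hc
  have e2 : geo d B y (n + 1) = geo d A y (n + 1) :=
    (geo_eq_iff hn hn).2 ⟨rfl, hAB.imp Eq.symm id, fun _ _ => rfl⟩
  rw [e1, e2] at h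
  exact h _ (geo_step A y (by omega))

lemma nsame {A B : Fin 3} {x y : ℕ → Bool} {n : ℕ} (hn : n ≤ 2 * d)
    (h : geo d A x n ≠ geo d B y n) (hAB : A = B ∨ n = 2 * d) : ∃ j, 2 * j < n ∧ x j ≠ y j := by
  by_contra hc
  push Not at hc
  exact h ((geo_eq_iff hn hn).2 ⟨rfl, hAB, hc⟩)

/-- distinct non-adjacent vertices of the gadget -/
theorem near (hd : 1 ≤ d) {u w : TV} (hu : TVal d u) (hw : TVal d w) (huw : u ≠ w)
    (hadj : ∀ e, ¬ (TG d).Step e u w) (i : TC) : Svc d u w True {i} {i} := by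
  obtain ⟨A, x, n, hn, rfl⟩ := exists_geo hu
  obtain ⟨B, y, m, hm, rfl⟩ := exists_geo hw
  rcases le_total n m with h | h
  · refine near_geo hd h hm ?_ ?_ i
    · rintro rfl
      exact nsame hn huw
    · rintro rfl
      exact nadj hm hadj
  · refine (near_geo hd h hn ?_ ?_ i).symm
    · rintro rfl
      exact nsame hn huw.symm
    · rintro rfl
      exact nadj hn fun e he => hadj e he.symm

lemma cross_adj (hd : 1 ≤ d) (A : Fin 3) (x : ℕ → Bool) {n : ℕ} (hn : n < 2 * d) (i : TC) :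
    Svc d (geo d A x n) (geo d A x (n + 1)) False {i} {i} := by
  obtain ⟨B, C, h1, h2, h3, h4⟩ := exists_other A i.tr
  obtain ⟨z, z1, z2⟩ := exists_ext x x n
  by_cases hi : i.tr = A ∧ i.dep < n
  · rw [← geo_congr A hn.le z1]
    exact svcDD hd h1 h3 h4 hn (by omega) (by omega) hi z2 False.elim
  by_cases hi2 : i = gc A x n
  · subst hi2
    exact svcAD hd A x hn
  have hup : i ∉ CS A x 0 (n + 1) := by
    intro hc
    obtain ⟨-, a2, a3, -, a5⟩ := mem_CS hc
    by_cases h : i.dep = n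
    · exact hi2 (h ▸ a5)
    · exact hi ⟨a3, by omega⟩
  by_cases he : n % 2 = 0
  · by_cases hi3 : i = gc A x (n + 1)
    · rw [← geo_congr A hn.le z1]
      refine (svcUD hd h1 (by omega) le_rfl hn.le le_rfl le_rfl h2.symm (fun _ => hup)
        (fun _ hc => ?_) (fun j _ hj => (z2 j (by omega)).symm) False.elim (by omega)).symm
      have := (mem_CS hc).2.2.2.1
      subst hi3
      simp only [gc_bit, gc_dep] at this
      exact z2 _ (by omega) this.symm
    · obtain ⟨y, y1, y2⟩ := exists_ext x (fun _ => i.bit) (n + 1)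
      rw [← geo_congr A (show n + 1 ≤ 2 * d by omega) y1]
      refine svcUD hd h1 hn.le (by omega) (by omega) le_rfl le_rfl h2.symm (fun _ hc => ?_)
        (fun _ => notMem_ext y1 y2 fun _ => hi3) (by omega) False.elim fun _ =>
        ⟨n / 2, by omega, by omega, by omega, fun h => hi2 ?_⟩
      · have := mem_CS hc
        grind
      · rw [← h, y1 _ (by omega)]
        exact pub_eq_gc_iff.2 ⟨by omega, rfl, rfl⟩
  · obtain ⟨y, y1, y2⟩ := exists_ext x (fun _ => i.bit) n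
    rw [← geo_congr A hn.le y1]
    exact (svcUD hd h1 (by omega) le_rfl hn.le le_rfl le_rfl h2.symm (fun _ => hup)
      (fun _ => notMem_ext y1 y2 fun _ => hi2) (by omega) False.elim (by omega)).symm

lemma cross_twin (hd : 1 ≤ d) (A : Fin 3) (x : ℕ → Bool) {n : ℕ} (hn : n ≤ 2 * d) (i : TC) :
    Svc d (geo d A x n) (geo d A x n) False {i} {c | c = i ∧ c.IsPub} := by
  have hs : {c | c = i ∧ c.IsPub} ⊆ ({i} : Set TC) := fun c hc => hc.1
  by_cases h0 : n = 2 * d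
  · subst h0
    obtain ⟨X, Y, h1, h2, h3⟩ := exists_two i.tr
    have := svcUU (x := x) (y := x) (same := False) (i := i) hd h1 le_rfl le_rfl (by grind)
      (by grind) False.elim (by omega)
    rw [geo_leaf X A, geo_leaf Y A] at this
    exact this.mono id le_rfl hs
  obtain ⟨B, C, h1, h2, h3, h4⟩ := exists_other A i.tr
  by_cases hi : i.tr = A ∧ i.dep < n
  · obtain ⟨z, z1, z2⟩ := exists_ext x x n
    have := svcDD (same := False) hd h1 h3 h4 (by omega) le_rfl hn hi z2 False.elim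
    rw [geo_congr A hn z1] at this
    exact this.mono id le_rfl hs
  have hup : i ∉ CS A x 0 n := fun hc => by
    have := mem_CS hc
    grind
  by_cases hi2 : n % 2 = 1 ∧ i = gc A x n
  · refine svcUD hd h1 hn (by omega) hn le_rfl hs h2.symm (fun _ => hup) (fun hc => ?_) (by omega)
      False.elim (by omega)
    have := hc.2
    rw [hi2.2, gc_isPub] at this
    omega
  · obtain ⟨y, y1, y2⟩ := exists_ext x (fun _ => i.bit) n
    have := svcUD (same := False) hd h1 hn (by omega) hn le_rfl hs h2.symm (fun _ => hup)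
      (fun _ => notMem_ext y1 y2 fun a b => hi2 ⟨a, b⟩) (by omega) False.elim (by omega)
    rwa [geo_congr A hn y1] at this

/-- equal or adjacent vertices of the gadget, to be used in different copies -/
theorem cross (hd : 1 ≤ d) {u w : TV} (hu : TVal d u) (h : u = w ∨ ∃ e, (TG d).Step e u w)
    (i : TC) : Svc d u w False {i} {c | c = i ∧ c.IsPub} := by
  have hs : {c | c = i ∧ c.IsPub} ⊆ ({i} : Set TC) := fun c hc => hc.1
  rcases h with rfl | ⟨e, he⟩
  · obtain ⟨A, x, n, hn, rfl⟩ := exists_geo hu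
    exact cross_twin hd A x hn i
  · obtain ⟨A, x, n, hn, ⟨rfl, rfl⟩ | ⟨rfl, rfl⟩⟩ := exists_ge he
    · exact (cross_adj hd A x hn i).mono id le_rfl hs
    · exact (cross_adj hd A x hn i).symm.mono id le_rfl hs

/-- a route to a prescribed root avoiding one colour -/
theorem route (hd : 1 ≤ d) {u : TV} (hu : TVal d u) (Y : Fin 3) (i : TC) :
    ∃ p V C, (TG d).RP u (TV.nd Y []) p V C ∧ p ≤ 8 * d ∧ i ∉ C := by
  obtain ⟨A, x, n, hn, rfl⟩ := exists_geo hu
  by_cases hA : Y = A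
  · subst hA
    by_cases hi : i ∈ CS Y x 0 n
    swap
    · exact ⟨_, _, _, routeU hd Y x hn, by omega, hi⟩
    obtain ⟨B, -, hB, -⟩ := exists_other Y Y
    have hi' := mem_CS hi
    have hQ := (routeD hd hB.symm (fun j => !x j) (Nat.zero_le (2 * d))).cast (geo_zero hd _ _)
      rfl rfl
    refine ⟨_, _, _, (routeD hd hB x hn).append hQ ?_ ?_, by omega, ?_⟩
    · rintro v (⟨a, a1, a2, rfl⟩ | ⟨a, a1, a2, rfl⟩) (⟨b, b1, b2, h⟩ | ⟨b, b1, b2, h⟩) <;>
      · obtain ⟨c1, c2, c3⟩ := (geo_eq_iff a2 b2).1 h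
        by_cases h0 : a = 0
        · first
            | exact h0 ▸ geo_zero hd _ _
            | (exfalso; grind)
        · exact absurd (c3 0 (by omega)) (by simp)
    · rw [Set.disjoint_left]
      rintro v (⟨a, a1, a2, rfl⟩ | ⟨a, a1, a2, rfl⟩) (⟨b, b1, b2, h⟩ | ⟨b, b1, b2, h⟩) <;>
        exact absurd (gc_eq_iff.1 h).2.2.1 (by simp)
    · rintro ((hc | hc) | (hc | hc)) <;>
      · have := mem_CS hc
        grind
  · by_cases hi : i ∈ CS A x n (2 * d) ∪ CS Y x 0 (2 * d)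
    swap
    · exact ⟨_, _, _, routeD hd hA x hn, by omega, hi⟩
    refine ⟨_, _, _, routeA hd hA x (fun j => !x j) hn (Nat.zero_le n) rfl (by omega)
      (fun j _ _ => by simp), by omega, ?_⟩
    rcases hi with hi | hi <;> rintro (hc | hc | hc) <;>
    · have := mem_CS hc
      have := mem_CS hi
      grind

end LTree3

section LKer1
variable {d r t s : ℕ}

/-- vertices of a piece of an option -/
def LKer1_PV (c : Ch) (g : Fin 3) (o : Fin 5) (a b : ℕ) : Set GV :=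
  {v | ∃ k, a ≤ k ∧ k ≤ b ∧ v = pos c g o k}

/-- colours of a piece of an option -/
def LKer1_PC (c : Ch) (g : Fin 3) (o : Fin 5) (a b : ℕ) : Set GC :=
  {x | ∃ k, a ≤ k ∧ k < b ∧ x = ccol c g o k}

lemma LKer1_g0 (m : ℕ) : glen m 0 = m / 3 := by simp [glen]

lemma LKer1_g1 (m : ℕ) : glen m 1 = m - 2 * (m / 3) := by simp [glen]

lemma LKer1_g2 (m : ℕ) : glen m 2 = m / 3 := by simp [glen]

lemma LKer1_glen {c : Ch} (hc : allowed d r c) (g : Fin 3) : 2 ≤ glen c.m g := by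
  have := hc.2.2.2.1
  unfold glen
  split_ifs <;> omega

lemma LKer1_pos0 (c : Ch) (g : Fin 3) (o : Fin 5) : pos c g o 0 = lend c g := by simp [pos]

lemma LKer1_posL {c : Ch} (hc : allowed d r c) (g : Fin 3) (o : Fin 5) :
    pos c g o (glen c.m g) = rend c g := by
  have := LKer1_glen hc g
  have h0 : glen c.m g ≠ 0 := by omega
  simp [pos, h0]

lemma LKer1_posM {c : Ch} {g : Fin 3} (o : Fin 5) {k : ℕ} (h1 : 1 ≤ k) (h2 : k < glen c.m g) :
    pos c g o k = GV.op c g o k := by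
  have h3 : k ≠ 0 := by omega
  simp [pos, h3, h2.ne]

lemma LKer1_pos_eq {c : Ch} (hc : allowed d r c) {g g' : Fin 3} {o o' : Fin 5} {k k' : ℕ}
    (h : pos c g o k = pos c g' o' k') :
    (g = g' ∧ k = k' ∧ (o = o' ∨ k = 0 ∨ k = glen c.m g)) ∨
      (g.val + 1 = g'.val ∧ k = glen c.m g ∧ k' = 0) ∨
      (g'.val + 1 = g.val ∧ k = 0 ∧ k' = glen c.m g') := by
  have h1 := hc.2.2.1
  have h2 := h1.symm
  unfold pos at h
  split_ifs at h with a b e b e b e
  all_goals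
    first
    | (simp only [GV.op.injEq, true_and] at h
       exact Or.inl ⟨h.1, h.2.2, Or.inl h.2.1⟩)
    | (fin_cases g <;> fin_cases g' <;> simp_all [lend, rend])

lemma LKer1_col_eq {c : Ch} {g g' : Fin 3} {o o' : Fin 5} {k k' : ℕ}
    (h : ccol c g o k = ccol c g' o' k') :
    o = o' ∧ ((g = g' ∧ k = k') ∨ (((g = 0 ∧ k + 1 = glen c.m g) ∨ (g ≠ 0 ∧ k = 0)) ∧
      ((g' = 0 ∧ k' + 1 = glen c.m g') ∨ (g' ≠ 0 ∧ k' = 0)))) := by
  unfold ccol at h
  split_ifs at h with a b b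
  · exact ⟨GC.sp.inj h, Or.inr ⟨a, b⟩⟩
  · simp only [GC.cp.injEq, true_and] at h
    exact ⟨h.2.1, Or.inl ⟨h.1, h.2.2⟩⟩

lemma LKer1_seg {c : Ch} (hc : allowed d r c) (g : Fin 3) (o : Fin 5) {a b : ℕ} (hab : a ≤ b)
    (hb : b ≤ glen c.m g) :
    (GG d r t s).RP (pos c g o a) (pos c g o b) (b - a) (LKer1_PV c g o a b)
      (LKer1_PC c g o a b) := by
  refine ⟨fun k => pos c g o (a + k), fun k => GE.ce c g o (a + k), rfl, ?_, ?_, ?_, ?_, ?_, ?_⟩
  · simp only [Nat.add_sub_cancel' hab]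
  · intro k hk
    exact ⟨⟨hc, by omega⟩, Or.inl ⟨rfl, rfl⟩⟩
  · intro k hk l hl e
    have := LKer1_pos_eq hc e
    omega
  · intro k hk l hl e
    have := (LKer1_col_eq (c := c) (g := g) (o := o) (k := a + k) e).2
    omega
  · intro k hk
    exact ⟨a + k, by omega, by omega, rfl⟩
  · intro k hk
    exact ⟨a + k, by omega, by omega, rfl⟩

lemma LKer1_full {c : Ch} (hc : allowed d r c) (g : Fin 3) (o : Fin 5) :
    (GG d r t s).RP (lend c g) (rend c g) (glen c.m g) (LKer1_PV c g o 0 (glen c.m g))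
      (LKer1_PC c g o 0 (glen c.m g)) :=
  (LKer1_seg hc g o (Nat.zero_le _) le_rfl).cast (LKer1_pos0 c g o) (LKer1_posL hc g o) rfl

lemma LKer1_left {c : Ch} (hc : allowed d r c) {g : Fin 3} (o : Fin 5) {k : ℕ} (h1 : 1 ≤ k)
    (h2 : k < glen c.m g) :
    (GG d r t s).RP (GV.op c g o k) (lend c g) k (LKer1_PV c g o 0 k) (LKer1_PC c g o 0 k) :=
  (LKer1_seg hc g o (Nat.zero_le _) h2.le).symm.cast (LKer1_posM o h1 h2) (LKer1_pos0 c g o) rfl

lemma LKer1_right {c : Ch} (hc : allowed d r c) {g : Fin 3} (o : Fin 5) {k : ℕ} (h1 : 1 ≤ k)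
    (h2 : k < glen c.m g) :
    (GG d r t s).RP (GV.op c g o k) (rend c g) (glen c.m g - k) (LKer1_PV c g o k (glen c.m g))
      (LKer1_PC c g o k (glen c.m g)) :=
  (LKer1_seg hc g o h2.le le_rfl).cast (LKer1_posM o h1 h2) (LKer1_posL hc g o) rfl

lemma LKer1_in (c : Ch) (g : Fin 3) (o : Fin 5) (k : ℕ) :
    inCh c (pos c g o k) ∨ (g = 0 ∧ k = 0 ∧ pos c g o k = GV.hub c.h) ∨
      (g = 2 ∧ k = glen c.m g ∧ pos c g o k = GV.hub c.h') := by
  unfold pos
  split_ifs with a b <;> fin_cases g <;> simp_all [lend, rend, inCh]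

lemma LKer1_subL {c : Ch} {g : Fin 3} (o : Fin 5) {a b : ℕ} (h : g ≠ 2 ∨ b < glen c.m g) :
    LKer1_PV c g o a b ⊆ {v | inCh c v} ∪ {GV.hub c.h} := by
  rintro _ ⟨k, h1, h2, rfl⟩
  rcases LKer1_in c g o k with e | e | e
  · exact Or.inl e
  · exact Or.inr e.2.2
  · omega

lemma LKer1_subR {c : Ch} {g : Fin 3} (o : Fin 5) {a b : ℕ} (h : g ≠ 0 ∨ 1 ≤ a) :
    LKer1_PV c g o a b ⊆ {v | inCh c v} ∪ {GV.hub c.h'} := by
  rintro _ ⟨k, h1, h2, rfl⟩
  rcases LKer1_in c g o k with e | e | e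
  · exact Or.inl e
  · omega
  · exact Or.inr e.2.2

lemma LKer1_colS {c : Ch} {g : Fin 3} {o : Fin 5} {a b : ℕ} {S : Set (Fin 5)}
    (h : o ∈ S ∨ (g = 0 ∧ b < glen c.m g) ∨ (g ≠ 0 ∧ 1 ≤ a)) :
    LKer1_PC c g o a b ⊆ chCol c S := by
  rintro _ ⟨k, h1, h2, rfl⟩
  unfold ccol
  split_ifs with e
  · refine Or.inr ⟨o, h.resolve_right ?_, rfl⟩
    omega
  · exact Or.inl ⟨g, o, k, rfl⟩

lemma LKer1_disj (c : Ch) (g g' : Fin 3) {o o' : Fin 5} (h : o ≠ o') (a b a' b' : ℕ) :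
    Disjoint (LKer1_PC c g o a b) (LKer1_PC c g' o' a' b') := by
  rw [Set.disjoint_left]
  rintro _ ⟨k, -, -, rfl⟩ ⟨k', -, -, e⟩
  exact h (LKer1_col_eq e).1

lemma LKer1_next {c : Ch} (hc : allowed d r c) {g g' : Fin 3} (h : g.val + 1 = g'.val)
    (o o' : Fin 5) (a b a' b' : ℕ) :
    ∀ v ∈ LKer1_PV c g o a b, v ∈ LKer1_PV c g' o' a' b' → v = rend c g := by
  rintro _ ⟨k, -, -, rfl⟩ ⟨k', -, -, e⟩
  have := LKer1_pos_eq hc e
  obtain rfl : k = glen c.m g := by omega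
  exact LKer1_posL hc g o

lemma LKer1_avoid (c : Ch) (i : GC) (o : Fin 5) :
    ∃ o', o ≠ o' ∧ ∀ g a b, i ∉ LKer1_PC c g o' a b := by
  have key : ∀ x y : Fin 5, ∃ z, x ≠ z ∧ y ≠ z := by decide
  by_cases h : ∃ g o₁ k, i = ccol c g o₁ k
  · obtain ⟨g, o₁, k, rfl⟩ := h
    obtain ⟨z, h1, h2⟩ := key o o₁
    refine ⟨z, h1, ?_⟩
    rintro g' a b ⟨k', -, -, e⟩
    exact h2 (LKer1_col_eq e).1
  · obtain ⟨z, h1, -⟩ := key o o
    refine ⟨z, h1, ?_⟩
    rintro g' a b ⟨k', -, -, e⟩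
    exact h ⟨_, _, _, e⟩

lemma LKer1_spec (i : GC) (o : Fin 5) :
    ∃ S : Finset (Fin 5), S.card ≤ 2 ∧ (∀ o', i = GC.sp o' → o' ∈ S) ∧ o ∈ (↑S : Set (Fin 5)) := by
  by_cases h : ∃ o₁, i = GC.sp o₁
  · obtain ⟨o₁, rfl⟩ := h
    refine ⟨{o, o₁}, Finset.card_le_two, fun o' e => ?_, by simp⟩
    simp [GC.sp.inj e]
  · exact ⟨{o}, by simp, fun o' e => absurd ⟨o', e⟩ h, by simp⟩

theorem trav {c : Ch} (hc : allowed d r c) (S : Finset (Fin 5)) (hS : S.card ≤ 2) :
    (GG d r t s).RP (GV.hub c.h) (GV.hub c.h') c.m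
      ({v | inCh c v} ∪ {GV.hub c.h, GV.hub c.h'}) (chCol c (↑S : Set (Fin 5))ᶜ) := by
  have h3 : 2 < Sᶜ.card := by
    rw [Finset.card_compl, Fintype.card_fin]
    omega
  obtain ⟨x, hx, y, hy, z, hz, hxy, hxz, hyz⟩ := Finset.two_lt_card.1 h3
  have p01 := (LKer1_full (t := t) (s := s) hc 0 x).append (LKer1_full hc 1 y)
    (LKer1_next hc rfl x y _ _ _ _) (LKer1_disj c 0 1 hxy _ _ _ _)
  have p := p01.append (LKer1_full hc 2 z) ?_
    (Set.disjoint_union_left.2 ⟨LKer1_disj c 0 2 hxz _ _ _ _, LKer1_disj c 1 2 hyz _ _ _ _⟩)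
  · refine (p.mono ?_ ?_).cast rfl rfl ?_
    · have hL : ({v | inCh c v} ∪ {GV.hub c.h} : Set GV) ⊆
          {v | inCh c v} ∪ {GV.hub c.h, GV.hub c.h'} :=
        Set.union_subset_union_right _ (by simp)
      have hR : ({v | inCh c v} ∪ {GV.hub c.h'} : Set GV) ⊆
          {v | inCh c v} ∪ {GV.hub c.h, GV.hub c.h'} :=
        Set.union_subset_union_right _ (by simp)
      exact Set.union_subset (Set.union_subset ((LKer1_subL x (Or.inl (by decide))).trans hL)
        ((LKer1_subL y (Or.inl (by decide))).trans hL))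
        ((LKer1_subR z (Or.inl (by decide))).trans hR)
    · exact Set.union_subset (Set.union_subset (LKer1_colS (Or.inl (by simpa using hx)))
        (LKer1_colS (Or.inl (by simpa using hy)))) (LKer1_colS (Or.inl (by simpa using hz)))
    · rw [LKer1_g0, LKer1_g1, LKer1_g2]
      omega
  · rintro v (hv | hv) hv'
    · obtain ⟨k, -, -, rfl⟩ := hv
      obtain ⟨k', -, -, e⟩ := hv'
      have := LKer1_pos_eq hc e
      simp at this
    · exact LKer1_next hc rfl y z _ _ _ _ v hv hv'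

theorem esc {c : Ch} {z : GV} (hz : GVal d r t s z) (hin : inCh c z) (i : GC) :
    ∃ (h : Hub) (b : ℕ) (S : Finset (Fin 5)) (T : Set GC), (h = c.h ∨ h = c.h') ∧ 1 ≤ b ∧
      b ≤ c.m - c.m / 3 ∧ S.card ≤ 2 ∧ (∀ o, i = GC.sp o → o ∈ S) ∧
      T ⊆ chCol c (↑S : Set (Fin 5)) ∧ i ∉ T ∧
      (GG d r t s).RP z (GV.hub h) b ({v | inCh c v} ∪ {GV.hub h}) T := by
  have g0 := LKer1_g0 c.m
  have g1 := LKer1_g1 c.m
  have g2 := LKer1_g2 c.m
  cases z with
  | gad a v => exact hin.elim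
  | lone a => exact hin.elim
  | hub h => exact hin.elim
  | ze c' j =>
    obtain rfl : c' = c := hin
    have hc : allowed d r c' := hz
    have h6 := hc.2.2.2.1
    obtain ⟨o', -, ho'⟩ := LKer1_avoid c' i 0
    obtain ⟨S, hS, hi, hoS⟩ := LKer1_spec i o'
    cases j with
    | false =>
      exact ⟨c'.h, glen c'.m 0, S, _, Or.inl rfl, by omega, by omega, hS, hi,
        LKer1_colS (Or.inl hoS), ho' _ _ _,
        (LKer1_full hc 0 o').symm.mono (LKer1_subL o' (Or.inl (by decide))) subset_rfl⟩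
    | true =>
      exact ⟨c'.h', glen c'.m 2, S, _, Or.inr rfl, by omega, by omega, hS, hi,
        LKer1_colS (Or.inl hoS), ho' _ _ _,
        (LKer1_full hc 2 o').mono (LKer1_subR o' (Or.inl (by decide))) subset_rfl⟩
  | op c' g o k =>
    obtain rfl : c' = c := hin
    obtain ⟨hc, k1, k2⟩ := hz
    have h6 := hc.2.2.2.1
    obtain ⟨o', hne, ho'⟩ := LKer1_avoid c' i o
    obtain ⟨S, hS, hi, hoS⟩ := LKer1_spec i o'
    have hS2 : ({o, o'} : Finset (Fin 5)).card ≤ 2 := Finset.card_le_two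
    have hm : o ∈ (↑({o, o'} : Finset (Fin 5)) : Set (Fin 5)) := by simp
    have hm' : o' ∈ (↑({o, o'} : Finset (Fin 5)) : Set (Fin 5)) := by simp
    have hsp : ∀ a b, i ∈ LKer1_PC c' g o a b → ∀ x, i = GC.sp x →
        x ∈ ({o, o'} : Finset (Fin 5)) := by
      rintro a b ⟨j, -, -, e⟩ x rfl
      unfold ccol at e
      split_ifs at e
      simp [GC.sp.inj e]
    have hlr : i ∈ LKer1_PC c' g o 0 k → i ∈ LKer1_PC c' g o k (glen c'.m g) → False := by
      rintro ⟨j, -, j2, rfl⟩ ⟨j', j3, j4, e⟩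
      have := (LKer1_col_eq e).2
      omega
    have hg : g = 0 ∨ g = 1 ∨ g = 2 := by omega
    rcases hg with rfl | rfl | rfl
    · by_cases h : i ∈ LKer1_PC c' 0 o 0 k
      · refine ⟨c'.h, _, {o, o'}, _, Or.inl rfl, ?_, ?_, hS2, hsp _ _ h,
          Set.union_subset (LKer1_colS (Or.inl hm)) (LKer1_colS (Or.inl hm')),
          fun e => e.elim (hlr h) (ho' _ _ _),
          ((LKer1_right hc o k1 k2).append (LKer1_full hc 0 o').symm ?_
            (LKer1_disj c' 0 0 hne _ _ _ _)).mono (Set.union_subset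
              (LKer1_subL o (Or.inl (by decide))) (LKer1_subL o' (Or.inl (by decide))))
            subset_rfl⟩
        · omega
        · omega
        · rintro _ ⟨j, j1, -, rfl⟩ ⟨j', -, -, e⟩
          have := LKer1_pos_eq hc e
          obtain rfl : j = glen c'.m 0 := by omega
          exact LKer1_posL hc 0 o
      · exact ⟨c'.h, k, S, _, Or.inl rfl, k1, by omega, hS, hi,
          LKer1_colS (Or.inr (Or.inl ⟨rfl, k2⟩)), h,
          (LKer1_left hc o k1 k2).mono (LKer1_subL o (Or.inl (by decide))) subset_rfl⟩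
    · by_cases h : i ∈ LKer1_PC c' 1 o k (glen c'.m 1)
      · refine ⟨c'.h, _, {o, o'}, _, Or.inl rfl, ?_, ?_, hS2, hsp _ _ h,
          Set.union_subset (LKer1_colS (Or.inl hm)) (LKer1_colS (Or.inl hm')),
          fun e => e.elim (fun e' => hlr e' h) (ho' _ _ _),
          ((LKer1_left hc o k1 k2).append (LKer1_full hc 0 o').symm
            (fun v hv hv' => LKer1_next hc rfl o' o _ _ _ _ v hv' hv)
            (LKer1_disj c' 1 0 hne _ _ _ _)).mono (Set.union_subset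
              (LKer1_subL o (Or.inl (by decide))) (LKer1_subL o' (Or.inl (by decide))))
            subset_rfl⟩
        · omega
        · omega
      · refine ⟨c'.h', _, S, _, Or.inr rfl, ?_, ?_, hS, hi,
          Set.union_subset (LKer1_colS (Or.inr (Or.inr ⟨by decide, k1⟩)))
            (LKer1_colS (Or.inl hoS)),
          fun e => e.elim h (ho' _ _ _),
          ((LKer1_right hc o k1 k2).append (LKer1_full hc 2 o')
            (LKer1_next hc rfl o o' _ _ _ _)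
            (LKer1_disj c' 1 2 hne _ _ _ _)).mono (Set.union_subset
              (LKer1_subR o (Or.inl (by decide))) (LKer1_subR o' (Or.inl (by decide))))
            subset_rfl⟩
        · omega
        · omega
    · by_cases h : i ∈ LKer1_PC c' 2 o k (glen c'.m 2)
      · refine ⟨c'.h', _, {o, o'}, _, Or.inr rfl, ?_, ?_, hS2, hsp _ _ h,
          Set.union_subset (LKer1_colS (Or.inl hm)) (LKer1_colS (Or.inl hm')),
          fun e => e.elim (fun e' => hlr e' h) (ho' _ _ _),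
          ((LKer1_left hc o k1 k2).append (LKer1_full hc 2 o') ?_
            (LKer1_disj c' 2 2 hne _ _ _ _)).mono (Set.union_subset
              (LKer1_subR o (Or.inl (by decide))) (LKer1_subR o' (Or.inl (by decide))))
            subset_rfl⟩
        · omega
        · omega
        · rintro _ ⟨j, -, j1, rfl⟩ ⟨j', -, -, e⟩
          have := LKer1_pos_eq hc e
          obtain rfl : j = 0 := by omega
          exact LKer1_pos0 c' 2 o
      · exact ⟨c'.h', _, S, _, Or.inr rfl, by omega, by omega, hS, hi,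
          LKer1_colS (Or.inr (Or.inr ⟨by decide, k1⟩)), h,
          (LKer1_right hc o k1 k2).mono (LKer1_subR o (Or.inl (by decide))) subset_rfl⟩

end LKer1

section LKer2
variable {d r t s : ℕ}

lemma tcol_inj (a : ℕ) : Function.Injective (tcol a) := by
  intro x y h
  cases x <;> cases y <;> simp_all [tcol]

lemma labcol_inj : Function.Injective labcol := by
  rintro (x | ⟨W, j, b⟩) (y | ⟨W', j', b'⟩) h <;> simp_all [labcol]

lemma emb {a : ℕ} (ha : a < t) {u w : TV} {n : ℕ} {V : Set TV} {C : Set TC}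
    (h : (TG d).RP u w n V C) :
    (GG d r t s).RP (GV.gad a u) (GV.gad a w) n (GV.gad a '' V) (tcol a '' C) := by
  refine h.map (GV.gad a) (GE.leg a) (tcol a) (fun x y hxy => by simpa using hxy) (tcol_inj a)
    ?_ fun e => rfl
  rintro e x y ⟨h1, h2⟩
  refine ⟨⟨ha, h1⟩, ?_⟩
  rcases h2 with ⟨rfl, rfl⟩ | ⟨rfl, rfl⟩
  · exact Or.inl ⟨rfl, rfl⟩
  · exact Or.inr ⟨rfl, rfl⟩

lemma ex_step {a : ℕ} (ha : a < t) {h : Hub} (hh : hubOK d h) :
    (GG d r t s).Step (GE.ex a h) (GV.gad a (TV.nd h.1 [])) (GV.hub h) :=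
  ⟨⟨ha, hh⟩, Or.inl ⟨rfl, rfl⟩⟩

lemma ex_RP {a : ℕ} (ha : a < t) {h : Hub} (hh : hubOK d h) :
    (GG d r t s).RP (GV.gad a (TV.nd h.1 [])) (GV.hub h) 1 {GV.gad a (TV.nd h.1 []), GV.hub h}
      {labcol h.2} :=
  IG.RP.single (ex_step ha hh) (by simp)

/-- version of the chain carrying a private chain colour -/
def iver : GC → Fin 3
  | GC.cp c _ _ _ => c.v
  | _ => 0

lemma exists_spec (i : GC) : ∃ S : Finset (Fin 5), S.card ≤ 1 ∧ ∀ o, i = GC.sp o → o ∈ S := by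
  by_cases h : ∃ o, i = GC.sp o
  · obtain ⟨o, rfl⟩ := h
    exact ⟨{o}, by simp, by simp⟩
  · exact ⟨∅, by simp, fun o ho => absurd ⟨o, ho⟩ h⟩

lemma notMem_chCol {c : Ch} {S : Finset (Fin 5)} {i : GC} (hv : c.v ≠ iver i)
    (hS : ∀ o, i = GC.sp o → o ∈ S) : i ∉ chCol c (↑S : Set (Fin 5))ᶜ := by
  rintro (⟨g, o, k, rfl⟩ | ⟨o, ho, rfl⟩)
  · exact hv rfl
  · exact ho (hS o rfl)

lemma exists_plain (i : GC) : ∃ a b : Fin 3, a ≠ b ∧ GC.pl a ≠ i ∧ GC.pl b ≠ i := by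
  by_cases h : ∃ o, i = GC.pl o
  · obtain ⟨o, rfl⟩ := h
    obtain ⟨X, Y, h1, h2, h3⟩ := exists_two o
    exact ⟨X, Y, h1, by simpa, by simpa⟩
  · exact ⟨0, 1, by decide, fun e => h ⟨_, e.symm⟩, fun e => h ⟨_, e.symm⟩⟩

/-- label from an optional public label -/
def lab (f : Option PL) (a : Fin 3) : Lab :=
  match f with
  | none => Sum.inl a
  | some x => Sum.inr x

lemma labopt_lab (f : Option PL) (a : Fin 3) : labopt (lab f a) = f := by
  cases f <;> rfl

lemma labcol_lab {f : Option PL} {a : Fin 3} {S : Set TC} (h : LabOK d f S) :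
    labcol (lab f a) = GC.pl a ∨ ∃ W j b, labcol (lab f a) = GC.pub W j b ∧ TC.pub W j b ∉ S := by
  rcases f with _ | ⟨W, j, b⟩
  · exact Or.inl rfl
  · exact Or.inr ⟨W, j, b, rfl, (h W j b rfl).2⟩

lemma hubOK_lab {f : Option PL} {a X : Fin 3} {S : Set TC} (h : LabOK d f S) :
    hubOK d (X, lab f a) := by
  rcases f with _ | ⟨W, j, b⟩
  · intro W j b e
    simp [lab] at e
  · intro W' j' b' e
    simp only [lab, Sum.inr.injEq, Prod.mk.injEq] at e
    exact e.2.1 ▸ (h W j b rfl).1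

lemma labcol_notMem_chCol (l : Lab) (c : Ch) (S : Set (Fin 5)) : labcol l ∉ chCol c S := by
  rcases l with x | ⟨W, j, b⟩ <;> simp [labcol, chCol]

lemma tcol_notMem_chCol (a : ℕ) (x : TC) (c : Ch) (S : Set (Fin 5)) : tcol a x ∉ chCol c S := by
  cases x <;> simp [tcol, chCol]

lemma tcol_eq_pub {a : ℕ} {x : TC} {W : Fin 3} {j : ℕ} {b : Bool} (h : tcol a x = GC.pub W j b) :
    x = TC.pub W j b := by
  cases x <;> simp_all [tcol]

lemma tcol_ne_pl (a : ℕ) (x : TC) (b : Fin 3) : tcol a x ≠ GC.pl b := by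
  cases x <;> simp [tcol]

/-- from a hub through a chain and an exit edge to a vertex of a copy -/
lemma hub_to {c : Ch} (hc : allowed d r c) {S : Finset (Fin 5)} (hS : S.card ≤ 2) {b : ℕ}
    (hb : b < t) {w : TV} {q : ℕ} {V : Set TV} {C : Set TC}
    (hQ : (TG d).RP w (TV.nd c.h'.1 []) q V C) (hl : ∀ x ∈ C, tcol b x ≠ labcol c.h'.2) :
    (GG d r t s).RP (GV.hub c.h) (GV.gad b w) (c.m + (1 + q))
      (({v | inCh c v} ∪ {GV.hub c.h, GV.hub c.h'}) ∪ GV.gad b '' V)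
      (chCol c (↑S : Set (Fin 5))ᶜ ∪ ({labcol c.h'.2} ∪ tcol b '' C)) := by
  have h1 := (ex_RP (r := r) (s := s) hb hc.2.1).symm.append (emb hb hQ).symm (by
    rintro v (rfl | rfl) ⟨x, -, hx⟩
    · rfl
    · simp at hx) (by
    rw [Set.disjoint_left]
    rintro v rfl ⟨x, hx, e⟩
    exact hl x hx e)
  refine ((trav hc S hS).append h1 ?_ ?_).mono ?_ le_rfl
  · rintro v hv ((rfl | rfl) | ⟨x, -, rfl⟩)
    · simp [inCh] at hv
    · rfl
    · simp [inCh] at hv
  · rw [Set.disjoint_right]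
    rintro v (rfl | ⟨x, -, rfl⟩)
    · exact labcol_notMem_chCol _ _ _
    · exact tcol_notMem_chCol _ _ _ _
  · rintro v (hv | (rfl | rfl) | hv)
    · exact Or.inl hv
    · exact Or.inr ⟨_, hQ.right_mem, rfl⟩
    · simp
    · exact Or.inr hv

lemma gadpair (hr : 24 * d + 18 ≤ r) {a b : ℕ} (ha : a < t) (hb : b < t) {u w : TV} {same : Prop}
    {bu bw : Set TC} (h : Svc d u w same bu bw) (hsame : a = b → same) (i : GC)
    (h1 : ∀ c, tcol a c = i → c ∈ bu) (h2 : ∀ c, tcol b c = i → c ∈ bw) :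
    ∃ VS CS, (GG d r t s).RP (GV.gad a u) (GV.gad b w) (r - 1) VS CS ∧ i ∉ CS := by
  obtain ⟨X, Y, p, q, V₁, V₂, C₁, C₂, f, g, hP, hQ, hpq, hs, hpub, d1, d2, hf, hg, hfg, hsafe⟩ := h
  obtain ⟨a0, b0, hab, ha0, hb0⟩ := exists_plain i
  obtain ⟨S, hS, hSi⟩ := exists_spec i
  obtain ⟨v, -, -, hv0, -⟩ := exists_two (iver i)
  have hlab : lab f a0 ≠ lab g b0 := by
    intro e
    have e1 : f = g := by rw [← labopt_lab f a0, e, labopt_lab]
    have e2 := hfg e1
    subst e1 e2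
    simp [lab, hab] at e
  have hc : allowed d r ⟨(X, lab f a0), (Y, lab g b0), r - 3 - p - q, v⟩ := by
    refine ⟨hubOK_lab hf, hubOK_lab hg, fun e => hlab (Prod.ext_iff.1 e).2, by simp only; omega,
      by simp only; omega, ?_⟩
    simp only [labopt_lab]
    have e : r - (r - 3 - p - q) - 2 = p + q + 1 := by omega
    rwa [e]
  have key : ∀ {f : Option PL} {a0 : Fin 3}, LabOK d f (C₁ ∪ C₂ ∪ bu ∪ bw) → GC.pl a0 ≠ i →
      (∀ n, ∀ x ∈ C₁ ∪ C₂, tcol n x ≠ labcol (lab f a0)) ∧ labcol (lab f a0) ≠ i := by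
    intro f a0 hf ha0
    rcases labcol_lab (a := a0) hf with e | ⟨W, j, b', e, hn⟩ <;> rw [e]
    · exact ⟨fun n x _ => tcol_ne_pl _ _ _, ha0⟩
    · refine ⟨fun n x hx e' => hn ?_, fun e' => hn ?_⟩
      · exact Or.inl (Or.inl (tcol_eq_pub e' ▸ hx))
      · exact Or.inl (Or.inr (h1 _ e'))
  obtain ⟨kf1, kf2⟩ := key hf ha0
  obtain ⟨kg1, kg2⟩ := key hg hb0
  have R2 := hub_to (s := s) hc (hS.trans (by omega)) hb hQ fun x hx => kg1 _ x (Or.inr hx)
  have R1 := (emb (r := r) (s := s) ha hP).append (ex_RP ha hc.1) (by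
    rintro v ⟨x, -, hx⟩ (rfl | rfl)
    · rfl
    · simp at hx) (by
    rw [Set.disjoint_left]
    rintro v ⟨x, hx, rfl⟩ e
    exact kf1 _ x (Or.inl hx) e)
  refine ⟨_, _, (R1.append R2 ?_ ?_).cast rfl rfl (by simp only; omega), ?_⟩
  · have aux : ∀ x ∈ V₁, GV.gad a x ∉ ({v' | inCh ⟨(X, lab f a0), (Y, lab g b0), r - 3 - p - q, v⟩ v'}
        ∪ {GV.hub (X, lab f a0), GV.hub (Y, lab g b0)}) ∪ GV.gad b '' V₂ := by
      rintro x hx (hv | ⟨y, hy, e⟩)
      · simp [inCh] at hv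
      · simp only [GV.gad.injEq] at e
        exact Set.disjoint_left.1 (hs (hsame e.1.symm)).1 hx (e.2 ▸ hy)
    rintro v (⟨x, hx, rfl⟩ | rfl | rfl) hv
    · exact absurd hv (aux x hx)
    · exact absurd hv (aux _ hP.right_mem)
    · rfl
  · rw [Set.disjoint_left]
    rintro v (⟨x, hx, rfl⟩ | rfl) (hv | hv | ⟨y, hy, e⟩)
    · exact tcol_notMem_chCol _ _ _ _ hv
    · exact kg1 _ x (Or.inl hx) hv
    · cases x with
      | pub W j b' => exact hpub W j b' hx (tcol_eq_pub e ▸ hy)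
      | prv W l b' =>
        have e1 : b = a := by
          cases y <;> simp_all [tcol]
        subst e1
        exact Set.disjoint_left.1 (hs (hsame rfl)).2 hx (tcol_inj _ e ▸ hy)
    · exact labcol_notMem_chCol _ _ _ hv
    · exact hlab (labcol_inj hv)
    · exact kf1 _ y (Or.inr hy) e
  · rintro ((⟨x, hx, e⟩ | e) | hv | e | ⟨y, hy, e⟩)
    · exact Set.disjoint_left.1 d1 hx (h1 x e)
    · exact kf2 e.symm
    · exact notMem_chCol hv0 hSi hv
    · exact kg2 e.symm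
    · exact Set.disjoint_left.1 d2 hy (h2 y e)

/-- the gadget colour behind a colour -/
def untag : GC → TC
  | GC.pub W j b => TC.pub W j b
  | GC.prv _ W l b => TC.prv W l b
  | _ => TC.pub 0 0 true

lemma untag_tcol (a : ℕ) (x : TC) : untag (tcol a x) = x := by
  cases x <;> rfl

lemma kerpair (hd : 1 ≤ d) (hr : 24 * d + 18 ≤ r) {a : ℕ} (ha : a < t) {u : TV} (hu : TVal d u)
    {z : GV} {h : Hub} (hh : hubOK d h) {b : ℕ} (hb : b ≤ r - 3 - (r - 3) / 3) {v0 : Fin 3}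
    {VZ : Set GV} {T : Set GC} (hz : (GG d r t s).RP z (GV.hub h) b VZ T)
    (hVZ : ∀ v ∈ VZ, (∀ a u, v ≠ GV.gad a u) ∧ (∀ h', v = GV.hub h' → h' = h) ∧
      ∀ c, inCh c v → c.v = v0) {S : Finset (Fin 5)} (hS : S.card ≤ 2) {i : GC}
    (hSi : ∀ o, i = GC.sp o → o ∈ S) (hi : i ∉ T)
    (hT : ∀ x ∈ T, (∃ c g o k, x = GC.cp c g o k ∧ c.v = v0) ∨ (∃ o ∈ S, x = GC.sp o) ∨
      ∃ a0, h.2 = Sum.inl a0 ∧ x = GC.pl a0)
    (hb0 : b = 0 → u ≠ TV.nd h.1 []) :
    ∃ VS CS, (GG d r t s).RP z (GV.gad a u) (r - 1) VS CS ∧ i ∉ CS := by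
  obtain ⟨p, V, C, hP, hp, hiC⟩ := route hd hu h.1 (untag i)
  obtain ⟨b0, hb1, hb2⟩ : ∃ b0 : Fin 3, Sum.inl b0 ≠ h.2 ∧ GC.pl b0 ≠ i := by
    obtain ⟨a0, b0, hab, ha0, hb0⟩ := exists_plain i
    by_cases e : Sum.inl a0 = h.2
    · exact ⟨b0, fun e' => hab (Sum.inl.inj (e.trans e'.symm)), hb0⟩
    · exact ⟨a0, e, ha0⟩
  obtain ⟨v, -, hv1, hv2, -⟩ := exists_other v0 (iver i)
  have hbp : 1 ≤ b + p := by
    by_contra hc
    obtain rfl : p = 0 := by omega
    exact hb0 (by omega) hP.eq_of_zero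
  have hc : allowed d r ⟨h, (h.1, Sum.inl b0), r - 2 - b - p, v⟩ :=
    ⟨hh, fun W j b e => by simp at e, fun e => hb1 (Prod.ext_iff.1 e).2.symm,
      by simp only; omega, by simp only; omega, Or.inl rfl⟩
  have R2 := hub_to (s := s) hc hS ha hP fun x _ => tcol_ne_pl _ _ _
  refine ⟨_, _, (hz.append R2 ?_ ?_).cast rfl rfl (by simp only; omega), ?_⟩
  · rintro w hw ((hv | rfl | rfl) | ⟨y, -, rfl⟩)
    · exact absurd ((hVZ w hw).2.2 _ hv) hv1
    · rfl
    · exact congrArg _ ((hVZ _ hw).2.1 _ rfl)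
    · exact absurd rfl ((hVZ _ hw).1 a y)
  · rw [Set.disjoint_left]
    intro x hx hx'
    rcases hT x hx with ⟨c, g, o, k, rfl, e⟩ | ⟨o, ho, rfl⟩ | ⟨a0, e, rfl⟩ <;>
      rcases hx' with (⟨g', o', k', e'⟩ | ⟨o', ho', e'⟩) | e' | ⟨y, -, e'⟩
    · simp only [GC.cp.injEq] at e'
      exact hv1 (by rw [← e, e'.1])
    · simp at e'
    · simp [labcol] at e'
    · cases y <;> simp [tcol] at e'
    · simp at e'
    · simp only [GC.sp.injEq] at e'
      exact ho' (e' ▸ ho)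
    · simp [labcol] at e'
    · cases y <;> simp [tcol] at e'
    · simp at e'
    · simp at e'
    · simp only [labcol, Set.mem_singleton_iff, GC.pl.injEq] at e'
      exact hb1 (by rw [e, e'])
    · exact tcol_ne_pl _ _ _ e'
  · rintro (hx | hv | e | ⟨y, hy, e⟩)
    · exact hi hx
    · exact notMem_chCol hv2 hSi hv
    · exact hb2 e.symm
    · exact hiC (by rw [← e, untag_tcol]; exact hy)

lemma chainpair (hd : 1 ≤ d) (hr : 24 * d + 18 ≤ r) {a : ℕ} (ha : a < t) {u : TV}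
    (hu : TVal d u) {z : GV} (hz : GVal d r t s z) {c : Ch} (hc : allowed d r c) (hin : inCh c z)
    (i : GC) : ∃ VS CS, (GG d r t s).RP z (GV.gad a u) (r - 1) VS CS ∧ i ∉ CS := by
  obtain ⟨h, b, S, T, h1, h2, h3, h4, h5, h6, h7, h8⟩ := esc hz hin i
  have h9 := hc.2.2.2.2.1
  refine kerpair hd hr ha hu (v0 := c.v) ?_ (by omega) h8 ?_ h4 h5 h7 ?_ (by omega)
  · rcases h1 with rfl | rfl
    · exact hc.1
    · exact hc.2.1
  · rintro v (hv | rfl)
    · cases v <;> simp_all [inCh]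
    · simp [inCh]
  · intro x hx
    rcases h6 hx with ⟨g, o, k, rfl⟩ | ⟨o, ho, rfl⟩
    · exact Or.inl ⟨c, g, o, k, rfl, rfl⟩
    · exact Or.inr (Or.inl ⟨o, ho, rfl⟩)

theorem served (hd : 1 ≤ d) (hr : 24 * d + 18 ≤ r) {u v : GV} (hu : GVal d r t s u)
    (hv : GVal d r t s v) (huv : u ≠ v) (hK : u ∉ Ker d r t s)
    (hadj : ∀ e, ¬ (GG d r t s).Step e u v) (i : GC) :
    ∃ VS CS, (GG d r t s).RP u v (r - 1) VS CS ∧ i ∉ CS := by
  obtain ⟨a, x, rfl⟩ : ∃ a x, u = GV.gad a x := by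
    by_contra hc
    exact hK ⟨hu, fun a x e => hc ⟨a, x, e⟩⟩
  obtain ⟨ha, hx⟩ := hu
  have flip : (∃ VS CS, (GG d r t s).RP v (GV.gad a x) (r - 1) VS CS ∧ i ∉ CS) →
      ∃ VS CS, (GG d r t s).RP (GV.gad a x) v (r - 1) VS CS ∧ i ∉ CS :=
    fun ⟨VS, CS, h1, h2⟩ => ⟨VS, CS, h1.symm, h2⟩
  obtain ⟨S, hS, hSi⟩ := exists_spec i
  cases v with
  | gad b y =>
    obtain ⟨hb, hy⟩ := hv
    have hun : ∀ n c, tcol n c = i → c ∈ ({untag i} : Set TC) := by
      rintro n c rfl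
      exact (untag_tcol n c).symm
    by_cases h : x = y ∨ ∃ e, (TG d).Step e x y
    · have hab : a ≠ b := by
        rintro rfl
        rcases h with rfl | ⟨e, h1, h2⟩
        · exact huv rfl
        · refine hadj (GE.leg a e) ⟨⟨ha, h1⟩, ?_⟩
          rcases h2 with ⟨rfl, rfl⟩ | ⟨rfl, rfl⟩
          · exact Or.inl ⟨rfl, rfl⟩
          · exact Or.inr ⟨rfl, rfl⟩
      by_cases hi : ∃ W l c, i = GC.prv b W l c
      · obtain ⟨W, l, c, rfl⟩ := hi
        refine gadpair hr ha hb (cross hd hy (h.imp Eq.symm fun ⟨e, he⟩ => ⟨e, he.symm⟩)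
          (untag (GC.prv b W l c))).symm hab _ (fun c' hc' => ?_) (hun b)
        cases c' <;> simp_all [tcol]
      · refine gadpair hr ha hb (cross hd hx h (untag i)) hab _ (hun a) fun c' hc' =>
          ⟨hun b c' hc', ?_⟩
        cases c' with
        | pub W j c => trivial
        | prv W l c => exact hi ⟨W, l, c, hc'.symm⟩
    · push Not at h
      exact gadpair hr ha hb (near hd hx hy h.1 h.2 (untag i)) (fun _ => trivial) _ (hun a) (hun b)
  | lone b =>
    obtain ⟨a0, -, -, ha0, -⟩ := exists_plain i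
    have hh : hubOK d ((0 : Fin 3), (Sum.inl a0 : Lab)) := fun W j b e => by simp at e
    have hz : (GG d r t s).RP (GV.lone b) (GV.hub (0, Sum.inl a0)) 1 _ _ :=
      IG.RP.single (e := GE.lx b (0, Sum.inl a0)) ⟨⟨hv, hh, rfl⟩, Or.inl ⟨rfl, rfl⟩⟩ (by simp)
    refine flip (kerpair hd hr ha hx hh (by omega) (v0 := 0) hz ?_ (hS.trans (by omega)) hSi
      (fun e => ha0 e.symm) ?_ (by omega))
    · rintro v (rfl | rfl) <;> simp [inCh]
    · rintro x rfl
      exact Or.inr (Or.inr ⟨a0, rfl, rfl⟩)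
  | hub h =>
    refine flip (kerpair hd hr ha hx hv (Nat.zero_le _) (v0 := 0) (IG.RP.refl _ _) ?_
      (hS.trans (by omega)) hSi (by simp) (by simp) ?_)
    · rintro v rfl
      simp [inCh]
    · rintro - rfl
      exact hadj _ (ex_step ha hv)
  | ze c j => exact flip (chainpair hd hr ha hx hv hv rfl i)
  | op c g o k => exact flip (chainpair hd hr ha hx hv hv.1 rfl i)

end LKer2

end Pool.Agent.MP_8ccfd2_co.LC
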