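import Pool.Agent.MP_8ccfd2_co.LongB

namespace Pool.Agent.MP_8ccfd2_co.LC

section LFree1
variable {d r t s : ℕ} {A : Finset GE}

lemma LFree1_glen {c : Ch} (h : allowed d r c) (g : Fin 3) :
    2 ≤ glen c.m g ∧ 2 * glen c.m g < r := by
  obtain ⟨-, -, -, h1, h2, -⟩ := h
  unfold glen
  split_ifs <;> omega

lemma LFree1_pos_zero (c : Ch) (g : Fin 3) (o : Fin 5) : pos c g o 0 = lend c g := by
  simp [pos]

lemma LFree1_pos_last {c : Ch} {g : Fin 3} (o : Fin 5) {k : ℕ} (h : k + 1 = glen c.m g) :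
    pos c g o (k + 1) = rend c g := by
  rw [pos, if_neg k.succ_ne_zero, if_pos h]

lemma LFree1_pos_mid {c : Ch} {g : Fin 3} (o : Fin 5) {k : ℕ} (h0 : k ≠ 0) (h : k ≠ glen c.m g) :
    pos c g o k = GV.op c g o k := by
  simp [pos, h0, h]

lemma LFree1_pos_op {c c' : Ch} {g g' : Fin 3} {o o' : Fin 5} {k k' : ℕ}
    (h : pos c g o k = GV.op c' g' o' k') : c = c' ∧ g = g' ∧ o = o' ∧ k = k' := by
  unfold pos lend rend at h
  split_ifs at h <;> simp_all

lemma LFree1_pos_ze {c c' : Ch} {g : Fin 3} {o : Fin 5} {k : ℕ} {j : Bool}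
    (h : pos c g o k = GV.ze c' j) : c = c' ∧
      ((k = 0 ∧ g = if j then 2 else 1) ∨ (k = glen c.m g ∧ g = if j then 1 else 0)) := by
  have h3 : ∀ g : Fin 3, g ≠ 0 → g ≠ 1 → g = 2 := by decide
  unfold pos lend rend at h
  split_ifs at h with h1 h2 h4 h5 h6 h7
  · obtain ⟨rfl, rfl⟩ := GV.ze.inj h
    exact ⟨rfl, Or.inl ⟨h1, by simpa using h4⟩⟩
  · obtain ⟨rfl, rfl⟩ := GV.ze.inj h
    exact ⟨rfl, Or.inl ⟨h1, by simpa using h3 g h2 h4⟩⟩
  · obtain ⟨rfl, rfl⟩ := GV.ze.inj h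
    exact ⟨rfl, Or.inr ⟨h5, by simpa using h6⟩⟩
  · obtain ⟨rfl, rfl⟩ := GV.ze.inj h
    exact ⟨rfl, Or.inr ⟨h5, by simpa using h7⟩⟩

lemma LFree1_inc_op {e : GE} {c : Ch} {g : Fin 3} {o : Fin 5} {k : ℕ}
    (h : (GG d r t s).Inc e (GV.op c g o (k + 1))) :
    e = GE.ce c g o (k + 1) ∨ e = GE.ce c g o k := by
  cases e with
  | ce c' g' o' k' =>
    rcases h with h | h
    · obtain ⟨rfl, rfl, rfl, rfl⟩ := LFree1_pos_op h
      exact Or.inl rfl
    · obtain ⟨rfl, rfl, rfl, h4⟩ := LFree1_pos_op (c := c') (g := g') (o := o') (k := k' + 1) h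
      exact Or.inr (by rw [Nat.succ.inj h4])
  | _ => rcases h with h | h <;> cases h

lemma LFree1_inc_ze {e : GE} {c : Ch} {j : Bool} (he : (GG d r t s).ok e)
    (h : (GG d r t s).Inc e (GV.ze c j)) : (∃ o, e = GE.ce c (if j then 2 else 1) o 0) ∨
      ∃ o k, e = GE.ce c (if j then 1 else 0) o k ∧ k + 1 = glen c.m (if j then 1 else 0) := by
  cases e with
  | ce c' g' o' k' =>
    have hk : k' < glen c'.m g' := he.2
    rcases h with h | h
    · obtain ⟨rfl, ⟨rfl, rfl⟩ | ⟨h1, -⟩⟩ := LFree1_pos_ze h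
      · exact Or.inl ⟨o', rfl⟩
      · omega
    · obtain ⟨rfl, ⟨h1, -⟩ | ⟨h1, rfl⟩⟩ :=
        LFree1_pos_ze (c := c') (g := g') (o := o') (k := k' + 1) h
      · omega
      · exact Or.inr ⟨o', k', rfl, h1⟩
  | _ => rcases h with h | h <;> cases h

lemma LFree1_all (hA : (GG d r t s).Cyc r A) {c : Ch} {g : Fin 3} {o : Fin 5} {k : ℕ}
    (h : GE.ce c g o k ∈ A) : ∀ l < glen c.m g, GE.ce c g o l ∈ A := by
  have down : ∀ k, GE.ce c g o k ∈ A → GE.ce c g o 0 ∈ A := by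
    intro k
    induction k with
    | zero => exact id
    | succ k ih =>
      intro hk
      have hl : k + 1 < glen c.m g := (hA.ok _ hk).2
      obtain ⟨e, eA, ene, ei⟩ := hA.two _ hk (GV.op c g o (k + 1))
        (Or.inl (LFree1_pos_mid (c := c) (g := g) o k.succ_ne_zero hl.ne))
      rcases LFree1_inc_op ei with rfl | rfl
      · exact absurd rfl ene
      · exact ih eA
  intro l
  induction l with
  | zero => exact fun _ => down k h
  | succ l ih =>
    intro hl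
    obtain ⟨e, eA, ene, ei⟩ := hA.two _ (ih (by omega)) (GV.op c g o (l + 1))
      (Or.inr (LFree1_pos_mid (c := c) (g := g) o l.succ_ne_zero hl.ne))
    rcases LFree1_inc_op ei with rfl | rfl
    · exact eA
    · exact absurd rfl ene

lemma LFree1_one (hA : (GG d r t s).Cyc r A) {c : Ch} {g : Fin 3} {o o' : Fin 5} {k k' : ℕ}
    (h : GE.ce c g o k ∈ A) (h' : GE.ce c g o' k' ∈ A) : o = o' := by
  classical
  by_contra hne
  obtain ⟨g2, gr⟩ := LFree1_glen (hA.ok _ h).1 g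
  obtain ⟨n, hn⟩ : ∃ n, n + 1 = glen c.m g := ⟨glen c.m g - 1, by omega⟩
  have a := LFree1_all hA h
  have a' := LFree1_all hA h'
  have key : ∀ o₁ j, j ≤ glen c.m g → (o₁ = o ∨ o₁ = o') → ∀ e ∈ A,
      (GG d r t s).Inc e (pos c g o₁ j) → ∃ l, e = GE.ce c g o l ∨ e = GE.ce c g o' l := by
    intro o₁ j hj ho e eA ei
    by_cases j0 : j = 0
    · subst j0
      rw [LFree1_pos_zero] at ei
      rcases hA.three _ _ (a 0 (by omega)) _ (a' 0 (by omega)) _ eA
        (Or.inl (LFree1_pos_zero c g o)) (Or.inl (LFree1_pos_zero c g o')) ei with h1 | h1 | h1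
      · exact absurd (GE.ce.inj h1).2.2.1 hne
      · exact ⟨0, Or.inl h1.symm⟩
      · exact ⟨0, Or.inr h1.symm⟩
    by_cases jl : j = glen c.m g
    · rw [jl, ← hn, LFree1_pos_last o₁ hn] at ei
      rcases hA.three _ _ (a n (by omega)) _ (a' n (by omega)) _ eA
        (Or.inr (LFree1_pos_last o hn)) (Or.inr (LFree1_pos_last o' hn)) ei with h1 | h1 | h1
      · exact absurd (GE.ce.inj h1).2.2.1 hne
      · exact ⟨n, Or.inl h1.symm⟩
      · exact ⟨n, Or.inr h1.symm⟩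
    rw [LFree1_pos_mid o₁ j0 jl] at ei
    obtain ⟨i, rfl⟩ : ∃ i, j = i + 1 := ⟨j - 1, by omega⟩
    rcases LFree1_inc_op ei with rfl | rfl <;> rcases ho with rfl | rfl
    exacts [⟨_, Or.inl rfl⟩, ⟨_, Or.inr rfl⟩, ⟨_, Or.inl rfl⟩, ⟨_, Or.inr rfl⟩]
  have hB := hA.conn {e | ∃ l, e = GE.ce c g o l ∨ e = GE.ce c g o' l} ⟨_, h, k, Or.inl rfl⟩ (by
    rintro e eA ⟨l, rfl | rfl⟩ e' eA' v hv hv'
    all_goals
      have hl : l < glen c.m g := (hA.ok _ eA).2
      rcases hv with rfl | rfl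
    · exact key o l hl.le (Or.inl rfl) e' eA' hv'
    · exact key o (l + 1) hl (Or.inl rfl) e' eA' hv'
    · exact key o' l hl.le (Or.inr rfl) e' eA' hv'
    · exact key o' (l + 1) hl (Or.inr rfl) e' eA' hv')
  have sub : A ⊆ (Finset.range (glen c.m g)).image (GE.ce c g o) ∪
      (Finset.range (glen c.m g)).image (GE.ce c g o') := by
    intro e eA
    obtain ⟨l, rfl | rfl⟩ := hB e eA
    · exact Finset.mem_union_left _
        (Finset.mem_image_of_mem _ (Finset.mem_range.2 (hA.ok _ eA).2))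
    · exact Finset.mem_union_right _
        (Finset.mem_image_of_mem _ (Finset.mem_range.2 (hA.ok _ eA).2))
  have c1 := (Finset.card_le_card sub).trans (Finset.card_union_le _ _)
  have c2 := Finset.card_image_le (s := Finset.range (glen c.m g)) (f := GE.ce c g o)
  have c3 := Finset.card_image_le (s := Finset.range (glen c.m g)) (f := GE.ce c g o')
  rw [Finset.card_range] at c2 c3
  rw [hA.card] at c1
  omega

lemma LFree1_link (hA : (GG d r t s).Cyc r A) (c : Ch) (j : Bool) :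
    (∃ o k, GE.ce c (if j then 1 else 0) o k ∈ A) ↔ ∃ o k, GE.ce c (if j then 2 else 1) o k ∈ A := by
  constructor
  · rintro ⟨o, k, h⟩
    obtain ⟨g2, -⟩ := LFree1_glen (hA.ok _ h).1 (if j then 1 else 0)
    obtain ⟨n, hn⟩ : ∃ n, n + 1 = glen c.m (if j then 1 else 0) :=
      ⟨glen c.m (if j then 1 else 0) - 1, by omega⟩
    have h1 := LFree1_all hA h n (by omega)
    obtain ⟨e, eA, ene, ei⟩ := hA.two _ h1 (GV.ze c j)
      (Or.inr ((LFree1_pos_last o hn).trans (by cases j <;> simp [rend])))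
    rcases LFree1_inc_ze (hA.ok _ eA) ei with ⟨o', rfl⟩ | ⟨o', k', rfl, hk⟩
    · exact ⟨o', 0, eA⟩
    · exact absurd (by rw [LFree1_one hA eA h1, show k' = n by omega]) ene
  · rintro ⟨o, k, h⟩
    obtain ⟨g2, -⟩ := LFree1_glen (hA.ok _ h).1 (if j then 2 else 1)
    have h1 := LFree1_all hA h 0 (by omega)
    obtain ⟨e, eA, ene, ei⟩ := hA.two _ h1 (GV.ze c j)
      (Or.inl ((LFree1_pos_zero c _ o).trans (by cases j <;> simp [lend])))
    rcases LFree1_inc_ze (hA.ok _ eA) ei with ⟨o', rfl⟩ | ⟨o', k', rfl, -⟩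
    · exact absurd (by rw [LFree1_one hA eA h1]) ene
    · exact ⟨o', k', eA⟩

lemma LFree1_three (hA : (GG d r t s).Cyc r A) {c : Ch} {g : Fin 3} {o : Fin 5} {k : ℕ}
    (h : GE.ce c g o k ∈ A) : ∃ o : Fin 3 → Fin 5, ∀ g, ∃ k, GE.ce c g (o g) k ∈ A ∧
      ccol c g (o g) k = GC.sp (o g) := by
  have l0 : (∃ o k, GE.ce c 0 o k ∈ A) ↔ ∃ o k, GE.ce c 1 o k ∈ A := LFree1_link hA c false
  have l1 : (∃ o k, GE.ce c 1 o k ∈ A) ↔ ∃ o k, GE.ce c 2 o k ∈ A := LFree1_link hA c true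
  have h3 : ∀ g : Fin 3, g = 0 ∨ g = 1 ∨ g = 2 := by decide
  have m : ∃ o k, GE.ce c 1 o k ∈ A := by
    rcases h3 g with rfl | rfl | rfl
    exacts [l0.1 ⟨o, k, h⟩, ⟨o, k, h⟩, l1.2 ⟨o, k, h⟩]
  have all : ∀ g, ∃ o k, GE.ce c g o k ∈ A := by
    intro g
    rcases h3 g with rfl | rfl | rfl
    exacts [l0.2 m, m, l1.1 m]
  choose o k hk using all
  refine ⟨o, fun g => ?_⟩
  obtain ⟨g2, -⟩ := LFree1_glen (hA.ok _ h).1 g
  by_cases g0 : g = 0
  · exact ⟨glen c.m g - 1, LFree1_all hA (hk g) _ (by omega),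
      if_pos (Or.inl ⟨g0, by omega⟩)⟩
  · exact ⟨0, LFree1_all hA (hk g) _ (by omega), if_pos (Or.inr ⟨g0, rfl⟩)⟩

theorem chain_struct (hr : 7 ≤ r) (hA : (GG d r t s).Cyc r A) :
    (∀ c g o k, GE.ce c g o k ∉ A) ∨
      ∃ c, allowed d r c ∧ ∃ o : Fin 3 → Fin 5, ∀ c' g o' k,
        GE.ce c' g o' k ∈ A ↔ (c' = c ∧ o' = o g ∧ k < glen c.m g) := by
  by_cases h : ∀ c g o k, GE.ce c g o k ∉ A
  · exact Or.inl h
  push Not at h
  obtain ⟨c, g, o₀, k, h⟩ := h
  obtain ⟨o, ho⟩ := LFree1_three hA h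
  choose l hl cl using ho
  refine Or.inr ⟨c, (hA.ok _ h).1, o, fun c' g' o' k' => ⟨fun h' => ?_, ?_⟩⟩
  · obtain rfl : c' = c := by
      by_contra hne
      obtain ⟨p, hp⟩ := LFree1_three hA h'
      choose l' hl' cl' using hp
      have inj : Function.Injective (Sum.elim o p) := by
        rintro (a | a) (b | b) e
        · have := hA.rain _ (hl a) _ (hl b) ((cl a).trans ((congrArg GC.sp e).trans (cl b).symm))
          rw [(GE.ce.inj this).2.1]
        · exact absurd (GE.ce.inj (hA.rain _ (hl' b) _ (hl a)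
            ((cl' b).trans ((congrArg GC.sp e).symm.trans (cl a).symm)))).1 hne
        · exact absurd (GE.ce.inj (hA.rain _ (hl' a) _ (hl b)
            ((cl' a).trans ((congrArg GC.sp e).trans (cl b).symm)))).1 hne
        · have := hA.rain _ (hl' a) _ (hl' b)
            ((cl' a).trans ((congrArg GC.sp e).trans (cl' b).symm))
          rw [(GE.ce.inj this).2.1]
      simpa using Fintype.card_le_of_injective _ inj
    exact ⟨rfl, LFree1_one hA h' (hl g'), (hA.ok _ h').2⟩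
  · rintro ⟨rfl, rfl, hk⟩
    exact LFree1_all hA (hl g') _ hk

end LFree1

section LFree2
variable {d r t s : ℕ} {A : Finset GE}

/-- edges of the star at a hub -/
def LFree2_St (e : GE) (h : Hub) : Prop := ∃ a, e = GE.ex a h ∨ e = GE.lx a h

lemma LFree2_St_inc {e : GE} {h : Hub} (he : LFree2_St e h) :
    (GG d r t s).Inc e (GV.hub h) := by
  obtain ⟨a, rfl | rfl⟩ := he <;> exact Or.inr rfl

lemma LFree2_St_uniq (hA : (GG d r t s).Cyc r A) {e e' : GE} {h : Hub} (he : e ∈ A)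
    (he' : e' ∈ A) (h1 : LFree2_St e h) (h2 : LFree2_St e' h) : e = e' := by
  refine hA.rain e he e' he' ?_
  obtain ⟨a, rfl | rfl⟩ := h1 <;> obtain ⟨b, rfl | rfl⟩ := h2 <;> rfl

lemma LFree2_inc_hub {e : GE} {h : Hub} (he : (GG d r t s).Inc e (GV.hub h)) :
    LFree2_St e h ∨ ∃ c g o k, e = GE.ce c g o k := by
  cases e with
  | leg a x => rcases he with he | he <;> simp [GG] at he
  | ex a h' =>
    rcases he with he | he <;> simp [GG] at he
    exact Or.inl ⟨a, Or.inl (by rw [he])⟩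
  | lx a h' =>
    rcases he with he | he <;> simp [GG] at he
    exact Or.inl ⟨a, Or.inr (by rw [he])⟩
  | ce c g o k => exact Or.inr ⟨c, g, o, k, rfl⟩

/-- the code of a leg edge -/
def LFree2_code : GE → Fin 3 × ℕ × Bool × Bool
  | GE.leg _ (TE.up W l b) => (W, l.length, b, true)
  | GE.leg _ (TE.lo W l b) => (W, l.length, b, false)
  | _ => (0, 0, true, true)

theorem no_chain (hr : 12 * d < r) (hA : (GG d r t s).Cyc r A)
    (h : ∀ c g o k, GE.ce c g o k ∉ A) : False := by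
  have hst : ∀ e ∈ A, ∀ x, ¬ LFree2_St e x := by
    intro e he x hx
    obtain ⟨e', he', hne, hi⟩ := hA.two e he _ (LFree2_St_inc hx)
    rcases LFree2_inc_hub hi with h1 | ⟨c, g, o, k, rfl⟩
    · exact hne (LFree2_St_uniq hA he' he h1 hx)
    · exact h c g o k he'
  have hleg : ∀ e ∈ A, ∃ a x, e = GE.leg a x := by
    intro e he
    cases e with
    | leg a x => exact ⟨a, x, rfl⟩
    | ex a x => exact (hst _ he x ⟨a, Or.inl rfl⟩).elim
    | lx a x => exact (hst _ he x ⟨a, Or.inr rfl⟩).elim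
    | ce c g o k => exact (h c g o k he).elim
  have hup : ∀ a W l b, GE.leg a (TE.lo W l b) ∈ A → GE.leg a (TE.up W l b) ∈ A := by
    intro a W l b he
    obtain ⟨e', he', hne, hi⟩ := hA.two _ he (GV.gad a (TV.md W l b)) (Or.inl rfl)
    obtain ⟨a', x, rfl⟩ := hleg e' he'
    cases x with
    | up W' l' b' =>
      rcases hi with hi | hi <;> simp [GG, TG] at hi
      obtain ⟨rfl, rfl, rfl, rfl⟩ := hi
      exact he'
    | lo W' l' b' =>
      rcases hi with hi | hi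
      · simp [GG, TG] at hi
        obtain ⟨rfl, rfl, rfl, rfl⟩ := hi
        exact (hne rfl).elim
      · simp only [GG, TG, sk, GV.gad.injEq] at hi
        obtain ⟨_, hi⟩ := hi
        split_ifs at hi
  have hcard : A.card ≤ ((Finset.univ : Finset (Fin 3)) ×ˢ (Finset.range d ×ˢ
      (Finset.univ : Finset (Bool × Bool)))).card := by
    refine Finset.card_le_card_of_injOn LFree2_code ?_ ?_
    · intro e he
      have hok := hA.ok e he
      obtain ⟨a, x, rfl⟩ := hleg e he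
      cases x <;> simp [GG, TG] at hok <;> simp [LFree2_code, hok.2]
    · intro e he e' he' hee
      obtain ⟨a, x, rfl⟩ := hleg e he
      obtain ⟨a', x', rfl⟩ := hleg e' he'
      cases x with
      | up W l b =>
        cases x' with
        | up W' l' b' =>
          simp only [LFree2_code, Prod.mk.injEq] at hee
          refine hA.rain _ he _ he' ?_
          simp [GG, TG, tcol, hee.1, hee.2.1, hee.2.2.1]
        | lo W' l' b' => simp [LFree2_code] at hee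
      | lo W l b =>
        cases x' with
        | up W' l' b' => simp [LFree2_code] at hee
        | lo W' l' b' =>
          simp only [LFree2_code, Prod.mk.injEq] at hee
          have := hA.rain _ (hup _ _ _ _ he) _ (hup _ _ _ _ he')
            (by simp [GG, TG, tcol, hee.1, hee.2.1, hee.2.2.1])
          simp only [GE.leg.injEq, TE.up.injEq] at this
          obtain ⟨rfl, rfl, rfl, rfl⟩ := this
          rfl
  rw [hA.card] at hcard
  simp at hcard
  omega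

lemma LFree2_pos_hub {c : Ch} {g : Fin 3} {o : Fin 5} {k : ℕ} {h : Hub}
    (hp : pos c g o k = GV.hub h) :
    (k = 0 ∧ g = 0 ∧ h = c.h) ∨ (k ≠ 0 ∧ k = glen c.m g ∧ g = 2 ∧ h = c.h') := by
  unfold pos lend rend at hp
  split_ifs at hp with h1 h2 h3 h4 h5 h6
  · exact Or.inl ⟨h1, h2, (GV.hub.inj hp).symm⟩
  · refine Or.inr ⟨h1, h4, ?_, (GV.hub.inj hp).symm⟩
    omega

lemma LFree2_pos_gad {c : Ch} {g : Fin 3} {o : Fin 5} {k a : ℕ} {u : TV} :
    pos c g o k ≠ GV.gad a u := by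
  unfold pos lend rend
  split_ifs <;> simp

lemma LFree2_pos_lone {c : Ch} {g : Fin 3} {o : Fin 5} {k a : ℕ} :
    pos c g o k ≠ GV.lone a := by
  unfold pos lend rend
  split_ifs <;> simp

theorem exits {c : Ch} {o : Fin 3 → Fin 5} (hA : (GG d r t s).Cyc r A) (hc : allowed d r c)
    (ho : ∀ c' g o' k, GE.ce c' g o' k ∈ A ↔ (c' = c ∧ o' = o g ∧ k < glen c.m g)) :
    ∃ a b, (∀ a' h, GE.ex a' h ∈ A ↔ (a' = a ∧ h = c.h) ∨ (a' = b ∧ h = c.h')) ∧
      (∀ a' h, GE.lx a' h ∉ A) ∧ ¬ (a = b ∧ c.h.1 = c.h'.1) := by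
  classical
  obtain ⟨-, -, hne, hm, hmr, -⟩ := hc
  have g0 : glen c.m 0 = c.m / 3 := by simp [glen]
  have g1 : glen c.m 1 = c.m - 2 * (c.m / 3) := by simp [glen]
  have g2 : glen c.m 2 = c.m / 3 := by simp [glen]
  have hinc : ∀ e ∈ A, ∀ h, (GG d r t s).Inc e (GV.hub h) → LFree2_St e h ∨
      (e = GE.ce c 0 (o 0) 0 ∧ h = c.h) ∨
      (e = GE.ce c 2 (o 2) (glen c.m 2 - 1) ∧ h = c.h') := by
    intro e he h hi
    rcases LFree2_inc_hub hi with h1 | ⟨c', g, o', k, rfl⟩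
    · exact Or.inl h1
    · obtain ⟨rfl, rfl, hk⟩ := (ho _ _ _ _).1 he
      right
      rcases hi with hi | hi
      · rcases LFree2_pos_hub hi with ⟨rfl, rfl, h3⟩ | ⟨_, h2, _⟩
        · exact Or.inl ⟨rfl, h3⟩
        · omega
      · rcases LFree2_pos_hub (k := k + 1) hi with ⟨h1, _⟩ | ⟨_, h2, rfl, h4⟩
        · omega
        · refine Or.inr ⟨?_, h4⟩
          rw [← h2]
          rfl
  have e0 : GE.ce c 0 (o 0) 0 ∈ A := (ho _ _ _ _).2 ⟨rfl, rfl, by omega⟩
  have e2 : GE.ce c 2 (o 2) (glen c.m 2 - 1) ∈ A := (ho _ _ _ _).2 ⟨rfl, rfl, by omega⟩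
  have i0 : (GG d r t s).Inc (GE.ce c 0 (o 0) 0) (GV.hub c.h) := Or.inl (by simp [GG, pos, lend])
  have i2 : (GG d r t s).Inc (GE.ce c 2 (o 2) (glen c.m 2 - 1)) (GV.hub c.h') := by
    right
    have h1 : glen c.m 2 - 1 + 1 = glen c.m 2 := by omega
    simp [GG, pos, rend, h1]
  obtain ⟨x, hx, sx⟩ : ∃ x ∈ A, LFree2_St x c.h := by
    obtain ⟨e', he', hn, hi⟩ := hA.two _ e0 _ i0
    rcases hinc e' he' _ hi with h1 | ⟨h1, _⟩ | ⟨_, h1⟩
    · exact ⟨e', he', h1⟩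
    · exact (hn h1).elim
    · exact (hne h1).elim
  obtain ⟨y, hy, sy⟩ : ∃ y ∈ A, LFree2_St y c.h' := by
    obtain ⟨e', he', hn, hi⟩ := hA.two _ e2 _ i2
    rcases hinc e' he' _ hi with h1 | ⟨_, h1⟩ | ⟨h1, _⟩
    · exact ⟨e', he', h1⟩
    · exact (hne h1.symm).elim
    · exact (hn h1).elim
  have hxy : ∀ e ∈ A, ∀ h, LFree2_St e h → e = x ∨ e = y := by
    intro e he h hs
    obtain ⟨e', he', hn, hi⟩ := hA.two e he _ (LFree2_St_inc hs)
    rcases hinc e' he' _ hi with h1 | ⟨_, rfl⟩ | ⟨_, rfl⟩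
    · exact (hn (LFree2_St_uniq hA he' he h1 hs)).elim
    · exact Or.inl (LFree2_St_uniq hA he hx hs sx)
    · exact Or.inr (LFree2_St_uniq hA he hy hs sy)
  have xny : x ≠ y := by
    rintro rfl
    obtain ⟨a, rfl | rfl⟩ := sx <;> obtain ⟨b, h | h⟩ := sy <;> simp at h <;> exact hne h.2
  have hsrc : (GG d r t s).src x ≠ (GG d r t s).src y := by
    intro hs
    have hgad : ∀ z h, LFree2_St z h → ∀ a u, (GG d r t s).Inc z (GV.gad a u) →
        (GG d r t s).src z = GV.gad a u := by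
      rintro z h ⟨b, rfl | rfl⟩ a u (hi | hi)
      · exact hi
      · simp [GG] at hi
      · exact hi
      · simp [GG] at hi
    have hB := hA.conn {e | ∀ a z, e ≠ GE.leg a z} ⟨_, e0, fun a z => by simp⟩ (by
      intro e he hb e' he' v hi hi' a z hz
      subst hz
      obtain ⟨u, rfl⟩ : ∃ u, v = GV.gad a u := by
        rcases hi' with h | h
        · exact ⟨_, h.symm⟩
        · exact ⟨_, h.symm⟩
      have key : (GG d r t s).src x = GV.gad a u → False := by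
        intro h1
        rcases hA.three (GV.gad a u) x hx y hy _ he' (Or.inl h1) (Or.inl (hs ▸ h1)) hi'
          with h | h | h
        · exact xny h
        · obtain ⟨b, rfl | rfl⟩ := sx <;> simp at h
        · obtain ⟨b, rfl | rfl⟩ := sy <;> simp at h
      have key2 : ∀ h, LFree2_St e h → False := by
        intro h hh
        rcases hxy e he h hh with rfl | rfl
        · exact key (hgad _ _ hh _ _ hi)
        · exact key (hs.trans (hgad _ _ hh _ _ hi))
      cases e with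
      | leg a' z' => exact hb a' z' rfl
      | ex a' h => exact key2 h ⟨a', Or.inl rfl⟩
      | lx a' h => exact key2 h ⟨a', Or.inr rfl⟩
      | ce c' g o' k => exact hi.elim LFree2_pos_gad (LFree2_pos_gad (k := k + 1)))
    have hsub : A ⊆ insert x (insert y
        ((Finset.range (glen c.m 0)).image (GE.ce c 0 (o 0)) ∪
          ((Finset.range (glen c.m 1)).image (GE.ce c 1 (o 1)) ∪
            (Finset.range (glen c.m 2)).image (GE.ce c 2 (o 2))))) := by
      intro e he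
      simp only [Finset.mem_insert, Finset.mem_union, Finset.mem_image, Finset.mem_range]
      cases e with
      | leg a z => exact (hB _ he a z rfl).elim
      | ex a h => exact (hxy _ he h ⟨a, Or.inl rfl⟩).imp id Or.inl
      | lx a h => exact (hxy _ he h ⟨a, Or.inr rfl⟩).imp id Or.inl
      | ce c' g o' k =>
        obtain ⟨rfl, rfl, hk⟩ := (ho _ _ _ _).1 he
        right; right
        have hg : g = 0 ∨ g = 1 ∨ g = 2 := by omega
        rcases hg with rfl | rfl | rfl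
        · exact Or.inl ⟨k, hk, rfl⟩
        · exact Or.inr (Or.inl ⟨k, hk, rfl⟩)
        · exact Or.inr (Or.inr ⟨k, hk, rfl⟩)
    have h1 := Finset.card_le_card hsub
    have h2 := (Finset.card_insert_le _ _).trans (Nat.succ_le_succ
      ((Finset.card_insert_le y _).trans (Nat.succ_le_succ ((Finset.card_union_le _ _).trans
        (Nat.add_le_add (Finset.card_image_le (s := Finset.range (glen c.m 0))
          (f := GE.ce c 0 (o 0))) ((Finset.card_union_le _ _).trans (Nat.add_le_add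
            (Finset.card_image_le (s := Finset.range (glen c.m 1)) (f := GE.ce c 1 (o 1)))
            (Finset.card_image_le (s := Finset.range (glen c.m 2))
              (f := GE.ce c 2 (o 2)))))))))) |>.trans' h1
    rw [hA.card] at h2
    simp only [Finset.card_range] at h2
    omega
  have hlx : ∀ a' h, GE.lx a' h ∉ A := by
    intro a' h he
    obtain ⟨e', he', hn, hi⟩ := hA.two _ he (GV.lone a') (Or.inl rfl)
    obtain ⟨h', rfl⟩ : ∃ h', e' = GE.lx a' h' := by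
      cases e' with
      | leg a z => rcases hi with hi | hi <;> simp [GG] at hi
      | ex a z => rcases hi with hi | hi <;> simp [GG] at hi
      | lx a z =>
        rcases hi with hi | hi <;> simp [GG] at hi
        exact ⟨z, by rw [hi]⟩
      | ce c' g o' k => exact (hi.elim LFree2_pos_lone (LFree2_pos_lone (k := k + 1))).elim
    rcases hxy _ he h ⟨a', Or.inr rfl⟩ with h1 | h1 <;>
      rcases hxy _ he' h' ⟨a', Or.inr rfl⟩ with h2 | h2
    · exact hn (h2.trans h1.symm)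
    · exact hsrc (by rw [← h1, ← h2]; rfl)
    · exact hsrc (by rw [← h1, ← h2]; rfl)
    · exact hn (h2.trans h1.symm)
  obtain ⟨a, rfl | rfl⟩ := sx
  swap
  · exact (hlx _ _ hx).elim
  obtain ⟨b, rfl | rfl⟩ := sy
  swap
  · exact (hlx _ _ hy).elim
  refine ⟨a, b, fun a' h => ⟨fun he => ?_, ?_⟩, hlx, ?_⟩
  · rcases hxy _ he h ⟨a', Or.inl rfl⟩ with h1 | h1
    · exact Or.inl (GE.ex.inj h1)
    · exact Or.inr (GE.ex.inj h1)
  · rintro (⟨rfl, rfl⟩ | ⟨rfl, rfl⟩)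
    · exact hx
    · exact hy
  · rintro ⟨rfl, h⟩
    exact hsrc (by simp [GG, h])

end LFree2

section LFree3
variable {d r t s : ℕ} {A : Finset GE}

/-- a vertex set inside the copies of the gadget -/
def LFree3_in (S : ℕ → TV → Prop) : GV → Prop
  | GV.gad a u => S a u
  | _ => False

/-- the edges with exactly one end in the set -/
def LFree3_cut (d : ℕ) (S : ℕ → TV → Prop) : GE → Prop
  | GE.leg a x => ¬ (S a ((TG d).src x) ↔ S a ((TG d).tgt x))
  | GE.ex a h => S a (TV.nd h.1 [])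
  | _ => False

lemma LFree3_pos (c : Ch) (g : Fin 3) (o : Fin 5) (k a : ℕ) (u : TV) :
    pos c g o k ≠ GV.gad a u := by
  unfold pos lend rend
  split_ifs <;> simp

lemma LFree3_pos' (S : ℕ → TV → Prop) (c : Ch) (g : Fin 3) (o : Fin 5) (k : ℕ) :
    ¬ LFree3_in S (pos c g o k) := by
  unfold pos lend rend
  split_ifs <;> exact id

open Classical in
lemma LFree3_even (hA : (GG d r t s).Cyc r A) (S : ℕ → TV → Prop) :
    Even (A.filter (LFree3_cut d S)).card := by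
  have h := hA.par fun v => if LFree3_in S v then 1 else 0
  have h2 : ∀ e : GE, ((if LFree3_in S ((GG d r t s).src e) then 1 else 0) +
      (if LFree3_in S ((GG d r t s).tgt e) then 1 else 0) : ZMod 2) =
      if LFree3_cut d S e then 1 else 0 := fun e => by
    have h3 : LFree3_cut d S e ↔
        ¬ (LFree3_in S ((GG d r t s).src e) ↔ LFree3_in S ((GG d r t s).tgt e)) := by
      rcases e with ⟨a, x⟩ | ⟨a, h⟩ | ⟨a, h⟩ | ⟨c, g, o, k⟩
      · exact Iff.rfl
      · simp [GG, LFree3_in, LFree3_cut]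
      · simp [GG, LFree3_in, LFree3_cut]
      · simp [GG, LFree3_pos', LFree3_cut]
    by_cases h1 : LFree3_in S ((GG d r t s).src e) <;>
      by_cases h2 : LFree3_in S ((GG d r t s).tgt e) <;> simp [h1, h2, h3]
    decide
  simp only [h2] at h
  rw [Finset.sum_boole] at h
  exact (ZMod.natCast_eq_zero_iff_even).1 h

lemma LFree3_one (hA : (GG d r t s).Cyc r A) (S : ℕ → TV → Prop) {e : GE} (he : e ∈ A)
    (h : LFree3_cut d S e) : ∃ e' ∈ A, LFree3_cut d S e' ∧ e' ≠ e := by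
  classical
  by_contra hn
  push Not at hn
  have h1 := LFree3_even hA S
  have h2 : A.filter (LFree3_cut d S) = {e} := by
    ext x
    simp only [Finset.mem_filter, Finset.mem_singleton]
    exact ⟨fun k => hn x k.1 k.2, fun k => k ▸ ⟨he, h⟩⟩
  rw [h2] at h1
  simp at h1

lemma LFree3_three (hA : (GG d r t s).Cyc r A) (S : ℕ → TV → Prop) {e₁ e₂ e₃ : GE}
    (h1 : e₁ ∈ A) (h2 : e₂ ∈ A) (h3 : e₃ ∈ A) (k1 : LFree3_cut d S e₁) (k2 : LFree3_cut d S e₂)
    (k3 : LFree3_cut d S e₃) (n1 : e₁ ≠ e₂) (n2 : e₁ ≠ e₃) (n3 : e₂ ≠ e₃) :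
    ∃ e' ∈ A, LFree3_cut d S e' ∧ e' ≠ e₁ ∧ e' ≠ e₂ ∧ e' ≠ e₃ := by
  classical
  by_contra hn
  push Not at hn
  have h := LFree3_even hA S
  have h' : A.filter (LFree3_cut d S) = {e₁, e₂, e₃} := by
    ext x
    simp only [Finset.mem_filter, Finset.mem_insert, Finset.mem_singleton]
    refine ⟨fun k => ?_, ?_⟩
    · have := hn x k.1 k.2
      tauto
    · rintro (rfl | rfl | rfl)
      exacts [⟨h1, k1⟩, ⟨h2, k2⟩, ⟨h3, k3⟩]
  rw [h', Finset.card_eq_three.2 ⟨_, _, _, n1, n2, n3, rfl⟩] at h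
  exact absurd h (by decide)

/-- the colour `pub W j β` is used by an upper half -/
def LFree3_U (A : Finset GE) (W : Fin 3) (j : ℕ) (β : Bool) : Prop :=
  ∃ a l, GE.leg a (TE.up W l β) ∈ A ∧ l.length = j

lemma LFree3_lt (hA : (GG d r t s).Cyc r A) {W : Fin 3} {j : ℕ} {β : Bool}
    (h : LFree3_U A W j β) : j < d := by
  obtain ⟨a, l, h1, rfl⟩ := h
  exact (hA.ok _ h1).2

lemma LFree3_uniq (hA : (GG d r t s).Cyc r A) {a a' : ℕ} {W : Fin 3} {l l' : List Bool} {β : Bool}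
    (h : GE.leg a (TE.up W l β) ∈ A) (h' : GE.leg a' (TE.up W l' β) ∈ A)
    (e : l.length = l'.length) : GE.leg a (TE.up W l β) = GE.leg a' (TE.up W l' β) :=
  hA.rain _ h _ h' (by simp [GG, TG, tcol, e])

lemma LFree3_lab (hA : (GG d r t s).Cyc r A) {a : ℕ} {h : Hub} (he : GE.ex a h ∈ A) {W : Fin 3}
    {j : ℕ} {β : Bool} (hl : labopt h.2 = some (W, j, β)) : ¬ LFree3_U A W j β := by
  rintro ⟨a', l, h1, rfl⟩
  obtain ⟨X, x | x⟩ := h
  · simp [labopt] at hl
  · obtain rfl : x = _ := Option.some.inj hl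
    exact absurd (hA.rain _ he _ h1 (by simp [GG, TG, tcol, labcol])) (by simp)

lemma LFree3_sk (d : ℕ) (W W' : Fin 3) (l l' : List Bool) (β : Bool) :
    sk d W l ≠ TV.md W' l' β := by
  unfold sk
  split_ifs <;> simp

lemma LFree3_half (hA : (GG d r t s).Cyc r A) (a : ℕ) (W : Fin 3) (l : List Bool) (β : Bool) :
    GE.leg a (TE.up W l β) ∈ A ↔ GE.leg a (TE.lo W l β) ∈ A := by
  have key : ∀ e, (GG d r t s).Inc e (GV.gad a (TV.md W l β)) →
      e = GE.leg a (TE.up W l β) ∨ e = GE.leg a (TE.lo W l β) := fun e h => by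
    rcases e with ⟨a', x | x⟩ | ⟨a', h⟩ | ⟨a', h⟩ | ⟨c, g, o, k⟩ <;>
      simp_all [IG.Inc, GG, TG, LFree3_pos, LFree3_sk]
  constructor
  · intro h
    obtain ⟨e, h1, h2, h3⟩ := hA.two _ h (GV.gad a (TV.md W l β)) (Or.inr rfl)
    exact (key e h3).resolve_left h2 ▸ h1
  · intro h
    obtain ⟨e, h1, h2, h3⟩ := hA.two _ h (GV.gad a (TV.md W l β)) (Or.inl rfl)
    exact (key e h3).resolve_right h2 ▸ h1

lemma LFree3_next (hA : (GG d r t s).Cyc r A) {W : Fin 3} {j : ℕ} {β : Bool}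
    (h : LFree3_U A W j β) (hj : j + 1 < d) : ∃ β', LFree3_U A W (j + 1) β' := by
  obtain ⟨a, l, h1, rfl⟩ := h
  obtain ⟨e, h2, h3, h4⟩ := hA.two _ ((LFree3_half hA a W l β).1 h1)
    (GV.gad a (TV.nd W (β :: l))) (Or.inr (by simp [GG, TG, sk, hj]))
  rcases e with ⟨a', ⟨W', l', β'⟩ | ⟨W', l', β'⟩⟩ | ⟨a', h⟩ | ⟨a', h⟩ | ⟨c, g, o, k⟩
  · simp only [IG.Inc, GG, TG, GV.gad.injEq, TV.nd.injEq, reduceCtorEq, and_false,
      or_false] at h4
    obtain ⟨rfl, rfl, rfl⟩ := h4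
    exact ⟨β', _, _, h2, rfl⟩
  · simp only [IG.Inc, GG, TG, GV.gad.injEq, reduceCtorEq, and_false, false_or, sk] at h4
    split_ifs at h4 <;> simp_all
  · simp [IG.Inc, GG] at h4
  · simp [IG.Inc, GG] at h4
  · simp [IG.Inc, GG, LFree3_pos] at h4

/-- the part of tree `W` above the upper halves of level `j` -/
def LFree3_top (W : Fin 3) (j : ℕ) (_ : ℕ) : TV → Prop
  | TV.nd W' l => W' = W ∧ l.length ≤ j
  | TV.lf _ => False
  | TV.md W' l _ => W' = W ∧ l.length < j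

lemma LFree3_top_cut {W : Fin 3} {j : ℕ} (hj : j < d) {e : GE} :
    LFree3_cut d (LFree3_top W j) e ↔
      (∃ a l β, e = GE.leg a (TE.up W l β) ∧ l.length = j) ∨ ∃ a h, e = GE.ex a h ∧ h.1 = W := by
  rcases e with ⟨a', ⟨W', l', β'⟩ | ⟨W', l', β'⟩⟩ | ⟨a', h⟩ | ⟨a', h⟩ | ⟨c, g, o, k⟩
  · by_cases h : W' = W
    · subst h
      simp only [LFree3_cut, LFree3_top, TG, true_and, GE.leg.injEq, TE.up.injEq, reduceCtorEq,
        false_and, exists_false, or_false]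
      refine ⟨fun h => ⟨_, _, _, ⟨rfl, rfl, rfl⟩, by omega⟩, ?_⟩
      rintro ⟨_, _, _, ⟨-, rfl, -⟩, h⟩
      omega
    · simp [LFree3_cut, LFree3_top, TG, h]
  · simp only [LFree3_cut, TG, sk]
    split_ifs with h
    · simp [LFree3_top]
    · simp only [List.length_cons] at h
      simp only [LFree3_top, iff_false, not_not, GE.leg.injEq, reduceCtorEq, and_false, false_and,
        exists_false, or_false, not_and]
      omega
  · simp only [LFree3_cut, LFree3_top, List.length_nil, zero_le, and_true, reduceCtorEq, false_and,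
      exists_false, false_or, GE.ex.injEq]
    exact ⟨fun e => ⟨_, _, ⟨rfl, rfl⟩, e⟩, fun ⟨_, _, e, e'⟩ => e.2 ▸ e'⟩
  · simp [LFree3_cut]
  · simp [LFree3_cut]

lemma LFree3_single (hA : (GG d r t s).Cyc r A) {a : ℕ} {h : Hub} (he : GE.ex a h ∈ A)
    (hu : ∀ a' h', GE.ex a' h' ∈ A → h'.1 = h.1 → GE.ex a' h' = GE.ex a h) {j : ℕ} (hj : j < d) :
    ∃ β, LFree3_U A h.1 j β ∧ ¬ LFree3_U A h.1 j (!β) := by
  have k0 : LFree3_cut d (LFree3_top h.1 j) (GE.ex a h) :=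
    (LFree3_top_cut hj).2 (Or.inr ⟨_, _, rfl, rfl⟩)
  obtain ⟨e, h1, h2, h3⟩ := LFree3_one hA _ he k0
  rcases (LFree3_top_cut hj).1 h2 with ⟨a1, l1, β, rfl, h4⟩ | ⟨a', h', rfl, h4⟩
  · refine ⟨β, ⟨_, _, h1, h4⟩, ?_⟩
    rintro ⟨a2, l2, h5, h6⟩
    obtain ⟨e, g1, g2, g3, g4, g5⟩ := LFree3_three hA _ he h1 h5 k0 h2
      ((LFree3_top_cut hj).2 (Or.inl ⟨_, _, _, rfl, h6⟩)) (by simp) (by simp) (by simp)
    rcases (LFree3_top_cut hj).1 g2 with ⟨a3, l3, β', rfl, g6⟩ | ⟨a', h', rfl, g6⟩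
    · by_cases e : β' = β
      · subst e
        exact g4 (LFree3_uniq hA g1 h1 (g6.trans h4.symm))
      · obtain rfl : β' = !β := Bool.eq_not.2 e
        exact g5 (LFree3_uniq hA g1 h5 (g6.trans h6.symm))
    · exact g3 (hu _ _ g1 g6)
  · exact absurd (hu _ _ h1 h4) h3

lemma LFree3_both (hA : (GG d r t s).Cyc r A) {Z : Fin 3}
    (hZ : ∀ a h, GE.ex a h ∈ A → h.1 ≠ Z) {j : ℕ} {β : Bool} (h : LFree3_U A Z j β) (β' : Bool) :
    LFree3_U A Z j β' := by
  have hj := LFree3_lt hA h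
  obtain ⟨a, l, h1, h2⟩ := h
  obtain ⟨e, g1, g2, g3⟩ := LFree3_one hA (LFree3_top Z j) h1
    ((LFree3_top_cut hj).2 (Or.inl ⟨_, _, _, rfl, h2⟩))
  rcases (LFree3_top_cut hj).1 g2 with ⟨a1, l1, β1, rfl, g4⟩ | ⟨a', h', rfl, g4⟩
  · by_cases e : β1 = β
    · subst e
      exact absurd (LFree3_uniq hA g1 h1 (g4.trans h2.symm)) g3
    · by_cases e' : β' = β
      · exact e' ▸ ⟨_, _, h1, h2⟩
      · obtain rfl : β' = β1 := by
          revert e e'
          cases β <;> cases β' <;> cases β1 <;> simp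
        exact ⟨_, _, g1, g4⟩
  · exact absurd g4 (hZ _ _ g1)

/-- the bit number `j` of an address -/
def LFree3_bit (j : ℕ) : List Bool → Bool
  | [] => false
  | x :: l => if l.length = j then x else LFree3_bit j l

/-- the vertices below the upper halves of level `j` with bit `β` -/
def LFree3_low (j : ℕ) (β : Bool) (_ : ℕ) : TV → Prop
  | TV.nd _ l => j < l.length ∧ LFree3_bit j l = β
  | TV.lf l => LFree3_bit j l = β
  | TV.md _ l x => j ≤ l.length ∧ LFree3_bit j (x :: l) = β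

lemma LFree3_low_cut {j : ℕ} {β : Bool} (hj : j < d) {e : GE} :
    LFree3_cut d (LFree3_low j β) e ↔ ∃ a W l, e = GE.leg a (TE.up W l β) ∧ l.length = j := by
  rcases e with ⟨a', ⟨W', l', β'⟩ | ⟨W', l', β'⟩⟩ | ⟨a', h⟩ | ⟨a', h⟩ | ⟨c, g, o, k⟩
  · by_cases h : l'.length = j
    · simp only [LFree3_cut, LFree3_low, LFree3_bit, TG, h, lt_irrefl, false_and, le_refl,
        if_true, true_and, false_iff, not_not, GE.leg.injEq, TE.up.injEq]
      exact ⟨fun e => ⟨_, _, _, ⟨rfl, rfl, rfl, e⟩, h⟩, fun ⟨_, _, _, e, _⟩ => e.2.2.2⟩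
    · have h' : j < l'.length ↔ j ≤ l'.length := by omega
      simp only [LFree3_cut, LFree3_low, LFree3_bit, TG, h, if_false, h', not_true, false_iff,
        GE.leg.injEq, TE.up.injEq]
      rintro ⟨_, _, _, ⟨-, -, rfl, -⟩, e⟩
      exact h e
  · simp only [LFree3_cut, TG, sk]
    split_ifs with h
    · simp [LFree3_low]
    · simp only [List.length_cons] at h
      have h' : j ≤ l'.length := by omega
      simp [LFree3_low, h']
  · simp [LFree3_cut, LFree3_low]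
  · simp [LFree3_cut]
  · simp [LFree3_cut]

open Classical in
/-- an index for the edges of the cycle -/
noncomputable def LFree3_ix (h0 : Hub) :
    GE → (Σ _ : Fin 3, ℕ) ⊕ Bool ⊕ Bool × (Σ _ : Fin 3, Σ _ : ℕ, Bool)
  | GE.leg _ (TE.up W l β) => Sum.inr (Sum.inr (true, ⟨W, l.length, β⟩))
  | GE.leg _ (TE.lo W l β) => Sum.inr (Sum.inr (false, ⟨W, l.length, β⟩))
  | GE.ex _ h => Sum.inr (Sum.inl (decide (h = h0)))
  | GE.lx _ _ => Sum.inr (Sum.inl true)
  | GE.ce _ g _ k => Sum.inl ⟨g, k⟩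

open Classical in
lemma LFree3_count {c : Ch} {o : Fin 3 → Fin 5} {a b : ℕ} (hA : (GG d r t s).Cyc r A)
    (hc : c.h ≠ c.h')
    (ho : ∀ c' g o' k, GE.ce c' g o' k ∈ A ↔ (c' = c ∧ o' = o g ∧ k < glen c.m g))
    (hex : ∀ a' h, GE.ex a' h ∈ A ↔ (a' = a ∧ h = c.h) ∨ (a' = b ∧ h = c.h'))
    (hlx : ∀ a' h, GE.lx a' h ∉ A) :
    r = c.m + 2 + 2 * ∑ W : Fin 3, ∑ j ∈ Finset.range d,
      (Finset.univ.filter (LFree3_U A W j)).card := by
  have h := Finset.card_nbij (s := A)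
    (t := ((Finset.univ : Finset (Fin 3)).sigma fun g => Finset.range (glen c.m g)).disjSum
      ((Finset.univ : Finset Bool).disjSum ((Finset.univ : Finset Bool) ×ˢ
        ((Finset.univ : Finset (Fin 3)).sigma fun W => (Finset.range d).sigma fun j =>
          Finset.univ.filter (LFree3_U A W j))))) (LFree3_ix c.h) ?_ ?_ ?_
  · rw [hA.card, Finset.card_disjSum, Finset.card_disjSum, Finset.card_product, Finset.card_sigma,
      Finset.card_sigma] at h
    simp only [Finset.card_sigma, Finset.card_range, Finset.card_univ, Fintype.card_bool] at h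
    have h1 : ∑ g : Fin 3, glen c.m g = c.m := by
      simp [Fin.sum_univ_three, glen]
      omega
    rw [h, h1, add_assoc]
  · intro e he
    have he' : e ∈ A := he
    rcases e with ⟨a', ⟨W', l', β'⟩ | ⟨W', l', β'⟩⟩ | ⟨a', h⟩ | ⟨a', h⟩ | ⟨c, g, o, k⟩
    · have h1 : LFree3_U A W' l'.length β' := ⟨_, _, he', rfl⟩
      simp [LFree3_ix, h1, LFree3_lt hA h1]
    · have h1 : LFree3_U A W' l'.length β' := ⟨_, _, (LFree3_half hA _ _ _ _).2 he', rfl⟩
      simp [LFree3_ix, h1, LFree3_lt hA h1]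
    · simp [LFree3_ix, Classical.em]
    · simp [LFree3_ix]
    · simp [LFree3_ix, ((ho _ _ _ _).1 he').2.2]
  · intro e he e' he' h
    have k : e ∈ A := he
    have k' : e' ∈ A := he'
    rcases e with ⟨a1, ⟨W1, l1, β1⟩ | ⟨W1, l1, β1⟩⟩ | ⟨a1, h1⟩ | ⟨a1, h1⟩ | ⟨c1, g1, o1, k1⟩ <;>
      rcases e' with ⟨a2, ⟨W2, l2, β2⟩ | ⟨W2, l2, β2⟩⟩ | ⟨a2, h2⟩ | ⟨a2, h2⟩ | ⟨c2, g2, o2, k2⟩ <;>
      first
        | exact absurd k (hlx _ _)
        | exact absurd k' (hlx _ _)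
        | simp only [LFree3_ix, Sum.inr.injEq, Sum.inl.injEq, Prod.mk.injEq, Sigma.mk.injEq,
            heq_eq_eq, reduceCtorEq, Bool.true_eq_false, Bool.false_eq_true, false_and, true_and,
            decide_eq_decide] at h
    · obtain ⟨rfl, h3, rfl⟩ := h
      exact LFree3_uniq hA k k' h3
    · obtain ⟨rfl, h3, rfl⟩ := h
      have := LFree3_uniq hA ((LFree3_half hA _ _ _ _).2 k) ((LFree3_half hA _ _ _ _).2 k') h3
      simpa using this
    · rcases (hex _ _).1 k with ⟨rfl, rfl⟩ | ⟨rfl, rfl⟩ <;>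
        rcases (hex _ _).1 k' with ⟨rfl, rfl⟩ | ⟨rfl, rfl⟩
      · rfl
      · exact absurd (h.1 rfl).symm hc
      · exact absurd (h.2 rfl).symm hc
      · rfl
    · obtain ⟨rfl, rfl⟩ := h
      obtain ⟨rfl, rfl, -⟩ := (ho _ _ _ _).1 k
      obtain ⟨rfl, rfl, -⟩ := (ho _ _ _ _).1 k'
      rfl
  · rintro (⟨g, k⟩ | x | ⟨x, W, j, β⟩) hx
    · exact ⟨GE.ce c g (o g) k, (ho _ _ _ _).2 ⟨rfl, rfl, by simpa using hx⟩, rfl⟩
    · cases x
      · exact ⟨GE.ex b c.h', (hex _ _).2 (Or.inr ⟨rfl, rfl⟩), by simp [LFree3_ix, hc.symm]⟩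
      · exact ⟨GE.ex a c.h, (hex _ _).2 (Or.inl ⟨rfl, rfl⟩), by simp [LFree3_ix]⟩
    · have h1 : j < d ∧ LFree3_U A W j β := by simpa using hx
      obtain ⟨a', l, h2, rfl⟩ := h1.2
      cases x
      · exact ⟨_, (LFree3_half hA _ _ _ _).1 h2, rfl⟩
      · exact ⟨_, h2, rfl⟩

lemma LFree3_third : ∀ X Y : Fin 3, X ≠ Y →
    ∃ Z, Z ≠ X ∧ Z ≠ Y ∧ ∀ W, W ≠ X → W ≠ Y → W = Z := by
  decide

lemma LFree3_sum {X Y Z : Fin 3} (h1 : X ≠ Y) (h2 : Z ≠ X) (h3 : Z ≠ Y) (F : Fin 3 → ℕ) :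
    ∑ W, F W = F X + F Y + F Z := by
  rw [Fin.sum_univ_three]
  fin_cases X <;> fin_cases Y <;> fin_cases Z <;> simp at h1 h2 h3 ⊢ <;> omega

lemma LFree3_sum' (j₀ d : ℕ) :
    ∑ j ∈ Finset.range d, (if j₀ ≤ j then 2 else 0) = 2 * (d - j₀) := by
  induction d with
  | zero => simp
  | succ d ih =>
    rw [Finset.sum_range_succ, ih]
    split_ifs <;> omega

theorem with_chain {c : Ch} {o : Fin 3 → Fin 5} {a b : ℕ} (hA : (GG d r t s).Cyc r A)
    (hc : allowed d r c)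
    (ho : ∀ c' g o' k, GE.ce c' g o' k ∈ A ↔ (c' = c ∧ o' = o g ∧ k < glen c.m g))
    (hex : ∀ a' h, GE.ex a' h ∈ A ↔ (a' = a ∧ h = c.h) ∨ (a' = b ∧ h = c.h'))
    (hlx : ∀ a' h, GE.lx a' h ∉ A) (hab : ¬ (a = b ∧ c.h.1 = c.h'.1)) : False := by
  classical
  obtain ⟨-, -, hne, -, -, hS⟩ := hc
  have ea : GE.ex a c.h ∈ A := (hex _ _).2 (Or.inl ⟨rfl, rfl⟩)
  have eb : GE.ex b c.h' ∈ A := (hex _ _).2 (Or.inr ⟨rfl, rfl⟩)
  have hXY : c.h.1 ≠ c.h'.1 := fun hXY => by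
    obtain ⟨e, h1, h2, h3⟩ := LFree3_one hA (fun a' _ => a' = a) ea rfl
    rcases e with ⟨a', x⟩ | ⟨a', h⟩ | ⟨a', h⟩ | ⟨c, g, o, k⟩
    · exact h2 Iff.rfl
    · rcases (hex _ _).1 h1 with ⟨rfl, rfl⟩ | ⟨rfl, rfl⟩
      exacts [h3 rfl, hab ⟨h2.symm, hXY⟩]
    · exact h2
    · exact h2
  obtain ⟨Z, z1, z2, z3⟩ := LFree3_third _ _ hXY
  have hX := fun j (hj : j < d) => LFree3_single hA ea (fun a' h' h1 h2 => by
    rcases (hex _ _).1 h1 with ⟨rfl, rfl⟩ | ⟨rfl, rfl⟩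
    exacts [rfl, absurd h2.symm hXY]) hj
  have hY := fun j (hj : j < d) => LFree3_single hA eb (fun a' h' h1 h2 => by
    rcases (hex _ _).1 h1 with ⟨rfl, rfl⟩ | ⟨rfl, rfl⟩
    exacts [absurd h2 hXY, rfl]) hj
  have hZ := fun j β (h : LFree3_U A Z j β) => LFree3_both hA (fun a' h' h1 => by
    rcases (hex _ _).1 h1 with ⟨rfl, rfl⟩ | ⟨rfl, rfl⟩
    exacts [z1.symm, z2.symm]) h
  obtain ⟨j₀, j1, j2, j3⟩ : ∃ j₀ ≤ d, (∀ j < j₀, ∀ β, ¬ LFree3_U A Z j β) ∧
      ∀ j, j₀ ≤ j → j < d → ∀ β, LFree3_U A Z j β := by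
    have ex : ∃ j, j = d ∨ ∃ β, LFree3_U A Z j β := ⟨d, Or.inl rfl⟩
    refine ⟨Nat.find ex, Nat.find_min' ex (Or.inl rfl),
      fun j hj β h => Nat.find_min ex hj (Or.inr ⟨β, h⟩), fun j hj => ?_⟩
    induction j, hj using Nat.le_induction with
    | base =>
      intro h β
      obtain ⟨β', h'⟩ := (Nat.find_spec ex).resolve_left h.ne
      exact hZ _ _ h' β
    | succ j _ ih =>
      intro h β
      obtain ⟨β', h'⟩ := LFree3_next hA (ih (by omega) true) h
      exact hZ _ _ h' β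
  have one : ∀ W, (∀ j < d, ∃ β, LFree3_U A W j β ∧ ¬ LFree3_U A W j (!β)) →
      ∑ j ∈ Finset.range d, (Finset.univ.filter (LFree3_U A W j)).card = d := fun W h => by
    rw [Finset.sum_congr rfl (g := fun _ => 1) fun j hj => ?_]
    · simp
    obtain ⟨β, h1, h2⟩ := h j (Finset.mem_range.1 hj)
    refine Finset.card_eq_one.2 ⟨β, ?_⟩
    ext x
    simp only [Finset.mem_filter, Finset.mem_univ, true_and, Finset.mem_singleton]
    refine ⟨fun k => ?_, fun k => k ▸ h1⟩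
    by_contra hn
    exact h2 (Bool.eq_not.2 hn ▸ k)
  have two : ∑ j ∈ Finset.range d, (Finset.univ.filter (LFree3_U A Z j)).card = 2 * (d - j₀) := by
    rw [← LFree3_sum']
    refine Finset.sum_congr rfl fun j hj => ?_
    split_ifs with h
    · rw [Finset.filter_true_of_mem fun β _ => j3 j h (Finset.mem_range.1 hj) β]
      rfl
    · rw [Finset.filter_false_of_mem fun β _ => j2 j (by omega) β]
      rfl
  have cnt := LFree3_count hA hne ho hex hlx
  rw [LFree3_sum hXY z1 z2, one _ hX, one _ hY, two] at cnt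
  obtain ⟨s0, s1⟩ := hS.resolve_left hXY (d - j₀) (by omega) (by omega)
  rcases j1.eq_or_lt with rfl | j1
  · obtain ⟨j, β, hj, f1, f2⟩ := s0 (Nat.sub_self _)
    have n1 := LFree3_lab hA ea f1
    have n2 := LFree3_lab hA eb f2
    obtain ⟨β', k1, -⟩ := hY j hj
    obtain rfl : β' = β := by
      by_contra hn
      exact n2 (Bool.eq_not.2 hn ▸ k1)
    obtain ⟨a1, l1, k2, k3⟩ := k1
    obtain ⟨e, g1, g2, g3⟩ := LFree3_one hA (LFree3_low j β') k2
      ((LFree3_low_cut hj).2 ⟨_, _, _, rfl, k3⟩)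
    obtain ⟨a2, W, l2, rfl, g4⟩ := (LFree3_low_cut hj).1 g2
    by_cases w1 : W = c.h.1
    · exact n1 (w1 ▸ ⟨_, _, g1, g4⟩)
    by_cases w2 : W = c.h'.1
    · subst w2
      exact g3 (LFree3_uniq hA g1 k2 (g4.trans k3.symm))
    · exact j2 j hj β' (z3 W w1 w2 ▸ ⟨_, _, g1, g4⟩)
  · obtain ⟨Z', β, y1, y2, y3⟩ := s1 (Nat.sub_pos_of_lt j1)
    rw [z3 Z' y1 y2, Nat.sub_sub_self j1.le] at y3
    rcases y3 with y3 | y3
    exacts [LFree3_lab hA ea y3 (j3 _ le_rfl j1 β), LFree3_lab hA eb y3 (j3 _ le_rfl j1 β)]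

end LFree3

section LMain
theorem IG.main {V E C : Type} [Countable C] [Nonempty C] (g : IG V E C) (VV : Set V)
    (hfin : VV.Finite) (hs : g.Simple VV) {r : ℕ} (hr : 3 ≤ r) (hfree : ∀ A, ¬ g.Cyc r A)
    (K : Set V) (hK : K.Finite)
    (hserv : ∀ u ∈ VV, ∀ v ∈ VV, u ≠ v → u ∉ K → (∀ e, ¬ g.Step e u v) →
      ∀ i : C, ∃ VS CS, g.RP u v (r - 1) VS CS ∧ i ∉ CS)
    (F : Set E) (hF : F.Finite) (hE : ∀ e, g.ok e → e ∈ F ∨ (g.src e ∈ K ∧ g.tgt e ∈ K)) :
    rsat VV.ncard (SimpleGraph.cycleGraph r) ≤ F.ncard + K.ncard ^ 2 := by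
  classical
  obtain ⟨enc, henc⟩ := exists_injective_nat C
  have : Fintype VV := hfin.fintype
  have hcard : Fintype.card VV = VV.ncard := by
    rw [← Nat.card_eq_fintype_card, Nat.card_coe_set_eq]
  have hK' : (Subtype.val ⁻¹' K : Set VV).ncard ≤ K.ncard :=
    Set.ncard_le_ncard_of_injOn Subtype.val (fun _ h => h) Subtype.val_injective.injOn hK
  have hserv' : ∀ u v : VV, u ≠ v → ¬ (g.graph VV).Adj u v → u.1 ∉ K →
      ∀ i : C, ∃ VS CS, g.RP u.1 v.1 (r - 1) VS CS ∧ i ∉ CS := by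
    intro u v huv hadj hu i
    refine hserv u.1 u.2 v.1 v.2 (fun e => huv (Subtype.ext e)) hu (fun e he => hadj ?_) i
    exact (SimpleGraph.fromRel_adj _ _ _).2 ⟨huv, Or.inl ⟨e, he⟩⟩
  have := rsat_le_of_free (SimpleGraph.cycleGraph r) (g.graph VV) (g.colour VV enc)
    (Subtype.val ⁻¹' K) (fun h => (cyc_of_hasRainbow hs hr h).elim hfree) ?_ F.ncard ?_
  · rw [hcard] at this
    exact this.trans (by gcongr)
  · intro u v huv hadj hk i
    obtain ⟨i', hi'⟩ : ∃ i' : C, ∀ c, enc c = i → c = i' := by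
      by_cases h : ∃ c, enc c = i
      · obtain ⟨c, rfl⟩ := h
        exact ⟨c, fun c' e => henc e⟩
      · exact ⟨Classical.arbitrary C, fun c e => absurd ⟨c, e⟩ h⟩
    obtain ⟨VS, CS, h1, h2⟩ : ∃ VS CS, g.RP u.1 v.1 (r - 1) VS CS ∧ i' ∉ CS := by
      by_cases hu : u.1 ∈ K
      · obtain ⟨VS, CS, h1, h2⟩ := hserv' v u huv.symm (fun h => hadj h.symm)
          (fun hv => hk ⟨hu, hv⟩) i'
        exact ⟨VS, CS, h1.symm, h2⟩
      · exact hserv' u v huv hadj hu i'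
    exact servedAt_of_RP hs henc hr huv hadj h1 fun c hc e => h2 (hi' c e ▸ hc)
  · have h1 : {e | e ∈ (g.graph VV).edgeSet ∧ ¬ ∀ x ∈ e, x ∈ (Subtype.val ⁻¹' K : Set VV)}.ncard ≤
        ((fun e => s(g.src e, g.tgt e)) '' F).ncard := by
      refine Set.ncard_le_ncard_of_injOn (Sym2.map Subtype.val) ?_
        (Sym2.map.injective Subtype.val_injective).injOn (hF.image _)
      rintro z ⟨hz, hk⟩
      induction z using Sym2.ind with
      | h u v =>
        obtain ⟨e, he⟩ : ∃ e, g.Step e u.1 v.1 := by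
          obtain ⟨-, ⟨e, he⟩ | ⟨e, he⟩⟩ := (SimpleGraph.fromRel_adj _ _ _).1
            (show (g.graph VV).Adj u v from hz)
          · exact ⟨e, he⟩
          · exact ⟨e, he.symm⟩
        refine ⟨e, (hE e he.1).resolve_right fun hk' => hk ?_, ?_⟩
        · intro x hx
          rcases he.2 with ⟨a, b⟩ | ⟨a, b⟩ <;> rcases Sym2.mem_iff.1 hx with rfl | rfl <;>
            simp_all
        · rcases he.2 with ⟨a, b⟩ | ⟨a, b⟩ <;> simp [a, b]
    exact h1.trans (Set.ncard_image_le hF)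

theorem free {d r t s : ℕ} (hr : 24 * d + 18 ≤ r) (A : Finset GE) : ¬ (GG d r t s).Cyc r A := by
  intro hA
  rcases chain_struct (by omega) hA with h | ⟨c, hc, o, ho⟩
  · exact no_chain (by omega) hA h
  · obtain ⟨a, b, h1, h2, h3⟩ := exits hA hc ho
    exact with_chain hA hc ho h1 h2 h3

theorem bound {d r : ℕ} (hd : 1 ≤ d) (hr : 24 * d + 18 ≤ r) (t s : ℕ) :
    rsat ((Ker d r 0 0).ncard + s + t * (10 * 2 ^ d - 9)) (SimpleGraph.cycleGraph r) ≤
      t * (12 * 2 ^ d + 18 * d - 3) + ((Ker d r 0 0).ncard + s) ^ 2 := by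
  have := countable_GC
  have : Nonempty GC := ⟨GC.pl 0⟩
  have := (GG d r t s).main {v | GVal d r t s v} val_card.1 (simple hd) (by omega) (free hr)
    (Ker d r t s) ker_card.1 (fun u hu v hv huv hK hadj i => served hd hr hu hv huv hK hadj i)
    (EG d r t s) eg_card.1 edge_cases
  rw [val_card.2, (ker_card (t := t) (s := s)).2] at this
  exact this.trans (Nat.add_le_add_right eg_card.2 _)

/-- the bound with an additive constant -/
theorem bound' {d r : ℕ} (hd : 1 ≤ d) (hr : 24 * d + 18 ≤ r) : ∃ K : ℕ, ∀ n ≥ K,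
    (10 * 2 ^ d - 9) * rsat n (SimpleGraph.cycleGraph r) ≤
      (12 * 2 ^ d + 18 * d - 3) * n + K := by
  set κ := (Ker d r 0 0).ncard
  set τ := 10 * 2 ^ d - 9 with hτ
  set ε := 12 * 2 ^ d + 18 * d - 3
  have hpos : 0 < τ := by
    have : 0 < 2 ^ d := by positivity
    omega
  refine ⟨κ + τ * (κ + τ) ^ 2, fun n hn => ?_⟩
  have h1 := bound hd hr ((n - κ) / τ) ((n - κ) % τ)
  have h2 : κ + (n - κ) % τ + (n - κ) / τ * τ = n := by
    have := Nat.mod_add_div' (n - κ) τ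
    omega
  rw [h2] at h1
  have h3 : (n - κ) % τ ≤ τ := (Nat.mod_lt _ hpos).le
  have h4 : τ * ((n - κ) / τ) ≤ n := (Nat.mul_div_le _ _).trans (Nat.sub_le _ _)
  calc τ * rsat n (SimpleGraph.cycleGraph r)
      ≤ τ * ((n - κ) / τ * ε + (κ + τ) ^ 2) := by
        gcongr
        exact h1.trans (by gcongr)
    _ = ε * (τ * ((n - κ) / τ)) + τ * (κ + τ) ^ 2 := by ring
    _ ≤ ε * n + (κ + τ * (κ + τ) ^ 2) := by
        gcongr
        omega

theorem upper {r : ℕ} (hr : 42 ≤ r) : ∀ᶠ n : ℕ in Filter.atTop,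
    (rsat n (SimpleGraph.cycleGraph r) : ℝ) ≤ (6 / 5 + r * (2 : ℝ) ^ (-(r : ℝ) / 24)) * n := by
  obtain ⟨d, hd, h1, h2⟩ : ∃ d, 1 ≤ d ∧ 24 * d + 18 ≤ r ∧ r ≤ 24 * d + 41 :=
    ⟨(r - 18) / 24, by omega, by omega, by omega⟩
  obtain ⟨K, hK⟩ := bound' hd h1
  have hP : (2 : ℝ) ≤ 2 ^ d := by
    calc (2 : ℝ) = 2 ^ 1 := by norm_num
      _ ≤ 2 ^ d := by gcongr; norm_num
  set P : ℝ := 2 ^ d with hPd
  set η : ℝ := (2 : ℝ) ^ (-(r : ℝ) / 24) with hη
  have hη1 : 1 / 4 ≤ η * P := by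
    have e1 : η * P = (2 : ℝ) ^ (-(r : ℝ) / 24 + d) := by
      rw [Real.rpow_add (by norm_num), Real.rpow_natCast]
    have e2 : (1 / 4 : ℝ) = (2 : ℝ) ^ (-2 : ℝ) := by
      rw [Real.rpow_neg (by norm_num), Real.rpow_two]
      norm_num
    have h3 : (r : ℝ) ≤ 24 * d + 41 := by exact_mod_cast h2
    rw [e1, e2]
    exact Real.rpow_le_rpow_of_exponent_le (by norm_num) (by linarith)
  have hη0 : 0 < η := by positivity
  have hr1 : (24 : ℝ) * d + 18 ≤ r := by exact_mod_cast h1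
  have hd1 : (1 : ℝ) ≤ d := by exact_mod_cast hd
  filter_upwards [Filter.eventually_ge_atTop K] with n hn
  have h4 := hK n hn
  have hpos : 0 < 2 ^ d := by positivity
  have h5 : (10 * P - 9) * (rsat n (SimpleGraph.cycleGraph r) : ℝ) ≤
      (12 * P + 18 * d - 3) * n + K := by
    have a1 : ((10 * 2 ^ d - 9 : ℕ) : ℝ) = 10 * P - 9 := by
      rw [Nat.cast_sub (by omega)]
      simp [hPd]
    have a2 : ((12 * 2 ^ d + 18 * d - 3 : ℕ) : ℝ) = 12 * P + 18 * d - 3 := by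
      rw [Nat.cast_sub (by omega)]
      simp [hPd]
    rw [← a1, ← a2]
    exact_mod_cast h4
  have hn' : (K : ℝ) ≤ n := by exact_mod_cast hn
  have hn0 : (0 : ℝ) ≤ n := by positivity
  have h6 : 12 * P + 18 * d - 3 + 1 ≤ (10 * P - 9) * (6 / 5 + r * η) := by
    have b1 : (r : ℝ) * (5 / 4) ≤ (10 * P - 9) * (r * η) := by
      have b2 : 5 * P ≤ 10 * P - 9 := by linarith
      calc (r : ℝ) * (5 / 4) ≤ r * (5 * (η * P)) := by gcongr; linarith
        _ = 5 * P * (r * η) := by ring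
        _ ≤ (10 * P - 9) * (r * η) := by gcongr
    nlinarith
  have h7 : (0 : ℝ) < 10 * P - 9 := by linarith
  refine le_of_mul_le_mul_left ?_ h7
  calc (10 * P - 9) * (rsat n (SimpleGraph.cycleGraph r) : ℝ)
      ≤ (12 * P + 18 * d - 3 + 1) * n := by linarith
    _ ≤ (10 * P - 9) * (6 / 5 + r * η) * n := by gcongr
    _ = _ := by ring

end LMain

end Pool.Agent.MP_8ccfd2_co.LC
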