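import Pool.Agent.MP_8ccfd2_co.LongA

namespace Pool.Agent.MP_8ccfd2_co.Low

open Finset

variable {V : Type}

/-- `p 0, …, p L` is a path of `G` -/
structure IsP (G : SimpleGraph V) (L : ℕ) (p : ℕ → V) : Prop where
  inj : ∀ a ≤ L, ∀ b ≤ L, p a = p b → a = b
  adj : ∀ a < L, G.Adj (p a) (p (a + 1))

/-- a path of length `L` from `u` to `v` avoiding the colour `i` -/
def PA (G : SimpleGraph V) (c : Sym2 V → ℕ) (L : ℕ) (u v : V) (i : ℕ) : Prop :=
  ∃ p : ℕ → V, p 0 = u ∧ p L = v ∧ IsP G L p ∧ ∀ a < L, c s(p a, p (a + 1)) ≠ i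

lemma IsP.rev {G : SimpleGraph V} {L : ℕ} {p : ℕ → V} (h : IsP G L p) :
    IsP G L (fun a => p (L - a)) := by
  refine ⟨fun a ha b hb hab => ?_, fun a ha => ?_⟩
  · have := h.inj _ (Nat.sub_le _ _) _ (Nat.sub_le _ _) hab
    omega
  · have := h.adj (L - (a + 1)) (by omega)
    rw [show L - (a + 1) + 1 = L - a by omega] at this
    exact this.symm

lemma PA.symm {G : SimpleGraph V} {c : Sym2 V → ℕ} {L : ℕ} {u v : V} {i : ℕ}
    (h : PA G c L u v i) : PA G c L v u i := by
  obtain ⟨p, h0, hL, hp, hc⟩ := h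
  refine ⟨fun a => p (L - a), by simpa using hL, by simpa using h0, hp.rev, fun a ha => ?_⟩
  have := hc (L - (a + 1)) (by omega)
  rw [show L - (a + 1) + 1 = L - a by omega, Sym2.eq_swap] at this
  exact this

lemma pa_aux {G : SimpleGraph V} {c c' : Sym2 V → ℕ} {n : ℕ} {u v : V} {i : ℕ}
    (hc : ∀ z, z ≠ s(u, v) → c' z = c z) (hi : c' s(u, v) = i) {f : Fin (n + 3) → V}
    (hf : Function.Injective f)
    (hadj : ∀ x y, (SimpleGraph.cycleGraph (n + 3)).Adj x y →
      (G ⊔ SimpleGraph.edge u v).Adj (f x) (f y))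
    (hinj : Set.InjOn (fun e => c' (Sym2.map f e)) (SimpleGraph.cycleGraph (n + 3)).edgeSet)
    (x : Fin (n + 3)) (hx : s(f x, f (x + 1)) = s(u, v)) :
    PA G c (n + 2) (f (x + 1)) (f x) i := by
  have hcyc : ∀ k : Fin (n + 3), (SimpleGraph.cycleGraph (n + 3)).Adj k (k + 1) := by
    intro k
    rw [SimpleGraph.cycleGraph_adj]
    right
    simp
  have hs : ∀ m : ℕ, Fin.ofNat (n + 3) (m + 1) = Fin.ofNat (n + 3) m + 1 := by
    intro m
    apply Fin.ext
    simp [Fin.val_add]
  have hlast : x + 1 + Fin.ofNat (n + 3) (n + 2) = x := by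
    rw [add_assoc, add_comm 1, ← hs]
    have : Fin.ofNat (n + 3) (n + 2 + 1) = 0 := by
      apply Fin.ext
      simp
    rw [this, add_zero]
  have hi' : ∀ a ≤ n + 2, ∀ b ≤ n + 2,
      x + 1 + Fin.ofNat (n + 3) a = x + 1 + Fin.ofNat (n + 3) b → a = b := by
    intro a ha b hb hab
    have := congrArg Fin.val (add_left_cancel hab)
    simp only [Fin.val_ofNat] at this
    rwa [Nat.mod_eq_of_lt (by omega), Nat.mod_eq_of_lt (by omega)] at this
  have hne : ∀ a < n + 2, s(f (x + 1 + Fin.ofNat (n + 3) a), f (x + 1 + Fin.ofNat (n + 3) a + 1))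
      ≠ s(u, v) := by
    intro a ha h
    rw [← hx] at h
    have h2 : s(x + 1 + Fin.ofNat (n + 3) a, x + 1 + Fin.ofNat (n + 3) a + 1) = s(x, x + 1) :=
      Sym2.map.injective hf (by simpa only [Sym2.map_mk] using h)
    have h3 := LC.LGen2_pair h2
    have := hi' a ha.le (n + 2) le_rfl (h3.trans hlast.symm)
    omega
  refine ⟨fun a => f (x + 1 + Fin.ofNat (n + 3) a), ?_, by simp only [hlast], ⟨?_, ?_⟩, ?_⟩
  · have : Fin.ofNat (n + 3) 0 = 0 := rfl
    simp only [this, add_zero]
  · intro a ha b hb hab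
    exact hi' a ha b hb (hf hab)
  · intro a ha
    simp only [hs, ← add_assoc]
    rcases hadj _ _ (hcyc (x + 1 + Fin.ofNat (n + 3) a)) with h | h
    · exact h
    · exfalso
      apply hne a ha
      rw [SimpleGraph.edge_adj] at h
      rcases h.1 with ⟨h1, h2⟩ | ⟨h1, h2⟩
      · rw [h1, h2]
      · rw [h1, h2, Sym2.eq_swap]
  · intro a ha h
    simp only [hs, ← add_assoc] at h
    rw [← hc _ (hne a ha), ← hi, ← hx] at h
    have h2 : s(x + 1 + Fin.ofNat (n + 3) a, x + 1 + Fin.ofNat (n + 3) a + 1) = s(x, x + 1) :=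
      hinj (hcyc (x + 1 + Fin.ofNat (n + 3) a)) (hcyc x) h
    have h3 := LC.LGen2_pair h2
    have := hi' a ha.le (n + 2) le_rfl (h3.trans hlast.symm)
    omega

lemma pa_of_sat {G : SimpleGraph V} {c : Sym2 V → ℕ} {n : ℕ}
    (h : RainbowSat (SimpleGraph.cycleGraph (n + 3)) G c) {u v : V} (huv : u ≠ v)
    (hn : ¬ G.Adj u v) (i : ℕ) : PA G c (n + 2) u v i := by
  obtain ⟨c', hc, hi, f, hf, hadj, hinj⟩ : ∃ c' : Sym2 V → ℕ, (∀ z, z ≠ s(u, v) → c' z = c z) ∧
      c' s(u, v) = i ∧
      HasRainbow (SimpleGraph.cycleGraph (n + 3)) (G ⊔ SimpleGraph.edge u v) c' := by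
    refine ⟨_, fun z hz => ?_, ?_, h.2 u v huv hn i⟩
    · simp [hz]
    · simp
  by_cases hx : ∃ x : Fin (n + 3), s(f x, f (x + 1)) = s(u, v)
  · obtain ⟨x, hx⟩ := hx
    have := pa_aux hc hi hf hadj hinj x hx
    rcases Sym2.eq_iff.1 hx with ⟨h1, h2⟩ | ⟨h1, h2⟩
    · rw [h1, h2] at this
      exact this.symm
    · rw [h1, h2] at this
      exact this
  · exfalso
    have key : ∀ x y, (SimpleGraph.cycleGraph (n + 3)).Adj x y → s(f x, f y) ≠ s(u, v) := by
      intro x y hxy he
      rw [SimpleGraph.cycleGraph_adj] at hxy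
      rcases hxy with h1 | h1
      · have : x = y + 1 := by rw [← h1]; abel
        exact hx ⟨y, by rw [← this, Sym2.eq_swap, he]⟩
      · have : y = x + 1 := by rw [← h1]; abel
        exact hx ⟨x, by rw [← this, he]⟩
    refine h.1 ⟨f, hf, fun x y hxy => ?_, fun e he e' he' hee => hinj he he' ?_⟩
    · rcases hadj x y hxy with h1 | h1
      · exact h1
      · exfalso
        apply key x y hxy
        rw [SimpleGraph.edge_adj] at h1
        rcases h1.1 with ⟨h1, h2⟩ | ⟨h1, h2⟩
        · rw [h1, h2]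
        · rw [h1, h2, Sym2.eq_swap]
    · induction e using Sym2.ind with
      | _ a b =>
      induction e' using Sym2.ind with
      | _ a' b' =>
      simp only [Sym2.map_mk] at hee ⊢
      rw [hc _ (key a b he), hc _ (key a' b' he'), hee]

section Deg

variable [Fintype V] [DecidableEq V] {G : SimpleGraph V} [DecidableRel G.Adj]
  {c : Sym2 V → ℕ} {L : ℕ}

/-- the saturation property in path form -/
def Sat (G : SimpleGraph V) (c : Sym2 V → ℕ) (L : ℕ) : Prop :=
  ∀ u v, u ≠ v → ¬ G.Adj u v → ∀ i, PA G c L u v i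

lemma exists_out (s : Finset V) (h : s.card < Fintype.card V) : ∃ v, v ∉ s := by
  by_contra hh
  push Not at hh
  have : s = univ := eq_univ_iff_forall.2 hh
  rw [this, card_univ] at h
  exact lt_irrefl _ h

lemma two_le_deg (h : Sat G c L) (hL : 5 ≤ L) (hn : 6 ≤ Fintype.card V) (u : V) :
    2 ≤ G.degree u := by
  by_contra hd
  obtain ⟨v, hv⟩ := exists_out (insert u (G.neighborFinset u)) (by
    have := card_insert_le u (G.neighborFinset u)
    rw [G.card_neighborFinset_eq_degree] at this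
    omega)
  simp only [mem_insert, SimpleGraph.mem_neighborFinset, not_or] at hv
  obtain ⟨p, h0, -, hp, -⟩ := h u v (Ne.symm hv.1) hv.2 0
  obtain ⟨q, k0, -, hq, hc⟩ := h u v (Ne.symm hv.1) hv.2 (c s(u, p 1))
  have h1 : G.Adj u (p 1) := h0 ▸ hp.adj 0 (by omega)
  have h2 : G.Adj u (q 1) := k0 ▸ hq.adj 0 (by omega)
  have h3 : q 1 ≠ p 1 := fun e => hc 0 (by omega) (by rw [k0, zero_add, e])
  have : 1 < (G.neighborFinset u).card :=
    one_lt_card.2 ⟨q 1, by simpa using h2, p 1, by simpa using h1, h3⟩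
  rw [G.card_neighborFinset_eq_degree] at this
  omega

lemma nbr_two {u a b : V} (hd : G.degree u = 2) (ha : G.Adj u a) (hb : G.Adj u b) (hab : a ≠ b)
    {y : V} (hy : G.Adj u y) : y = a ∨ y = b := by
  by_contra hh
  push Not at hh
  have : 2 < (G.neighborFinset u).card :=
    two_lt_card_iff.2 ⟨y, a, b, by simpa using hy, by simpa using ha, by simpa using hb,
      hh.1, hh.2, hab⟩
  rw [G.card_neighborFinset_eq_degree] at this
  omega

omit [DecidableEq V] in
lemma exists_other {u a : V} (hd : 2 ≤ G.degree u) : ∃ b, G.Adj u b ∧ b ≠ a := by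
  have : 1 < (G.neighborFinset u).card := by
    rw [G.card_neighborFinset_eq_degree]; omega
  obtain ⟨b, hb, hba⟩ := exists_mem_ne this a
  exact ⟨b, by simpa using hb, hba⟩

lemma apex (h : Sat G c L) (hL : 5 ≤ L) (hn : 6 ≤ Fintype.card V) {u a z : V}
    (hu : G.degree u = 2) (hda : G.degree a = 2) (hua : G.Adj u a) (huz : G.Adj u z)
    (haz : a ≠ z) : 5 ≤ G.degree z := by
  obtain ⟨b, hab, hbu⟩ := exists_other (G := G) (u := a) (a := u) hda.ge
  have hbz : b = z := by
    by_contra hbz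
    have hnb : ¬ G.Adj u b := fun hh => by
      rcases nbr_two hu hua huz haz hh with e | e
      · exact hab.ne e.symm
      · exact hbz e
    obtain ⟨p, h0, hl, hp, hc⟩ := h u b hbu.symm hnb (c s(u, z))
    have h1 : G.Adj u (p 1) := h0 ▸ hp.adj 0 (by omega)
    rcases nbr_two hu hua huz haz h1 with e | e
    · have h2 : G.Adj a (p 2) := e ▸ hp.adj 1 (by omega)
      rcases nbr_two hda hua.symm hab hbu.symm h2 with e2 | e2
      · have := hp.inj 2 (by omega) 0 (by omega) (e2.trans h0.symm)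
        omega
      · have := hp.inj 2 (by omega) L le_rfl (e2.trans hl.symm)
        omega
    · exact hc 0 (by omega) (by rw [h0, zero_add, e])
  subst hbz
  have key : ∀ v, v ≠ u → v ≠ a → v ≠ b → ∀ i, ∃ y, G.Adj b y ∧ y ≠ u ∧ y ≠ a ∧ y ≠ v ∧
      c s(b, y) ≠ i := by
    intro v h1 h2 h3 i
    have hnv : ¬ G.Adj u v := fun hh => by
      rcases nbr_two hu hua huz haz hh with e | e
      · exact h2 e
      · exact h3 e
    obtain ⟨p, h0, hl, hp, hc⟩ := h u v h1.symm hnv i
    have k1 : G.Adj u (p 1) := h0 ▸ hp.adj 0 (by omega)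
    rcases nbr_two hu hua huz haz k1 with e | e
    · have k2 : G.Adj a (p 2) := e ▸ hp.adj 1 (by omega)
      rcases nbr_two hda hua.symm hab hbu.symm k2 with e2 | e2
      · have := hp.inj 2 (by omega) 0 (by omega) (e2.trans h0.symm)
        omega
      · refine ⟨p 3, e2 ▸ hp.adj 2 (by omega), fun e3 => ?_, fun e3 => ?_, fun e3 => ?_,
          e2 ▸ hc 2 (by omega)⟩
        · have := hp.inj 3 (by omega) 0 (by omega) (e3.trans h0.symm)
          omega
        · have := hp.inj 3 (by omega) 1 (by omega) (e3.trans e.symm)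
          omega
        · have := hp.inj 3 (by omega) L le_rfl (e3.trans hl.symm)
          omega
    · refine ⟨p 2, e ▸ hp.adj 1 (by omega), fun e3 => ?_, fun e3 => ?_, fun e3 => ?_,
        e ▸ hc 1 (by omega)⟩
      · have := hp.inj 2 (by omega) 0 (by omega) (e3.trans h0.symm)
        omega
      · have k3 : G.Adj a (p 3) := e3 ▸ hp.adj 2 (by omega)
        rcases nbr_two hda hua.symm hab hbu.symm k3 with e4 | e4
        · have := hp.inj 3 (by omega) 0 (by omega) (e4.trans h0.symm)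
          omega
        · have := hp.inj 3 (by omega) 1 (by omega) (e4.trans e.symm)
          omega
      · have := hp.inj 2 (by omega) L le_rfl (e3.trans hl.symm)
        omega
  obtain ⟨v, hv⟩ := exists_out ({u, a, b} : Finset V) (by
    have := card_le_three (a := u) (b := a) (c := b)
    omega)
  simp only [mem_insert, mem_singleton, not_or] at hv
  obtain ⟨y1, a1, b1, c1, -, -⟩ := key v hv.1 hv.2.1 hv.2.2 0
  obtain ⟨y2, a2, b2, c2, d2, -⟩ := key y1 b1 c1 a1.ne' 0
  obtain ⟨y3, a3, b3, c3, d3, e3⟩ := key y1 b1 c1 a1.ne' (c s(b, y2))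
  have f3 : y3 ≠ y2 := fun e => e3 (by rw [e])
  have hsub : ({u, a, y1, y2, y3} : Finset V) ⊆ G.neighborFinset b := by
    intro x hx
    simp only [mem_insert, mem_singleton] at hx
    rw [SimpleGraph.mem_neighborFinset]
    rcases hx with rfl | rfl | rfl | rfl | rfl
    exacts [huz.symm, hab.symm, a1, a2, a3]
  have hcard : ({u, a, y1, y2, y3} : Finset V).card = 5 := by
    rw [card_insert_of_notMem, card_insert_of_notMem, card_insert_of_notMem,
      card_insert_of_notMem, card_singleton]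
    · simpa using f3.symm
    · simp [d2.symm, d3.symm]
    · simp [c1.symm, c2.symm, c3.symm]
    · simp [hua.ne, b1.symm, b2.symm, b3.symm]
  have := card_le_card hsub
  rw [hcard, G.card_neighborFinset_eq_degree] at this
  exact this

/-- ordered pairs of adjacent vertices with degree sum at least 6 -/
def Dd (G : SimpleGraph V) [DecidableRel G.Adj] : Finset (V × V) :=
  univ.filter fun q => G.Adj q.1 q.2 ∧ 6 ≤ G.degree q.1 + G.degree q.2

/-- discharging weights -/
noncomputable def wt (a b : ℕ) : ℝ :=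
  if a = 2 ∧ b = 2 then 5 / 12 else if a = 2 ∧ 5 ≤ b then 7 / 12 else 1 / a

lemma wt_edge {a b : ℕ} (ha : 2 ≤ a) (hb : 2 ≤ b) :
    wt a b + wt b a ≤ 5 / 6 - if 6 ≤ a + b then 1 / 20 else 0 := by
  have key : ∀ x : ℕ, ∀ k : ℕ, 0 < k → k ≤ x → (1 : ℝ) / x ≤ 1 / k := fun x k hk h =>
    one_div_le_one_div_of_le (by exact_mod_cast hk) (by exact_mod_cast h)
  have H : ∀ x y : ℕ, 2 ≤ x → x ≤ y →
      wt x y + wt y x ≤ 5 / 6 - if 6 ≤ x + y then 1 / 20 else 0 := by
    intro x y hx hxy
    unfold wt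
    rcases (by omega : x = 2 ∨ 3 ≤ x) with rfl | h3
    · rcases (by omega : y = 2 ∨ y = 3 ∨ y = 4 ∨ 5 ≤ y) with rfl | rfl | rfl | h5
      · norm_num
      · norm_num
      · norm_num
      · have := key y 5 (by norm_num) h5
        rw [if_neg (by omega), if_pos ⟨rfl, h5⟩, if_neg (by omega), if_neg (by omega),
          if_pos (by omega)]
        push_cast at this
        linarith
    · have h1 := key x 3 (by norm_num) h3
      have h2 := key y 3 (by norm_num) (h3.trans hxy)
      rw [if_neg (by omega), if_neg (by omega), if_neg (by omega), if_neg (by omega),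
        if_pos (by omega)]
      push_cast at h1 h2
      linarith
  rcases le_total a b with h | h
  · exact H a b ha h
  · have := H b a hb h
    rwa [add_comm (wt b a), add_comm b] at this

lemma wt_vertex (h : Sat G c L) (hL : 5 ≤ L) (hn : 6 ≤ Fintype.card V) (u : V) :
    1 ≤ ∑ v ∈ G.neighborFinset u, wt (G.degree u) (G.degree v) := by
  have hd := two_le_deg h hL hn u
  by_cases h2 : G.degree u = 2
  · obtain ⟨a, b, hab, hs⟩ := card_eq_two.1 ((G.card_neighborFinset_eq_degree u).trans h2)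
    have ha : G.Adj u a := by rw [← G.mem_neighborFinset, hs]; simp
    have hb : G.Adj u b := by rw [← G.mem_neighborFinset, hs]; simp
    rw [hs, sum_pair hab, h2]
    unfold wt
    by_cases h3 : G.degree a = 2
    · have := apex h hL hn h2 h3 ha hb hab
      rw [if_pos ⟨rfl, h3⟩, if_neg (by omega), if_pos ⟨rfl, this⟩]
      norm_num
    · by_cases h4 : G.degree b = 2
      · have := apex h hL hn h2 h4 hb ha hab.symm
        rw [if_neg (by omega), if_pos ⟨rfl, this⟩, if_pos ⟨rfl, h4⟩]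
        norm_num
      · rw [if_neg (by omega), if_neg (c := 2 = 2 ∧ G.degree b = 2) (by omega)]
        split_ifs <;> norm_num
  · have : ∀ v ∈ G.neighborFinset u, wt (G.degree u) (G.degree v) = 1 / G.degree u := by
      intro v _
      unfold wt
      rw [if_neg (by omega), if_neg (by omega)]
    rw [sum_congr rfl this, sum_const, G.card_neighborFinset_eq_degree, nsmul_eq_mul,
      mul_one_div_cancel (by exact_mod_cast (by omega : G.degree u ≠ 0))]

lemma discharge (h : Sat G c L) (hL : 5 ≤ L) (hn : 6 ≤ Fintype.card V) :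
    2 * (Fintype.card V : ℝ) ≤ 5 / 3 * G.edgeFinset.card - (Dd G).card / 20 := by
  have hd := two_le_deg h hL hn
  let W : V → V → ℝ := fun u v => if G.Adj u v then wt (G.degree u) (G.degree v) else 0
  have h1 : (Fintype.card V : ℝ) ≤ ∑ u, ∑ v, W u v := by
    rw [← card_univ, card_eq_sum_ones]
    push_cast
    refine sum_le_sum fun u _ => (wt_vertex h hL hn u).trans (le_of_eq ?_)
    rw [← sum_filter, SimpleGraph.neighborFinset_eq_filter]
  have h2 : ∑ u, ∑ v, W u v = ∑ u, ∑ v, W v u := sum_comm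
  have h3 : ∑ u, ∑ v, (W u v + W v u) ≤ ∑ u, ∑ v, (5 / 6 * (if G.Adj u v then (1 : ℝ) else 0) -
      1 / 20 * (if G.Adj u v ∧ 6 ≤ G.degree u + G.degree v then 1 else 0)) := by
    refine sum_le_sum fun u _ => sum_le_sum fun v _ => ?_
    by_cases huv : G.Adj u v
    · have := wt_edge (hd u) (hd v)
      simp only [W, huv, huv.symm, if_true, true_and]
      split_ifs at this ⊢ <;> linarith
    · have : ¬ G.Adj v u := fun hh => huv hh.symm
      simp [W, huv, this]
  have h4 : ∑ u, ∑ v, (if G.Adj u v then (1 : ℝ) else 0) = 2 * G.edgeFinset.card := by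
    have := G.sum_degrees_eq_twice_card_edges
    rw [show (2 : ℝ) * G.edgeFinset.card = ((2 * G.edgeFinset.card : ℕ) : ℝ) by push_cast; ring,
      ← this]
    push_cast
    refine sum_congr rfl fun u _ => ?_
    rw [sum_boole, ← SimpleGraph.neighborFinset_eq_filter, G.card_neighborFinset_eq_degree]
  have h5 : ∑ u, ∑ v, (if G.Adj u v ∧ 6 ≤ G.degree u + G.degree v then (1 : ℝ) else 0) =
      (Dd G).card := by
    rw [← Fintype.sum_prod_type', sum_boole]
    rfl
  simp only [sum_add_distrib, sum_sub_distrib, ← mul_sum] at h3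
  rw [h4, h5] at h3
  linarith

/-- one non-backtracking step along an edge of degree sum at most 5 -/
def kids (G : SimpleGraph V) [DecidableRel G.Adj] (q : V × V) : Finset V :=
  ((G.neighborFinset q.2).erase q.1).filter fun x => G.degree q.2 + G.degree x ≤ 5

/-- all steps from a set of ordered pairs -/
def step (G : SimpleGraph V) [DecidableRel G.Adj] (R : Finset (V × V)) : Finset (V × V) :=
  R.biUnion fun q => (kids G q).image fun x => (q.2, x)

/-- potential -/
noncomputable def pot (G : SimpleGraph V) [DecidableRel G.Adj] (v : V) : ℝ :=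
  if G.degree v = 3 then √2 else 1

lemma one_le_sqrt_two : (1 : ℝ) ≤ √2 := Real.one_le_sqrt.2 (by norm_num)

omit [DecidableEq V] in
lemma one_le_pot (v : V) : 1 ≤ pot G v := by
  unfold pot
  split_ifs
  exacts [one_le_sqrt_two, le_rfl]

omit [DecidableEq V] in
lemma pot_le (v : V) : pot G v ≤ √2 := by
  unfold pot
  split_ifs
  exacts [le_rfl, one_le_sqrt_two]

lemma sum_kids (hd : ∀ v, 2 ≤ G.degree v) {q : V × V} (hq : G.Adj q.1 q.2) :
    ∑ x ∈ kids G q, pot G x ≤ √2 * pot G q.2 := by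
  have hc : (kids G q).card ≤ G.degree q.2 - 1 := by
    refine (card_filter_le _ _).trans (le_of_eq ?_)
    rw [card_erase_of_mem (by simpa using hq.symm), G.card_neighborFinset_eq_degree]
  have h0 := one_le_sqrt_two
  rcases (by have := hd q.2; omega : G.degree q.2 = 2 ∨ G.degree q.2 = 3 ∨ 4 ≤ G.degree q.2)
    with h | h | h
  · refine (sum_le_card_nsmul _ _ √2 fun x _ => pot_le x).trans ?_
    have h1 : ((kids G q).card : ℝ) ≤ 1 := by exact_mod_cast (by omega : (kids G q).card ≤ 1)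
    have h2 := one_le_pot (G := G) q.2
    rw [nsmul_eq_mul]
    nlinarith
  · refine (sum_le_card_nsmul _ _ 1 fun x hx => ?_).trans ?_
    · have := (mem_filter.1 hx).2
      unfold pot
      rw [if_neg (by omega)]
    · have h1 : ((kids G q).card : ℝ) ≤ 2 := by exact_mod_cast (by omega : (kids G q).card ≤ 2)
      unfold pot
      rw [if_pos h, nsmul_eq_mul, Real.mul_self_sqrt (by norm_num)]
      linarith
  · have : kids G q = ∅ := filter_eq_empty_iff.2 fun x _ => by
      have := hd x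
      omega
    rw [this, sum_empty]
    have h2 := one_le_pot (G := G) q.2
    positivity

lemma sum_biUnion_le' {α β : Type} [DecidableEq β] (s : Finset α) (t : α → Finset β) (g : β → ℝ)
    (hg : ∀ b, 0 ≤ g b) : ∑ b ∈ s.biUnion t, g b ≤ ∑ a ∈ s, ∑ b ∈ t a, g b := by
  classical
  induction s using Finset.induction_on with
  | empty => simp
  | insert a s ha ih =>
    rw [biUnion_insert, sum_insert ha]
    have h1 := sum_union_inter (s₁ := t a) (s₂ := s.biUnion t) (f := g)
    have h2 : 0 ≤ ∑ b ∈ t a ∩ s.biUnion t, g b := sum_nonneg fun b _ => hg b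
    linarith

lemma iter_le (hd : ∀ v, 2 ≤ G.degree v) (R : Finset (V × V)) (hR : ∀ q ∈ R, G.Adj q.1 q.2)
    (k : ℕ) : (∀ q ∈ (step G)^[k] R, G.Adj q.1 q.2) ∧
      ∑ q ∈ (step G)^[k] R, pot G q.2 ≤ √2 ^ (k + 1) * R.card := by
  induction k with
  | zero =>
    refine ⟨hR, (sum_le_card_nsmul _ _ √2 fun x _ => pot_le x.2).trans (le_of_eq ?_)⟩
    simp [mul_comm]
  | succ k ih =>
    rw [Function.iterate_succ_apply']
    refine ⟨fun q hq => ?_, ?_⟩
    · obtain ⟨s, -, hs⟩ := mem_biUnion.1 hq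
      obtain ⟨x, hx, rfl⟩ := mem_image.1 hs
      simpa using (mem_erase.1 (mem_filter.1 hx).1).2
    · refine (sum_biUnion_le' _ _ _ fun b => zero_le_one.trans (one_le_pot _)).trans ?_
      calc _ ≤ ∑ q ∈ (step G)^[k] R, √2 * pot G q.2 := by
            refine sum_le_sum fun q hq => ?_
            rw [sum_image fun x _ y _ h => (Prod.mk.inj h).2]
            exact sum_kids hd (ih.1 q hq)
        _ ≤ √2 * (√2 ^ (k + 1) * R.card) := by
            rw [← mul_sum]
            exact mul_le_mul_of_nonneg_left ih.2 (Real.sqrt_nonneg _)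
        _ = _ := by ring

lemma card_iter (hd : ∀ v, 2 ≤ G.degree v) (R : Finset (V × V)) (hR : ∀ q ∈ R, G.Adj q.1 q.2)
    (k : ℕ) : ((((step G)^[k] R).image Prod.snd).card : ℝ) ≤ √2 ^ (k + 1) * R.card := by
  refine le_trans ?_ (iter_le hd R hR k).2
  refine (Nat.cast_le.2 card_image_le).trans ?_
  rw [card_eq_sum_ones]
  push_cast
  exact sum_le_sum fun q _ => one_le_pot _

lemma mem_iter {R : Finset (V × V)} {p : ℕ → V} (h0 : (p 0, p 1) ∈ R) (k : ℕ)
    (hp : IsP G (k + 1) p) (hH : ∀ a, 1 ≤ a → a ≤ k → G.degree (p a) + G.degree (p (a + 1)) ≤ 5) :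
    (p k, p (k + 1)) ∈ (step G)^[k] R := by
  induction k with
  | zero => exact h0
  | succ k ih =>
    rw [Function.iterate_succ_apply']
    refine mem_biUnion.2 ⟨_, ih ⟨fun a ha b hb => hp.inj a (by omega) b (by omega),
      fun a ha => hp.adj a (by omega)⟩ fun a h1 h2 => hH a h1 (by omega), ?_⟩
    refine mem_image.2 ⟨p (k + 1 + 1), mem_filter.2 ⟨mem_erase.2 ⟨fun e => ?_, ?_⟩,
      hH (k + 1) (by omega) le_rfl⟩, rfl⟩
    · have := hp.inj _ le_rfl k (by omega) e
      omega
    · simpa using hp.adj (k + 1) (by omega)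

/-- vertices close to an edge of degree sum at least 6 -/
def Near (G : SimpleGraph V) [DecidableRel G.Adj] (m : ℕ) : Finset V :=
  (range (m + 1)).biUnion fun k => ((step G)^[k] (Dd G)).image Prod.snd

lemma near_of {p : ℕ → V} (hp : IsP G L p) {m j : ℕ} (hj : j ≤ m) (hjL : j < L)
    (hD : 6 ≤ G.degree (p j) + G.degree (p (j + 1))) : p 0 ∈ Near G m := by
  induction j using Nat.strong_induction_on with
  | _ j ih =>
  by_cases hh : ∃ a < j, 6 ≤ G.degree (p a) + G.degree (p (a + 1))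
  · obtain ⟨a, ha, h⟩ := hh
    exact ih a ha (by omega) (by omega) h
  · push Not at hh
    have hq : IsP G (j + 1) p := ⟨fun a ha b hb => hp.inj a (by omega) b (by omega),
      fun a ha => hp.adj a (by omega)⟩
    have := mem_iter (R := Dd G) (p := fun a => p (j + 1 - a)) (by
      refine mem_filter.2 ⟨mem_univ _, (hp.adj j hjL).symm, ?_⟩
      simpa [add_comm] using hD) j hq.rev (fun a h1 h2 => by
        have := hh (j - a) (by omega)
        rw [show j + 1 - a = j - a + 1 by omega, show j + 1 - (a + 1) = j - a by omega]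
        omega)
    refine mem_biUnion.2 ⟨j, mem_range.2 (by omega), mem_image.2 ⟨_, this, ?_⟩⟩
    simp

lemma card_near (hd : ∀ v, 2 ≤ G.degree v) (m : ℕ) :
    ((Near G m).card : ℝ) ≤ (2 + √2) * √2 ^ (m + 1) * (Dd G).card := by
  have hg : ∀ n : ℕ, ∑ k ∈ range n, √2 ^ (k + 1) ≤ (2 + √2) * √2 ^ n := by
    intro n
    induction n with
    | zero => simp only [range_zero, sum_empty]; positivity
    | succ n ih =>
      rw [sum_range_succ]
      have h2 : √2 * √2 = (2 : ℝ) := Real.mul_self_sqrt (by norm_num)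
      have : (2 + √2) * √2 ^ (n + 1) = (2 + √2) * √2 ^ n + √2 ^ (n + 1) := by
        rw [pow_succ]
        linear_combination (√2 ^ n) * h2
      linarith
  refine (Nat.cast_le.2 card_biUnion_le).trans ?_
  push_cast
  refine (sum_le_sum fun k _ => card_iter hd (Dd G) (fun q hq => (mem_filter.1 hq).2.1) k).trans ?_
  rw [← sum_mul]
  exact mul_le_mul_of_nonneg_right (hg _) (Nat.cast_nonneg _)

lemma card_far (h : Sat G c L) (hL : 5 ≤ L) (hn : 6 ≤ Fintype.card V) {m : ℕ}
    (hm : L ≤ 2 * m + 2) : (((Near G m)ᶜ).card : ℝ) ≤ 4 + 3 * √2 ^ L := by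
  have hd := two_le_deg h hL hn
  rcases ((Near G m)ᶜ).eq_empty_or_nonempty with he | ⟨u, hu⟩
  · rw [he, card_empty, Nat.cast_zero]
    positivity
  rw [mem_compl] at hu
  have hu3 : G.degree u ≤ 3 := by
    by_contra h4
    obtain ⟨x, hx, -⟩ := exists_other (G := G) (u := u) (a := u) (hd u)
    refine hu (mem_biUnion.2 ⟨0, by simp, mem_image.2 ⟨(x, u), mem_filter.2
      ⟨mem_univ _, hx.symm, ?_⟩, rfl⟩⟩)
    have := hd x
    simp only
    omega
  obtain ⟨K, rfl⟩ : ∃ K, L = K + 1 := ⟨L - 1, by omega⟩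
  let R : Finset (V × V) := (G.neighborFinset u).image fun x => (u, x)
  have hR : (R.card : ℝ) ≤ 3 := by
    have : R.card ≤ 3 := card_image_le.trans ((G.card_neighborFinset_eq_degree u).trans_le hu3)
    exact_mod_cast this
  have hsub : (Near G m)ᶜ ⊆ insert u (G.neighborFinset u) ∪ ((step G)^[K] R).image Prod.snd := by
    intro v hv
    rw [mem_compl] at hv
    by_cases h1 : v ∈ insert u (G.neighborFinset u)
    · exact mem_union_left _ h1
    simp only [mem_insert, SimpleGraph.mem_neighborFinset, not_or] at h1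
    obtain ⟨p, h0, hl, hp, -⟩ := h u v (Ne.symm h1.1) h1.2 0
    refine mem_union_right _ (mem_image.2 ⟨_, mem_iter (R := R) (p := p) ?_ K hp ?_, hl⟩)
    · refine mem_image.2 ⟨p 1, ?_, by rw [h0]⟩
      simpa [h0] using hp.adj 0 (by omega)
    · intro a h1 h2
      by_contra h6
      by_cases ha : a ≤ m
      · exact hu (h0 ▸ near_of hp ha (by omega) (by omega))
      · have := near_of hp.rev (m := m) (j := K - a) (by omega) (by omega) (by
          rw [show K + 1 - (K - a) = a + 1 by omega, show K + 1 - (K - a + 1) = a by omega]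
          omega)
        exact hv (by simpa [hl] using this)
  have h1 := card_iter hd R (fun q hq => by
    obtain ⟨x, hx, rfl⟩ := mem_image.1 hq
    simpa using hx) K
  have h2 : (insert u (G.neighborFinset u)).card ≤ 4 := by
    have := card_insert_le u (G.neighborFinset u)
    rw [G.card_neighborFinset_eq_degree] at this
    omega
  have h3 := (card_le_card hsub).trans (card_union_le _ _)
  have h4 : (((Near G m)ᶜ).card : ℝ) ≤ 4 + (((step G)^[K] R).image Prod.snd).card := by
    exact_mod_cast h3.trans (Nat.add_le_add_right h2 _)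
  have h5 : (0 : ℝ) ≤ √2 ^ (K + 1) := by positivity
  nlinarith

end Deg

theorem lower {r n : ℕ} (hr : 6 ≤ r) (hn : r ≤ n) :
    6 / 5 * (n : ℝ) + (2 : ℝ) ^ (-(r : ℝ) / 4) * (n - 3 * (2 : ℝ) ^ ((r : ℝ) / 2)) / 114 ≤
      rsat n (SimpleGraph.cycleGraph r) := by
  classical
  obtain ⟨k, rfl⟩ : ∃ k, r = k + 3 := ⟨r - 3, by omega⟩
  have hne : {m | ∃ (G : SimpleGraph (Fin n)) (c : Sym2 (Fin n) → ℕ),
      RainbowSat (SimpleGraph.cycleGraph (k + 3)) G c ∧ G.edgeSet.ncard = m}.Nonempty := by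
    obtain ⟨G, c, h, -⟩ := LC.LGen4_complete (SimpleGraph.cycleGraph (k + 3))
      (⊥ : SimpleGraph (Fin n)) (fun _ => 0) Set.univ (by
        rintro ⟨f, -, h, -⟩
        exact h 0 (0 + 1) (by rw [SimpleGraph.cycleGraph_adj]; right; simp))
      (fun u v _ _ h => (h ⟨trivial, trivial⟩).elim)
    exact ⟨_, G, c, h, rfl⟩
  obtain ⟨G, c, h, he⟩ := Nat.sInf_mem hne
  have hs : Sat G c (k + 2) := fun u v huv hadj i => pa_of_sat h huv hadj i
  have hc : 6 ≤ Fintype.card (Fin n) := by simp; omega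
  have h1 := discharge hs (by omega) hc
  have h2 := card_near (two_le_deg hs (by omega) hc) ((k + 1) / 2)
  have h3 := card_far hs (by omega) hc (m := (k + 1) / 2) (by omega)
  have h4 : ((Near G ((k + 1) / 2)).card : ℝ) + ((Near G ((k + 1) / 2))ᶜ).card = n := by
    exact_mod_cast (card_add_card_compl _).trans (Fintype.card_fin n)
  have h5 : (rsat n (SimpleGraph.cycleGraph (k + 3)) : ℝ) = G.edgeFinset.card := by
    unfold rsat
    rw [← he, ← G.coe_edgeFinset, Set.ncard_coe_finset]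
  rw [h5]
  rw [Fintype.card_fin] at h1
  set s : ℝ := (2 : ℝ) ^ (((k + 3 : ℕ) : ℝ) / 4) with hsdef
  have hs0 : 0 < s := by positivity
  have e1 : (2 : ℝ) ^ (-((k + 3 : ℕ) : ℝ) / 4) = s⁻¹ := by
    rw [hsdef, ← Real.rpow_neg (by norm_num), neg_div]
  have e2 : (2 : ℝ) ^ (((k + 3 : ℕ) : ℝ) / 2) = √2 ^ (k + 3) := by
    rw [Real.sqrt_eq_rpow, ← Real.rpow_natCast, ← Real.rpow_mul (by norm_num)]
    congr 1
    ring
  have e3 : √2 ^ ((k + 1) / 2 + 1) ≤ s := by
    rw [hsdef, Real.sqrt_eq_rpow, ← Real.rpow_natCast, ← Real.rpow_mul (by norm_num)]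
    refine Real.rpow_le_rpow_of_exponent_le (by norm_num) ?_
    have : ((2 * ((k + 1) / 2 + 1) : ℕ) : ℝ) ≤ ((k + 3 : ℕ) : ℝ) := by
      exact_mod_cast (by omega : 2 * ((k + 1) / 2 + 1) ≤ k + 3)
    rw [Nat.cast_mul] at this
    push_cast at this ⊢
    linarith
  have t2 : √2 * √2 = (2 : ℝ) := Real.mul_self_sqrt (by norm_num)
  have t1 : √2 ≤ (1.42 : ℝ) := Real.sqrt_le_iff.2 ⟨by norm_num, by norm_num⟩
  have t3 : (1.4 : ℝ) ≤ √2 := Real.le_sqrt_of_sq_le (by norm_num)
  have e4 : 4 + 3 * √2 ^ (k + 2) ≤ 3 * √2 ^ (k + 3) := by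
    have : √2 ^ 4 ≤ √2 ^ (k + 2) := pow_le_pow_right₀ one_le_sqrt_two (by omega)
    have h16 : √2 ^ 4 = (4 : ℝ) := by
      rw [show √2 ^ 4 = (√2 * √2) * (√2 * √2) by ring, t2]; norm_num
    rw [pow_succ _ (k + 2)]
    nlinarith
  have hD : (0 : ℝ) ≤ (Dd G).card := Nat.cast_nonneg _
  have e5 : (2 + √2) * √2 ^ ((k + 1) / 2 + 1) * (Dd G).card ≤ 3.42 * s * (Dd G).card :=
    mul_le_mul_of_nonneg_right (mul_le_mul (by linarith) e3 (by positivity) (by norm_num)) hD
  have e6 : s⁻¹ * (n - 3 * √2 ^ (k + 3)) ≤ 3.42 * (Dd G).card := by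
    rw [inv_mul_le_iff₀ hs0]
    linarith
  rw [e1, e2]
  linarith

end Pool.Agent.MP_8ccfd2_co.Low
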