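import Pool.Agent.MP_8ccfd2_co.Bridge

namespace Pool.Agent.MP_8ccfd2_co

variable {V : Type}

def WR (role blk : V → ℕ) (x y : V) : Prop :=
  (role x = 0 ∧ (role y = 1 ∨ role y = 2)) ∨
    (blk x = blk y ∧ (role x = 1 ∨ role x = 2) ∧ role x < role y)

/-- the windmill graph -/
def WG (role blk : V → ℕ) : SimpleGraph V where
  Adj x y := WR role blk x y ∨ WR role blk y x
  symm := ⟨fun _ _ h => h.symm⟩
  loopless := ⟨fun x h => by unfold WR at h; omega⟩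

lemma rp_or {G : SimpleGraph V} {c : V → V → ℕ}
    (inj : ∀ a b d e, c a b = c d e → (a = d ∧ b = e) ∨ (a = e ∧ b = d)) {u v : V} (w1 w2 w3 : V)
    {i : ℕ} (hn : ¬ RP G c u v i) (huv : u ≠ v) (a1 : G.Adj u w1) (a2 : G.Adj w1 w2)
    (a3 : G.Adj w2 w3) (a4 : G.Adj w3 v) (n1 : u ≠ w2) (n2 : u ≠ w3) (n3 : w1 ≠ w3) (n4 : w1 ≠ v)
    (n5 : w2 ≠ v) : c u w1 = i ∨ c w1 w2 = i ∨ c w2 w3 = i ∨ c w3 v = i := by
  by_contra hc
  have m1 := a1.ne
  have m2 := a2.ne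
  have m3 := a3.ne
  have m4 := a4.ne
  refine hn ⟨w1, w2, w3, a1, a2, a3, a4, ⟨n1, n2, n3, n4, n5⟩, ?_, ?_, ?_, ?_, ?_, ?_, ?_⟩
  · intro h; have := inj _ _ _ _ h; grind
  · intro h; have := inj _ _ _ _ h; grind
  · intro h; have := inj _ _ _ _ h; grind
  · intro h; have := inj _ _ _ _ h; grind
  · intro h; have := inj _ _ _ _ h; grind
  · intro h; have := inj _ _ _ _ h; grind
  · tauto

lemma RP.rev {G : SimpleGraph V} {c : V → V → ℕ} (hs : ∀ x y, c x y = c y x) {u v : V} {i : ℕ}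
    (h : RP G c u v i) : RP G c v u i := by
  obtain ⟨w1, w2, w3, a1, a2, a3, a4, hn, hc⟩ := h
  exact ⟨w3, w2, w1, a4.symm, a3.symm, a2.symm, a1.symm, by grind, by grind⟩

lemma two_paths {c : V → V → ℕ}
    (inj : ∀ a b d e, c a b = c d e → (a = d ∧ b = e) ∨ (a = e ∧ b = d))
    {u v w1 w2 w3 x1 x2 x3 : V} {i : ℕ}
    (h1 : c u w1 = i ∨ c w1 w2 = i ∨ c w2 w3 = i ∨ c w3 v = i)
    (h2 : c u x1 = i ∨ c x1 x2 = i ∨ c x2 x3 = i ∨ c x3 v = i) :
    ∃ a b, c a b = i ∧ ((a = u ∧ b = w1) ∨ (a = w1 ∧ b = w2) ∨ (a = w2 ∧ b = w3) ∨ (a = w3 ∧ b = v)) ∧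
      (((a = u ∧ b = x1) ∨ (a = x1 ∧ b = x2) ∨ (a = x2 ∧ b = x3) ∨ (a = x3 ∧ b = v)) ∨
      ((b = u ∧ a = x1) ∨ (b = x1 ∧ a = x2) ∨ (b = x2 ∧ a = x3) ∨ (b = x3 ∧ a = v))) := by
  rcases h1 with h1 | h1 | h1 | h1 <;> refine ⟨_, _, h1, by tauto, ?_⟩ <;>
    rcases h2 with h2 | h2 | h2 | h2 <;> have := inj _ _ _ _ (h1.trans h2.symm) <;> tauto

section

variable {role blk : V → ℕ} {c : V → V → ℕ}

lemma aR {x y : V} (h1 : role x = 0) (h2 : role y = 1 ∨ role y = 2) : (WG role blk).Adj x y :=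
  Or.inl (Or.inl ⟨h1, h2⟩)

lemma aB {x y : V} (h1 : blk x = blk y) (h2 : role x = 1 ∨ role x = 2) (h3 : role x < role y) :
    (WG role blk).Adj x y := Or.inl (Or.inr ⟨h1, h2, h3⟩)

lemma aM {x y : V} (h1 : blk x = blk y) (h2 : role x = 1 ∨ role x = 2) (h3 : role x + role y = 3) :
    (WG role blk).Adj x y := by
  rcases h2 with h2 | h2
  · exact aB h1 (Or.inl h2) (by omega)
  · exact (aB h1.symm (by omega) (by omega)).symm

lemma w1 (inj : ∀ a b d e, c a b = c d e → (a = d ∧ b = e) ∨ (a = e ∧ b = d)) {r v p q l1 l2 : V}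
    (hr : role r = 0) (hv : role v = 3) (hp : role p = 1) (hq : role q = 2) (h1 : role l1 = 3)
    (h2 : role l2 = 3) (bp : blk p = blk v) (bq : blk q = blk v) (b1 : blk l1 = blk v)
    (b2 : blk l2 = blk v) (n1 : l1 ≠ l2) (n2 : l1 ≠ v) (n3 : l2 ≠ v) (i : ℕ) :
    RP (WG role blk) c r v i := by
  by_contra hn
  have k1 := rp_or inj p l1 q hn (by grind) (aR hr (by omega)) (aB (by omega) (by omega) (by omega))
    (aB (by omega) (by omega) (by omega)).symm (aB (by omega) (by omega) (by omega))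
    (by grind) (by grind) (by grind) (by grind) (by grind)
  have k2 := rp_or inj q l2 p hn (by grind) (aR hr (by omega)) (aB (by omega) (by omega) (by omega))
    (aB (by omega) (by omega) (by omega)).symm (aB (by omega) (by omega) (by omega))
    (by grind) (by grind) (by grind) (by grind) (by grind)
  obtain ⟨a, b, -, k3, k4⟩ := two_paths inj k1 k2
  clear k1 k2 inj hn
  rcases k3 with k3 | k3 | k3 | k3 <;> grind

lemma w2 (inj : ∀ a b d e, c a b = c d e → (a = d ∧ b = e) ∨ (a = e ∧ b = d)) {r u v p q l : V}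
    (hr : role r = 0) (hu : role u = 3) (hv : role v = 3) (hp : role p = 1) (hq : role q = 2)
    (h1 : role l = 3) (bp : blk p = blk v) (bq : blk q = blk v) (b1 : blk l = blk v)
    (b2 : blk u = blk v) (n1 : u ≠ v) (n2 : l ≠ u) (n3 : l ≠ v) (i : ℕ) :
    RP (WG role blk) c u v i := by
  by_contra hn
  have k1 := rp_or inj p r q hn n1 (aB (by omega) (by omega) (by omega)).symm
    (aR hr (by omega)).symm (aR hr (by omega)) (aB (by omega) (by omega) (by omega))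
    (by grind) (by grind) (by grind) (by grind) (by grind)
  have k2 := rp_or inj q l p hn n1 (aB (by omega) (by omega) (by omega)).symm
    (aB (by omega) (by omega) (by omega)) (aB (by omega) (by omega) (by omega)).symm
    (aB (by omega) (by omega) (by omega)) (by grind) (by grind) (by grind) (by grind) (by grind)
  obtain ⟨a, b, -, k3, k4⟩ := two_paths inj k1 k2
  clear k1 k2 inj hn
  rcases k3 with k3 | k3 | k3 | k3 <;> grind

lemma w3 (inj : ∀ a b d e, c a b = c d e → (a = d ∧ b = e) ∨ (a = e ∧ b = d)) {r u v p q p' q' : V}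
    (hr : role r = 0) (hu : role u = 3) (hv : role v = 3) (hp : role p = 1) (hq : role q = 2)
    (hp' : role p' = 1) (hq' : role q' = 2) (bp : blk p = blk u) (bq : blk q = blk u)
    (bp' : blk p' = blk v) (bq' : blk q' = blk v) (n1 : blk u ≠ blk v) (i : ℕ) :
    RP (WG role blk) c u v i := by
  by_contra hn
  have k1 := rp_or inj p r p' hn (by grind) (aB (by omega) (by omega) (by omega)).symm
    (aR hr (by omega)).symm (aR hr (by omega)) (aB (by omega) (by omega) (by omega))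
    (by grind) (by grind) (by grind) (by grind) (by grind)
  have k2 := rp_or inj q r q' hn (by grind) (aB (by omega) (by omega) (by omega)).symm
    (aR hr (by omega)).symm (aR hr (by omega)) (aB (by omega) (by omega) (by omega))
    (by grind) (by grind) (by grind) (by grind) (by grind)
  obtain ⟨a, b, -, k3, k4⟩ := two_paths inj k1 k2
  clear k1 k2 inj hn
  rcases k3 with k3 | k3 | k3 | k3 <;> grind

lemma w4 (inj : ∀ a b d e, c a b = c d e → (a = d ∧ b = e) ∨ (a = e ∧ b = d)) {r u u' v p q : V}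
    (hr : role r = 0) (hu : role u = 1 ∨ role u = 2) (hu' : role u + role u' = 3)
    (hv : role v = 3) (hp : role p = 1) (hq : role q = 2) (bu : blk u' = blk u)
    (bp : blk p = blk v) (bq : blk q = blk v) (n1 : blk u ≠ blk v) (i : ℕ) :
    RP (WG role blk) c u v i := by
  by_contra hn
  have k1 := rp_or inj r q p hn (by grind) (aR hr hu).symm (aR hr (by omega))
    (aB (by omega) (by omega) (by omega)).symm (aB (by omega) (by omega) (by omega))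
    (by grind) (by grind) (by grind) (by grind) (by grind)
  have k2 := rp_or inj u' r q hn (by grind) (aM bu.symm hu hu') (aR hr (by omega)).symm
    (aR hr (by omega)) (aB (by omega) (by omega) (by omega))
    (by grind) (by grind) (by grind) (by grind) (by grind)
  have k3 := rp_or inj r p q hn (by grind) (aR hr hu).symm (aR hr (by omega))
    (aB (by omega) (by omega) (by omega)) (aB (by omega) (by omega) (by omega))
    (by grind) (by grind) (by grind) (by grind) (by grind)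
  have k4 := rp_or inj u' r p hn (by grind) (aM bu.symm hu hu') (aR hr (by omega)).symm
    (aR hr (by omega)) (aB (by omega) (by omega) (by omega))
    (by grind) (by grind) (by grind) (by grind) (by grind)
  obtain ⟨a, b, e1, k5, k6⟩ := two_paths inj k1 k2
  obtain ⟨a', b', e2, k7, k8⟩ := two_paths inj k3 k4
  have e5 := inj _ _ _ _ (e1.trans e2.symm)
  clear k1 k2 k3 k4 inj hn e1 e2
  have e3 : a = r ∧ b = q := by clear k7 k8 e5; grind
  have e4 : a' = r ∧ b' = p := by clear k5 k6 e5; grind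
  clear k5 k6 k7 k8
  grind

lemma w5 (inj : ∀ a b d e, c a b = c d e → (a = d ∧ b = e) ∨ (a = e ∧ b = d))
    {r u u' v v' l l' : V} (hr : role r = 0) (hu : role u = 1 ∨ role u = 2)
    (hu' : role u + role u' = 3) (hv : role v = 1 ∨ role v = 2) (hv' : role v + role v' = 3)
    (h1 : role l = 3) (h2 : role l' = 3) (bu : blk u' = blk u) (bv : blk v' = blk v)
    (b1 : blk l = blk u) (b2 : blk l' = blk v) (n1 : blk u ≠ blk v) (i : ℕ) :
    RP (WG role blk) c u v i := by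
  by_contra hn
  have k1 := rp_or inj l u' r hn (by grind) (aB (by omega) (by omega) (by omega))
    (aB (by omega) (by omega) (by omega)).symm (aR hr (by omega)).symm (aR hr hv)
    (by grind) (by grind) (by grind) (by grind) (by grind)
  have k2 := rp_or inj r v' l' hn (by grind) (aR hr hu).symm (aR hr (by omega))
    (aB (by omega) (by omega) (by omega)) (aB (by omega) (by omega) (by omega)).symm
    (by grind) (by grind) (by grind) (by grind) (by grind)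
  obtain ⟨a, b, -, k3, k4⟩ := two_paths inj k1 k2
  clear k1 k2 inj hn
  rcases k3 with k3 | k3 | k3 | k3 <;> grind

lemma no5 (r0 r1 r2 r3 r4 b0 b1 b2 b3 b4 : ℕ)
    (a1 : ((r0 = 0 ∧ (r1 = 1 ∨ r1 = 2)) ∨ (b0 = b1 ∧ (r0 = 1 ∨ r0 = 2) ∧ r0 < r1)) ∨
      ((r1 = 0 ∧ (r0 = 1 ∨ r0 = 2)) ∨ (b1 = b0 ∧ (r1 = 1 ∨ r1 = 2) ∧ r1 < r0)))
    (a2 : ((r1 = 0 ∧ (r2 = 1 ∨ r2 = 2)) ∨ (b1 = b2 ∧ (r1 = 1 ∨ r1 = 2) ∧ r1 < r2)) ∨
      ((r2 = 0 ∧ (r1 = 1 ∨ r1 = 2)) ∨ (b2 = b1 ∧ (r2 = 1 ∨ r2 = 2) ∧ r2 < r1)))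
    (a3 : ((r2 = 0 ∧ (r3 = 1 ∨ r3 = 2)) ∨ (b2 = b3 ∧ (r2 = 1 ∨ r2 = 2) ∧ r2 < r3)) ∨
      ((r3 = 0 ∧ (r2 = 1 ∨ r2 = 2)) ∨ (b3 = b2 ∧ (r3 = 1 ∨ r3 = 2) ∧ r3 < r2)))
    (a4 : ((r3 = 0 ∧ (r4 = 1 ∨ r4 = 2)) ∨ (b3 = b4 ∧ (r3 = 1 ∨ r3 = 2) ∧ r3 < r4)) ∨
      ((r4 = 0 ∧ (r3 = 1 ∨ r3 = 2)) ∨ (b4 = b3 ∧ (r4 = 1 ∨ r4 = 2) ∧ r4 < r3)))
    (a5 : ((r4 = 0 ∧ (r0 = 1 ∨ r0 = 2)) ∨ (b4 = b0 ∧ (r4 = 1 ∨ r4 = 2) ∧ r4 < r0)) ∨
      ((r0 = 0 ∧ (r4 = 1 ∨ r4 = 2)) ∨ (b0 = b4 ∧ (r0 = 1 ∨ r0 = 2) ∧ r0 < r4)))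
    (k1 : ¬ (r0 = 0 ∧ r2 = 0) ∧ ¬ (r0 = r2 ∧ (r0 = 1 ∨ r0 = 2) ∧ b0 = b2))
    (k2 : ¬ (r0 = 0 ∧ r3 = 0) ∧ ¬ (r0 = r3 ∧ (r0 = 1 ∨ r0 = 2) ∧ b0 = b3))
    (k3 : ¬ (r1 = 0 ∧ r3 = 0) ∧ ¬ (r1 = r3 ∧ (r1 = 1 ∨ r1 = 2) ∧ b1 = b3))
    (k4 : ¬ (r1 = 0 ∧ r4 = 0) ∧ ¬ (r1 = r4 ∧ (r1 = 1 ∨ r1 = 2) ∧ b1 = b4))
    (k5 : ¬ (r2 = 0 ∧ r4 = 0) ∧ ¬ (r2 = r4 ∧ (r2 = 1 ∨ r2 = 2) ∧ b2 = b4)) : False := by
  grind (splits := 40)

lemma sat_WG (hs : ∀ x y, c x y = c y x)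
    (inj : ∀ a b d e, c a b = c d e → (a = d ∧ b = e) ∨ (a = e ∧ b = d)) (r : V) (hr : role r = 0)
    (u0 : ∀ x, role x = 0 → x = r)
    (u1 : ∀ x y, role x = role y → (role x = 1 ∨ role x = 2) → blk x = blk y → x = y)
    (h3 : ∀ x, role x ≤ 3)
    (ex : ∀ x, ∃ p q l1 l2 l3, (blk p = blk x ∧ blk q = blk x ∧ blk l1 = blk x ∧ blk l2 = blk x ∧
      blk l3 = blk x) ∧ (role p = 1 ∧ role q = 2 ∧ role l1 = 3 ∧ role l2 = 3 ∧ role l3 = 3) ∧
      l1 ≠ l2 ∧ l1 ≠ l3 ∧ l2 ≠ l3) : Sat (WG role blk) c := by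
  have ex2 : ∀ x y : V, ∃ p q l1 l2, (blk p = blk x ∧ blk q = blk x ∧ blk l1 = blk x ∧
      blk l2 = blk x) ∧ (role p = 1 ∧ role q = 2 ∧ role l1 = 3 ∧ role l2 = 3) ∧
      l1 ≠ l2 ∧ l1 ≠ y ∧ l2 ≠ y := by
    intro x y
    obtain ⟨p, q, l1, l2, l3, hb, hr, hn⟩ := ex x
    clear ex inj hs u0 u1 h3
    by_cases e1 : l1 = y
    · exact ⟨p, q, l2, l3, by grind, by grind, by grind⟩
    · by_cases e2 : l2 = y
      · exact ⟨p, q, l1, l3, by grind, by grind, by grind⟩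
      · exact ⟨p, q, l1, l2, by grind, by grind, by grind⟩
  have ex3 : ∀ x y z : V, ∃ l, blk l = blk x ∧ role l = 3 ∧ l ≠ y ∧ l ≠ z := by
    intro x y z
    obtain ⟨p, q, l1, l2, hb, hr, hn⟩ := ex2 x y
    clear ex inj hs u0 u1 h3 ex2
    by_cases e1 : l1 = z
    · exact ⟨l2, by grind⟩
    · exact ⟨l1, by grind⟩
  have mate : ∀ x, (role x = 1 ∨ role x = 2) → ∃ y, blk y = blk x ∧ role x + role y = 3 := by
    intro x hx
    obtain ⟨p, q, l1, l2, l3, hb, hr, hn⟩ := ex x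
    rcases hx with hx | hx
    · exact ⟨q, by omega, by omega⟩
    · exact ⟨p, by omega, by omega⟩
  have key : ∀ u v, u ≠ v → ¬ (WG role blk).Adj u v → role u ≤ role v → ∀ i,
      RP (WG role blk) c u v i := by
    intro u v hne hna hle i
    have hv := h3 v
    have hu := h3 u
    by_cases c0 : role u = 0
    · have h1 : role v ≠ 0 := fun h => hne ((u0 u c0).trans (u0 v h).symm)
      have h2 : role v = 3 := by
        by_contra h; exact hna (aR c0 (by omega))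
      obtain ⟨p, q, l1, l2, ⟨b1, b2, b3, b4⟩, ⟨r1, r2, r3, r4⟩, n1, n2, n3⟩ := ex2 v v
      exact w1 inj c0 h2 r1 r2 r3 r4 b1 b2 b3 b4 n1 n2 n3 i
    by_cases c3 : role u = 3
    · by_cases cb : blk u = blk v
      · obtain ⟨p, q, -, -, ⟨b1, b2, -⟩, ⟨r1, r2, -⟩, -⟩ := ex2 v v
        obtain ⟨l, l1, l2, l3, l4⟩ := ex3 v u v
        exact w2 inj hr c3 (by omega) r1 r2 l2 b1 b2 l1 cb hne l3 l4 i
      · obtain ⟨p, q, -, -, ⟨b1, b2, -⟩, ⟨r1, r2, -⟩, -⟩ := ex2 u u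
        obtain ⟨p', q', -, -, ⟨b3, b4, -⟩, ⟨r3, r4, -⟩, -⟩ := ex2 v v
        exact w3 inj hr c3 (by omega) r1 r2 r3 r4 b1 b2 b3 b4 cb i
    obtain ⟨u', b1, b2⟩ := mate u (by omega)
    have cb : blk u ≠ blk v := by
      intro cb
      by_cases h : role u = role v
      · exact hne (u1 u v h (by omega) cb)
      · exact hna (aB cb (by omega) (by omega))
    by_cases d3 : role v = 3
    · obtain ⟨p, q, -, -, ⟨b3, b4, -⟩, ⟨r1, r2, -⟩, -⟩ := ex2 v v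
      exact w4 inj hr (by omega) b2 d3 r1 r2 b1 b3 b4 cb i
    · obtain ⟨v', b3, b4⟩ := mate v (by omega)
      obtain ⟨l, l1, l2, -⟩ := ex3 u u u
      obtain ⟨l', l3, l4, -⟩ := ex3 v u u
      exact w5 inj hr (by omega) b2 (by omega) b4 l2 l4 b1 b3 l1 l3 cb i
  refine ⟨hs, fun u v hne hna i => ?_, fun u w1 w2 w3 v a1 a2 a3 a4 a5 n1 n2 n3 n4 n5 => ?_⟩
  · rcases le_total (role u) (role v) with h | h
    · exact key u v hne hna h i
    · exact (key v u hne.symm (fun h => hna h.symm) h i).rev hs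
  · exfalso
    have k : ∀ x y, x ≠ y → ¬ (role x = 0 ∧ role y = 0) ∧
        ¬ (role x = role y ∧ (role x = 1 ∨ role x = 2) ∧ blk x = blk y) := fun x y h =>
      ⟨fun h1 => h ((u0 x h1.1).trans (u0 y h1.2).symm), fun h1 => h (u1 x y h1.1 h1.2.1 h1.2.2)⟩
    exact no5 _ _ _ _ _ _ _ _ _ _ a1 a2 a3 a4 a5 (k _ _ n1) (k _ _ n2) (k _ _ n3) (k _ _ n4)
      (k _ _ n5)

end

end Pool.Agent.MP_8ccfd2_co
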